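import Pool.Agent.MP_ee8c61_ag.H95T.CSpec
import Pool.Agent.MP_ee8c61_ag.H95.QKit
import Pool.Agent.MP_ee8c61_ag.H95G.Spec

/-! Arrangements of spaces of affine-linear polynomials, adapted bases, charts and strata. -/

namespace Pool.Agent.MP_ee8c61_ag.H95T

open H95 Finset MvPolynomial

/-- The polynomials of degree at most one. -/
noncomputable def Wi (n : ℕ) : Submodule ℂ (Pol (Fin n)) :=
  Submodule.span ℂ (insert 1 (Set.range X))

instance (n : ℕ) : Module.Finite ℂ (Wi n) :=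
  Module.Finite.span_of_finite ℂ ((Set.finite_range _).insert 1)

theorem one_mem_Wi (n : ℕ) : (1 : Pol (Fin n)) ∈ Wi n := Submodule.subset_span (Or.inl rfl)

theorem X_mem_Wi {n : ℕ} (l : Fin n) : (X l : Pol (Fin n)) ∈ Wi n :=
  Submodule.subset_span (Or.inr ⟨l, rfl⟩)

/-- A family of nonzero spaces of polynomials of degree at most one; one of them is the full
space. -/
structure Arr (n : ℕ) (E : Type) where
  V : E → Submodule ℂ (Pol (Fin n))
  o : E
  le : ∀ j, V j ≤ Wi n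
  ne : ∀ j, V j ≠ ⊥
  top : V o = Wi n

namespace Arr

variable {n : ℕ} {E : Type} (A : Arr n E)

/-- The sum of the spaces in `S`. -/
noncomputable def VS (S : Finset E) : Submodule ℂ (Pol (Fin n)) := S.sup A.V

/-- The product ideal. -/
noncomputable def I [Fintype E] : Ideal (Pol (Fin n)) := ∏ j, Ideal.span (A.V j : Set _)

theorem VS_le_iff {S : Finset E} {U : Submodule ℂ (Pol (Fin n))} :
    A.VS S ≤ U ↔ ∀ j ∈ S, A.V j ≤ U := Finset.sup_le_iff

theorem le_VS {S : Finset E} {j : E} (h : j ∈ S) : A.V j ≤ A.VS S := Finset.le_sup h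

theorem VS_mono {S T : Finset E} (h : S ⊆ T) : A.VS S ≤ A.VS T := Finset.sup_mono h

theorem VS_le (S : Finset E) : A.VS S ≤ Wi n := A.VS_le_iff.2 fun j _ => A.le j

theorem VS_empty : A.VS ∅ = ⊥ := rfl

theorem VS_single (j : E) : A.VS {j} = A.V j := Finset.sup_singleton

theorem VS_univ [Fintype E] : A.VS univ = Wi n :=
  (A.VS_le _).antisymm (A.top.ge.trans (A.le_VS (mem_univ _)))

instance (S : Finset E) : Module.Finite ℂ (A.VS S) := Submodule.finiteDimensional_of_le (A.VS_le S)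

theorem I_le [Fintype E] (j : E) : A.I ≤ Ideal.span (A.V j : Set _) :=
  Ideal.prod_le_inf.trans (Finset.inf_le (mem_univ j))

theorem prod_mem_I [Fintype E] {v : E → Pol (Fin n)} (h : ∀ j, v j ∈ A.V j) : ∏ j, v j ∈ A.I :=
  Ideal.prod_mem_prod fun j _ => Ideal.subset_span (h j)

variable [DecidableEq E]

theorem VS_union (S T : Finset E) : A.VS (S ∪ T) = A.VS S ⊔ A.VS T := Finset.sup_union

theorem rk_sub (S T : Finset E) : Module.finrank ℂ (A.VS (S ∪ T)) + Module.finrank ℂ (A.VS (S ∩ T)) ≤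
    Module.finrank ℂ (A.VS S) + Module.finrank ℂ (A.VS T) := by
  have h1 := Submodule.finrank_sup_add_finrank_inf_eq (A.VS S) (A.VS T)
  have h2 : A.VS (S ∩ T) ≤ A.VS S ⊓ A.VS T :=
    le_inf (A.VS_mono inter_subset_left) (A.VS_mono inter_subset_right)
  have h3 := Submodule.finrank_mono h2
  rw [A.VS_union]
  omega

omit [DecidableEq E] in
theorem one_mem : (1 : Pol (Fin n)) ∈ A.VS {A.o} := by
  rw [A.VS_single, A.top]
  exact one_mem_Wi n

/-- The rank function. -/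
noncomputable def pm : PM E where
  r S := Module.finrank ℂ (A.VS S)
  N S := 1 ∉ A.VS S
  o := A.o
  r0 := finrank_bot ℂ _
  mono _ _ h := Submodule.finrank_mono (A.VS_mono h)
  sub := A.rk_sub
  pos j := Nat.pos_of_ne_zero fun h => A.ne j (A.VS_single j ▸ Submodule.finrank_eq_zero.1 h)
  N0 := fun h => one_ne_zero ((Submodule.mem_bot ℂ).1 h)
  Nle _ _ h h1 h2 := h1 (A.VS_mono h h2)
  No h := h A.one_mem

theorem pm_r (S : Finset E) : A.pm.r S = Module.finrank ℂ (A.VS S) := rfl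

theorem pm_N (S : Finset E) : A.pm.N S ↔ 1 ∉ A.VS S := Iff.rfl

theorem fl_iff {F : Finset E} :
    A.pm.Fl F ↔ F.Nonempty ∧ 1 ∉ A.VS F ∧ ∀ j, A.V j ≤ A.VS F → j ∈ F := by
  refine and_congr_right fun _ => and_congr_right fun _ => forall_congr' fun j => imp_congr_left ?_
  have e : A.VS (insert j F) = A.V j ⊔ A.VS F := Finset.sup_insert
  rw [pm_r, pm_r, ← sup_eq_right, ← e]
  exact ⟨fun h => (Submodule.eq_of_le_of_finrank_eq (A.VS_mono (subset_insert j F)) h.symm).symm,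
    fun h => by rw [h]⟩

end Arr

section Chart

variable {n : ℕ} {E : Type} [DecidableEq E]

/-- The monomial chart with layers `L` and pivots `Λ`. -/
noncomputable def cmon (L : Fin n → Finset E) (Λ : Finset (Fin n)) (q : Fin n) : Pol (Fin n) :=
  X q * ∏ p ∈ Λ with p ≠ q ∧ L q ⊆ L p, X p

/-- The monomial of a layer. -/
noncomputable def lmon (L : Fin n → Finset E) (Λ : Finset (Fin n)) (G : Finset E) : Pol (Fin n) :=
  ∏ p ∈ Λ with G ⊆ L p, X p

/-- The restriction to a layer. -/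
noncomputable def thv (L : Fin n → Finset E) (Λ : Finset (Fin n)) (G : Finset E) (q : Fin n) :
    Pol (Fin n) :=
  if L q = G then (if q ∈ Λ then 1 else X q) else 0

/-- The strict transform of `v` on the stratum. -/
noncomputable def rdc (aff : Fin n → Pol (Fin n)) (L : Fin n → Finset E) (Λ : Finset (Fin n))
    (G : Finset E) (v : Pol (Fin n)) : Pol (Fin n) :=
  ev (thv L Λ G) (ev aff v)

/-- The pivots and the later coordinates of their layers vanish. -/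
def Bs0 (L : Fin n → Finset E) (Λ : Finset (Fin n)) : Set (Fin n → ℂ) :=
  {x | (∀ p ∈ Λ, x p = 0) ∧ ∀ p ∈ Λ, ∀ q, L q = L p → p < q → x q = 0}

variable [Fintype E] (A : Arr n E) (τ : Finset (Finset E))

/-- `y` is a system of affine coordinates with inverse `aff` that is adapted to the chain `τ`. -/
structure Ad (y aff : Fin n → Pol (Fin n)) (L : Fin n → Finset E) : Prop where
  ya : ap y aff = X
  ay : ap aff y = X
  ym : ∀ q, y q ∈ Wi n
  am : ∀ l, aff l ∈ Wi n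
  lm : ∀ q, L q ∈ τ ∨ L q = univ
  sp : ∀ F ∈ τ, A.VS F = Submodule.span ℂ (y '' {q | L q ⊆ F})

/-- The points where the strict transforms of the space `j` vanish. -/
def Zj (aff : Fin n → Pol (Fin n)) (L : Fin n → Finset E) (Λ : Finset (Fin n)) (j : E) :
    Set (Fin n → ℂ) :=
  {x | ∀ v ∈ A.V j, eval x (rdc aff L Λ (lay τ j) v) = 0}

/-- The stratum. -/
def St (aff : Fin n → Pol (Fin n)) (L : Fin n → Finset E) (Λ : Finset (Fin n)) :
    Set (Fin n → ℂ) :=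
  {x | x ∈ Bs0 L Λ ∧ ∀ j, x ∉ Zj A τ aff L Λ j}

/-- The linear system of the layer of `p` has a solution that ends at `p`. -/
def Sol (aff : Fin n → Pol (Fin n)) (L : Fin n → Finset E) (S : Finset E) (p : Fin n) : Prop :=
  ∃ c : Fin n → ℂ, c p = 1 ∧ (∀ q, p < q → c q = 0) ∧ (∀ q, L q ≠ L p → c q = 0) ∧
    ∀ j ∈ S, lay τ j = L p → ∀ v ∈ A.V j, eval c (ev aff v) = 0

/-- A chain with an adapted basis and pivots. -/
structure Piv (y aff : Fin n → Pol (Fin n)) (L : Fin n → Finset E) (Λ : Finset (Fin n)) :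
    Prop where
  ch : A.pm.Ch τ
  ad : Ad A τ y aff L
  bij : Set.BijOn L Λ τ

/-- The arc `b` lifts to the arc `w` with base point in the stratum. -/
structure Lift (aff : Fin n → Pol (Fin n)) (L : Fin n → Finset E) (Λ : Finset (Fin n))
    (b w : Fin n → PS) : Prop where
  mem : bs w ∈ St A τ aff L Λ
  eq : ap (ap aff (cmon L Λ)) w = b

omit [DecidableEq E] in
/-- Identities between the monomials. -/
structure MuOK [DecidableEq E] (L : Fin n → Finset E) (Λ : Finset (Fin n)) : Prop where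
  piv : ∀ p ∈ Λ, cmon L Λ p = lmon L Λ (L p)
  non : ∀ q ∉ Λ, cmon L Λ q = X q * lmon L Λ (L q)
  suc : ∀ p ∈ Λ, lmon L Λ (L p) = X p * lmon L Λ (suc τ (L p))
  univ : lmon L Λ univ = 1
  dvd : ∀ G G', G ⊆ G' → lmon L Λ G' ∣ lmon L Λ G
  step : ∀ p ∈ Λ, ∀ G', L p ⊂ G' → X p * lmon L Λ G' ∣ lmon L Λ (L p)
  lay : ∀ j, lmon L Λ (lay τ j) = ∏ p ∈ Λ with j ∈ L p, X p
  prod : ∏ j, lmon L Λ (H95T.lay τ j) = ∏ p ∈ Λ, X p ^ (L p).card

end Chart

section Fld

variable {n r : ℕ} {E K : Type} [Field K] [Algebra ℂ K]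

/-- `K` is the field of rational functions in `x`. -/
structure FK (x : Fin n → K) : Prop where
  inj : Function.Injective (ev x)
  frac : ∀ g : K, ∃ s t : Pol (Fin n), s ≠ 0 ∧ ev x s * g = ev x t

/-- `g` is a unit of `B`. -/
def Ua (B : Subalgebra ℂ K) (g : K) : Prop := g ≠ 0 ∧ g ∈ B ∧ g⁻¹ ∈ B

theorem Ua.mul {B : Subalgebra ℂ K} {g h : K} (h1 : Ua B g) (h2 : Ua B h) : Ua B (g * h) :=
  ⟨mul_ne_zero h1.1 h2.1, mul_mem h1.2.1 h2.2.1, by rw [mul_inv]; exact mul_mem h1.2.2 h2.2.2⟩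

theorem Ua.inv {B : Subalgebra ℂ K} {g : K} (h : Ua B g) : Ua B g⁻¹ :=
  ⟨inv_ne_zero h.1, h.2.2, by simpa using h.2.1⟩

theorem Ua.div {B : Subalgebra ℂ K} {g h : K} (h1 : Ua B g) (h2 : Ua B h) : Ua B (g / h) := by
  rw [div_eq_mul_inv]
  exact h1.mul h2.inv

theorem ua_one (B : Subalgebra ℂ K) : Ua B 1 := ⟨one_ne_zero, one_mem _, by simp⟩

theorem Ua.prod {B : Subalgebra ℂ K} {α : Type} (s : Finset α) {g : α → K}
    (h : ∀ i ∈ s, Ua B (g i)) : Ua B (∏ i ∈ s, g i) :=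
  Finset.prod_induction g (Ua B) (fun _ _ => Ua.mul) (ua_one B) h

theorem Ua.mono {B B' : Subalgebra ℂ K} {g : K} (h : Ua B g) (hB : B ≤ B') : Ua B' g :=
  ⟨h.1, hB h.2.1, hB h.2.2⟩

/-- The equation of a divisor. -/
def eta (z : Fin n → K) (lab : Finset E → Option (Fin n)) (F : Finset E) : K := (lab F).elim 1 z

/-- The coordinates of the chart of the blow-up. -/
noncomputable def xs (x : Fin n → K) (fs : Fin r → Pol (Fin n)) (j₁ : Fin r) : Fin (n + r) → K :=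
  Fin.append x fun i => ev x (fs i) / ev x (fs j₁)

variable [DecidableEq E] [Fintype E] (A : Arr n E) (x : Fin n → K) (ℓ : E → Pol (Fin n))

omit [DecidableEq E] in
/-- The extra coordinate. -/
noncomputable def sv (f : Pol (Fin n)) : K := ev x f / ev x (∏ j, ℓ j)

omit [Fintype E] in
/-- General members. -/
structure Gen : Prop where
  mem : ∀ j, ℓ j ∈ A.V j
  one : ℓ A.o = 1
  gen : ∀ G j, A.pm.Fl G ∨ G = ∅ → j ∉ G → ℓ j ∉ A.VS G

omit [Fintype E] in
theorem Gen.ne {A : Arr n E} {ℓ : E → Pol (Fin n)} (h : Gen A ℓ) (j : E) : ℓ j ≠ 0 := fun e =>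
  h.gen ∅ j (Or.inr rfl) (notMem_empty j) (e ▸ zero_mem _)

/-- The standing assumptions. -/
structure Ctx (fs : Fin r → Pol (Fin n)) (j₁ : Fin r) : Prop where
  fk : FK x
  gen : Gen A ℓ
  sp : Ideal.span (Set.range fs) = A.I
  ne : fs j₁ ≠ 0

/-- The ring of the chart of a chain. -/
noncomputable def CA (f : Pol (Fin n)) (τ : Finset (Finset E)) : Subalgebra ℂ K :=
  Algebra.adjoin ℂ ({g | ∃ j, ∃ v ∈ A.VS (lay τ j), g = ev x v / ev x (ℓ j)} ∪
    {ev x (∏ j, ℓ j) / ev x f})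

theorem gen_mem (f : Pol (Fin n)) (τ : Finset (Finset E)) {j : E} {v : Pol (Fin n)}
    (h : v ∈ A.VS (lay τ j)) : ev x v / ev x (ℓ j) ∈ CA A x ℓ f τ :=
  Algebra.subset_adjoin (Or.inl ⟨j, v, h, rfl⟩)

theorem inv_mem_CA (f : Pol (Fin n)) (τ : Finset (Finset E)) :
    ev x (∏ j, ℓ j) / ev x f ∈ CA A x ℓ f τ := Algebra.subset_adjoin (Or.inr rfl)

/-- Coordinates on the chart of a chain. -/
structure CH (f : Pol (Fin n)) (τ : Finset (Finset E)) (z : Fin n → K)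
    (D : Fin n → Derivation ℂ K K) (lab : Finset E → Option (Fin n)) : Prop where
  zm : ∀ i, z i ∈ CA A x ℓ f τ
  Dz : ∀ i j, D i (z j) = if i = j then 1 else 0
  Dm : ∀ i, ∀ g ∈ CA A x ℓ f τ, D i g ∈ CA A x ℓ f τ
  inj : ∀ F F' i, lab F = some i → lab F' = some i → F = F'
  lb : ∀ F, lab F ≠ none ↔ F ∈ τ
  et : ∀ h : ∀ i, z i ∈ CA A x ℓ f τ,
    (ev fun i => (⟨z i, h i⟩ : CA A x ℓ f τ)).toRingHom.Etale
  ell : ∀ j, Ua (CA A x ℓ f τ) (ev x (ℓ j) / ∏ F ∈ τ with j ∈ F, eta z lab F)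
  quo : ∀ F ∈ τ, ∀ j j', lay τ j = F → lay τ j' = suc τ F →
    Ua (CA A x ℓ f τ) (eta z lab F / (ev x (ℓ j) / ev x (ℓ j')))
  det : ∃ u, Ua (CA A x ℓ f τ) u ∧
    (Matrix.of fun l i => D i (x l)).det = u * ∏ F ∈ τ, eta z lab F ^ (A.pm.r F - 1)

/-- The index set of the charts. -/
abbrev Io : Type := {τ : Finset (Finset E) // A.pm.Ch τ}

/-- The system of charts of the arrangement. -/
structure Fit (f : Pol (Fin n)) (S : H59.Sys ℂ K (Io A) (Finset E) n) : Prop where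
  r : S.r = x
  A_eq : ∀ a, S.A a = CA A x ℓ f a.1
  lb : ∀ a F, Lb S a F ↔ F ∈ a.1
  et : ∀ a, (S.zh a).toRingHom.Etale
  ell : ∀ a j, ∀ g : Kˣ, (g : K) = ev x (ℓ j) →
    S.IsU a (g * S.mon a fun F => -((if j ∈ F then 1 else 0 : ℕ) : ℤ))
  quo : ∀ a, ∀ F ∈ a.1, ∃ j ∈ F, ∃ j' ∉ F, ∃ u ∈ S.A a,
    (S.η a F : K) = ev x (ℓ j) / ev x (ℓ j') * u
  det : DetOK S fun F => A.pm.r F - 1

/-- The strictly convex part of the polarization. -/
structure Rho (f : Pol (Fin n)) (G : Finset (Finset E) → E → ℤ) (g : Finset E → ℤ) : Prop where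
  nn : ∀ F, 0 ≤ g F
  ord : ∀ a, Chn a → ∀ F ∈ a, ∑ j ∈ F, G a j = g F
  mem : ∀ a b, Chn a → Chn b → ∏ j, ev x (ℓ j) ^ (G a j - G b j) ∈ CA A x ℓ f b
  loc : ∀ a b, Chn a → Chn b → ∀ h ∈ CA A x ℓ f a, ∃ e : ℕ,
    (∏ j, ev x (ℓ j) ^ (G a j - G b j)) ^ e * h ∈ CA A x ℓ f b

/-- A subspace without `1` that contains the functions vanishing on a divisor in `W`. -/
structure Non (f : Pol (Fin n)) (W : Finset (Finset E)) (M : Submodule ℂ K) : Prop where
  one : 1 ∉ M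
  mem : ∀ F ∈ W, ∀ j ∈ F, ∀ j' ∉ F, ∀ h ∈ ⨆ τ : {τ : Finset (Finset E) // F ∈ τ}, CA A x ℓ f τ,
    ev x (ℓ j) / ev x (ℓ j') * h ∈ M

end Fld

/-- A field of series in several variables: `Sc i c` are the series of order at least `c` in the
variable `i`, `co` are the coefficients and `mo` the monomials. -/
structure MV (T κ : Type) [Field T] [Algebra ℂ T] where
  Sc : κ → ℤ → Submodule ℂ T
  co : (κ → ℤ) → T →ₗ[ℂ] ℂ
  mo : (κ → ℤ) → T
  anti : ∀ i c c', c ≤ c' → Sc i c' ≤ Sc i c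
  mul : ∀ i c c', ∀ g ∈ Sc i c, ∀ h ∈ Sc i c', g * h ∈ Sc i (c + c')
  mo_zero : mo 0 = 1
  mo_mem : ∀ γ i, mo γ ∈ Sc i (γ i)
  co_mo : ∀ γ, co γ (mo γ) = 1
  co_ne : ∀ γ γ', γ ≠ γ' → co γ (mo γ') = 0
  co_zero : ∀ γ i c, ∀ h ∈ Sc i c, γ i < c → co γ h = 0
  co_mul : ∀ γ γ' g h, (∀ i, g ∈ Sc i (γ i)) → (∀ i, h ∈ Sc i (γ' i)) →
    co (γ + γ') (g * h) = co γ g * co γ' h
  inv : ∀ γ h, (∀ i, h ∈ Sc i (γ i)) → co γ h ≠ 0 → ∀ i, h⁻¹ ∈ Sc i (-γ i)

/-- The orders of the space `j`. -/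
def ee {E : Type} [DecidableEq E] (W : Finset (Finset E)) (j : E) (F : Finset E) : ℤ :=
  if F ∈ W ∧ j ∈ F then 1 else 0

end Pool.Agent.MP_ee8c61_ag.H95T
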