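import Pool.Agent.MP_ee8c61_ag.H95T.ADefs

/-! Geometric steps. -/

namespace Pool.Agent.MP_ee8c61_ag.H95T

open H95 Finset MvPolynomial

/-- A property of all arrangements. -/
def AllA (Q : ∀ (n : ℕ) (E : Type) [DecidableEq E] [Fintype E], Arr n E → Prop) : Prop :=
  ∀ (n : ℕ) (E : Type) [DecidableEq E] [Fintype E] (A : Arr n E), Q n E A

/-- A property of all arrangements with a field of functions. -/
def AllK (Q : ∀ (n r : ℕ) (E K : Type) [DecidableEq E] [Fintype E] [Field K] [Algebra ℂ K],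
    Arr n E → (Fin n → K) → (E → Pol (Fin n)) → (Fin r → Pol (Fin n)) → Fin r → Prop) : Prop :=
  ∀ (n r : ℕ) (E K : Type) [DecidableEq E] [Fintype E] [Field K] [Algebra ℂ K] (A : Arr n E)
    (x : Fin n → K) (ℓ : E → Pol (Fin n)) (fs : Fin r → Pol (Fin n)) (j₁ : Fin r),
    Ctx A x ℓ fs j₁ → Q n r E K A x ℓ fs j₁

/-! ### Linear algebra and monomials -/

/-- An adapted basis with prescribed pivots. -/
def SB1 : Prop := AllA fun n E _ _ A => ∀ (τ : Finset (Finset E)) (v : Finset E → Pol (Fin n)),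
  A.pm.Ch τ → (∀ F ∈ τ, v F ∈ A.VS F ∧ v F ∉ A.VS (pred τ F)) →
  ∃ (y : Fin n → Pol (Fin n)) (L : Fin n → Finset E) (Λ : Finset (Fin n)),
    LinearIndependent ℂ (fun o : Option (Fin n) => o.elim 1 y) ∧ (∀ q, y q ∈ Wi n) ∧
    (∀ q, L q ∈ τ ∨ L q = univ) ∧
    (∀ F ∈ τ, A.VS F = Submodule.span ℂ (y '' {q | L q ⊆ F})) ∧ Set.BijOn L Λ τ ∧
    ∀ p ∈ Λ, y p = v (L p)

/-- The inverse of an affine map. -/
def SIv : Prop := ∀ (n : ℕ) (y : Fin n → Pol (Fin n)),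
  LinearIndependent ℂ (fun o : Option (Fin n) => o.elim 1 y) → (∀ q, y q ∈ Wi n) →
  ∃ aff : Fin n → Pol (Fin n), ap y aff = X ∧ ap aff y = X ∧ ∀ l, aff l ∈ Wi n

def SBa : Prop := AllA fun n E _ _ A => ∀ (τ : Finset (Finset E)) (v : Finset E → Pol (Fin n)),
  A.pm.Ch τ → (∀ F ∈ τ, v F ∈ A.VS F ∧ v F ∉ A.VS (pred τ F)) →
  ∃ y aff L Λ, Piv A τ y aff L Λ ∧ ∀ p ∈ Λ, y p = v (L p)

theorem sBa (h1 : SB1) (h2 : SIv) : SBa := fun n E _ _ A τ v hτ hv => by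
  obtain ⟨y, L, Λ, a1, a2, a3, a4, a5, a6⟩ := h1 n E A τ v hτ hv
  obtain ⟨aff, b1, b2, b3⟩ := h2 n y a1 a2
  exact ⟨y, aff, L, Λ, ⟨hτ, ⟨b1, b2, a2, b3, a3, a4⟩, a5⟩, a6⟩

/-- General members exist. -/
def SGn : Prop := AllA fun _ _ _ _ A => ∃ ℓ, Gen A ℓ

def SMo : Prop := AllE fun E _ _ => ∀ (n : ℕ) (τ : Finset (Finset E)) (L : Fin n → Finset E)
  (Λ : Finset (Fin n)), Chn τ → univ ∉ τ → Set.BijOn L Λ τ → MuOK τ L Λ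

/-- The Jacobian of a monomial chart. -/
def SJ0 : Prop := AllE fun E _ _ => ∀ (n : ℕ) (L : Fin n → Finset E) (Λ : Finset (Fin n)),
  Set.InjOn L Λ → jd (cmon L Λ) = ∏ p ∈ Λ, X p ^ ((univ.filter fun q => L q ⊆ L p).card - 1)

/-- The Jacobian of a chart. -/
def SJa : Prop := AllA fun _ _ _ _ A => ∀ τ y aff L Λ, Piv A τ y aff L Λ →
  (∀ F ∈ τ, A.pm.r F = (univ.filter fun q => L q ⊆ F).card) ∧
  ∃ u, IsUnit u ∧ jd (ap aff (cmon L Λ)) = (∏ p ∈ Λ, X p ^ (A.pm.r (L p) - 1)) * u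

/-- Solving the monomial equations. -/
def STl : Prop := AllE fun E _ _ => ∀ (n : ℕ) (O : Type) [CommRing O] [Algebra ℂ O]
  (L : Fin n → Finset E) (Λ : Finset (Fin n)) (Y : Fin n → O), Set.InjOn L Λ →
  (∀ p ∈ Λ, ∀ p' ∈ Λ, L p ⊆ L p' ∨ L p' ⊆ L p) → (∀ p ∈ Λ, ∀ q, L q ⊆ L p → Y p ∣ Y q) →
  ∃ w, ap (cmon L Λ) w = Y

/-- Strict transforms. -/
def SRd : Prop := AllA fun _ _ _ _ A => ∀ τ y aff L Λ, Piv A τ y aff L Λ →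
  (∀ j, ∀ v ∈ A.VS (lay τ j), ∃ u, ev (ap aff (cmon L Λ)) v = lmon L Λ (lay τ j) * u ∧
    ∀ x, (∀ p ∈ Λ, x p = 0) → eval x u = eval x (rdc aff L Λ (lay τ j) v)) ∧
  ∀ p ∈ A.I, (∏ j, lmon L Λ (lay τ j)) ∣ ev (ap aff (cmon L Λ)) p

/-- The level sets of the orders form a chain of flats. -/
def SLv : Prop := AllA fun n E _ _ A => ∀ (O : Type) [CommRing O] (e : Pol (Fin n) →+* O)
  (m : E → O), (∀ i j, m i ∣ m j ∨ m j ∣ m i) → (∀ j, ∀ v ∈ A.V j, m j ∣ e v) →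
  (∀ j, ∃ v ∈ A.V j, e v ∣ m j) → ∃ τ, A.pm.Ch τ ∧ ∀ i j, m i ∣ m j ↔ lay τ j ⊆ lay τ i

/-! ### Euler characteristics -/

def SCn : Prop := ∀ (n : ℕ) (s : Set (Pol (Fin n))), H36.Con {x | ∀ p ∈ s, eval x p = 0}

/-- Affine subspaces. -/
def SAf : Prop := ∀ χ : H36.Chi, H36.IsEuler χ → χ (Fin 0) Set.univ = 1 → ∀ (n : ℕ)
  (s : Set (Pol (Fin n))), s ⊆ Wi n → (∃ x, ∀ p ∈ s, eval x p = 0) →
  χ (Fin n) {x | ∀ p ∈ s, eval x p = 0} = 1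

/-- Inclusion and exclusion. -/
def SIe : Prop := AllE fun E _ _ => ∀ χ : H36.Chi, H36.IsEuler χ → ∀ (n : ℕ)
  (B : Set (Fin n → ℂ)) (Z : E → Set (Fin n → ℂ)), H36.Con B → (∀ j, H36.Con (Z j)) →
  χ (Fin n) ∅ = 0 ∧ H36.Con {x | x ∈ B ∧ ∀ j, x ∉ Z j} ∧ χ (Fin n) {x | x ∈ B ∧ ∀ j, x ∉ Z j} =
    ∑ S : Finset E, (-1) ^ S.card * χ (Fin n) {x | x ∈ B ∧ ∀ j ∈ S, x ∈ Z j}

/-- The affine subspace of a set `S` is not empty. -/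
def SNe : Prop := AllA fun _ E _ _ A => ∀ τ y aff L Λ, Piv A τ y aff L Λ → ∀ S : Finset E,
  (∃ x ∈ Bs0 L Λ, ∀ j ∈ S, x ∈ Zj A τ aff L Λ j) ↔
    (∀ p ∈ Λ, Sol A τ aff L S p) ∧ 1 ∉ A.VS (tp τ ∪ S)

/-- The number of pivots. -/
def SCt : Prop := AllA fun n E _ _ A => ∀ τ y aff L, A.pm.Ch τ → Ad A τ y aff L →
  ∀ (S : Finset E), ∀ G ∈ τ, ∀ T : Finset (Fin n), (∀ p, p ∈ T ↔ L p = G ∧ Sol A τ aff L S p) →
  (T.card : ℤ) = A.pm.r G - A.pm.r (pred τ G ∪ S ∩ G)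

/-- The Euler characteristic of the strata of a chain. -/
def SSt : Prop := AllA fun n _ _ _ A => ∀ χ : H36.Chi, H36.IsEuler χ → χ (Fin 0) Set.univ = 1 →
  ∀ τ y aff L, A.pm.Ch τ → Ad A τ y aff L → (∀ Λ, H36.Con (St A τ aff L Λ)) ∧
  ∀ T : Finset (Finset (Fin n)), (∀ Λ, Λ ∈ T ↔ Set.BijOn L Λ τ) →
    ∑ Λ ∈ T, χ (Fin n) (St A τ aff L Λ) = A.pm.coef τ

/-! ### Arcs -/

/-- Arcs lift. -/
def SXs : Prop := AllA fun n _ _ _ A => ∀ b, Nz A.I b → ∃ τ, A.pm.Ch τ ∧ ∀ y aff L,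
  Ad A τ y aff L → ∃ (Λ : Finset (Fin n)) (w : Fin n → PS),
    Set.BijOn L Λ τ ∧ Lift A τ aff L Λ b w

/-- The orders of the spaces along a lifted arc. -/
def SKy : Prop := AllA fun _ _ _ _ A => ∀ τ y aff L Λ b w, Piv A τ y aff L Λ → Nz A.I b →
  Lift A τ aff L Λ b w → (∀ p ∈ Λ, w p ≠ 0) ∧
  ∀ i j, (∀ v ∈ A.V j, ∃ v' ∈ A.V i, ev b v' ∣ ev b v) ↔ lay τ j ⊆ lay τ i

/-- The lift is unique. -/
def SUq : Prop := AllA fun _ _ _ _ A => ∀ b, Nz A.I b →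
  (∀ τ y aff L Λ w τ' y' aff' L' Λ' w', Piv A τ y aff L Λ → Piv A τ' y' aff' L' Λ' →
    Lift A τ aff L Λ b w → Lift A τ' aff' L' Λ' b w' → τ = τ') ∧
  ∀ τ y aff L Λ w Λ' w', Piv A τ y aff L Λ → Piv A τ y aff L Λ' →
    Lift A τ aff L Λ b w → Lift A τ aff L Λ' b w' → Λ = Λ' ∧ w = w'

/-- One stratum. -/
def SH1 : Prop := AllA fun n _ _ _ A => ∀ (χ : H36.Chi) τ y aff L Λ, Piv A τ y aff L Λ →
  H36.Con (St A τ aff L Λ) → HasZ χ (A.I.map (ev (ap aff (cmon L Λ))))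
    (ev (ap aff (cmon L Λ)) 1 * jd (ap aff (cmon L Λ))) (St A τ aff L Λ)
    ((χ (Fin n) (St A τ aff L Λ) : RatFunc ℂ) * ∏ F ∈ τ, (A.pm.lf F)⁻¹)

/-- The zeta function of an arrangement. -/
def SHz : Prop := AllA fun _ _ _ _ A => ∀ χ : H36.Chi, H36.IsEuler χ → χ (Fin 0) Set.univ = 1 →
  HasZ χ A.I 1 Set.univ A.pm.Zc

/-! ### Function fields -/

def SF0 : Prop := ∀ n : ℕ,
  FK fun l : Fin n => algebraMap (Pol (Fin n)) (FractionRing (Pol (Fin n))) (X l)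

/-- The derivations dual to the coordinates. -/
def SFm : Prop := ∀ (n : ℕ) (K : Type) [Field K] [Algebra ℂ K] (x : Fin n → K), FK x →
  ∃ R : Fin n → Derivation ℂ K K, (∀ i j, R i (x j) = if i = j then 1 else 0) ∧
    (∀ i j g, R i (R j g) = R j (R i g)) ∧
    ∀ (δ : Derivation ℂ K K) (g : K), δ g = ∑ l, δ (x l) * R l g

/-- New generators of the field. -/
def SFz : Prop := ∀ (n : ℕ) (K : Type) [Field K] [Algebra ℂ K] (x z : Fin n → K)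
  (φ : Fin n → Pol (Fin n)), FK x → ap φ z = x → FK z

/-- A principal open set. -/
def SEt : Prop := ∀ (n : ℕ) (K : Type) [Field K] [Algebra ℂ K] (z : Fin n → K) (P : Pol (Fin n))
  (B : Subalgebra ℂ K) (D : Fin n → Derivation ℂ K K), FK z → ev z P ≠ 0 →
  B = Algebra.adjoin ℂ (Set.range z ∪ {(ev z P)⁻¹}) → (∀ i j, D i (z j) = if i = j then 1 else 0) →
  (∀ i, ∀ g ∈ B, D i g ∈ B) ∧ (∀ h : ∀ i, z i ∈ B, (ev fun i => (⟨z i, h i⟩ : B)).toRingHom.Etale) ∧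
  ∀ φ : Fin n → Pol (Fin n), (Matrix.of fun l i => D i (ap φ z l)).det = ev z (jd φ)

/-- The ideal is generated by the product of the general members. -/
def SId : Prop := AllK fun n r _ K _ _ _ _ A x ℓ fs j₁ =>
  (∀ τ, A.pm.Ch τ → (∀ p, ev x p ∈ CA A x ℓ (fs j₁) τ) ∧
    (∀ p ∈ A.I, ev x p / ev x (∏ j, ℓ j) ∈ CA A x ℓ (fs j₁) τ) ∧
    Ua (CA A x ℓ (fs j₁) τ) (sv x ℓ (fs j₁)) ∧ ∀ l, xs x fs j₁ l ∈ CA A x ℓ (fs j₁) τ) ∧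
  ∃ q : MvPolynomial (Fin (n + r)) ℂ, (aeval (xs x fs j₁) q : K) * sv x ℓ (fs j₁) = 1

/-- The ring of a chart is a localization of a polynomial ring. -/
def SC1 : Prop := AllK fun n _ _ K _ _ _ _ A x ℓ fs j₁ => ∀ τ, A.pm.Ch τ →
  ∃ y aff L Λ, ∃ (z : Fin n → K) (P : Pol (Fin n)), Piv A τ y aff L Λ ∧
    ap (ap aff (cmon L Λ)) z = x ∧ ev z P ≠ 0 ∧
    CA A x ℓ (fs j₁) τ = Algebra.adjoin ℂ (Set.range z ∪ {(ev z P)⁻¹}) ∧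
    ∀ j, Ua (CA A x ℓ (fs j₁) τ) (ev x (ℓ j) / ev z (lmon L Λ (lay τ j)))

def SC2 : Prop := AllK fun _ _ _ _ _ _ _ _ A x ℓ fs j₁ => ∀ τ, A.pm.Ch τ →
  ∃ z D lab, CH A x ℓ (fs j₁) τ z D lab

/-- Two equations of a divisor. -/
def SE0 : Prop := AllK fun _ _ _ _ _ _ _ _ A x ℓ fs j₁ => ∀ a z D lab b z' D' lab',
  A.pm.Ch a → A.pm.Ch b → CH A x ℓ (fs j₁) a z D lab → CH A x ℓ (fs j₁) b z' D' lab' → ∀ F,
  eta z lab F / eta z' lab' F ∈ CA A x ℓ (fs j₁) a ⊔ CA A x ℓ (fs j₁) b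

def SRh : Prop := AllK fun _ _ _ _ _ _ _ _ A x ℓ fs j₁ => ∃ G g, Rho A x ℓ (fs j₁) G g

def SSy : Prop := AllK fun _ _ _ _ _ _ _ _ A x ℓ fs j₁ => ∃ S, Fit A x ℓ (fs j₁) S

/-- Every valuation ring contains a chart. -/
def SVl : Prop := AllK fun _ _ _ K _ _ _ _ A x ℓ fs j₁ => ∀ O : ValuationSubring K,
  (∀ c : ℂ, algebraMap ℂ K c ∈ O) →
  (∀ l, Matrix.vecCons (sv x ℓ (fs j₁)) (xs x fs j₁) l ∈ O) →
  ∃ τ, A.pm.Ch τ ∧ ∀ g ∈ CA A x ℓ (fs j₁) τ, g ∈ O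

/-- The polarizations. -/
def SPl : Prop := AllK fun _ _ E K _ _ _ _ A x ℓ fs j₁ => ∀ S, Fit A x ℓ (fs j₁) S →
  ∃ g : Finset E → ℤ, (∀ F, 0 ≤ g F) ∧ ∀ (k : ℕ) (T : E → ℤ) (w : Finset E → ℤ),
    (∀ F, A.pm.Fl F → w F = k * A.pm.r F + ∑ j ∈ F, T j - g F) →
    ∃ ρ : Io A → Kˣ, S.Pol (Matrix.vecCons (sv x ℓ (fs j₁)) (xs x fs j₁)) w ρ

/-- The admissible exponents. -/
def SAd : Prop := AllK fun _ _ E _ _ _ _ _ A x ℓ fs j₁ => ∀ S, Fit A x ℓ (fs j₁) S →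
  ∀ (W V : Finset (Finset E)) (ψ : E → ℤ), A.pm.Gd W → (∀ F ∈ W, 0 ≤ ∑ j ∈ F, ψ j) →
  (∀ F, F ∈ V ↔ F ∈ W ∧ ∑ j ∈ F, ψ j = 0) →
  S.Adm (Matrix.vecCons (sv x ℓ (fs j₁)) (xs x fs j₁))
    ((fun F => (A.pm.r F : ℤ)) + H59.Sys.ind V)

/-- The input of the main theorem. -/
def SMk : Prop := AllK fun _ _ _ K _ _ _ _ A x ℓ fs j₁ => ∀ S, Fit A x ℓ (fs j₁) S →
  ∀ (b : Polynomial ℂ) (f : Kˣ), H10.IsBS fs b → (f : K) = ev x (fs j₁) →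
  H95G.MainK S (xs x fs j₁) f card (fun F => A.pm.r F - 1) b

/-! ### The functional -/

def SHa : Prop := ∀ (κ : Type) [Fintype κ], ∃ (T : Type) (_ : Field T) (_ : Algebra ℂ T),
  Nonempty (MV T κ)

/-- A general point with coordinates in the field of series. -/
def SXi : Prop := AllA fun n E _ _ A => ∀ (T : Type) [Field T] [Algebra ℂ T]
  (M : MV T (Finset E)) (ℓ : E → Pol (Fin n)) (W : Finset (Finset E)), Gen A ℓ → Rng W →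
  (∀ F ∈ W, A.pm.Fl F) → ∃ ξ : Fin n → T, ∀ j,
    (∀ v ∈ A.V j, ∀ F, ev ξ v ∈ M.Sc F (ee W j F)) ∧ M.co (ee W j) (ev ξ (ℓ j)) ≠ 0

/-- The graph of a point on a principal open set. -/
def SGp : Prop := ∀ (n : ℕ) (K T : Type) [Field K] [Algebra ℂ K] [Field T] [Algebra ℂ T]
  (x : Fin n → K) (ξ : Fin n → T) (P : Pol (Fin n)), Function.Injective (ev x) → ev ξ P ≠ 0 →
  ∃ B : Subalgebra ℂ (K × T), (∀ p, (ev x p, ev ξ p) ∈ B) ∧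
    (∀ p, p ∣ P → ((ev x p)⁻¹, (ev ξ p)⁻¹) ∈ B) ∧ ∀ h, (0, h) ∈ B → h = 0

def SNo : Prop := AllA fun n E _ _ A => ∀ (r : ℕ) (K : Type) [Field K] [Algebra ℂ K]
  (x : Fin n → K) (ℓ : E → Pol (Fin n)) (fs : Fin r → Pol (Fin n)) (W : Finset (Finset E)),
  FK x → Gen A ℓ → Ideal.span (Set.range fs) = A.I → Rng W → (∀ F ∈ W, A.pm.Fl F) →
  ∃ j₁, fs j₁ ≠ 0 ∧ ∃ M, Non A x ℓ (fs j₁) W M

/-! ### Roots -/

def SRt : Prop := AllA fun n _ _ _ A => ∀ (r : ℕ) (fs : Fin r → Pol (Fin n)) (b : Polynomial ℂ),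
  Ideal.span (Set.range fs) = A.I → H10.IsBS fs b → A.pm.Root b

/-! ### The tasks -/

def OfB1 : Prop := SB1
def OfIv : Prop := SIv
def OfGn : Prop := SGn
def OfMo : Prop := SMo
def OfJ0 : Prop := SJ0
def OfJa : Prop := SJ0 → SJa
def OfTl : Prop := STl
def OfRd : Prop := SMo → SRd
def OfLv : Prop := SLv
def OfCn : Prop := SCn
def OfAf : Prop := SCn → SAf
def OfIe : Prop := SIe
def OfNe : Prop := SNe
def OfCt : Prop := SC0 → SCt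
def OfSt : Prop := SCn → SAf → SIe → SNe → SCt → STv → SPd → SSt
def OfXs : Prop := SMo → STl → SRd → SLv → SXs
def OfKy : Prop := SMo → SRd → SKy
def OfUq : Prop := SMo → SKy → SUq
def OfH1 : Prop := SMo → SJa → SRd → SH1
def OfHz : Prop := SBa → SGn → SSt → SXs → SUq → SH1 → SHz
def OfF0 : Prop := SF0
def OfFm : Prop := H95G.SExt → SFm
def OfFz : Prop := SFm → SFz
def OfEt : Prop := SEt
def OfId : Prop := SId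
def OfC1 : Prop := SBa → SMo → STl → SRd → SId → SC1
def OfC2 : Prop := SMo → SJa → SFm → SFz → SEt → SC1 → SC2
def OfE0 : Prop := SE0
def OfRh : Prop := SRh
def OfSy : Prop := SFm → SC2 → SE0 → SRh → SSy
def OfVl : Prop := SLv → SId → SVl
def OfPl : Prop := SGd → SId → SRh → SVl → SPl
def OfAd : Prop := SCl → SPl → SAd
def OfMk : Prop := H95G.Bs → SId → SMk
def OfHa : Prop := SHa
def OfXi : Prop := SXi
def OfGp : Prop := SGp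
def OfNo : Prop := SHa → SXi → SGp → SNo
def OfRt : Prop := SMF → SCb → SGn → SF0 → SId → SSy → SAd → SMk → SNo → SRt

structure ARows : Prop where
  B1 : OfB1
  Iv : OfIv
  Gn : OfGn
  Mo : OfMo
  J0 : OfJ0
  Ja : OfJa
  Tl : OfTl
  Rd : OfRd
  Lv : OfLv
  Cn : OfCn
  Af : OfAf
  Ie : OfIe
  Ne : OfNe
  Ct : OfCt
  St : OfSt
  Xs : OfXs
  Ky : OfKy
  Uq : OfUq
  H1 : OfH1
  Hz : OfHz
  F0 : OfF0
  Fm : OfFm
  Fz : OfFz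
  Et : OfEt
  Id : OfId
  C1 : OfC1
  C2 : OfC2
  E0 : OfE0
  Rh : OfRh
  Sy : OfSy
  Vl : OfVl
  Pl : OfPl
  Ad : OfAd
  Mk : OfMk
  Ha : OfHa
  Xi : OfXi
  Gp : OfGp
  No : OfNo
  Rt : OfRt

theorem ARows.hz (a : ARows) (c : CRows) : SHz :=
  a.Hz (sBa a.B1 a.Iv) a.Gn (a.St a.Cn (a.Af a.Cn) a.Ie a.Ne (a.Ct c.C0) c.Tv c.Pd)
    (a.Xs a.Mo a.Tl (a.Rd a.Mo) a.Lv) (a.Uq a.Mo (a.Ky a.Mo (a.Rd a.Mo)))
    (a.H1 a.Mo (a.Ja a.J0) (a.Rd a.Mo))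

theorem ARows.rt (a : ARows) (c : CRows) (h1 : SMF) (h2 : H95G.SExt) (h3 : H95G.Bs) : SRt :=
  a.Rt h1 c.cb a.Gn a.F0 a.Id
    (a.Sy (a.Fm h2) (a.C2 a.Mo (a.Ja a.J0) (a.Fm h2) (a.Fz (a.Fm h2)) a.Et
      (a.C1 (sBa a.B1 a.Iv) a.Mo a.Tl (a.Rd a.Mo) a.Id)) a.E0 a.Rh)
    (a.Ad c.Cl (a.Pl c.Gd a.Id a.Rh (a.Vl a.Lv a.Id))) (a.Mk h3 a.Id) (a.No a.Ha a.Xi a.Gp)

end Pool.Agent.MP_ee8c61_ag.H95T
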