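import Pool.Agent.MP_ee8c61_ag.H95T.ASpec
import Pool.Agent.MP_ee8c61_ag.H59.Asm
import Pool.Agent.MP_ee8c61_ag.H95.QAll

/-! Assembly: products of ideals generated by polynomials of degree at most one. -/

namespace Pool.Agent.MP_ee8c61_ag.H95T

open AlgebraicGeometry H95 MvPolynomial

theorem ek_of (r : H59.Rows) (hS : H59.SSpread) : EK := by
  have car := r.Car
  have cx := r.Cx
  have cone := r.Cone car cx
  have filt := r.Filt car cx r.Fg cone
  have ri := r.Ri car
  have swap := r.Swap car cx cone filt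
  have kx := r.Kx car cx cone filt swap
  have left := r.Left car cone
  have req := r.Req car cone
  have v := r.V car cx cone filt swap (r.V1 car cx cone filt) (r.V2 car cone r.Am)
  have t1 := r.T1 car cone r.Fg (r.T1f car cx r.Fg) r.T1k
  have fo := r.Fo car
  have fd := r.Fd car fo
  have la := r.La car r.Ap fo
  have det := r.Det car r.Ap fo la
  have fr := r.Fr car fo fd la
  have lo := r.Lo fr
  have lm := r.Lm car cone fo la fr lo
  have ho := r.Ho car fo fd la fr lo lm
  have pt := r.Pt car cx fo la fr lo lm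
  have adm := r.Adm fr lo r.Val
  have t1s := r.T1s car r.Fg t1 fo lm (r.T1g fo la fr lo lm)
  have gk := r.Gk car r.Fgk cone filt fr lo lm t1s
  have eloc := r.ELoc car cx cone swap fo la fr lo lm (r.Depth kx req lo)
  have esz := r.Esz car cone ri r.Stab fo fr lo lm gk eloc (r.EFin r.Mp)
  have cart := r.Cart fo la fr lo lm (r.Cart0 car fo)
  have mo := r.Mo car fo fd fr lo lm
  have ph1 := r.Ph1 car fo fd fr mo
  have ph2 := r.Ph2 car fo la fr lo lm mo ph1
  have hara := r.Hara car cx cone filt fd lm ho mo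
  have di := r.Di car cone r.Trunc fo lm cart ph1 ph2 hara
    (r.Di1 car cx r.Wt cone kx fo lm hara)
  have hm := r.Hm fo la lo lm
  have nv := r.NV hS (r.NVl r.Reg r.Span esz di)
    (r.TrO car cone r.Nak lm gk hm (r.RedL fo fr lo lm hm))
    (r.TrC car r.Ext lm hm (r.ExtL fo la fr lo lm hm))
  have th := r.Th car fo fd fr lo lm ho pt
  have gr := r.Gr car fo lm pt th
  have supp := r.Supp r.Mp fr pt th (r.Supp1 r.Td r.Du fr pt th)
  have vy := r.VY car v fo lm th supp (r.Kill car cx cone filt fo fr lo lm)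
    (r.Xi car r.Wt cone ri left r.Div fo lm pt th) r.Rank
  exact ⟨car, r.Ap, cx, r.Wt, cone, filt, kx, fo, fd, la, det, fr, lo, lm, ho, pt, r.Reg,
    r.Inter fo fr lo lm, r.Val, adm, nv, th, gr, vy, r.Eta car fo fd la det fr lo lm pt⟩

theorem mem_Wi {n : ℕ} {p : Pol (Fin n)} (h : p.totalDegree ≤ 1) : p ∈ Wi n := by
  rw [p.as_sum]
  refine Submodule.sum_mem _ fun m hm => ?_
  have h1 : m.degree ≤ 1 := (le_totalDegree hm).trans h
  rw [show monomial m (coeff m p) = coeff m p • monomial m 1 by simp [smul_monomial]]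
  refine Submodule.smul_mem _ _ ?_
  rcases Nat.le_one_iff_eq_zero_or_eq_one.1 h1 with h2 | h2
  · rw [(Finsupp.degree_eq_zero_iff m).1 h2]
    exact one_mem_Wi n
  · obtain ⟨l, rfl⟩ := (Finsupp.sum_eq_one_iff m).1 h2
    exact X_mem_Wi l

theorem final_of (h1 : SHz) (h2 : SRt) (h3 : SZ) {N m r : ℕ}
    (V : Fin m → Set (MvPolynomial (Fin N) ℂ)) (hV : ∀ j, ∀ p ∈ V j, p.totalDegree ≤ 1)
    (f : Fin r → MvPolynomial (Fin N) ℂ)
    (hf : Ideal.span (Set.range f) = ∏ j, Ideal.span (V j)) (b : Polynomial ℂ)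
    (hb : H10.IsBS f b) (Y : Scheme.{0}) (π : Y ⟶ Aff N) (J : Type) [Fintype J] (E : J → Set Y)
    (a k : J → ℕ) (hY : IsLogRes (Ideal.span (Set.range f)) π E a k) (χ : Set Y → ℤ)
    (hχ : IsChi π χ) : ∃ Q : Polynomial ℂ, algebraMap (Polynomial ℂ) (RatFunc ℂ) b *
      zeta E a k χ = algebraMap (Polynomial ℂ) (RatFunc ℂ) Q := by
  obtain ⟨χ', e1, e2, e3⟩ := zeta_eq hY hχ
  by_cases h0 : ∀ j, Submodule.span ℂ (V j) ≠ ⊥
  · let A : Arr N (Option (Fin m)) := ⟨fun o => o.elim (Wi N) fun j => Submodule.span ℂ (V j),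
      none, fun o => by
        cases o with
        | none => exact le_rfl
        | some j => exact Submodule.span_le.2 fun p hp => mem_Wi (hV j p hp),
      fun o => by
        cases o with
        | none => exact fun h => one_ne_zero ((Submodule.eq_bot_iff _).1 h _ (one_mem_Wi N))
        | some j => exact h0 j, rfl⟩
    have hI : Ideal.span (Set.range f) = A.I := by
      rw [hf, Arr.I, Fintype.prod_option, show Ideal.span (A.V none : Set (Pol (Fin N))) = 1 from
        Ideal.one_eq_top.trans ((Ideal.eq_top_iff_one _).2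
          (Ideal.subset_span (one_mem_Wi N))).symm ▸ rfl, one_mul]
      exact Finset.prod_congr rfl fun j _ => (Submodule.span_span_of_tower ℂ _ (V j)).symm
    rw [e3 _ (hI ▸ h1 N _ A χ' e1 e2)]
    exact h3 _ A.pm b (h2 N _ A r f b hI hb)
  · obtain ⟨j, hj⟩ := not_forall.1 h0
    have hI : Ideal.span (Set.range f) = ⊥ := hf.trans (Finset.prod_eq_zero (Finset.mem_univ j)
      (Ideal.span_eq_bot.2 (Submodule.span_eq_bot.1 (not_not.1 hj))))
    rw [e3 0 ⟨⟨Empty, (·.elim), (·.elim), fun c _ hc => ?_, (·.elim)⟩, by simp⟩]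
    · exact ⟨0, by simp⟩
    · obtain ⟨p, hp, h⟩ := hc
      rw [hI, Ideal.mem_bot] at hp
      exact absurd (hp ▸ map_zero _) h

end Pool.Agent.MP_ee8c61_ag.H95T
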