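import Mathlib

/-! Chains of finite sets, ring families and rank functions. -/

namespace Pool.Agent.MP_ee8c61_ag.H95T

open Finset

section Chain

variable {E : Type} [DecidableEq E]

/-- A totally ordered family. -/
def Chn (τ : Finset (Finset E)) : Prop := ∀ F ∈ τ, ∀ G ∈ τ, F ⊆ G ∨ G ⊆ F

instance : DecidablePred (Chn (E := E)) := fun τ => by
  unfold Chn
  infer_instance

/-- The union of the members that are strictly contained in `F`. -/
def pred (τ : Finset (Finset E)) (F : Finset E) : Finset E := (τ.filter (· ⊂ F)).sup id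

/-- The union of all members. -/
def tp (τ : Finset (Finset E)) : Finset E := τ.sup id

/-- No chain in `W` has more than `d` members. -/
def Bd (W : Finset (Finset E)) (d : ℕ) : Prop := ∀ τ ⊆ W, Chn τ → τ.card ≤ d

/-- A chain of the largest size. -/
def Mx (W τ : Finset (Finset E)) : Prop := τ ⊆ W ∧ Chn τ ∧ Bd W τ.card

/-- The chains with `d` members. -/
def chs (W : Finset (Finset E)) (d : ℕ) : Finset (Finset (Finset E)) :=
  (W.powersetCard d).filter Chn

/-- The link of a chain. -/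
def lk (W ρ : Finset (Finset E)) : Finset (Finset E) :=
  W.filter fun H => H ∉ ρ ∧ Chn (insert H ρ)

/-- Every member that contains `j'` contains `j`. -/
def Pre (W : Finset (Finset E)) (j j' : E) : Prop := ∀ F ∈ W, j' ∈ F → j ∈ F

instance (W : Finset (Finset E)) (j j' : E) : Decidable (Pre W j j') := by
  unfold Pre
  infer_instance

/-- The members that do not separate `j` and `j'`. -/
def fc (W : Finset (Finset E)) (j j' : E) : Finset (Finset E) := W.filter fun F => j ∈ F ↔ j' ∈ F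

/-- The sum over the chains with `d` members. -/
def LL {K : Type} [Field K] (l : Finset E → K) (W : Finset (Finset E)) (d : ℕ) : K :=
  ∑ τ ∈ chs W d, ∏ F ∈ τ, (l F)⁻¹

/-- The orders of the product of all forms and of the forms `jj l`. -/
def uu {k : ℕ} (jj : Fin k → E) : Fin (k + 1) → Finset E → ℕ :=
  Matrix.vecCons card fun l F => if jj l ∈ F then 1 else 0

variable {τ : Finset (Finset E)} {F G : Finset E} {i j : E}

omit [DecidableEq E] in
theorem Chn.mono (h : Chn τ) {ρ : Finset (Finset E)} (hρ : ρ ⊆ τ) : Chn ρ :=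
  fun F hF G hG => h F (hρ hF) G (hρ hG)

theorem chn_insert (h : Chn τ) (hF : ∀ G ∈ τ, F ⊆ G ∨ G ⊆ F) : Chn (insert F τ) := by
  intro A hA B hB
  rcases mem_insert.1 hA with rfl | a <;> rcases mem_insert.1 hB with rfl | b
  exacts [Or.inl Subset.rfl, hF B b, (hF A a).symm, h A a B b]

theorem mem_chs {W : Finset (Finset E)} {d : ℕ} : τ ∈ chs W d ↔ τ ⊆ W ∧ Chn τ ∧ τ.card = d := by
  simp only [chs, mem_filter, mem_powersetCard]
  tauto

theorem mem_tp : j ∈ tp τ ↔ ∃ F ∈ τ, j ∈ F := by simp [tp, mem_sup]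

theorem sub_tp (hF : F ∈ τ) : F ⊆ tp τ := fun _ h => mem_tp.2 ⟨F, hF, h⟩

theorem tp_mem (h : Chn τ) (hne : τ.Nonempty) : tp τ ∈ τ := by
  obtain ⟨F, hF, hm⟩ := exists_max_image τ card hne
  have : tp τ = F := Subset.antisymm (fun j hj => by
    obtain ⟨G, hG, hj⟩ := mem_tp.1 hj
    rcases h G hG F hF with e | e
    · exact e hj
    · exact eq_of_subset_of_card_le e (hm G hG) ▸ hj) (sub_tp hF)
  rwa [this]

theorem mem_pred : j ∈ pred τ F ↔ ∃ G ∈ τ, G ⊂ F ∧ j ∈ G := by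
  simp [pred, mem_sup, and_assoc]

theorem sub_pred (hG : G ∈ τ) (h : G ⊂ F) : G ⊆ pred τ F := fun _ hj => mem_pred.2 ⟨G, hG, h, hj⟩

theorem pred_sub : pred τ F ⊆ F := fun _ hj => by
  obtain ⟨G, -, h, hj⟩ := mem_pred.1 hj
  exact h.subset hj

theorem pred_mem (h : Chn τ) (F : Finset E) : pred τ F = ∅ ∨ (pred τ F ∈ τ ∧ pred τ F ⊂ F) := by
  rcases (τ.filter (· ⊂ F)).eq_empty_or_nonempty with e | e
  · exact Or.inl (by rw [pred, e]; rfl)
  · exact Or.inr (mem_filter.1 (tp_mem (h.mono (filter_subset _ _)) e))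

theorem pred_ssub (h : Chn τ) (hF : F.Nonempty) : pred τ F ⊂ F :=
  (pred_mem h F).elim (fun e => e ▸ empty_ssubset.2 hF) And.right

theorem pred_insert : pred (insert F τ) F = pred τ F := by
  rw [pred, filter_insert, if_neg (ssubset_irrefl F), pred]

variable [Fintype E]

/-- The intersection of the members that strictly contain `F`. -/
def suc (τ : Finset (Finset E)) (F : Finset E) : Finset E := (τ.filter (F ⊂ ·)).inf id

/-- The intersection of the members that contain `j`. -/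
def lay (τ : Finset (Finset E)) (j : E) : Finset E := (τ.filter (j ∈ ·)).inf id

/-- The coefficient of `H` in the expansion of the indicator of `F`. -/
def cc (τ : Finset (Finset E)) (F H : Finset E) : ℤ :=
  (if H \ pred τ H ⊆ F then 1 else 0) - if suc τ H \ H ⊆ F then 1 else 0

/-- A family that is closed under unions and nonempty intersections. -/
structure Rng (W : Finset (Finset E)) : Prop where
  ne : ∅ ∉ W
  nt : univ ∉ W
  un : ∀ F ∈ W, ∀ G ∈ W, F ∪ G ∈ W
  int : ∀ F ∈ W, ∀ G ∈ W, F ∩ G = ∅ ∨ F ∩ G ∈ W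

/-- The proper faces. -/
def fcs (W : Finset (Finset E)) : Finset (Finset (Finset E)) :=
  ((univ : Finset (E × E)).filter fun p => Pre W p.1 p.2 ∧ ∃ T ∈ W, p.1 ∈ T ∧ p.2 ∉ T).image
    fun p => fc W p.1 p.2

/-- The proper faces that are separated by `F`. -/
def fz (W : Finset (Finset E)) (F : Finset E) : Finset (Finset (Finset E)) :=
  ((univ : Finset (E × E)).filter fun p => Pre W p.1 p.2 ∧ p.1 ∈ F ∧ p.2 ∉ F).image
    fun p => fc W p.1 p.2

theorem mem_inf_id : j ∈ τ.inf id ↔ ∀ F ∈ τ, j ∈ F := by simp [mem_inf]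

theorem inf_mem (h : Chn τ) (hne : τ.Nonempty) : τ.inf id ∈ τ := by
  obtain ⟨F, hF, hm⟩ := exists_min_image τ card hne
  have : τ.inf id = F := Subset.antisymm (fun j hj => mem_inf_id.1 hj F hF) fun j hj =>
    mem_inf_id.2 fun G hG => by
      rcases h G hG F hF with e | e
      · exact eq_of_subset_of_card_le e (hm G hG) ▸ hj
      · exact e hj
  rwa [this]

theorem mem_suc : j ∈ suc τ F ↔ ∀ G ∈ τ, F ⊂ G → j ∈ G := by
  simp [suc, mem_inf]

theorem suc_sub (hG : G ∈ τ) (h : F ⊂ G) : suc τ F ⊆ G := fun _ hj => mem_suc.1 hj G hG h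

theorem sub_suc : F ⊆ suc τ F := fun _ hj => mem_suc.2 fun _ _ h => h.subset hj

theorem suc_mem (h : Chn τ) (F : Finset E) : suc τ F = univ ∨ (suc τ F ∈ τ ∧ F ⊂ suc τ F) := by
  rcases (τ.filter (F ⊂ ·)).eq_empty_or_nonempty with e | e
  · exact Or.inl (by rw [suc, e]; rfl)
  · exact Or.inr (mem_filter.1 (inf_mem (h.mono (filter_subset _ _)) e))

theorem ssub_suc (h : Chn τ) (hF : F ≠ univ) : F ⊂ suc τ F :=
  (suc_mem h F).elim (fun e => e ▸ ssubset_univ_iff.2 hF) And.right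

theorem suc_insert : suc (insert F τ) F = suc τ F := by
  rw [suc, filter_insert, if_neg (ssubset_irrefl F), suc]

theorem mem_lay : i ∈ lay τ j ↔ ∀ G ∈ τ, j ∈ G → i ∈ G := by
  simp [lay, mem_inf]

theorem self_lay : j ∈ lay τ j := mem_lay.2 fun _ _ h => h

theorem lay_sub (hF : F ∈ τ) : lay τ j ⊆ F ↔ j ∈ F :=
  ⟨fun h => h self_lay, fun h _ hi => mem_lay.1 hi F hF h⟩

theorem lay_sub_lay : lay τ i ⊆ lay τ j ↔ i ∈ lay τ j :=
  ⟨fun h => h self_lay, fun h _ hl => mem_lay.2 fun G hG hj =>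
    mem_lay.1 hl G hG (mem_lay.1 h G hG hj)⟩

theorem lay_univ (hj : j ∉ tp τ) : lay τ j = univ :=
  eq_univ_of_forall fun _ => mem_lay.2 fun _ hG h => absurd (sub_tp hG h) hj

theorem lay_mem (h : Chn τ) (hj : j ∈ tp τ) : lay τ j ∈ τ := by
  obtain ⟨G, hG, hj⟩ := mem_tp.1 hj
  exact (mem_filter.1 (inf_mem (h.mono (filter_subset _ _)) ⟨G, mem_filter.2 ⟨hG, hj⟩⟩)).1

theorem lay_cases (h : Chn τ) (j : E) : lay τ j ∈ τ ∨ lay τ j = univ :=
  (em (j ∈ tp τ)).imp (lay_mem h) lay_univ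

theorem lay_total (h : Chn τ) (i j : E) : lay τ i ⊆ lay τ j ∨ lay τ j ⊆ lay τ i := by
  rcases lay_cases h i with a | a
  · rcases lay_cases h j with b | b
    · exact h _ a _ b
    · exact Or.inl (b ▸ subset_univ _)
  · exact Or.inr (a ▸ subset_univ _)

theorem lay_eq (h : Chn τ) (hF : F ∈ τ) : lay τ j = F ↔ j ∈ F \ pred τ F := by
  rw [mem_sdiff]
  refine ⟨fun e => ⟨e ▸ self_lay, fun hj => ?_⟩, fun ⟨h1, h2⟩ => by_contra fun hne => ?_⟩
  · obtain ⟨G, hG, h1, h2⟩ := mem_pred.1 hj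
    exact h1.not_subset (e ▸ (lay_sub hG).2 h2)
  · exact h2 (sub_pred (lay_mem h (sub_tp hF h1)) (((lay_sub hF).2 h1).ssubset_of_ne hne) self_lay)

theorem exists_lay (h : Chn τ) (hF : F ∈ τ) (hne : F.Nonempty) : ∃ j, lay τ j = F := by
  obtain ⟨j, h1, h2⟩ := exists_of_ssubset (pred_ssub h hne)
  exact ⟨j, (lay_eq h hF).2 (mem_sdiff.2 ⟨h1, h2⟩)⟩

theorem lay_eq_suc (h : Chn τ) (hF : F ∈ τ) (hu : univ ∉ τ) :
    lay τ j = suc τ F ↔ j ∈ suc τ F \ F := by
  rw [mem_sdiff]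
  refine ⟨fun e => ⟨e ▸ self_lay, fun hj => ?_⟩, fun ⟨h1, h2⟩ => Subset.antisymm ?_ ?_⟩
  · exact (ssub_suc h fun e' => hu (e' ▸ hF)).not_subset (e ▸ (lay_sub hF).2 hj)
  · exact fun i hi => mem_suc.2 fun G hG hFG => mem_lay.1 hi G hG (mem_suc.1 h1 G hG hFG)
  · refine fun i hi => mem_lay.2 fun G hG hj => mem_suc.1 hi G hG ?_
    exact (h F hF G hG).elim (fun e => e.ssubset_of_ne fun e' => h2 (e' ▸ hj))
      fun e => absurd (e hj) h2

end Chain

/-- A rank function with a class `N` of good sets and a bad element `o`. -/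
structure PM (E : Type) [DecidableEq E] where
  r : Finset E → ℕ
  N : Finset E → Prop
  o : E
  r0 : r ∅ = 0
  mono : Monotone r
  sub : ∀ S T, r (S ∪ T) + r (S ∩ T) ≤ r S + r T
  pos : ∀ j, 0 < r {j}
  N0 : N ∅
  Nle : ∀ S T, S ⊆ T → N T → N S
  No : ¬ N {o}

namespace PM

variable {E : Type} [DecidableEq E] (P : PM E)

/-- The flats. -/
def Fl (F : Finset E) : Prop := F.Nonempty ∧ P.N F ∧ ∀ j, P.r (insert j F) = P.r F → j ∈ F

/-- The chains of flats. -/
def Ch (τ : Finset (Finset E)) : Prop := Chn τ ∧ ∀ F ∈ τ, P.Fl F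

/-- The beta invariant of a minor. -/
def be (Q F : Finset E) : ℤ :=
  ∑ S ∈ (F \ Q).powerset, (-1) ^ S.card * ((P.r F : ℤ) - P.r (Q ∪ S))

/-- The linear form of a set. -/
noncomputable def lf (F : Finset E) : RatFunc ℂ :=
  (F.card : RatFunc ℂ) * RatFunc.X + (P.r F : RatFunc ℂ)

theorem Fl.o {P : PM E} {F : Finset E} (h : P.Fl F) : P.o ∉ F := fun ho =>
  P.No (P.Nle _ _ (singleton_subset_iff.2 ho) h.2.1)

theorem r_pos {F : Finset E} (h : F.Nonempty) : 0 < P.r F := by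
  obtain ⟨j, hj⟩ := h
  exact (P.pos j).trans_le (P.mono (singleton_subset_iff.2 hj))

variable [Fintype E]

theorem Ch.univ {P : PM E} {τ : Finset (Finset E)} (h : P.Ch τ) : univ ∉ τ := fun hu =>
  (h.2 _ hu).o (mem_univ _)

theorem Ch.lay_o {P : PM E} {τ : Finset (Finset E)} (h : P.Ch τ) : lay τ P.o = Finset.univ :=
  lay_univ fun ho => by
    obtain ⟨F, hF, ho⟩ := mem_tp.1 ho
    exact (h.2 F hF).o ho

open Classical in
/-- The factor of the part outside `T`. -/
noncomputable def ci (T : Finset E) : ℤ :=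
  ∑ S ∈ (univ \ T).powerset, (-1) ^ S.card * if P.N (T ∪ S) then 1 else 0

/-- The Euler characteristic of the stratum of a chain. -/
noncomputable def coef (τ : Finset (Finset E)) : ℤ := P.ci (tp τ) * ∏ F ∈ τ, P.be (pred τ F) F

open Classical in
/-- The zeta function. -/
noncomputable def Zc : RatFunc ℂ :=
  ∑ τ ∈ univ.filter P.Ch, (P.coef τ : RatFunc ℂ) * ∏ F ∈ τ, (P.lf F)⁻¹

/-- `W` is the family of the flats on which `t` attains the bound `D * r`. -/
structure Tight (W : Finset (Finset E)) (t : E → ℤ) (D : ℕ) : Prop where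
  rng : Rng W
  fl : ∀ F ∈ W, P.Fl F
  pos : 0 < D
  le : ∀ F, P.Fl F → ∑ j ∈ F, t j ≤ D * P.r F
  eq : ∀ F, P.Fl F → (∑ j ∈ F, t j = D * P.r F ↔ F ∈ W)

def Gd (W : Finset (Finset E)) : Prop := ∃ t D, P.Tight W t D

/-- The divisibility property of `b`. -/
def Root (b : Polynomial ℂ) : Prop :=
  ∀ (W τ : Finset (Finset E)) (k : ℕ) (la : ℂ), P.Gd W → Mx W τ → τ.card = k + 1 →
    (∀ F ∈ W, (P.r F : ℂ) = la * F.card) → (Polynomial.X + Polynomial.C la) ^ (k + 1) ∣ b

end PM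

end Pool.Agent.MP_ee8c61_ag.H95T
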