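import Pool.Agent.MP_ee8c61_ag.H59.SpecC
import Pool.Agent.MP_ee8c61_ag.H95G.Defs

/-! The main argument on a simplicial complex of divisors: definitions and statements of the
steps. -/

namespace Pool.Agent.MP_ee8c61_ag.H95T

open H59 H59.Sys Finset

/-- The tools that are already proved. -/
structure EK : Prop where
  car : SCar
  ap : SAp
  cx : SCx
  wt : SWt
  cone : SCone
  filt : SFilt
  kx : SKx
  fo : SFo
  fd : SFd
  la : SLa
  det : SDet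
  fr : SFr
  lo : SLo
  lm : SLm
  ho : SHo
  pt : SPt
  reg : SReg
  inter : SInter
  val : SVal
  adm : SAdm
  nv : SNV
  th : STh
  gr : SGr
  vy : SVY
  eta : SEta

section Lat

variable {G J : Type} [AddCommGroup G] [LinearOrder J]

/-- The family with zero at the empty set. -/
def sk (F : Finset J → Lat G) : Finset J → Lat G := fun τ => if τ = ∅ then ⊥ else F τ

/-- The family that is `K` on the faces of the members of `B` and `L` elsewhere. -/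
def bd (B : Finset (Finset J)) (L : Lat G) (K : Finset J → Lat G) : Finset J → Lat G :=
  fun τ => if ∃ V ∈ B, τ ⊆ V then K τ else L

/-- The simplicial differential on top of `D`. -/
abbrev ks (D : Op G) (W : Finset J) : Op (Ch J G) := kos D (fun _ => 1) W

/-- The residue cochain. -/
def yv (H : J → Op G) (ω : G) (W : Finset J) (k : ℕ) : Ch J G := fun s =>
  if s ⊆ W ∧ s.card = k then ∑ i ∈ s, sgn i s • ap H (s.erase i) ω else 0

omit [AddCommGroup G] in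
/-- The minor of the vectors `P i`, `i ∈ ρ`, without the coordinate `0`. -/
noncomputable def Dt {k : ℕ} (P : J → Fin (k + 1) → ℂ) (ρ : Finset J) : ℂ :=
  ap (fun i => we (P i)) ρ (vac (k + 1) 1) (univ.erase 0)

end Lat

section Comb

variable {ι J : Type}

/-- All members of `τ` are labelled in one chart. -/
def Al (lb : ι → J → Prop) (τ : Finset J) : Prop := ∃ c, ∀ i ∈ τ, lb c i

/-- The simplices in `W` form a balanced complex of dimension `k` relative to the faces `B`. -/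
structure Comb (lb : ι → J → Prop) (W : Finset J) (B : Finset (Finset J)) (k : ℕ)
    (U : J → Fin (k + 1) → ℂ) : Prop where
  top : ∀ τ ⊆ W, Al lb τ → τ.card ≤ k + 1
  bd : ∀ V ∈ B, ∀ τ ⊆ V, Al lb τ → τ.card ≤ k
  bal : ∀ ρ ⊆ W, ρ.Nonempty → ρ.card = k → Al lb ρ → (∀ V ∈ B, ¬ ρ ⊆ V) → ∀ Λ : Finset J,
    (∀ i, i ∈ Λ ↔ i ∈ W ∧ i ∉ ρ ∧ ∃ c, lb c i ∧ ∀ j ∈ ρ, lb c j) →
    ∑ i ∈ Λ, U i ∈ Submodule.span ℂ (U '' ρ)
  ex : ∃ τ ⊆ W, Al lb τ ∧ τ.card = k + 1 ∧ LinearIndepOn ℂ U τ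

end Comb

section Sys

variable {Ω ι J : Type} {n m k : ℕ} [CommRing Ω] [Algebra ℂ Ω] (S : Sys ℂ Ω ι J n)

/-- The divisor `j` meets the chart `c`. -/
def Lb (c : ι) (j : J) : Prop := S.lab c j ≠ none

/-- The logarithmic differential. -/
def dl (g : Ωˣ) : Fin n → Ω := fun l => ((g⁻¹ : Ωˣ) : Ω) * S.R l g

/-- The top coefficient after the wedge product with the logarithmic differentials. -/
def ps (g : Fin (k + 1) → Ωˣ) (ζ : Fm n Ω) : Ω :=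
  ap (fun l => we (dl S (g l))) (univ.erase 0) ζ univ

/-- The functions that vanish on a divisor of `W` in an intersection of charts that it meets. -/
def NS (W : Finset J) : Submodule ℂ Ω :=
  Submodule.span ℂ {h | ∃ (σ : Finset ι) (c : ι) (i : J) (h' : Ω), c ∈ σ ∧ i ∈ W ∧
    (∀ c' ∈ σ, Lb S c' i) ∧ h' ∈ S.AA σ ∧ h = S.η c i * h'}

variable [Fintype J]

/-- The Jacobian has order `kk`. -/
def DetOK (kk : J → ℕ) : Prop :=
  ∀ c, ∃ U : Ωˣ, S.IsU c U ∧ (Matrix.of fun l i => S.D c i (S.r l)).det =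
    ((U * S.mon c fun j => (kk j : ℤ) : Ωˣ) : Ω)

/-- The function `g l` has order `u l`. -/
def OrdOK (g : Fin (k + 1) → Ωˣ) (u : Fin (k + 1) → J → ℕ) : Prop :=
  ∀ l c, S.IsU c (g l * S.mon c fun j => -(u l j : ℤ))

/-- The hypotheses of the main theorem. -/
structure TIn (x : Fin m → Ω) (a kk : J → ℕ) (la : ℂ) (c0 : J → ℤ) (W : Finset J)
    (B : Finset (Finset J)) (Fc : Finset J → Prop) (q : MvPolynomial (Fin m) ℂ) (s : Ω)
    (g : Fin (k + 1) → Ωˣ) (u : Fin (k + 1) → J → ℕ) : Prop where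
  le : ∀ j, c0 j ≤ kk j + 1
  zero : ∀ j, a j = 0 → c0 j ≤ 0
  lab : ∀ c j, Lb S c j → c0 j = kk j + 1
  res : ∀ i ∈ W, a i ≠ 0 ∧ (c0 i : ℂ) = la * a i
  inv : MvPolynomial.aeval x q * s = 1
  adm0 : S.Adm (Matrix.vecCons s x) c0
  adm : ∀ V, Fc V → V ⊆ W ∧ S.Adm (Matrix.vecCons s x) (c0 + ind V)
  top : Fc W
  inter : ∀ V V' V'', Fc V → Fc V' → (∀ i, i ∈ V'' ↔ i ∈ V ∧ i ∈ V') → Fc V''
  bd : ∀ V ∈ B, Fc V
  ord : OrdOK S g u
  u0 : ∀ i ∈ W, u 0 i = a i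
  comb : Comb (Lb S) W B k fun i l => (u l i : ℂ)
  non : (1 : Ω) ∉ NS S W

variable [LinearOrder ι] [Inhabited ι]

omit [Fintype J] in
/-- The normalised homotopies. -/
noncomputable def Hs (a : J → ℕ) (i : J) : Op (Ch ι (Fm n Ω)) :=
  mu _ (algebraMap ℂ Ω (a i : ℂ)⁻¹) * S.hh i

variable [Fintype ι] [LinearOrder J]

/-- The vanishing statements that the main argument uses. -/
structure TVan (x : Fin m → Ω) (f : Ωˣ) (a : J → ℕ) (c0 : J → ℤ) (W : Finset J)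
    (B : Finset (Finset J)) : Prop where
  v1 : ∀ u : ℕ, Van (cech (we (S.th x f))) ((S.px m).T {c0 - u • fun j => (a j : ℤ)})
    ((S.px m).T {c0}) n
  v2 : Van (ks (cech (we (S.th x f))) W) (kl W (sk fun _ => (S.px m).T {c0}))
    (kl W (sk fun s => (S.px m).T (KJ c0 s))) (n + 1)
  v3 : Van (ks (cech (we (S.th x f))) W) (kl W (sk fun _ => (S.px m).T {c0}))
    (kl W (sk (bd B ((S.px m).T {c0}) fun s => (S.px m).T (KJ c0 s)))) (n + 1)

end Sys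

/-! ### Homological algebra -/

/-- Exactness of the complex of the strata of a simplex. -/
def SEx : Prop :=
  ∀ (G J : Type) [AddCommGroup G] [LinearOrder J] (D : Op G) (L : Lat G) (K P : Finset J → Lat G)
    (V : Finset J) (j : ℤ), (∀ s, Pair D L (K s)) → (∀ s, Pair D L (P s)) → Monotone K →
    Antitone P → K ∅ = ⊥ → P ∅ = L → (∀ i, P {i} ≤ K {i}) →
    (∀ i U β, i ∉ U → i ∉ β → Disjoint U β → P U ⊓ K (insert i β) ≤ K β ⊔ P (insert i U)) →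
    Van D L (P V) (j - 1) → Van (ks D V) (kl V (sk fun _ => L)) (kl V (sk K)) j

/-- Mayer and Vietoris. -/
def SMv : Prop :=
  ∀ (G J : Type) [AddCommGroup G] [LinearOrder J] (D : Op G) (L : Lat G) (K : Finset J → Lat G)
    (W : Finset J) (Fc : Finset J → Prop) (Q : ℤ), (∀ s, Pair D L (K s)) → Monotone K →
    (∀ V V', Fc V → Fc V' → Fc (V ∩ V')) →
    (∀ V, Fc V → V ⊆ W ∧ ∀ j ≤ Q, Van (ks D V) (kl V (sk fun _ => L)) (kl V (sk K)) j) →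
    ∀ B : Finset (Finset J), (∀ V ∈ B, Fc V) →
    ∀ j ≤ Q, Van (ks D W) (kl W (sk fun _ => L)) (kl W (sk (bd B L K))) j

/-- The residue cochain is a coboundary. -/
def SMu : Prop :=
  ∀ (Ω G J : Type) [CommRing Ω] [Algebra ℂ Ω] [AddCommGroup G] [Module Ω G] [LinearOrder J]
    (D : Op G) (t : Ω) (H : J → Op G) (L : Lat G) (K : Finset J → Lat G) (W : Finset J) (q : ℤ)
    (ω η : G) (u : Polynomial ℂ) (k : ℕ), (∀ s, Pair D L (K s)) → Monotone K →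
    (∀ g ∈ Algebra.adjoin ℂ {t}, Commute (mu G g) D ∧ (∀ i, Commute (mu G g) (H i)) ∧
      Keeps (mu G g) L L ∧ ∀ s, Keeps (mu G g) (K s) (K s)) →
    (∀ i, Maps (H i) L L (-1)) → (∀ i s, Maps (H i) (K s) (K s) (-1)) →
    (∀ i ∈ W, ∀ j, ∀ x ∈ L j, D (H i x) + H i (D x) - t • x ∈ K {i} j) →
    ω ∈ L q → D ω = 0 → η ∈ L (q - 1) → u.eval 0 ≠ 0 →
    (∀ i ∈ W, (t ^ k * Polynomial.aeval t u) • ω - D η ∈ K {i} q) →
    (∀ s ⊆ W, k + 1 < s.card → L ≤ K s) →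
    ∃ Z ∈ kl W (sk fun _ => L) q, yv H ω W (k + 1) - ks D W Z ∈ kl W (sk K) (q + 1)

/-- Passage to the graded differential and to the interior. -/
def SLw : Prop :=
  ∀ (G J : Type) [AddCommGroup G] [LinearOrder J] [Fintype J] (π : ℤ → Op G) (D0 D1 : Op G)
    (L : Lat G) (K : Finset J → Lat G) (W : Finset J) (B : Finset (Finset J)) (y Z : Ch J G) (q w : ℤ),
    (∀ s, WOK π D0 D1 L (K s)) → Monotone K → (∀ s, π w (y s) = y s) →
    Z ∈ kl W (sk fun _ => L) q → y - ks (D0 + D1) W Z ∈ kl W (sk K) (q + 1) →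
    y ∈ kl W (sk (bd B L K)) (q + 1) →
    Van (ks D0 W) (kl W (sk fun _ => L)) (kl W (sk K)) q →
    Van (ks D0 W) (kl W (sk fun _ => L)) (kl W (sk (bd B L K))) q →
    ∃ Z' ∈ kl W (sk (bd B L K)) q, y - ks D0 W Z' ∈ kl W (sk K) (q + 1)

/-- The scalar double complex. -/
def SDc : Prop :=
  ∀ (ι J : Type) [Fintype ι] [LinearOrder ι] [Nonempty ι] [LinearOrder J] (lb : ι → J → Prop)
    (W : Finset J) (B : Finset (Finset J)) (k : ℕ) (z : Ch J (Ch ι ℂ)) (v : Finset J → ℂ),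
    (∀ τ ⊆ W, Al lb τ → τ.card ≤ k + 1) → (∀ V ∈ B, ∀ τ ⊆ V, Al lb τ → τ.card ≤ k) →
    (∀ τ σ, z τ σ ≠ 0 → τ ⊆ W ∧ τ.Nonempty ∧ σ.Nonempty ∧ τ.card + σ.card = k + 1) →
    (∀ V ∈ B, ∀ τ ⊆ V, ∀ σ, (∀ c ∈ σ, ∀ i ∈ τ, lb c i) → z τ σ = 0) →
    (∀ τ ⊆ W, τ.Nonempty → ∀ σ : Finset ι, σ.Nonempty → (∀ c ∈ σ, ∀ i ∈ τ, lb c i) →
      ks (cech 0) W z τ σ = if τ.card = k + 1 ∧ σ.card = 1 then v τ else 0) →
    ∃ w : Finset J → ℂ, w ∅ = 0 ∧ (∀ V ∈ B, ∀ ρ ⊆ V, Al lb ρ → w ρ = 0) ∧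
      ∀ τ ⊆ W, Al lb τ → τ.card = k + 1 → v τ = ∑ i ∈ τ, sgn i τ • w (τ.erase i)

/-- The determinant is not a relative coboundary. -/
def SPr : Prop :=
  ∀ (ι J : Type) [LinearOrder J] (lb : ι → J → Prop) (W : Finset J) (B : Finset (Finset J))
    (k : ℕ) (U : J → Fin (k + 1) → ℂ) (a : J → ℕ) (w : Finset J → ℂ) (c : ℂ),
    Comb lb W B k U → (∀ i ∈ W, a i ≠ 0 ∧ U i 0 = a i) → c ≠ 0 → w ∅ = 0 →
    (∀ V ∈ B, ∀ ρ ⊆ V, Al lb ρ → w ρ = 0) →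
    ¬ ∀ τ ⊆ W, Al lb τ → τ.card = k + 1 →
      c * ∑ i ∈ τ, sgn i τ • Dt (fun j => (a j : ℂ)⁻¹ • U j) (τ.erase i) =
        ∑ i ∈ τ, sgn i τ • w (τ.erase i)

/-! ### Systems of charts -/

/-- Intersections of lattices, and strata that are empty. -/
def SLt : Prop :=
  All fun {_ _ _ J} _ _ _ _ _ S =>
    (∀ c τ, (∀ a, ∃ i ∈ τ, S.lab a i = none) → S.T {c} ≤ S.T (KJ c τ)) ∧
    ∀ (κ : Type) [DecidableEq J], S.Reg → ∀ c i U β, i ∉ U → i ∉ β → Disjoint U β →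
      (S.pol κ).T {c + ind U} ⊓ (S.pol κ).T (KJ c (insert i β)) ≤
        (S.pol κ).T (KJ c β) ⊔ (S.pol κ).T {c + ind (insert i U)}

/-- Vanishing on a principal open set. -/
def SKX : Prop :=
  ∀ (Ω ι J : Type) (n m : ℕ) [CommRing Ω] [IsDomain Ω] [Algebra ℂ Ω] [Fintype J] [Fintype ι]
    [LinearOrder ι] [Inhabited ι] (S : Sys ℂ Ω ι J n) (x : Fin m → Ω)
    (q : MvPolynomial (Fin m) ℂ) (s : Ω) (c : J → ℤ) (x0 : Fin m → ℂ), S.Good →
    MvPolynomial.aeval x q * s = 1 → S.Adm (Matrix.vecCons s x) c → S.NV x x0 c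

/-- The constant coefficient. -/
def STr : Prop :=
  AllC fun {Ω ι J n m} _ _ _ _ _ _ S x f a => ∀ [LinearOrder J] (c : J → ℤ) (W : Finset J)
    (B : Finset (Finset J)) (k : ℕ) (q : ℤ) (Z : Ch J (Ch ι (Fm n (PX m Ω)))),
    Z ∈ kl W (sk (bd B ((S.px m).T {c}) fun s => (S.px m).T (KJ c s))) q →
    yv (Hs (S.px m) a) (om ι n (PX m Ω)) W k - ks (cech (we (S.th x f))) W Z ∈
      kl W (sk fun s => (S.px m).T (KJ c s)) (q + 1) →
    ∃ Z0 ∈ kl W (sk (bd B (S.T {c}) fun s => S.T (KJ c s))) q,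
      yv (Hs S a) (om ι n Ω) W k - ks (cech 0) W Z0 ∈ kl W (sk fun s => S.T (KJ c s)) (q + 1)

/-- The functional on the lattices of the strata. -/
def SPs : Prop :=
  ∀ (Ω ι J : Type) (n k : ℕ) [CommRing Ω] [Algebra ℂ Ω] [Fintype J] [Fintype ι] [LinearOrder ι]
    [Inhabited ι] (S : Sys ℂ Ω ι J n) (kk : J → ℕ) (c0 : J → ℤ) (W : Finset J)
    (g : Fin (k + 1) → Ωˣ) (u : Fin (k + 1) → J → ℕ), DetOK S kk → OrdOK S g u →
    (∀ c j, Lb S c j → c0 j = kk j + 1) →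
    (∀ (p : ℤ) (ζ : Fm n Ω), pd n p ζ = ζ → p + k ≠ n → ps S g ζ = 0) ∧
    ∀ τ ⊆ W, ∀ σ : Finset ι, (∀ c ∈ σ, ∀ i ∈ τ, Lb S c i) → ∀ p, ∀ ζ ∈ S.lm (KJ c0 τ) σ p,
      ps S g ζ ∈ NS S W

/-- The functional on the contractions of the top form. -/
def SPv : Prop :=
  ∀ (Ω ι J : Type) (n k : ℕ) [CommRing Ω] [Algebra ℂ Ω] [Fintype J] [Fintype ι] [LinearOrder ι]
    [Inhabited ι] [LinearOrder J] (S : Sys ℂ Ω ι J n) (a : J → ℕ) (W : Finset J)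
    (g : Fin (k + 1) → Ωˣ) (u : Fin (k + 1) → J → ℕ), OrdOK S g u →
    ∃ ε : ℂ, ε ≠ 0 ∧ ∀ c, ∀ ρ ⊆ W, ρ.card = k → (∀ i ∈ ρ, Lb S c i) →
      ps S g (ap (Hs S a) ρ (om ι n Ω) {c}) -
        algebraMap ℂ Ω (ε * Dt (fun j => (a j : ℂ)⁻¹ • fun l => (u l j : ℂ)) ρ) ∈ NS S W

/-- The residue cochain is not a coboundary of an interior cochain. -/
def SSc : Prop :=
  ∀ (Ω ι J : Type) (n k : ℕ) [CommRing Ω] [Algebra ℂ Ω] [Fintype J] [Fintype ι] [LinearOrder ι]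
    [Inhabited ι] [LinearOrder J] (S : Sys ℂ Ω ι J n) (a kk : J → ℕ) (c0 : J → ℤ) (W : Finset J)
    (B : Finset (Finset J)) (g : Fin (k + 1) → Ωˣ) (u : Fin (k + 1) → J → ℕ), DetOK S kk →
    OrdOK S g u → (∀ c j, Lb S c j → c0 j = kk j + 1) → (∀ i ∈ W, a i ≠ 0 ∧ u 0 i = a i) →
    (∀ V ∈ B, V ⊆ W) → Comb (Lb S) W B k (fun i l => (u l i : ℂ)) → (1 : Ω) ∉ NS S W →
    ∀ Z ∈ kl W (sk (bd B (S.T {c0}) fun s => S.T (KJ c0 s))) (n + 1),
      yv (Hs S a) (om ι n Ω) W (k + 1) - ks (cech 0) W Z ∉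
        kl W (sk fun s => S.T (KJ c0 s)) (n + 1 + 1)

/-- The vanishing statements hold. -/
def SVn : Prop :=
  ∀ (Ω ι J : Type) (n m k : ℕ) [CommRing Ω] [IsDomain Ω] [Algebra ℂ Ω] [Fintype J] [Fintype ι]
    [LinearOrder ι] [Inhabited ι] [LinearOrder J] (S : Sys ℂ Ω ι J n) (x : Fin m → Ω) (f : Ωˣ)
    (a kk : J → ℕ) (b : Polynomial ℂ) la c0 W B Fc q s (g : Fin (k + 1) → Ωˣ) u,
    S.MainIn x f a kk b → TIn S x a kk la c0 W B Fc q s g u → TVan S x f a c0 W B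

/-- The main argument from the vanishing statements. -/
def SM0 : Prop :=
  ∀ (Ω ι J : Type) (n m k : ℕ) [CommRing Ω] [IsDomain Ω] [Algebra ℂ Ω] [Fintype J] [Fintype ι]
    [LinearOrder ι] [Inhabited ι] [LinearOrder J] (S : Sys ℂ Ω ι J n) (x : Fin m → Ω) (f : Ωˣ)
    (a kk : J → ℕ) (b : Polynomial ℂ) la c0 W B Fc q s (g : Fin (k + 1) → Ωˣ) u,
    S.MainIn x f a kk b → TIn S x a kk la c0 W B Fc q s g u → TVan S x f a c0 W B →
    (Polynomial.X + Polynomial.C la) ^ (k + 1) ∣ b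

/-- The main theorem. -/
def SMT : Prop :=
  ∀ (Ω ι J : Type) (n m k : ℕ) [CommRing Ω] [IsDomain Ω] [Algebra ℂ Ω] [Fintype J] [Fintype ι]
    [Nonempty ι] (S : Sys ℂ Ω ι J n) (x : Fin m → Ω) (f : Ωˣ)
    (a kk : J → ℕ) (b : Polynomial ℂ) la c0 W B Fc q s (g : Fin (k + 1) → Ωˣ) u,
    S.MainIn x f a kk b → TIn S x a kk la c0 W B Fc q s g u →
    (Polynomial.X + Polynomial.C la) ^ (k + 1) ∣ b

/-- The main theorem in a field. -/
def SMF : Prop :=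
  ∀ (K ι J : Type) (n m k : ℕ) [Field K] [Algebra ℂ K] [Fintype J] [Fintype ι]
    [Nonempty ι] (S : Sys ℂ K ι J n) (x : Fin m → K) (f : Kˣ)
    (a kk : J → ℕ) (b : Polynomial ℂ) la c0 W B Fc q s (g : Fin (k + 1) → Kˣ) u,
    H95G.MainK S x f a kk b → TIn S x a kk la c0 W B Fc q s g u →
    (Polynomial.X + Polynomial.C la) ^ (k + 1) ∣ b

/-! ### The tasks -/

def OfEx : Prop := EK → SEx
def OfMv : Prop := EK → SMv
def OfMu : Prop := EK → SMu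
def OfLw : Prop := EK → SLw
def OfDc : Prop := EK → SDc
def OfPr : Prop := EK → SPr
def OfLt : Prop := EK → SLt
def OfKX : Prop := EK → SKX
def OfTr : Prop := EK → STr
def OfPs : Prop := EK → SPs
def OfPv : Prop := EK → SPv
def OfSc : Prop := EK → SPs → SPv → SDc → SPr → SSc
def OfVn : Prop := EK → SEx → SMv → SLt → SKX → SVn
def OfM0 : Prop := EK → SMu → SLw → SLt → STr → SSc → SM0
def OfMF : Prop := SMT → SMF

structure ERows : Prop where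
  Ex : OfEx
  Mv : OfMv
  Mu : OfMu
  Lw : OfLw
  Dc : OfDc
  Pr : OfPr
  Lt : OfLt
  KX : OfKX
  Tr : OfTr
  Ps : OfPs
  Pv : OfPv
  Sc : OfSc
  Vn : OfVn
  M0 : OfM0
  MF : OfMF

theorem smf_of (r : ERows) (e : EK) : SMF := by
  refine r.MF fun Ω ι J n m k _ _ _ _ _ _ S x f a kk b la c0 W B Fc q s g u h1 h2 => ?_
  let _ : LinearOrder ι := IsWellOrder.linearOrder WellOrderingRel
  let _ : LinearOrder J := IsWellOrder.linearOrder WellOrderingRel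
  let _ : Inhabited ι := Classical.inhabited_of_nonempty inferInstance
  exact r.M0 e (r.Mu e) (r.Lw e) (r.Lt e) (r.Tr e) (r.Sc e (r.Ps e) (r.Pv e) (r.Dc e) (r.Pr e))
    Ω ι J n m k S x f a kk b la c0 W B Fc q s g u h1 h2
    (r.Vn e (r.Ex e) (r.Mv e) (r.Lt e) (r.KX e) Ω ι J n m k S x f a kk b la c0 W B Fc q s g u h1 h2)

end Pool.Agent.MP_ee8c61_ag.H95T
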