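import Pool.Agent.MP_ee8c61_ag.H95T.CDefs
import Pool.Agent.MP_ee8c61_ag.H95T.ESpec

/-! Combinatorial steps. -/

namespace Pool.Agent.MP_ee8c61_ag.H95T

open Finset

/-- A property of all finite sets. -/
def AllE (Q : ∀ (E : Type) [DecidableEq E] [Fintype E], Prop) : Prop :=
  ∀ (E : Type) [DecidableEq E] [Fintype E], Q E

/-- The greedy vector of a chain. -/
def SGd : Prop := AllE fun E _ _ => ∀ (P : PM E) (C : Finset (Finset E)), Chn C →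
  ∃ g : E → ℕ, (∀ S, ∑ j ∈ S, g j ≤ P.r S) ∧ ∀ S ∈ C, ∑ j ∈ S, g j = P.r S

/-- The members of a ring family are unions of the blocks of a chain of the largest size; proper
faces have shorter chains. -/
def SBl : Prop := AllE fun E _ _ => ∀ W : Finset (Finset E), Rng W →
  (∀ τ, Mx W τ → ∀ T ∈ W, T ⊆ tp τ ∧ ∀ i j, lay τ i = lay τ j → i ∈ T → j ∈ T) ∧
  ∀ j j' d, Pre W j j' → (∃ T ∈ W, j ∈ T ∧ j' ∉ T) → Bd W (d + 1) →
    Rng (fc W j j') ∧ Bd (fc W j j') d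

/-- The link of a chain of corank one. -/
structure Rdg {E : Type} [DecidableEq E] [Fintype E] (W ρ : Finset (Finset E)) : Prop where
  two : ∀ H ∈ lk W ρ, ∀ H' ∈ lk W ρ, H' ≠ H → H' = pred ρ H ∪ (suc ρ H \ H) ∧ suc ρ H ∈ ρ ∧
    pred ρ H' = pred ρ H ∧ suc ρ H' = suc ρ H
  sub : ∀ H ∈ lk W ρ, ∀ j ∈ H \ pred ρ H, ∀ j' ∈ suc ρ H \ H, ρ ⊆ fc W j j'
  one : ∀ H ∈ lk W ρ, ∀ j ∈ H \ pred ρ H, ∀ j' ∈ suc ρ H \ H,
    (Pre W j j' ↔ ∀ H' ∈ lk W ρ, H' = H)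
  face : ∀ j j', (∃ T ∈ W, j ∈ T ∧ j' ∉ T) → ρ ⊆ fc W j j' →
    ∃ H ∈ lk W ρ, j ∈ H \ pred ρ H ∧ j' ∈ suc ρ H \ H
  cls : ∀ H ∈ lk W ρ, ∀ T ∈ W, (∀ i ∈ H \ pred ρ H, ∀ j ∈ H \ pred ρ H, i ∈ T → j ∈ T) ∧
    ∀ i ∈ suc ρ H \ H, ∀ j ∈ suc ρ H \ H, i ∈ T → j ∈ T

def SRg : Prop := AllE fun E _ _ => ∀ W ρ : Finset (Finset E), Rng W → ρ ⊆ W → Chn ρ →
  Bd W (ρ.card + 1) → Rdg W ρ

/-- The chains in a ring family form a balanced complex. -/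
def SCb : Prop := AllE fun E _ _ => ∀ (ι : Type) (lb : ι → Finset E → Prop)
  (W τ : Finset (Finset E)) (k : ℕ), Rng W → (∀ ρ ⊆ W, Al lb ρ ↔ Chn ρ) → Mx W τ →
  τ.card = k + 1 → ∃ jj : Fin k → E, Comb lb W (fcs W) k fun F l => (uu jj l F : ℂ)

/-- The choice of the polarization. -/
def SCl : Prop := AllE fun E _ _ => ∀ (P : PM E) (W : Finset (Finset E)) (ψ : E → ℤ)
  (g : Finset E → ℤ), P.Gd W → (∀ F ∈ W, 0 ≤ ∑ j ∈ F, ψ j) → (∀ F, 0 ≤ g F) →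
  ∃ (K μ : ℕ) (T : E → ℤ), 0 < μ ∧ ∀ F, P.Fl F →
    ⌈((K * P.r F + ∑ j ∈ F, T j - g F : ℤ) : ℚ) / μ⌉ =
      P.r F + if F ∈ W ∧ ∑ j ∈ F, ψ j = 0 then 1 else 0

/-- The beta invariant vanishes if there is a separator. -/
def SZd : Prop := AllE fun E _ _ => ∀ (P : PM E) (Q F A : Finset E), Q ⊆ F → A ⊆ F \ Q →
  A.Nonempty → A ≠ F \ Q → P.r (Q ∪ A) + P.r (F \ A) = P.r F + P.r Q → P.be Q F = 0

/-- A chain with connected minors is a largest chain of a tight family. -/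
def SZa : Prop := AllE fun E _ _ => ∀ (P : PM E) (τ : Finset (Finset E)), P.Ch τ →
  (∀ F ∈ τ, P.be (pred τ F) F ≠ 0) → ∃ W, P.Gd W ∧ Mx W τ

/-- The family is determined by the chain. -/
def SZb : Prop := AllE fun E _ _ => ∀ (P : PM E) (W W' τ : Finset (Finset E)), P.Gd W → P.Gd W' →
  Mx W τ → Mx W' τ → W = W'

/-- The coefficient depends only on the family. -/
def SZc : Prop := AllE fun E _ _ => ∀ (P : PM E) (W τ τ' : Finset (Finset E)), P.Gd W →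
  Mx W τ → Mx W τ' → P.coef τ = P.coef τ'

/-- The expansion of an indicator function. -/
def SE1 : Prop := AllE fun E _ _ => ∀ W τ : Finset (Finset E), Rng W → Mx W τ → ∀ F ∈ W, ∀ j,
  ∑ H ∈ τ with j ∈ H, cc τ F H = if j ∈ F then 1 else 0

/-- The sum over a link. -/
def SE2 : Prop := AllE fun E _ _ => ∀ W ρ : Finset (Finset E), Rng W → ρ ⊆ W → Chn ρ →
  Bd W (ρ.card + 1) → ∀ F ∈ W,
  ∑ H ∈ lk W ρ, cc ρ F H = ((fz W F).filter (ρ ⊆ ·)).card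

/-- The recursion of Stokes type. -/
def SE3 : Prop := AllE fun E _ _ => ∀ (K : Type) [Field K] (W : Finset (Finset E)) (d : ℕ)
  (l : Finset E → K) (w : E → K), Rng W → Bd W (d + 1) → (∀ F ∈ W, l F ≠ 0) →
  (∀ F ∈ W, l F = ∑ j ∈ F, w j) → ∀ F ∈ W, l F * LL l W (d + 1) = ∑ V ∈ fz W F, LL l V d

/-- The sum over a tight family has no pole after multiplication by `b`. -/
def SE4 : Prop := AllE fun E _ _ => ∀ (P : PM E) (b : Polynomial ℂ), P.Root b → ∀ (la : ℂ) (d : ℕ)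
  (W : Finset (Finset E)), P.Gd W → Bd W d → ∃ p q : Polynomial ℂ, q.eval (-la) ≠ 0 ∧
    algebraMap _ (RatFunc ℂ) (b * q) * LL P.lf W d = algebraMap _ (RatFunc ℂ) p

/-- The product of `b` and the zeta function is a polynomial. -/
def SZ : Prop := AllE fun E _ _ => ∀ (P : PM E) (b : Polynomial ℂ), P.Root b →
  ∃ Q : Polynomial ℂ, algebraMap _ (RatFunc ℂ) b * P.Zc = algebraMap _ (RatFunc ℂ) Q

/-- Sums over transversals. -/
def STv : Prop := ∀ (α β : Type) [Fintype α] [DecidableEq α] [DecidableEq β] (L : α → β)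
  (τ : Finset β) (h : α → ℤ) (T : Finset (Finset α)), (∀ Λ, Λ ∈ T ↔ Set.BijOn L Λ τ) →
  ∑ Λ ∈ T, ∏ p ∈ Λ, h p = ∏ G ∈ τ, ∑ p with L p = G, h p

open Classical in
/-- The alternating sum factors over the blocks. -/
def SPd : Prop := AllE fun E _ _ => ∀ (P : PM E) (τ : Finset (Finset E)), P.Ch τ →
  ∑ S : Finset E, (-1) ^ S.card * ((if P.N (tp τ ∪ S) then 1 else 0) *
    ∏ F ∈ τ, ((P.r F : ℤ) - P.r (pred τ F ∪ S ∩ F))) = P.coef τ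

/-- The vectors that end at a given place. -/
def SC0 : Prop := ∀ (n : ℕ) (U : Submodule ℂ (Fin n → ℂ)) (T : Finset (Fin n)),
  (∀ p, p ∈ T ↔ ∃ c ∈ U, c p = 1 ∧ ∀ q, p < q → c q = 0) → T.card = Module.finrank ℂ U

def OfGd : Prop := SGd
def OfBl : Prop := SBl
def OfRg : Prop := SBl → SRg
def OfCb : Prop := SBl → SRg → SCb
def OfCl : Prop := SCl
def OfZd : Prop := SZd
def OfZa : Prop := SGd → SZd → SZa
def OfZb : Prop := SBl → SZb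
def OfZc : Prop := SBl → SZc
def OfE1 : Prop := SBl → SE1
def OfE2 : Prop := SRg → SE2
def OfE3 : Prop := SE1 → SE2 → SE3
def OfE4 : Prop := SBl → SE3 → SE4
def OfZ : Prop := SZa → SZb → SZc → SE4 → SZ
def OfTv : Prop := STv
def OfPd : Prop := SPd
def OfC0 : Prop := SC0

structure CRows : Prop where
  Gd : OfGd
  Bl : OfBl
  Rg : OfRg
  Cb : OfCb
  Cl : OfCl
  Zd : OfZd
  Za : OfZa
  Zb : OfZb
  Zc : OfZc
  E1 : OfE1
  E2 : OfE2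
  E3 : OfE3
  E4 : OfE4
  Z : OfZ
  Tv : OfTv
  Pd : OfPd
  C0 : OfC0

theorem CRows.z (r : CRows) : SZ :=
  r.Z (r.Za r.Gd r.Zd) (r.Zb r.Bl) (r.Zc r.Bl)
    (r.E4 r.Bl (r.E3 (r.E1 r.Bl) (r.E2 (r.Rg r.Bl))))

theorem CRows.cb (r : CRows) : SCb := r.Cb r.Bl (r.Rg r.Bl)

end Pool.Agent.MP_ee8c61_ag.H95T
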