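import Pool.Agent.MP_ee8c61_ag.H95T.ASpec

/-! Row `Ad`: the admissible exponents. -/

namespace Pool.Agent.MP_ee8c61_ag.H95T

open H95 Finset MvPolynomial

open Classical in
theorem rowAd : OfAd := by
  intro hCl hPl n r E K _ _ _ _ A x ℓ fs j₁ c S hS W V ψ hW hψ hV
  obtain ⟨g, g0, hg⟩ := hPl n r E K A x ℓ fs j₁ c S hS
  obtain ⟨k, μ, T, μ0, h⟩ := hCl E A.pm W ψ g hW hψ g0
  obtain ⟨ρ, hρ⟩ := hg k T
    (fun F => if A.pm.Fl F then k * A.pm.r F + ∑ j ∈ F, T j - g F else μ * A.pm.r F)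
    fun F hF => if_pos hF
  refine ⟨_, ρ, μ, μ0, hρ, funext fun F => ?_⟩
  rw [Pi.add_apply, H59.Sys.ind_apply, H59.Sys.cl]
  by_cases hF : A.pm.Fl F
  · rw [if_pos hF, h F hF]
    exact congrArg _ (if_congr (hV F) rfl rfl)
  · obtain ⟨t, D, ht⟩ := hW
    have h0 : (μ : ℚ) ≠ 0 := by exact_mod_cast μ0.ne'
    rw [if_neg hF, if_neg fun a => hF (ht.fl F ((hV F).1 a).1), add_zero, Int.cast_mul,
      Int.cast_natCast, mul_div_cancel_left₀ _ h0, Int.ceil_intCast]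

end Pool.Agent.MP_ee8c61_ag.H95T
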