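import Pool.Agent.MP_ee8c61_ag.H95T.ASpec

/-! The Euler characteristic of an affine subspace. -/

namespace Pool.Agent.MP_ee8c61_ag.H95T

open H95 Finset MvPolynomial

namespace AfX

theorem con_univ {ι : Type} : H36.Con (Set.univ : Set (ι → ℂ)) := by
  simpa using H36.Con.zero (0 : MvPolynomial ι ℂ)

theorem full {χ : H36.Chi} (h : H36.IsEuler χ) (h0 : χ (Fin 0) Set.univ = 1) (d : ℕ) :
    χ (Fin d) Set.univ = 1 := by
  induction d with
  | zero => exact h0
  | succ d ih =>
    have h1 : χ (Option (Fin d)) Set.univ = χ (Fin d) Set.univ := h.line (Fin d) _ con_univ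
    have h2 := h.bij (Option (Fin d)) (Fin (d + 1)) (fun k => X (_root_.finSuccEquiv d k)) _
      con_univ fun x _ y _ e => _root_.funext fun i => by
        simpa using congrFun e ((_root_.finSuccEquiv d).symm i)
    have h3 : Function.Surjective fun (x : Option (Fin d) → ℂ) (k : Fin (d + 1)) =>
        eval x (X (_root_.finSuccEquiv d k)) := fun y =>
      ⟨fun i => y ((_root_.finSuccEquiv d).symm i), _root_.funext fun k => by simp⟩
    rw [Set.image_univ, h3.range_eq] at h2
    rw [h2, h1, ih]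

theorem lin {n : ℕ} (x0 : Fin n → ℂ) {p : Pol (Fin n)} (hp : p ∈ Wi n) :
    ∃ L : (Fin n → ℂ) →ₗ[ℂ] ℂ, ∀ c, eval (x0 + c) p = eval x0 p + L c := by
  induction hp using Submodule.span_induction with
  | mem p hp =>
    rcases hp with rfl | ⟨l, rfl⟩
    · exact ⟨0, fun c => by simp⟩
    · exact ⟨LinearMap.proj l, fun c => by simp⟩
  | zero => exact ⟨0, fun c => by simp⟩
  | add p q _ _ h1 h2 =>
    obtain ⟨L1, h1⟩ := h1
    obtain ⟨L2, h2⟩ := h2
    exact ⟨L1 + L2, fun c => by rw [map_add, map_add, h1, h2, LinearMap.add_apply]; ring⟩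
  | smul a p _ h1 =>
    obtain ⟨L, h1⟩ := h1
    exact ⟨a • L, fun c => by
      rw [smul_eval, smul_eval, h1, LinearMap.smul_apply, smul_eq_mul]; ring⟩

end AfX

open AfX in
theorem rowAf : OfAf := by
  rintro - χ h h0 n s hs ⟨x0, hx⟩
  choose L hL using fun p : s => lin x0 (hs p.2)
  let U : Submodule ℂ (Fin n → ℂ) := ⨅ p, LinearMap.ker (L p)
  let b := Module.finBasis ℂ U
  have e1 : (fun (x : Fin (Module.finrank ℂ U) → ℂ) (k : Fin n) =>
      eval x (C (x0 k) + ∑ i, C ((b i : Fin n → ℂ) k) * X i)) =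
      fun x => x0 + (b.equivFun.symm x : U) := by
    funext x k
    simp [mul_comm]
  have h1 := h.bij (Fin (Module.finrank ℂ U)) (Fin n)
    (fun k => C (x0 k) + ∑ i, C ((b i : Fin n → ℂ) k) * X i) _ con_univ (by
      rw [e1]
      exact fun x _ y _ e => b.equivFun.symm.injective (Subtype.ext (add_left_cancel e)))
  rw [e1, full h h0] at h1
  rw [← h1]
  congr 1
  ext x
  constructor
  · intro hx'
    refine ⟨b.equivFun ⟨x - x0, Submodule.mem_iInf _ |>.2 fun p => ?_⟩, trivial, by simp⟩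
    have := hL p (x - x0)
    rwa [add_sub_cancel, hx' p p.2, hx p p.2, zero_add, eq_comm] at this
  · rintro ⟨y, -, rfl⟩ p hp
    have := (Submodule.mem_iInf _).1 (b.equivFun.symm y).2 ⟨p, hp⟩
    rw [hL ⟨p, hp⟩, hx p hp, zero_add]
    exact this

end Pool.Agent.MP_ee8c61_ag.H95T
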