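import Pool.Agent.MP_ee8c61_ag.H95T.ASpec

/-! An adapted basis with prescribed pivots. -/

namespace Pool.Agent.MP_ee8c61_ag.H95T

open H95 Finset MvPolynomial

namespace B1X

theorem step {M E : Type} [AddCommGroup M] [Module ℂ M] [DecidableEq E]
    (V : Finset E → Submodule ℂ M) (hV : Monotone V) (v : Finset E → M) (τ : Finset (Finset E)) :
    Chn τ → (∀ F ∈ τ, v F ∈ V F ∧ v F ∉ V (pred τ F)) →
    ∃ (s : Set M) (L : M → Finset E), LinearIndepOn ℂ id s ∧ (∀ w ∈ s, L w ∈ τ) ∧
      (∀ F ∈ τ, V F = Submodule.span ℂ {w | w ∈ s ∧ L w ⊆ F}) ∧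
      ∀ F ∈ τ, v F ∈ s ∧ L (v F) = F := by
  refine Finset.induction_on_max_value card τ ?_ fun T τ hT hmax ih => ?_
  · exact fun _ _ => ⟨∅, fun _ => ∅, linearIndepOn_empty _ _, by simp, by simp, by simp⟩
  · intro hc hv
    classical
    have hlt : ∀ F ∈ τ, F ⊂ T := fun F hF => by
      have hne : F ≠ T := fun e => hT (e ▸ hF)
      rcases hc F (mem_insert_of_mem hF) T (mem_insert_self _ _) with e | e
      · exact e.ssubset_of_ne hne
      · exact absurd (eq_of_subset_of_card_le e (hmax F hF)).symm hne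
    have hp : ∀ F ∈ τ, pred (insert T τ) F = pred τ F := fun F hF => by
      rw [pred, filter_insert, if_neg (fun h => (hlt F hF).not_subset h.subset), pred]
    obtain ⟨s, L, h1, h2, h3, h4⟩ := ih (hc.mono (subset_insert _ _)) fun F hF =>
      hp F hF ▸ hv F (mem_insert_of_mem hF)
    obtain ⟨a1, a2⟩ := hv T (mem_insert_self _ _)
    rw [pred_insert] at a2
    have hs : Submodule.span ℂ s ≤ V (pred τ T) := Submodule.span_le.2 fun w hw => by
      apply hV (sub_pred (h2 w hw) (hlt _ (h2 w hw)))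
      rw [h3 _ (h2 w hw)]
      exact Submodule.subset_span ⟨hw, Subset.rfl⟩
    have hn : v T ∉ Submodule.span ℂ s := fun h => a2 (hs h)
    have hns : v T ∉ s := fun h => hn (Submodule.subset_span h)
    have h5 : LinearIndepOn ℂ id (insert (v T) s) := h1.id_insert hn
    have h6 : insert (v T) s ⊆ (V T : Set M) := Set.insert_subset a1 fun w hw =>
      hV pred_sub (hs (Submodule.subset_span hw))
    obtain ⟨b, b1, b2, b3, b4⟩ := exists_linearIndepOn_id_extension h5 h6
    refine ⟨b, fun w => if w ∈ s then L w else T, b4, fun w _ => ?_, fun F hF => ?_,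
      fun F hF => ?_⟩
    · dsimp only
      split_ifs with h
      exacts [mem_insert_of_mem (h2 w h), mem_insert_self _ _]
    · rcases mem_insert.1 hF with rfl | hF
      · refine le_antisymm (fun w hw => Submodule.span_mono (fun u hu => ?_) (b3 hw))
          (Submodule.span_le.2 fun w hw => b1 hw.1)
        refine ⟨hu, ?_⟩
        dsimp only
        split_ifs with h
        exacts [(hlt _ (h2 u h)).subset, Subset.rfl]
      · rw [h3 F hF]
        congr 1
        ext w
        by_cases h : w ∈ s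
        · simp [h, b2 (Set.mem_insert_of_mem _ h)]
        · simp [h, (hlt F hF).not_subset]
    · rcases mem_insert.1 hF with rfl | hF
      · exact ⟨b2 (Set.mem_insert _ _), if_neg hns⟩
      · exact ⟨b2 (Set.mem_insert_of_mem _ (h4 F hF).1), (if_pos (h4 F hF).1).trans (h4 F hF).2⟩

theorem li_X (n : ℕ) :
    LinearIndependent ℂ (fun o : Option (Fin n) => (o.elim 1 X : Pol (Fin n))) := by
  have h := (basisMonomials (Fin n) ℂ).linearIndependent.comp
    (fun o : Option (Fin n) => (o.elim 0 fun l => Finsupp.single l 1 : Fin n →₀ ℕ)) (by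
      rintro (_ | a) (_ | b) h
      · rfl
      · exact absurd h.symm (Finsupp.single_ne_zero.2 one_ne_zero)
      · exact absurd h (Finsupp.single_ne_zero.2 one_ne_zero)
      · rw [Finsupp.single_left_injective one_ne_zero h])
  have e : (fun o : Option (Fin n) => (o.elim 1 X : Pol (Fin n))) = basisMonomials (Fin n) ℂ ∘
      fun o : Option (Fin n) => (o.elim 0 fun l => Finsupp.single l 1 : Fin n →₀ ℕ) := by
    funext o
    cases o <;> rfl
  rw [e]
  exact h

theorem finrank_Wi (n : ℕ) : Module.finrank ℂ (Wi n) = n + 1 := by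
  have h := finrank_span_eq_card (li_X n)
  have e : Set.range (fun o : Option (Fin n) => (o.elim 1 X : Pol (Fin n))) =
      insert 1 (Set.range X) := by
    rw [Option.range_eq]
    rfl
  rw [e] at h
  exact h.trans (by simp)

end B1X

open B1X in
theorem rowB1 : OfB1 := by
  intro n E _ _ A τ v hτ hv
  classical
  have hu := hτ.univ
  have hne : ∀ F ∈ τ, F ≠ univ := fun F hF e => hu (e ▸ hF)
  have hp : ∀ F, pred (insert univ τ) F = pred τ F := fun F => by
    rw [pred, filter_insert, if_neg (fun h => h.not_subset (subset_univ F)), pred]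
  obtain ⟨s, L, h1, h2, h3, h4⟩ := step A.VS (fun _ _ => A.VS_mono) (Function.update v univ 1)
    (insert univ τ) (chn_insert hτ.1 fun G _ => Or.inr (subset_univ G)) fun F hF => by
      rw [hp]
      rcases mem_insert.1 hF with rfl | hF
      · rw [Function.update_self, A.VS_univ]
        refine ⟨one_mem_Wi n, ?_⟩
        rcases pred_mem hτ.1 univ with e | e
        · rw [e]
          exact A.pm.N0
        · exact (hτ.2 _ e.1).2.1
      · rw [Function.update_of_ne (hne F hF)]
        exact hv F hF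
  have hW : Wi n = Submodule.span ℂ s := by
    rw [← A.VS_univ, h3 _ (mem_insert_self _ _)]
    simp
  obtain ⟨o1, o2⟩ := h4 _ (mem_insert_self _ _)
  rw [Function.update_self] at o1 o2
  have hfin : s.Finite := by
    have := ((Set.finite_range (X : Fin n → Pol (Fin n))).insert 1).to_subtype
    refine LinearIndependent.finite_of_le_span_finite _ h1 (insert 1 (Set.range X)) ?_
    rintro _ ⟨w, rfl⟩
    exact hW.ge (Submodule.subset_span w.2)
  have hcard : s.ncard = n + 1 := by
    have := hfin.fintype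
    rw [← finrank_Wi n, hW, finrank_span_set_eq_card h1, Set.ncard_eq_toFinset_card']
  have hc2 : Nat.card (s \ {1} : Set _) = n := by
    rw [Nat.card_coe_set_eq, Set.ncard_sdiff_singleton_of_mem o1, hcard, Nat.add_sub_cancel]
  have := (hfin.sdiff (t := {1})).to_subtype
  let e : Fin n ≃ (s \ {1} : Set _) := (Finite.equivFinOfCardEq hc2).symm
  have hy : ∀ w ∈ s, w ≠ 1 → ∃ q, (e q : Pol (Fin n)) = w := fun w hw h =>
    ⟨e.symm ⟨w, hw, h⟩, by simp⟩
  have h5 : ∀ F ∈ τ, v F ∈ s ∧ L (v F) = F := fun F hF => by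
    have := h4 F (mem_insert_of_mem hF)
    rwa [Function.update_of_ne (hne F hF)] at this
  refine ⟨fun q => e q, fun q => L (e q), univ.filter fun q => ∃ F ∈ τ, (e q : Pol (Fin n)) = v F,
    ?_, fun q => hW ▸ Submodule.subset_span (e q).2.1,
    fun q => (mem_insert.1 (h2 _ (e q).2.1)).symm, fun F hF => ?_, ⟨?_, ?_, ?_⟩, ?_⟩
  · have h := h1.comp (fun o : Option (Fin n) => (o.elim ⟨1, o1⟩ fun q => ⟨e q, (e q).2.1⟩ : s)) (by
      rintro (_ | a) (_ | b) h
      · rfl
      · exact absurd (congrArg Subtype.val h).symm (e b).2.2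
      · exact absurd (congrArg Subtype.val h) (e a).2.2
      · exact congrArg some (e.injective (Subtype.ext (congrArg Subtype.val h :))))
    have e' : (fun o : Option (Fin n) => (o.elim 1 fun q => e q : Pol (Fin n))) =
        (fun x : s => id x.1) ∘ fun o : Option (Fin n) =>
          (o.elim ⟨1, o1⟩ fun q => ⟨e q, (e q).2.1⟩ : s) := by
      funext o
      cases o <;> rfl
    rw [e']
    exact h
  · rw [h3 F (mem_insert_of_mem hF)]
    congr 1
    ext w
    refine ⟨fun ⟨a, b⟩ => ?_, ?_⟩
    · obtain ⟨q, rfl⟩ := hy w a fun h => hu (univ_subset_iff.1 (o2 ▸ h ▸ b) ▸ hF)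
      exact ⟨q, b, rfl⟩
    · rintro ⟨q, a, rfl⟩
      exact ⟨(e q).2.1, a⟩
  · intro q hq
    obtain ⟨F, hF, a⟩ := (mem_filter.1 hq).2
    change L (e q) ∈ τ
    rwa [a, (h5 F hF).2]
  · intro q hq q' hq' h
    obtain ⟨F, hF, a⟩ := (mem_filter.1 hq).2
    obtain ⟨F', hF', a'⟩ := (mem_filter.1 hq').2
    change L (e q) = L (e q') at h
    rw [a, a', (h5 F hF).2, (h5 F' hF').2] at h
    exact e.injective (Subtype.ext (by rw [a, a', h]))
  · intro F hF
    obtain ⟨q, a⟩ := hy _ (h5 F hF).1 fun h => hu (o2 ▸ h ▸ (h5 F hF).2.symm ▸ hF)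
    exact ⟨q, mem_filter.2 ⟨mem_univ _, F, hF, a⟩, by change L (e q) = F; rw [a, (h5 F hF).2]⟩
  · intro q hq
    obtain ⟨F, hF, a⟩ := (mem_filter.1 hq).2
    change (e q : Pol (Fin n)) = v (L (e q))
    rw [a, (h5 F hF).2]

end Pool.Agent.MP_ee8c61_ag.H95T
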