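import Pool.Agent.MP_ee8c61_ag.H95T.CSpec

/-! Blocks of a chain of the largest size. -/

namespace Pool.Agent.MP_ee8c61_ag.H95T

open Finset

namespace BlX

variable {E : Type} [DecidableEq E] {W τ : Finset (Finset E)}

theorem mem_of (h : Mx W τ) {H : Finset E} (hH : H ∈ W) (c : ∀ G ∈ τ, H ⊆ G ∨ G ⊆ H) : H ∈ τ := by
  by_contra n
  have := h.2.2 _ (insert_subset hH h.1) (chn_insert h.2.1 c)
  rw [card_insert_of_notMem n] at this
  omega

variable [Fintype E]

theorem one (R : Rng W) (h : Mx W τ) {T : Finset E} (hT : T ∈ W) :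
    T ⊆ tp τ ∧ ∀ i j, lay τ i = lay τ j → i ∈ T → j ∈ T := by
  have h1 : T ⊆ tp τ := by
    rcases τ.eq_empty_or_nonempty with rfl | e
    · exact absurd (mem_of h hT (by simp)) (by simp)
    · exact subset_union_left.trans (sub_tp (mem_of h (R.un _ hT _ (h.1 (tp_mem h.2.1 e)))
        fun G hG => Or.inr ((sub_tp hG).trans subset_union_right)))
  refine ⟨h1, fun i j e hi => ?_⟩
  have hG := lay_mem h.2.1 (h1 hi)
  have hi' : i ∈ T ∩ lay τ i := mem_inter.2 ⟨hi, self_lay⟩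
  have h2 : T ∩ lay τ i ∈ W := (R.int _ hT _ (h.1 hG)).resolve_left (ne_empty_of_mem hi')
  have h3 : T ∩ lay τ i ∪ pred τ (lay τ i) ∈ W := by
    rcases pred_mem h.2.1 (lay τ i) with a | a
    · rwa [a, union_empty]
    · exact R.un _ h2 _ (h.1 a.1)
  have h4 := mem_of h h3 fun F hF => by
    by_cases c : lay τ i ⊆ F
    · exact Or.inl ((union_subset inter_subset_right pred_sub).trans c)
    · exact Or.inr ((sub_pred hF ⟨(h.2.1 _ hG _ hF).resolve_left c, c⟩).trans subset_union_right)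
  have h5 := (lay_sub h4).2 (mem_union_left _ hi') (e ▸ self_lay : j ∈ lay τ i)
  exact (mem_inter.1 ((mem_union.1 h5).resolve_right
    (mem_sdiff.1 ((lay_eq h.2.1 hG).1 e.symm)).2)).1

end BlX

theorem rowBl : OfBl := by
  intro E _ _ W R
  refine ⟨fun τ h T hT => BlX.one R h hT, fun j j' d _ ⟨T, hT, h1, h2⟩ hd => ⟨⟨fun h => ?_,
    fun h => ?_, fun F hF G hG => ?_, fun F hF G hG => ?_⟩, fun ρ hρ c => ?_⟩⟩
  · exact R.ne (mem_filter.1 h).1
  · exact R.nt (mem_filter.1 h).1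
  · rw [fc, mem_filter] at hF hG ⊢
    exact ⟨R.un _ hF.1 _ hG.1, by rw [mem_union, mem_union, hF.2, hG.2]⟩
  · rw [fc, mem_filter] at hF hG ⊢
    exact (R.int _ hF.1 _ hG.1).imp_right fun h => ⟨h, by rw [mem_inter, mem_inter, hF.2, hG.2]⟩
  · have s : ρ ⊆ W := hρ.trans (filter_subset _ _)
    by_contra n
    have e : ρ.card = d + 1 := (hd ρ s c).antisymm (not_le.1 n)
    refine h2 ((BlX.one R ⟨s, c, e ▸ hd⟩ hT).2 j j' ?_ h1)
    rw [lay, lay, filter_congr fun F hF => (mem_filter.1 (hρ hF)).2]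

end Pool.Agent.MP_ee8c61_ag.H95T
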