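import Pool.Agent.MP_ee8c61_ag.H95T.CSpec

/-! Row C0: the places where the vectors of a subspace end. -/

set_option autoImplicit false

namespace Pool.Agent.MP_ee8c61_ag.H95T

namespace C0X

theorem top {ι : Type} [Fintype ι] [LinearOrder ι] {a : ι → ℂ} (h : a ≠ 0) :
    ∃ p, a p ≠ 0 ∧ ∀ q, p < q → a q = 0 := by
  obtain ⟨p, hp, h'⟩ := Set.Finite.exists_maximal (Set.toFinite {p | a p ≠ 0})
    (Function.ne_iff.1 h)
  exact ⟨p, hp, fun q hq => by_contra fun c => (h' c hq.le).not_gt hq⟩

end C0X

theorem rowC0 : OfC0 := by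
  intro n U T h
  choose c hc h1 h0 using fun p : T => (h p).1 p.2
  rw [← Fintype.card_coe]
  refine le_antisymm ?_ ?_
  · refine LinearIndependent.fintype_card_le_finrank (b := fun p => (⟨c p, hc p⟩ : U))
      (Fintype.linearIndependent_iff.2 fun a ha => funext_iff.1 (by_contra fun e => ?_))
    obtain ⟨p, hp, hq⟩ := C0X.top e
    have := congrFun (congrArg Subtype.val ha) p
    simp only [AddSubmonoidClass.coe_finsetSum, Finset.sum_apply, SetLike.val_smul,
      Pi.smul_apply, smul_eq_mul] at this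
    rw [Finset.sum_eq_single p (fun q _ e => ?_) (by simp), h1, mul_one] at this
    · exact hp this
    · rcases lt_or_gt_of_ne e with l | l
      · rw [h0 q p l, mul_zero]
      · rw [hq q l, zero_mul]
  · rw [← Module.finrank_fintype_fun_eq_card ℂ]
    refine LinearMap.finrank_le_finrank_of_injective
      (f := (LinearMap.funLeft ℂ ℂ Subtype.val).comp U.subtype)
      ((injective_iff_map_eq_zero _).2 fun x hx => Subtype.ext (by_contra fun e => ?_))
    obtain ⟨p, hp, hq⟩ := C0X.top e
    exact hp (congrFun hx ⟨p, (h p).2 ⟨(x.1 p)⁻¹ • x.1, U.smul_mem _ x.2, inv_mul_cancel₀ hp,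
      fun q l => by simp [hq q l]⟩⟩)

end Pool.Agent.MP_ee8c61_ag.H95T
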