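import Pool.Agent.MP_ee8c61_ag.H95T.ASpec

/-! The ring of a chart is a localization of a polynomial ring. -/

namespace Pool.Agent.MP_ee8c61_ag.H95T

open H95 Finset MvPolynomial

namespace C1X

variable {n : ℕ} {K : Type} [Field K] [Algebra ℂ K]

theorem ev_mem (z : Fin n → K) (s : Set K) (p : Pol (Fin n)) :
    ev z p ∈ Algebra.adjoin ℂ (Set.range z ∪ s) := by
  refine Algebra.adjoin_mono Set.subset_union_left ?_
  rw [Algebra.adjoin_range_eq_range_aeval]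
  exact ⟨p, rfl⟩

theorem div_mem (z : Fin n → K) {P p : Pol (Fin n)} (h : ev z P ≠ 0) (d : p ∣ P)
    (q : Pol (Fin n)) : ev z q / ev z p ∈ Algebra.adjoin ℂ (Set.range z ∪ {(ev z P)⁻¹}) := by
  obtain ⟨c, rfl⟩ := d
  have e : ev z q / ev z p = ev z (q * c) * (ev z (p * c))⁻¹ := by
    rw [map_mul] at h
    rw [map_mul, map_mul]
    have := left_ne_zero_of_mul h
    have := right_ne_zero_of_mul h
    field_simp
  rw [e]
  exact mul_mem (ev_mem z _ _) (Algebra.subset_adjoin (Or.inr rfl))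

end C1X

open C1X in
theorem rowC1 : OfC1 := by
  intro hBa hMo hTl hRd hId n r E K _ _ _ _ A x ℓ fs j₁ C τ hτ
  have ne : ∀ j, ev x (ℓ j) ≠ 0 := fun j e => C.gen.ne j (C.fk.inj (e.trans (map_zero _).symm))
  have lm : ∀ j F, lay τ j = F → ℓ j ∈ A.VS F := fun j F e =>
    A.le_VS (e ▸ self_lay) (C.gen.mem j)
  choose jF hj using fun F : Finset E => show ∃ j, F ∈ τ → lay τ j = F from
    (em (F ∈ τ)).elim (fun h => (exists_lay hτ.1 h (hτ.2 F h).1).imp fun _ a _ => a)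
      fun h => ⟨A.o, fun a => absurd a h⟩
  obtain ⟨y, aff, L, Λ, piv, hy⟩ := hBa n E A τ (fun F => ℓ (jF F)) hτ fun F hF =>
    ⟨lm _ F (hj F hF), C.gen.gen _ _ ((pred_mem hτ.1 F).symm.imp_left fun a => hτ.2 _ a.1)
      (mem_sdiff.1 ((lay_eq hτ.1 hF).1 (hj F hF))).2⟩
  have Mu := hMo E n τ L Λ hτ.1 hτ.univ piv.bij
  obtain ⟨i1, -, i3, -⟩ := (hId n r E K A x ℓ fs j₁ C).1 τ hτ
  obtain ⟨w, hw⟩ := hTl E n (CA A x ℓ (fs j₁) τ) L Λ (fun q => ⟨ev x (y q), i1 _⟩) piv.bij.injOn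
    (fun p hp p' hp' => hτ.1 _ (piv.bij.mapsTo hp) _ (piv.bij.mapsTo hp')) fun p hp q e => by
      have hF : L p ∈ τ := piv.bij.mapsTo hp
      have m : y q ∈ A.VS (lay τ (jF (L p))) := by
        rw [hj _ hF, piv.ad.sp _ hF]
        exact Submodule.subset_span ⟨q, e, rfl⟩
      refine ⟨⟨_, gen_mem A x ℓ (fs j₁) τ m⟩, Subtype.ext ?_⟩
      change ev x (y q) = ev x (y p) * (ev x (y q) / ev x (ℓ (jF (L p))))
      rw [hy p hp, mul_div_cancel₀ _ (ne _)]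
  obtain ⟨z, hz⟩ : ∃ z : Fin n → K, z = fun l => (w l : K) := ⟨_, rfl⟩
  have h1 : ap (cmon L Λ) z = ap y x := funext fun q => by
    have := congrArg Subtype.val (congrFun hw q)
    rw [hz]
    exact (comp_aeval_apply w (CA A x ℓ (fs j₁) τ).val _).symm.trans this
  have hx : ap (ap aff (cmon L Λ)) z = x := by rw [ap_ap, h1, ← ap_ap, piv.ad.ay, ap_X]
  have hev : ∀ p, ev x p = ev z (ev (ap aff (cmon L Λ)) p) := fun p => by rw [← ev_ap, hx]
  have hmu : ∀ j, ∃ j', lay τ j' = lay τ j ∧ ev z (lmon L Λ (lay τ j)) = ev x (ℓ j') := fun j => by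
    rcases lay_cases hτ.1 j with h | h
    · obtain ⟨p, hp, e⟩ := piv.bij.surjOn h
      refine ⟨jF (L p), e ▸ hj _ (e ▸ h), ?_⟩
      rw [← e, ← Mu.piv p hp, ← hy p hp]
      exact congrFun h1 p
    · exact ⟨A.o, hτ.lay_o.trans h.symm, by rw [h, Mu.univ, C.gen.one, map_one, map_one]⟩
  have m0 : ∀ j, ev z (lmon L Λ (lay τ j)) ≠ 0 := fun j => (hmu j).elim fun j' e => e.2 ▸ ne j'
  have ua : ∀ j, Ua (CA A x ℓ (fs j₁) τ) (ev x (ℓ j) / ev z (lmon L Λ (lay τ j))) := fun j => by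
    obtain ⟨j', e, e'⟩ := hmu j
    rw [e']
    exact ⟨div_ne_zero (ne j) (ne j'), gen_mem A x ℓ _ τ (lm j _ e.symm),
      inv_div (ev x (ℓ j)) _ ▸ gen_mem A x ℓ _ τ (lm j' _ e)⟩
  obtain ⟨r1, r2⟩ := hRd n E A τ y aff L Λ piv
  have rd : ∀ j, ∀ v ∈ A.VS (lay τ j), ∃ u, ev x v = ev z (lmon L Λ (lay τ j)) * ev z u :=
    fun j v hv => (r1 j v hv).imp fun u e => by rw [hev, e.1, map_mul]
  choose u hu using fun j => rd j _ (lm j _ rfl)
  obtain ⟨uf, hf⟩ := r2 (fs j₁) (C.sp ▸ Ideal.subset_span ⟨j₁, rfl⟩)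
  have uu : ∀ j, Ua (CA A x ℓ (fs j₁) τ) (ev z (u j)) := fun j => by
    have := ua j
    rwa [hu j, mul_div_cancel_left₀ _ (m0 j)] at this
  have up : Ua (CA A x ℓ (fs j₁) τ) (ev z (∏ j, u j)) := by
    rw [map_prod]
    exact Ua.prod _ fun j _ => uu j
  have e1 : sv x ℓ (fs j₁) = ev z uf / ev z (∏ j, u j) := by
    rw [sv, hev (fs j₁), hf, map_mul, map_prod, map_prod, map_prod, prod_congr rfl fun j _ => hu j,
      prod_mul_distrib, mul_div_mul_left _ _ (prod_ne_zero_iff.2 fun j _ => m0 j)]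
  have uP : Ua (CA A x ℓ (fs j₁) τ) (ev z ((∏ j, u j) * uf)) := by
    rw [map_mul, ← div_mul_cancel₀ (ev z uf) up.1, ← e1]
    exact up.mul (i3.mul up)
  refine ⟨y, aff, L, Λ, z, (∏ j, u j) * uf, piv, hx, uP.1, le_antisymm (Algebra.adjoin_le ?_)
    (Algebra.adjoin_le ?_), ua⟩
  · rintro g (⟨j, v, hv, rfl⟩ | rfl)
    · obtain ⟨c, e⟩ := rd j v hv
      rw [e, hu j, mul_div_mul_left _ _ (m0 j)]
      exact div_mem z uP.1 ((dvd_prod_of_mem u (mem_univ j)).mul_right uf) c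
    · rw [← inv_div, show ev x (fs j₁) / _ = _ from e1, inv_div]
      exact div_mem z uP.1 (dvd_mul_left uf _) _
  · rintro g (⟨l, rfl⟩ | rfl)
    · rw [hz]
      exact (w l).2
    · exact uP.2.2

end Pool.Agent.MP_ee8c61_ag.H95T
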