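import Pool.Agent.MP_ee8c61_ag.H95T.ASpec

/-! Coordinates on the chart of a chain. -/

namespace Pool.Agent.MP_ee8c61_ag.H95T

open H95 Finset MvPolynomial

namespace C2X

variable {n : ℕ} {E K : Type} [DecidableEq E] [Field K] [Algebra ℂ K]

/-- The pivot of a member of the chain. -/
theorem ex_lab {τ : Finset (Finset E)} {L : Fin n → Finset E} {Λ : Finset (Fin n)}
    (h : Set.BijOn L Λ τ) : ∃ lab : Finset E → Option (Fin n), (∀ p ∈ Λ, lab (L p) = some p) ∧
      ∀ F i, lab F = some i → i ∈ Λ ∧ L i = F := by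
  classical
  refine ⟨fun F => if e : ∃ p ∈ Λ, L p = F then some e.choose else none, fun p hp => ?_,
    fun F i hi => ?_⟩
  · have e : ∃ q ∈ Λ, L q = L p := ⟨p, hp, rfl⟩
    simp only [dif_pos e]
    exact congrArg some (h.injOn e.choose_spec.1 hp e.choose_spec.2)
  · by_cases e : ∃ p ∈ Λ, L p = F
    · simp only [dif_pos e, Option.some.injEq] at hi
      exact hi ▸ e.choose_spec
    · simp [dif_neg e] at hi

omit [DecidableEq E] [Algebra ℂ K] in
theorem prod_eq {τ : Finset (Finset E)} {L : Fin n → Finset E} {Λ : Finset (Fin n)}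
    (h : Set.BijOn L Λ τ) (f : Finset E → K) : ∏ F ∈ τ, f F = ∏ p ∈ Λ, f (L p) :=
  (prod_nbij L (fun _ hp => h.mapsTo hp) h.injOn h.surjOn fun _ _ => rfl).symm

theorem ev_mem {z : Fin n → K} {B : Subalgebra ℂ K} (h : ∀ i, z i ∈ B) (p : Pol (Fin n)) :
    ev z p ∈ B := by
  induction p using MvPolynomial.induction_on with
  | C c => simp
  | add p q hp hq => simpa only [map_add] using add_mem hp hq
  | mul_X p k hp => simpa only [map_mul, aeval_X] using mul_mem hp (h k)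

theorem ua_ev {z : Fin n → K} {B : Subalgebra ℂ K} (h : ∀ i, z i ∈ B) {u : Pol (Fin n)}
    (hu : IsUnit u) : Ua B (ev z u) := by
  obtain ⟨v, hv⟩ := hu.exists_right_inv
  have e : ev z u * ev z v = 1 := by rw [← map_mul, hv, map_one]
  exact ⟨left_ne_zero_of_mul_eq_one e, ev_mem h u, by
    rw [inv_eq_of_mul_eq_one_right e]
    exact ev_mem h v⟩

end C2X

open C2X in
theorem rowC2 : OfC2 := by
  intro hMo hJa hFm hFz hEt hC1 n r E K _ _ _ _ A x ℓ fs j₁ ctx τ hτ
  obtain ⟨y, aff, L, Λ, z, P, hP, hx, hPz, hCA, hU⟩ := hC1 n r E K A x ℓ fs j₁ ctx τ hτ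
  have hz : FK z := hFz n K x z _ ctx.fk hx
  obtain ⟨R, hR, -, -⟩ := hFm n K z hz
  obtain ⟨e1, e2, e3⟩ := hEt n K z P _ R hz hPz hCA hR
  have hMu := hMo E n τ L Λ hτ.1 hτ.univ hP.bij
  obtain ⟨-, u, hu, hj⟩ := hJa n E A τ y aff L Λ hP
  obtain ⟨lab, l1, l2⟩ := ex_lab hP.bij
  have zm : ∀ i, z i ∈ CA A x ℓ (fs j₁) τ := fun i =>
    hCA ▸ Algebra.subset_adjoin (Or.inl ⟨i, rfl⟩)
  have et : ∀ p ∈ Λ, eta z lab (L p) = z p := fun p hp => by rw [eta, l1 p hp]; rfl
  refine ⟨z, R, lab, zm, hR, e1, fun F F' i h h' => (l2 F i h).2.symm.trans (l2 F' i h').2,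
    fun F => ⟨fun h => ?_, fun h => ?_⟩, e2, fun j => ?_, fun F hF j j' h h' => ?_,
    ev z u, ua_ev zm hu, ?_⟩
  · obtain ⟨i, hi⟩ := Option.ne_none_iff_exists'.1 h
    exact (l2 F i hi).2 ▸ hP.bij.mapsTo (l2 F i hi).1
  · obtain ⟨p, hp, rfl⟩ := hP.bij.surjOn h
    rw [l1 p hp]
    exact Option.some_ne_none p
  · convert hU j using 2
    rw [hMu.lay, map_prod, prod_filter, prod_filter, prod_eq hP.bij]
    refine prod_congr rfl fun p hp => ?_
    rw [et p hp, aeval_X]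
  · obtain ⟨p, hp, rfl⟩ := hP.bij.surjOn hF
    have h1 := hU j
    have h2 := hU j'
    rw [h, hMu.suc p hp, map_mul, aeval_X] at h1
    rw [h'] at h2
    have h3 := (div_ne_zero_iff.1 h1.1).2
    have h4 := (div_ne_zero_iff.1 h1.1).1
    have h5 := (div_ne_zero_iff.1 h2.1).1
    have h6 := (div_ne_zero_iff.1 h2.1).2
    convert h2.div h1 using 1
    rw [et p hp]
    field_simp
  · have e := e3 (ap aff (cmon L Λ))
    rw [hx] at e
    rw [e, hj, map_mul, mul_comm, map_prod, prod_eq hP.bij]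
    congr 1
    refine prod_congr rfl fun p hp => ?_
    rw [et p hp, map_pow, aeval_X]

end Pool.Agent.MP_ee8c61_ag.H95T
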