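import Pool.Agent.MP_ee8c61_ag.H95T.CSpec

/-! The chains in a ring family form a balanced complex. -/

namespace Pool.Agent.MP_ee8c61_ag.H95T

open Finset

namespace CbX

variable {E : Type} [DecidableEq E] {k : ℕ}

/-- The vector of orders. -/
def U (jj : Fin k → E) (F : Finset E) : Fin (k + 1) → ℂ := fun l => (uu jj l F : ℂ)

theorem U_zero (jj : Fin k → E) (F : Finset E) : U jj F 0 = F.card := rfl

theorem U_succ (jj : Fin k → E) (F : Finset E) (l : Fin k) :
    U jj F l.succ = if jj l ∈ F then 1 else 0 := by simp [U, uu]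

theorem U_empty (jj : Fin k → E) : U jj ∅ = 0 :=
  funext fun l => l.cases (by simp [U_zero]) fun l => by simp [U_succ]

theorem U_add (jj : Fin k → E) (F G : Finset E) :
    U jj F + U jj G = U jj (F ∪ G) + U jj (F ∩ G) := by
  refine funext fun l => l.cases ?_ fun l => ?_
  · simp only [Pi.add_apply, U_zero]
    exact_mod_cast (card_union_add_card_inter F G).symm
  · by_cases a : jj l ∈ F <;> by_cases b : jj l ∈ G <;> simp [U_succ, a, b]

variable [Fintype E] {W τ ρ : Finset (Finset E)}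

theorem bal (jj : Fin k → E) (hW : Rng W) (hρ : Chn ρ) (R : Rdg W ρ)
    (h : ∀ V ∈ fcs W, ¬ρ ⊆ V) : ∑ H ∈ lk W ρ, U jj H ∈ Submodule.span ℂ (U jj '' ρ) := by
  rcases (lk W ρ).eq_empty_or_nonempty with e | ⟨H, hH⟩
  · simp [e]
  have m := (mem_filter.1 hH).1
  obtain ⟨j, j1⟩ := exists_of_ssubset
    (pred_ssub hρ (nonempty_iff_ne_empty.2 fun e => hW.ne (e ▸ m)))
  obtain ⟨j', j2⟩ := exists_of_ssubset (ssub_suc hρ fun e => hW.nt (e ▸ m))
  obtain ⟨H', hH', ne⟩ : ∃ H' ∈ lk W ρ, H' ≠ H := by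
    by_contra! c
    exact h _ (mem_image.2 ⟨(j, j'), mem_filter.2 ⟨mem_univ _, (R.one H hH j (mem_sdiff.2 j1) j'
      (mem_sdiff.2 j2)).2 c, H, m, j1.1, j2.2⟩, rfl⟩)
      (R.sub H hH j (mem_sdiff.2 j1) j' (mem_sdiff.2 j2))
  obtain ⟨e, s, -⟩ := R.two H hH H' hH' ne
  have e1 : lk W ρ = {H, H'} := Subset.antisymm (fun G hG => by
    by_cases c : G = H
    · simp [c]
    · simp [(R.two H hH G hG c).1, e]) (insert_subset hH (singleton_subset_iff.2 hH'))
  have e2 : H ∪ H' = suc ρ H := by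
    rw [e, ← union_assoc, union_eq_left.2 pred_sub, union_sdiff_of_subset sub_suc]
  have e3 : H ∩ H' = pred ρ H := by
    rw [e, inter_union_distrib_left, inter_sdiff_self, union_empty, inter_eq_right.2 pred_sub]
  rw [e1, sum_pair ne.symm, U_add, e2, e3]
  refine add_mem (Submodule.subset_span ⟨_, s, rfl⟩) ((pred_mem hρ H).elim (fun e => ?_)
    fun e => Submodule.subset_span ⟨_, e.1, rfl⟩)
  rw [e, U_empty]
  exact zero_mem _

theorem ind (jj : Fin k → E) (hτ : Chn τ) (h0 : ∅ ∉ τ) (hu : univ ∉ τ) (hT : tp τ ∈ τ)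
    (hj : ∀ G ∈ τ, G ≠ tp τ → ∃ l, lay τ (jj l) = G) : LinearIndepOn ℂ (U jj) τ := by
  refine linearIndepOn_finset_iff.2 fun c hc => ?_
  have ex : ∀ G ∈ τ, ∃ j, lay τ j = G := fun G hG =>
    exists_lay hτ hG (nonempty_iff_ne_empty.2 fun e => h0 (e ▸ hG))
  let s : E → ℂ := fun j => ∑ F ∈ τ, if j ∈ F then c F else 0
  have h1 : ∀ j, s j = if lay τ j = tp τ then c (tp τ) else 0 := fun j => by
    split_ifs with e
    · exact (sum_eq_single_of_mem _ hT fun F hF ne => if_neg fun m =>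
        ne (Subset.antisymm (sub_tp hF) (e ▸ (lay_sub hF).2 m))).trans (if_pos (e ▸ self_lay))
    by_cases m : j ∈ tp τ
    · obtain ⟨l, hl⟩ := hj _ (lay_mem hτ m) e
      have := congrFun hc l.succ
      rw [Finset.sum_apply] at this
      refine Eq.trans (sum_congr rfl fun F hF => ?_) this
      simp [U_succ, ← lay_sub hF, hl]
    · exact sum_eq_zero fun F hF => if_neg fun a => m (sub_tp hF a)
  have h2 : c (tp τ) = 0 := by
    have : ∑ j, s j = 0 := by
      rw [sum_comm]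
      refine Eq.trans (sum_congr rfl fun F _ => ?_) ((Finset.sum_apply 0 τ _).symm.trans
        (congrFun hc 0))
      simp [U_zero, mul_comm]
    obtain ⟨j, e⟩ := ex _ hT
    simp only [h1, ← sum_filter, sum_const, nsmul_eq_mul] at this
    exact (mul_eq_zero.1 this).resolve_left
      (Nat.cast_ne_zero.2 (card_ne_zero.2 ⟨j, mem_filter.2 ⟨mem_univ _, e⟩⟩))
  by_contra! n
  obtain ⟨G, hG, m⟩ := exists_max_image (τ.filter (c · ≠ 0)) card (n.imp fun F => mem_filter.2)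
  obtain ⟨hG, n⟩ := mem_filter.1 hG
  obtain ⟨j, e⟩ := ex G hG
  refine n (Eq.trans ?_ ((h1 j).trans (by simp [h2])))
  refine Eq.symm (Eq.trans (sum_eq_single_of_mem G hG fun F hF ne => ?_) (if_pos (e ▸ self_lay)))
  split_ifs with a
  · exact by_contra fun b => ne (eq_of_subset_of_card_le (e ▸ (lay_sub hF).2 a)
      (m F (mem_filter.2 ⟨hF, b⟩))).symm
  · rfl

end CbX

open CbX in
theorem rowCb : OfCb := by
  intro hB hR E _ _ ι lb W τ k hW hA ⟨t1, t2, t3⟩ hk
  rw [hk] at t3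
  have hT := tp_mem t2 (card_pos.1 (hk ▸ k.succ_pos))
  let e := (τ.erase (tp τ)).equivFinOfCardEq (n := k) (by rw [card_erase_of_mem hT, hk]; rfl)
  choose jj hj using fun l : Fin k => exists_lay t2 (mem_of_mem_erase (e.symm l).2)
    (nonempty_iff_ne_empty.2 fun a => hW.ne (a ▸ t1 (mem_of_mem_erase (e.symm l).2)))
  refine ⟨jj, fun ρ a b => t3 ρ a ((hA ρ a).1 b), fun V hV ρ a b => ?_,
    fun ρ a _ b c d Λ hΛ => ?_, τ, t1, (hA τ t1).2 t2, hk, ind jj t2 (fun a => hW.ne (t1 a))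
      (fun a => hW.nt (t1 a)) hT fun G hG ne => ⟨e ⟨G, mem_erase.2 ⟨ne, hG⟩⟩, by simp [hj]⟩⟩
  · obtain ⟨p, hp, rfl⟩ := mem_image.1 hV
    obtain ⟨-, p1, p2⟩ := mem_filter.1 hp
    exact ((hB E W hW).2 _ _ k p1 p2 t3).2 ρ a ((hA ρ (a.trans (filter_subset _ _))).1 b)
  · have c' := (hA ρ a).1 c
    have : Λ = lk W ρ := Finset.ext fun i => (hΛ i).trans ((and_congr_right fun m =>
      and_congr_right fun _ => Iff.trans (by simp [Al]) (hA _ (insert_subset m a))).trans
        (by rw [lk, mem_filter]))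
    exact this ▸ bal jj hW c' (hR E W ρ hW a c' (b ▸ t3)) d

end Pool.Agent.MP_ee8c61_ag.H95T
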