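import Pool.Agent.MP_ee8c61_ag.H95T.CSpec

/-! The choice of the polarization. -/

namespace Pool.Agent.MP_ee8c61_ag.H95T

open Finset

namespace ClX

theorem ceil_eq {μ : ℕ} (hμ : 0 < μ) {x a : ℤ} (h1 : μ * (a - 1) < x) (h2 : x ≤ μ * a) :
    ⌈(x : ℚ) / μ⌉ = a := by
  have h : (0 : ℚ) < μ := by exact_mod_cast hμ
  rw [Int.ceil_eq_iff, lt_div_iff₀ h, div_le_iff₀ h, mul_comm, mul_comm (a : ℚ)]
  exact ⟨by exact_mod_cast h1, by exact_mod_cast h2⟩

end ClX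

theorem rowCl : OfCl := by
  intro E _ _ P W ψ g ⟨t, D, hT⟩ hψ hg
  obtain ⟨de, hde⟩ := Finite.exists_le fun F => g F + 1
  obtain ⟨ep, hep⟩ := Finite.exists_le fun F : Finset E =>
    (de * (F.card - (Fintype.card E + 1) * ∑ j ∈ F, ψ j)).natAbs
  obtain ⟨K, hK⟩ := Finite.exists_le fun F : Finset E => (ep * (∑ j ∈ F, t j - D * P.r F) +
    de * (F.card - (Fintype.card E + 1) * ∑ j ∈ F, ψ j) - g F).natAbs + 1
  have h0 : 0 < K + ep * D := by have := hK ∅; omega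
  refine ⟨K, K + ep * D, fun j => ep * t j + de * (1 - (Fintype.card E + 1) * ψ j), h0,
    fun F hF => ?_⟩
  have e : ∑ j ∈ F, (ep * t j + de * (1 - (Fintype.card E + 1) * ψ j)) =
      ep * ∑ j ∈ F, t j + de * (F.card - (Fintype.card E + 1) * ∑ j ∈ F, ψ j) := by
    rw [sum_add_distrib, ← mul_sum, ← mul_sum, sum_sub_distrib, ← mul_sum]; simp
  have h1 := hde F
  have h2 : de * (F.card - (Fintype.card E + 1) * ∑ j ∈ F, ψ j) ≤ ep :=
    Int.le_natAbs.trans (by exact_mod_cast hep F)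
  have h3 := abs_lt.1 (show |ep * (∑ j ∈ F, t j - D * P.r F) +
      de * (F.card - (Fintype.card E + 1) * ∑ j ∈ F, ψ j) - g F| < K by
    rw [← Int.natCast_natAbs]; exact_mod_cast hK F)
  have h4 := hg F
  have h5 : (1 : ℤ) ≤ F.card := by exact_mod_cast hF.1.card_pos
  have h6 : (F.card : ℤ) ≤ Fintype.card E := by exact_mod_cast F.card_le_univ
  have h7 : (0 : ℤ) ≤ ep * D := by positivity
  rw [e]
  by_cases c : F ∈ W
  · have h8 := (hT.eq F hF).2 c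
    by_cases c' : ∑ j ∈ F, ψ j = 0
    · rw [if_pos ⟨c, c'⟩]
      rw [c'] at h3 ⊢
      rw [h8] at h3 ⊢
      refine ClX.ceil_eq h0 ?_ ?_ <;> push_cast <;> nlinarith [h3.1, h3.2]
    · have h9 : 1 ≤ ∑ j ∈ F, ψ j := (hψ F c).lt_of_ne' c'
      have h10 : de * (F.card - (Fintype.card E + 1) * ∑ j ∈ F, ψ j) ≤ 0 :=
        mul_nonpos_of_nonneg_of_nonpos (by omega) (by nlinarith)
      rw [if_neg fun h => c' h.2]
      rw [h8] at h3 ⊢
      refine ClX.ceil_eq h0 ?_ ?_ <;> push_cast <;> nlinarith [h3.1, h3.2]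
  · have h8 : ∑ j ∈ F, t j + 1 ≤ D * P.r F :=
      (hT.le F hF).lt_of_ne fun h => c ((hT.eq F hF).1 h)
    have h9 := mul_le_mul_of_nonneg_left h8 (Nat.cast_nonneg (α := ℤ) ep)
    rw [if_neg fun h => c h.1]
    refine ClX.ceil_eq h0 ?_ ?_ <;> push_cast <;> nlinarith [h3.1, h3.2]

end Pool.Agent.MP_ee8c61_ag.H95T
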