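import Pool.Agent.MP_ee8c61_ag.H95T.ASpec

/-! Zero sets are constructible. -/

namespace Pool.Agent.MP_ee8c61_ag.H95T

open H95 Finset MvPolynomial

theorem rowCn : OfCn := by
  intro n s
  obtain ⟨t, ht⟩ := IsNoetherian.noetherian (Ideal.span s)
  have k : ∀ (x : Fin n → ℂ) (u : Set (Pol (Fin n))), (∀ p ∈ u, eval x p = 0) ↔
      Ideal.span u ≤ RingHom.ker (eval x) := fun x u =>
    (Ideal.span_le (I := RingHom.ker (eval x))).symm
  have e : {x | ∀ p ∈ s, eval x p = 0} = {x : Fin n → ℂ | ∀ p ∈ t, eval x p = 0} :=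
    Set.ext fun x => (k x s).trans (ht ▸ (k x t).symm)
  exact e ▸ conE_iff.1 (conE_ball t fun p _ => (PolyE.top p).con)

end Pool.Agent.MP_ee8c61_ag.H95T
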