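import Pool.Agent.MP_ee8c61_ag.H95T.ASpec

/-! The number of pivots. -/

namespace Pool.Agent.MP_ee8c61_ag.H95T

open H95 Finset MvPolynomial

namespace CtX

variable {n : ℕ}

/-- The linear part of the evaluation. -/
noncomputable def th (aff : Fin n → Pol (Fin n)) : (Fin n → ℂ) →ₗ[ℂ] Module.Dual ℂ (Pol (Fin n)) :=
  Fintype.linearCombination ℂ fun q => lcoeff ℂ (Finsupp.single q 1) ∘ₗ (ev aff).toLinearMap

theorem th_y {y aff : Fin n → Pol (Fin n)} (h : ap y aff = X) (c : Fin n → ℂ) (q : Fin n) :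
    th aff c (y q) = c q := by
  have : bind₁ aff (y q) = (X q : Pol (Fin n)) := congrFun h q
  simp [th, Fintype.linearCombination_apply, this, coeff_X, Finsupp.single_left_inj]

theorem th_eq {y aff : Fin n → Pol (Fin n)} (h : ap y aff = X) (c : Fin n → ℂ) {s : Set (Fin n)}
    {v : Pol (Fin n)} (hv : v ∈ Submodule.span ℂ (y '' s)) : eval c (ev aff v) = th aff c v := by
  refine LinearMap.eqOn_span' (f := (ev c).toLinearMap ∘ₗ (ev aff).toLinearMap) ?_ hv
  rintro _ ⟨q, -, rfl⟩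
  have : bind₁ aff (y q) = (X q : Pol (Fin n)) := congrFun h q
  simp [th_y h, this]

end CtX

open CtX in
theorem rowCt : OfCt := by
  intro h0 n E _ _ A τ y aff L hτ hA S G hG T hT
  have ym : ∀ F ∈ τ, ∀ q, L q ⊆ F → y q ∈ A.VS F := fun F hF q h =>
    hA.sp F hF ▸ Submodule.subset_span ⟨q, h, rfl⟩
  let U : Submodule ℂ (Fin n → ℂ) :=
    { carrier := {c | (∀ q, L q ≠ G → c q = 0) ∧
        ∀ j ∈ S, lay τ j = G → ∀ v ∈ A.V j, th aff c v = 0}
      add_mem' := fun ha hb => ⟨fun q h => by simp [ha.1 q h, hb.1 q h],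
        fun j h1 h2 v h3 => by simp [ha.2 j h1 h2 v h3, hb.2 j h1 h2 v h3]⟩
      zero_mem' := ⟨fun _ _ => rfl, fun _ _ _ _ _ => by simp⟩
      smul_mem' := fun r _ ha => ⟨fun q h => by simp [ha.1 q h],
        fun j h1 h2 v h3 => by simp [ha.2 j h1 h2 v h3]⟩ }
  have e0 : ∀ c j, lay τ j = G → ∀ v ∈ A.V j, eval c (ev aff v) = th aff c v := fun c j h v hv =>
    th_eq hA.ya c (hA.sp G hG ▸ A.le_VS (h ▸ self_lay) hv)
  have e1 := h0 n U T fun p => by
    rw [hT]
    constructor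
    · rintro ⟨rfl, c, h1, h2, h3, h4⟩
      exact ⟨c, ⟨h3, fun j a b v hv => e0 c j b v hv ▸ h4 j a b v hv⟩, h1, h2⟩
    · rintro ⟨c, ⟨h3, h4⟩, h1, h2⟩
      obtain rfl : L p = G := by_contra fun z => one_ne_zero (h1 ▸ h3 p z)
      exact ⟨rfl, c, h1, h2, h3, fun j a b v hv => (e0 c j b v hv).trans (h4 j a b v hv)⟩
  have le : A.VS (pred τ G ∪ S ∩ G) ≤ A.VS G :=
    A.VS_mono (union_subset pred_sub inter_subset_right)
  have e2 : U.map ((A.VS G).dualRestrict ∘ₗ th aff) =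
      ((A.VS (pred τ G ∪ S ∩ G)).comap (A.VS G).subtype).dualAnnihilator := by
    ext φ
    rw [Submodule.mem_dualAnnihilator]
    constructor
    · rintro ⟨c, ⟨h1, h2⟩, rfl⟩ w hw
      refine (A.VS_le_iff (U := LinearMap.ker (th aff c))).2 (fun j hj v hv => ?_) hw
      by_cases hp : j ∈ pred τ G
      · obtain ⟨F, hF, a, b⟩ := mem_pred.1 hp
        refine Submodule.span_le.2 ?_ (hA.sp F hF ▸ A.le_VS b hv)
        rintro _ ⟨q, hq, rfl⟩
        exact (th_y hA.ya c q).trans (h1 q (hq.trans_ssubset a).ne)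
      · obtain ⟨a, b⟩ := mem_inter.1 ((mem_union.1 hj).resolve_left hp)
        exact h2 j a ((lay_eq hτ.1 hG).2 (mem_sdiff.2 ⟨b, hp⟩)) v hv
    · intro h
      obtain ⟨ψ, rfl⟩ := Subspace.dualRestrict_surjective φ
      have h' : ∀ v ∈ A.VS (pred τ G ∪ S ∩ G), ψ v = 0 := fun v hv => h ⟨v, le hv⟩ hv
      have e : ∀ v ∈ A.VS G, th aff (fun q => if L q ⊆ G then ψ (y q) else 0) v = ψ v := by
        intro v hv
        refine LinearMap.eqOn_span' ?_ (hA.sp G hG ▸ hv)
        rintro _ ⟨q, hq, rfl⟩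
        exact (th_y hA.ya _ q).trans (if_pos hq)
      refine ⟨_, ⟨fun q hq => ite_eq_right_iff.2 fun a => h' _ ?_, fun j a b v hv => ?_⟩,
        LinearMap.ext fun v => e v v.2⟩
      · have b := a.ssubset_of_ne hq
        have c := (hA.lm q).resolve_right fun z => b.not_subset (z ▸ subset_univ _)
        exact A.VS_mono ((sub_pred c b).trans subset_union_left) (ym _ c q Subset.rfl)
      · have c : j ∈ G := b ▸ self_lay
        rw [e v (A.le_VS c hv)]
        exact h' v (A.le_VS (mem_union_right _ (mem_inter.2 ⟨a, c⟩)) hv)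
  have e3 := LinearMap.finrank_range_of_inj
    (f := ((A.VS G).dualRestrict ∘ₗ th aff).domRestrict U)
    ((injective_iff_map_eq_zero _).2 fun c h => Subtype.ext (funext fun q => by
      by_cases a : L q = G
      · exact (th_y hA.ya c q).symm.trans (DFunLike.congr_fun h ⟨y q, ym G hG q a.le⟩)
      · exact c.2.1 q a))
  have e4 := Subspace.finrank_add_finrank_dualAnnihilator_eq
    ((A.VS (pred τ G ∪ S ∩ G)).comap (A.VS G).subtype)
  rw [LinearMap.range_domRestrict, e2] at e3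
  rw [(Submodule.comapSubtypeEquivOfLe le).finrank_eq, e3, ← e1] at e4
  rw [A.pm_r, A.pm_r, ← e4]
  push_cast
  ring

end Pool.Agent.MP_ee8c61_ag.H95T
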