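import Pool.Agent.MP_ee8c61_ag.H95T.CSpec

/-! The expansion of an indicator function along a chain. -/

namespace Pool.Agent.MP_ee8c61_ag.H95T

open Finset

namespace E1X

variable {E : Type} [DecidableEq E] [Fintype E] {τ : Finset (Finset E)} {F : Finset E}

theorem pred_suc (h : Chn τ) {G : Finset E} (hG : G ∈ τ) (k : G ⊂ suc τ G) :
    pred τ (suc τ G) = G := by
  refine Subset.antisymm (fun j hj => ?_) (sub_pred hG k)
  obtain ⟨H, hH, h1, h2⟩ := mem_pred.1 hj
  rcases h H hH G hG with e | e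
  · exact e h2
  · by_cases c : G = H
    · exact c ▸ h2
    · exact absurd (suc_sub hH (e.ssubset_of_ne c)) h1.not_subset

theorem tel (h : Chn τ) (hu : univ ∉ τ) (hF : F ⊆ tp τ) (G : Finset E) (hG : G ∈ τ) :
    ∑ H ∈ τ with G ⊆ H, cc τ F H = if G \ pred τ G ⊆ F then 1 else 0 := by
  induction G using WellFoundedGT.induction with
  | ind G ih =>
    have k : G ⊂ suc τ G := ssub_suc h fun e => hu (e ▸ hG)
    have e : τ.filter (G ⊆ ·) = insert G (τ.filter (suc τ G ⊆ ·)) := by
      ext H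
      simp only [mem_filter, mem_insert]
      refine ⟨fun ⟨a, b⟩ => ?_, ?_⟩
      · by_cases c : G = H
        · exact Or.inl c.symm
        · exact Or.inr ⟨a, suc_sub a (b.ssubset_of_ne c)⟩
      · rintro (rfl | ⟨a, b⟩)
        exacts [⟨hG, Subset.rfl⟩, ⟨a, k.subset.trans b⟩]
    rw [e, sum_insert fun c => k.not_subset (mem_filter.1 c).2, cc]
    rcases suc_mem h G with s | s
    · have h1 : ¬suc τ G \ G ⊆ F := fun c => hu (by
        have : tp τ = univ := eq_univ_of_forall fun j => by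
          by_cases b : j ∈ G
          · exact sub_tp hG b
          · exact hF (c (mem_sdiff.2 ⟨s ▸ mem_univ j, b⟩))
        exact this ▸ tp_mem h ⟨G, hG⟩)
      rw [if_neg h1, filter_eq_empty_iff.2 fun H hH c => hu (by
        rwa [univ_subset_iff.1 (s ▸ c : univ ⊆ H)] at hH)]
      simp
    · rw [ih _ k s.1, pred_suc h hG k]
      ring

end E1X

theorem rowE1 : OfE1 := by
  intro hB E _ _ W τ hW hτ F hF j
  obtain ⟨h1, h2⟩ := (hB E W hW).1 τ hτ F hF
  have hc := hτ.2.1
  by_cases c : j ∈ tp τ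
  · have hG := lay_mem hc c
    rw [filter_congr fun H hH => (lay_sub hH).symm,
      E1X.tel hc (fun u => hW.nt (hτ.1 u)) h1 _ hG]
    exact if_congr ⟨fun a => a ((lay_eq hc hG).1 rfl),
      fun a i hi => h2 j i ((lay_eq hc hG).2 hi).symm a⟩ rfl rfl
  · rw [filter_eq_empty_iff.2 fun H hH a => c (sub_tp hH a), sum_empty, if_neg fun a => c (h1 a)]

end Pool.Agent.MP_ee8c61_ag.H95T
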