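import Pool.Agent.MP_ee8c61_ag.H95T.CSpec

/-! The sum over a link. -/

namespace Pool.Agent.MP_ee8c61_ag.H95T

open Finset

namespace E2X

variable {E : Type} [DecidableEq E] [Fintype E] {W ρ : Finset (Finset E)} {F H H' : Finset E}

theorem mem_fz {V : Finset (Finset E)} :
    V ∈ fz W F ↔ ∃ i i', Pre W i i' ∧ i ∈ F ∧ i' ∉ F ∧ fc W i i' = V := by
  simp only [fz, mem_image, mem_filter, mem_univ, true_and, Prod.exists, and_assoc]

theorem of_mem (R : Rdg W ρ) (hF : F ∈ W) {V : Finset (Finset E)}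
    (hV : V ∈ (fz W F).filter (ρ ⊆ ·)) : ∃ H, lk W ρ = {H} ∧ ∃ i ∈ H \ pred ρ H,
      ∃ i' ∈ suc ρ H \ H, i ∈ F ∧ i' ∉ F ∧ fc W i i' = V := by
  obtain ⟨h1, h2⟩ := mem_filter.1 hV
  obtain ⟨i, i', hp, hi, hi', rfl⟩ := mem_fz.1 h1
  obtain ⟨H, hH, a, b⟩ := R.face i i' ⟨F, hF, hi, hi'⟩ h2
  exact ⟨H, eq_singleton_iff_unique_mem.2 ⟨hH, (R.one H hH i a i' b).1 hp⟩, i, a, i', b, hi, hi',
    rfl⟩

theorem swap (R : Rdg W ρ) (h : H ∈ lk W ρ) (h' : H' ∈ lk W ρ) (hne : H' ≠ H) :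
    H' \ pred ρ H' = suc ρ H \ H := by
  obtain ⟨e, -, e1, -⟩ := R.two H h H' h' hne
  rw [e1, e]
  ext j
  have := @pred_sub E _ ρ H j
  simp only [mem_sdiff, mem_union]
  tauto

theorem single (R : Rdg W ρ) (hW : Rng W) (hc : Chn ρ) (hF : F ∈ W) (e : lk W ρ = {H}) :
    cc ρ F H = ((fz W F).filter (ρ ⊆ ·)).card := by
  have hH : H ∈ lk W ρ := e ▸ mem_singleton_self H
  have hHW : H ∈ W := (mem_filter.1 hH).1
  obtain ⟨j, hj⟩ := sdiff_nonempty.2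
    (pred_ssub hc (nonempty_iff_ne_empty.2 fun h : H = ∅ => hW.ne (h ▸ hHW))).not_subset
  obtain ⟨j', hj'⟩ := sdiff_nonempty.2
    (ssub_suc hc fun h : H = univ => hW.nt (h ▸ hHW)).not_subset
  have hp : Pre W j j' := (R.one H hH j hj j' hj').2 fun H' h => mem_singleton.1 (e ▸ h)
  have h1 : H \ pred ρ H ⊆ F ↔ j ∈ F :=
    ⟨fun h => h hj, fun h i hi => (R.cls H hH F hF).1 j hj i hi h⟩
  have h2 : suc ρ H \ H ⊆ F ↔ j' ∈ F :=
    ⟨fun h => h hj', fun h i hi => (R.cls H hH F hF).2 j' hj' i hi h⟩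
  have key : ∀ V ∈ (fz W F).filter (ρ ⊆ ·), j ∈ F ∧ j' ∉ F ∧ V = fc W j j' := by
    intro V hV
    obtain ⟨G, e', i, hi, i', hi', a, b, rfl⟩ := of_mem R hF hV
    obtain rfl : G = H := singleton_injective (e'.symm.trans e)
    refine ⟨(R.cls G hH F hF).1 i hi j hj a, fun h => b ((R.cls G hH F hF).2 j' hj' i' hi' h),
      filter_congr fun T hT => ?_⟩
    have c := R.cls G hH T hT
    exact iff_congr ⟨c.1 i hi j hj, c.1 j hj i hi⟩ ⟨c.2 i' hi' j' hj', c.2 j' hj' i' hi'⟩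
  simp only [cc, h1, h2]
  by_cases h : j ∈ F ∧ j' ∉ F
  · have : (fz W F).filter (ρ ⊆ ·) = {fc W j j'} := eq_singleton_iff_unique_mem.2
      ⟨mem_filter.2 ⟨mem_fz.2 ⟨j, j', hp, h.1, h.2, rfl⟩, R.sub H hH j hj j' hj'⟩,
        fun V hV => (key V hV).2.2⟩
    simp [this, h.1, h.2]
  · have : (fz W F).filter (ρ ⊆ ·) = ∅ :=
      eq_empty_of_forall_notMem fun V hV => h ⟨(key V hV).1, (key V hV).2.1⟩
    have h3 : j ∈ F ↔ j' ∈ F := ⟨fun a => by_contra fun b => h ⟨a, b⟩, hp F hF⟩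
    simp [this, h3]

end E2X

theorem rowE2 : OfE2 := by
  intro hR E _ _ W ρ hW hρ hc hB F hF
  have R := hR E W ρ hW hρ hc hB
  by_cases h : ∃ H, lk W ρ = {H}
  · obtain ⟨H, e⟩ := h
    rw [e, sum_singleton]
    exact E2X.single R hW hc hF e
  have h0 : (fz W F).filter (ρ ⊆ ·) = ∅ := eq_empty_of_forall_notMem fun V hV =>
    h ((E2X.of_mem R hF hV).imp fun _ a => a.1)
  rw [h0, card_empty, Nat.cast_zero]
  rcases (lk W ρ).eq_empty_or_nonempty with e | ⟨H, hH⟩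
  · rw [e, sum_empty]
  obtain ⟨H', hH', hne⟩ : ∃ H' ∈ lk W ρ, H' ≠ H := by
    by_contra c
    push Not at c
    exact h ⟨H, eq_singleton_iff_unique_mem.2 ⟨hH, c⟩⟩
  have e : lk W ρ = {H', H} := by
    ext G
    rw [mem_insert, mem_singleton]
    refine ⟨fun hG => or_iff_not_imp_right.2 fun c => ?_, ?_⟩
    · exact (R.two H hH G hG c).1.trans (R.two H hH H' hH' hne).1.symm
    · rintro (rfl | rfl) <;> assumption
  rw [e, sum_pair hne, cc, cc, E2X.swap R hH hH' hne, E2X.swap R hH' hH hne.symm]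
  ring

end Pool.Agent.MP_ee8c61_ag.H95T
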