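import Pool.Agent.MP_ee8c61_ag.H95T.CSpec

/-! Row E4: the sum over a tight family has no pole after multiplication by `b`. -/

namespace Pool.Agent.MP_ee8c61_ag.H95T

open Finset Polynomial

namespace E4X

/-- No pole at `-la` after multiplication by `b`. -/
def Ok (b : ℂ[X]) (la : ℂ) (Z : RatFunc ℂ) : Prop := ∃ p q : ℂ[X], q.eval (-la) ≠ 0 ∧
  algebraMap _ (RatFunc ℂ) (b * q) * Z = algebraMap _ (RatFunc ℂ) p

variable {b : ℂ[X]} {la : ℂ}

theorem ok_add {Z Z' : RatFunc ℂ} (h : Ok b la Z) (h' : Ok b la Z') : Ok b la (Z + Z') := by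
  obtain ⟨p, q, h1, h2⟩ := h
  obtain ⟨p', q', h3, h4⟩ := h'
  refine ⟨p * q' + p' * q, q * q', by rw [eval_mul]; exact mul_ne_zero h1 h3, ?_⟩
  simp only [map_add, map_mul] at h2 h4 ⊢
  rw [← h2, ← h4]
  ring

theorem ok_sum {ι : Type} {s : Finset ι} {Z : ι → RatFunc ℂ} (h : ∀ i ∈ s, Ok b la (Z i)) :
    Ok b la (∑ i ∈ s, Z i) :=
  sum_induction Z (Ok b la) (fun _ _ => ok_add) ⟨0, 1, by simp, by simp⟩ h

theorem ok_div {Z : RatFunc ℂ} {u : ℂ[X]} (hu : u.eval (-la) ≠ 0)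
    (h : Ok b la (algebraMap _ (RatFunc ℂ) u * Z)) : Ok b la Z := by
  obtain ⟨p, q, h1, h2⟩ := h
  refine ⟨p, q * u, by rw [eval_mul]; exact mul_ne_zero h1 hu, ?_⟩
  rw [← h2, ← mul_assoc, ← mul_assoc, ← map_mul]

variable {E : Type} [DecidableEq E] (P : PM E)

theorem lf_eq (F : Finset E) :
    P.lf F = algebraMap _ (RatFunc ℂ) (C (F.card : ℂ) * X + C (P.r F : ℂ)) := by
  simp [PM.lf]

theorem lf_ne {F : Finset E} (h : F.Nonempty) : P.lf F ≠ 0 := by
  rw [lf_eq, Ne, map_eq_zero_iff _ (IsFractionRing.injective _ _)]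
  intro e
  have h1 := congrArg (fun p : ℂ[X] => p.coeff 1) e
  simp only [coeff_add, coeff_C_mul, coeff_X_one, mul_one, coeff_C_succ, add_zero, coeff_zero,
    Nat.cast_eq_zero, card_eq_zero] at h1
  exact h.ne_empty h1

variable [Fintype E]

theorem face {W : Finset (Finset E)} {t : E → ℤ} {D : ℕ} (h : P.Tight W t D) {j j' : E}
    (hp : Pre W j j') (hr : Rng (fc W j j')) : P.Gd (fc W j j') := by
  have hs : ∀ F : Finset E, ∑ i ∈ F, (2 * t i - (if i = j then 1 else 0) + if i = j' then 1 else 0)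
      = 2 * ∑ i ∈ F, t i - (if j ∈ F then 1 else 0) + if j' ∈ F then 1 else 0 := fun F => by
    rw [sum_add_distrib, sum_sub_distrib, sum_ite_eq', sum_ite_eq', mul_sum]
  have key : ∀ F, P.Fl F →
      ∑ i ∈ F, (2 * t i - (if i = j then 1 else 0) + if i = j' then 1 else 0)
        ≤ ((2 * D : ℕ) : ℤ) * P.r F ∧
      (∑ i ∈ F, (2 * t i - (if i = j then 1 else 0) + if i = j' then 1 else 0)
        = ((2 * D : ℕ) : ℤ) * P.r F ↔ F ∈ fc W j j') := by
    intro F hF
    have h1 := h.le F hF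
    have h2 := h.eq F hF
    rw [hs, fc, mem_filter, Nat.cast_mul, Nat.cast_ofNat, mul_assoc]
    generalize (D : ℤ) * P.r F = y at h1 h2 ⊢
    generalize ∑ i ∈ F, t i = x at h1 h2 ⊢
    by_cases hW : F ∈ W
    · have h3 := h2.2 hW
      have h4 := hp F hW
      by_cases a : j ∈ F <;> by_cases a' : j' ∈ F <;> simp_all
    · have h3 : x ≠ y := fun e => hW (h2.1 e)
      simp only [hW, false_and, iff_false]
      split_ifs <;> omega
  exact ⟨_, 2 * D, hr, fun F hF => h.fl F (mem_filter.1 hF).1, by have := h.pos; omega,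
    fun F hF => (key F hF).1, fun F hF => (key F hF).2⟩

end E4X

open E4X in
theorem rowE4 : OfE4 := by
  intro hBl hE3 E _ _ P b hb la d
  show ∀ W, P.Gd W → Bd W d → Ok b la (LL P.lf W d)
  induction d with
  | zero =>
    intro W _ _
    refine ok_sum fun τ hτ => ?_
    rw [card_eq_zero.1 (mem_chs.1 hτ).2.2]
    exact ⟨b, 1, by simp, by simp⟩
  | succ d ih =>
    rintro W ⟨t, D, hT⟩ hd
    have hne : ∀ F ∈ W, F.Nonempty := fun F hF => (hT.fl F hF).1
    by_cases hc : ∀ F ∈ W, (P.r F : ℂ) = la * F.card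
    · refine ok_sum fun τ hτ => ?_
      obtain ⟨h1, h2, h3⟩ := mem_chs.1 hτ
      obtain ⟨b', hb'⟩ := hb W τ d la ⟨t, D, hT⟩ ⟨h1, h2, h3 ▸ hd⟩ h3 hc
      refine ⟨b', ∏ F ∈ τ, C (F.card : ℂ), ?_, ?_⟩
      · rw [eval_prod]
        refine prod_ne_zero_iff.2 fun F hF => ?_
        rw [eval_C]
        exact_mod_cast (hne F (h1 hF)).card_pos.ne'
      · have e : ∏ F ∈ τ, P.lf F = algebraMap _ (RatFunc ℂ)
            ((X + C la) ^ (d + 1) * ∏ F ∈ τ, C (F.card : ℂ)) := by
          rw [← h3, ← prod_const, ← prod_mul_distrib, map_prod]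
          refine prod_congr rfl fun F hF => ?_
          rw [lf_eq, hc F (h1 hF), C_mul]
          congr 1
          ring
        have e0 : ∏ F ∈ τ, P.lf F ≠ 0 := prod_ne_zero_iff.2 fun F hF => lf_ne P (hne F (h1 hF))
        rw [prod_inv_distrib, mul_inv_eq_iff_eq_mul₀ e0, e, ← map_mul, hb']
        congr 1
        ring
    · simp only [not_forall] at hc
      obtain ⟨F0, hF0, hc⟩ := hc
      have hD : (D : ℂ) ≠ 0 := by exact_mod_cast hT.pos.ne'
      have h1 := hE3 E (RatFunc ℂ) W d P.lf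
        (fun j => algebraMap _ (RatFunc ℂ) (X + C ((t j : ℂ) / D))) hT.rng hd
        (fun F hF => lf_ne P (hne F hF)) (fun F hF => by
          have h2 : (P.r F : ℂ) = ∑ j ∈ F, (t j : ℂ) / D := by
            have h3 := congrArg (Int.cast : ℤ → ℂ) ((hT.eq F (hT.fl F hF)).2 hF)
            push_cast at h3
            rw [← sum_div, h3, mul_div_cancel_left₀ _ hD]
          rw [lf_eq, ← map_sum, sum_add_distrib, sum_const, ← map_sum, h2, nsmul_eq_mul,
            map_natCast]) F0 hF0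
      refine ok_div (u := C (F0.card : ℂ) * X + C (P.r F0 : ℂ)) (fun e => hc ?_) ?_
      · simp only [eval_add, eval_mul, eval_C, eval_X] at e
        linear_combination e
      · rw [← lf_eq, h1]
        refine ok_sum fun V hV => ?_
        obtain ⟨p, hp, rfl⟩ := mem_image.1 hV
        obtain ⟨-, a1, a2, a3⟩ := mem_filter.1 hp
        obtain ⟨b1, b2⟩ := (hBl E W hT.rng).2 p.1 p.2 d a1 ⟨F0, hF0, a2, a3⟩ hd
        exact ih _ (face P hT a1 b1) b2

end Pool.Agent.MP_ee8c61_ag.H95T
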