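import Pool.Agent.MP_ee8c61_ag.H95T.ASpec

/-! A principal open set of the affine space. -/

namespace Pool.Agent.MP_ee8c61_ag.H95T

open H95 Finset MvPolynomial

namespace EtX

variable {n : ℕ} {K : Type} [Field K] [Algebra ℂ K] {z : Fin n → K}

theorem der {D : Fin n → Derivation ℂ K K} (hD : ∀ i j, D i (z j) = if i = j then 1 else 0)
    (l : Fin n) (p : Pol (Fin n)) : D l (ev z p) = ev z (pderiv l p) := by
  induction p using MvPolynomial.induction_on with
  | C a => simp
  | add p q hp hq => simp only [map_add, hp, hq]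
  | mul_X p i hp =>
    rw [map_mul, aeval_X, Derivation.leibniz, Derivation.leibniz, hp, hD, pderiv_X]
    by_cases h : l = i
    · simp [h]
    · simp [h, Ne.symm h]

theorem ev_mem {B : Subalgebra ℂ K} (h : ∀ i, z i ∈ B) (p : Pol (Fin n)) : ev z p ∈ B := by
  induction p using MvPolynomial.induction_on with
  | C a => rw [aeval_C]; exact algebraMap_mem B a
  | add p q hp hq => rw [map_add]; exact add_mem hp hq
  | mul_X p i hp => rw [map_mul, aeval_X]; exact mul_mem hp (h i)

theorem coe_ev {B : Subalgebra ℂ K} (h : ∀ i, z i ∈ B) (p : Pol (Fin n)) :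
    ((ev (fun i => (⟨z i, h i⟩ : B)) p : B) : K) = ev z p :=
  comp_aeval_apply (fun i => (⟨z i, h i⟩ : B)) B.val p

theorem frac {P : Pol (Fin n)} (hP : ev z P ≠ 0) {g : K}
    (hg : g ∈ Algebra.adjoin ℂ (Set.range z ∪ {(ev z P)⁻¹})) :
    ∃ (m : ℕ) (a : Pol (Fin n)), g * ev z P ^ m = ev z a := by
  induction hg using Algebra.adjoin_induction with
  | mem x hx =>
    rcases hx with ⟨i, rfl⟩ | rfl
    · exact ⟨0, X i, by simp⟩
    · exact ⟨1, 1, by rw [pow_one, map_one, inv_mul_cancel₀ hP]⟩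
  | algebraMap c => exact ⟨0, C c, by simp⟩
  | add x y _ _ hx hy =>
    obtain ⟨m, a, ha⟩ := hx
    obtain ⟨k, b, hb⟩ := hy
    refine ⟨m + k, a * P ^ k + b * P ^ m, ?_⟩
    rw [map_add, map_mul, map_mul, map_pow, map_pow, ← ha, ← hb]
    ring
  | mul x y _ _ hx hy =>
    obtain ⟨m, a, ha⟩ := hx
    obtain ⟨k, b, hb⟩ := hy
    refine ⟨m + k, a * b, ?_⟩
    rw [map_mul, ← ha, ← hb]
    ring

end EtX

open EtX in
theorem rowEt : OfEt := by
  intro n K _ _ z P B D hz hP hB hD
  have zB : ∀ i, z i ∈ B := fun i => hB ▸ Algebra.subset_adjoin (Or.inl ⟨i, rfl⟩)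
  have iB : (ev z P)⁻¹ ∈ B := hB ▸ Algebra.subset_adjoin (Or.inr rfl)
  refine ⟨fun i g hg => ?_, fun h => ?_, fun φ => ?_⟩
  · rw [hB] at hg
    obtain ⟨m, a, ha⟩ := frac hP hg
    rw [← hB] at hg
    have e := congrArg (D i) ha
    rw [← map_pow, Derivation.leibniz, der hD, der hD, smul_eq_mul, smul_eq_mul] at e
    have e2 : D i g = (ev z (pderiv i a) - g * ev z (pderiv i (P ^ m))) * (ev z P)⁻¹ ^ m := by
      rw [← e, add_sub_cancel_left, map_pow, mul_right_comm, ← mul_pow, mul_inv_cancel₀ hP, one_pow,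
        one_mul]
    rw [e2]
    exact mul_mem (sub_mem (ev_mem zB _) (mul_mem hg (ev_mem zB _))) (pow_mem iB _)
  · let := (ev fun i => (⟨z i, h i⟩ : B)).toRingHom.toAlgebra
    have ea : ∀ p, ((algebraMap (Pol (Fin n)) B p : B) : K) = ev z p := coe_ev h
    have : IsLocalization.Away P B := IsLocalization.Away.mk P
      (IsUnit.of_mul_eq_one ⟨_, iB⟩ (Subtype.ext (by
        rw [MulMemClass.coe_mul, ea]
        exact mul_inv_cancel₀ hP)))
      (fun s => by
        obtain ⟨m, a, ha⟩ := frac hP (hB.le s.2)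
        refine ⟨m, a, Subtype.ext ?_⟩
        rw [MulMemClass.coe_mul, SubmonoidClass.coe_pow, ea, ea, ha])
      fun a b e => ⟨0, by rw [hz.inj ((ea a).symm.trans ((congrArg _ e).trans (ea b)))]⟩
    exact Algebra.Etale.of_isLocalizationAway P
  · rw [jd, AlgHom.map_det]
    exact congrArg Matrix.det (Matrix.ext fun l i => der hD i (φ l))

end Pool.Agent.MP_ee8c61_ag.H95T
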