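import Pool.Agent.MP_ee8c61_ag.H95T.ESpec
import Pool.Agent.MP_ee8c61_ag.H59.RMult

/-! Exactness of the complex of the strata of a simplex. -/

namespace Pool.Agent.MP_ee8c61_ag.H95T

open H59 Finset

namespace ExX

variable {G J : Type} [AddCommGroup G] [LinearOrder J]

/-- The family with an extra term at the empty set. -/
def xf (K : Finset J → Lat G) (Q : Lat G) (β : Finset J) : Finset J → Lat G :=
  fun τ => if τ = ∅ then K β ⊔ Q else K (β ∪ τ)

theorem kl_mono {V : Finset J} {A B : Finset J → Lat G} (h : ∀ σ, A σ ≤ B σ) {j : ℤ} {x : Ch J G}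
    (hx : x ∈ kl V A j) : x ∈ kl V B j :=
  (mem_kl _ _ _ _).2 fun σ => ⟨fun c => h σ _ (((mem_kl _ _ _ _).1 hx σ).1 c),
    ((mem_kl _ _ _ _).1 hx σ).2⟩

theorem mem_single {V : Finset J} {A : Finset J → Lat G} {j : ℤ} {p : G} :
    (Pi.single ∅ p : Ch J G) ∈ kl V A j ↔ p ∈ A ∅ j := by
  rw [mem_kl]
  refine ⟨fun h => by simpa using (h ∅).1, fun h σ => ?_⟩
  by_cases c : σ = ∅
  · simpa [c] using h
  · simp [c]

theorem split {V : Finset J} {A B : Finset J → Lat G} {Q : Lat G} (h0 : A ∅ ≤ B ∅ ⊔ Q)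
    (h : ∀ σ, σ ≠ ∅ → A σ ≤ B σ) {j : ℤ} {x : Ch J G} (hx : x ∈ kl V A j) :
    ∃ p ∈ Q j, x - Pi.single ∅ p ∈ kl V B j := by
  rw [mem_kl] at hx
  obtain ⟨a, ha, p, hp, e⟩ := AddSubgroup.mem_sup.1 (h0 _ ((hx ∅).1 (empty_subset _)))
  refine ⟨p, by simpa using hp, (mem_kl _ _ _ _).2 fun σ => ?_⟩
  by_cases c : σ = ∅
  · subst c
    simpa [← e] using ha
  · simpa [c] using ⟨fun c' => h σ c _ ((hx σ).1 c'), (hx σ).2⟩

theorem k0 (hC : Car J G) (D : Op G) (V : Finset J) (x : Ch J G) : ks D V x ∅ = D (x ∅) := by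
  simp [hC.kos_apply]

theorem ks_single (hC : Car J G) (D : Op G) {V : Finset J} {A : Finset J → Lat G} {j : ℤ} {p : G}
    (h : ∀ l ∈ V, p ∈ A {l} j) :
    ks D V (Pi.single ∅ p) - Pi.single ∅ (D p) ∈ kl V A (j + 1) := by
  refine (mem_kl _ _ _ _).2 fun σ => ?_
  by_cases c : σ = ∅
  · subst c
    simp [k0 hC]
  have key : ∀ l ∈ V ∩ σ, σ.erase l = ∅ → σ = {l} := fun l hl e =>
    ((erase_eq_empty_iff σ l).1 e).resolve_left c
  rw [Pi.sub_apply, hC.kos_apply, Pi.single_eq_of_ne c, Pi.single_eq_of_ne c, map_zero, smul_zero,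
    zero_add, sub_zero]
  refine ⟨fun _ => sum_mem fun l hl => zsmul_mem ?_ _, fun c' => sum_eq_zero fun l hl => ?_⟩
  · by_cases e : σ.erase l = ∅
    · rw [e, key l hl e]
      simpa using h l (mem_inter.1 hl).1
    · simp [e]
  · rw [Pi.single_eq_of_ne fun e => c' (key l hl e ▸ singleton_subset_iff.2 (mem_inter.1 hl).1),
      map_zero, smul_zero]

theorem pair_sup {D : Op G} {L A B : Lat G} (h : Pair D L A) (h' : Pair D L B) :
    Pair D L (A ⊔ B) := by
  refine ⟨h.dd, fun j => sup_le (h.le j) (h'.le j), h.st, fun j x hx => ?_⟩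
  obtain ⟨a, ha, b, hb, rfl⟩ := AddSubgroup.mem_sup.1 hx
  rw [map_add]
  exact AddSubgroup.add_mem_sup (h.st' _ _ ha) (h'.st' _ _ hb)

variable {D : Op G} {L : Lat G} {K P : Finset J → Lat G}

theorem pair_cf (hK : ∀ s, Pair D L (K s)) {Q : Lat G} (hQ : Pair D L Q) (β σ : Finset J) :
    Pair D L (xf K Q β σ) := by
  unfold xf
  split_ifs
  exacts [pair_sup (hK _) hQ, hK _]

theorem mono_cf (mK : Monotone K) {Q : Lat G} {V : Finset J} (hQ : ∀ l ∈ V, Q ≤ K {l})
    (β : Finset J) : ∀ l ∈ V, ∀ σ, l ∉ σ → xf K Q β σ ≤ xf K Q β (insert l σ) := by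
  intro l hl σ _
  simp only [xf, if_neg (insert_ne_empty l σ)]
  split_ifs
  · exact sup_le (mK subset_union_left) ((hQ l hl).trans (mK (by simp)))
  · exact mK (union_subset_union_right (subset_insert _ _))

theorem step1 (hC : Car J G) (hO : Cone J G) (hK : ∀ s, Pair D L (K s)) (hP : ∀ s, Pair D L (P s))
    (mK : Monotone K) (mP : Antitone P) (p0 : P ∅ = L) (h1 : ∀ i, P {i} ≤ K {i})
    (h2 : ∀ i U β, i ∉ U → i ∉ β → Disjoint U β → P U ⊓ K (insert i β) ≤ K β ⊔ P (insert i U))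
    (V : Finset J) : ∀ β, Disjoint V β → ∀ j,
      Van (ks D V) (kl V fun _ => L) (kl V (xf K (P V) β)) j := by
  have pk : ∀ V : Finset J, ∀ l ∈ V, P V ≤ K {l} := fun V l hl =>
    (mP (singleton_subset_iff.2 hl)).trans (h1 l)
  induction V using Finset.induction_on with
  | empty =>
    refine fun β _ j => (hO.emp _ _ _ _ _).2 fun x hx _ => ⟨0, zero_mem _, ?_⟩
    simp only [xf, if_true, p0, map_zero, sub_zero]
    exact AddSubgroup.mem_sup_right hx
  | insert i V hi ih =>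
    intro β hβ j
    obtain ⟨iβ, hβ⟩ := disjoint_insert_left.1 hβ
    have i1 := ih β hβ
    have i2 := ih (insert i β) (disjoint_insert_right.2 ⟨hi, hβ⟩)
    have kk : KOK D (fun _ => 1) (insert i V) (fun _ => L) (xf K (P (insert i V)) β) :=
      MultX.kok (pair_cf hK (hP _) β) (fun _ _ _ _ => le_rfl) (mono_cf mK (pk _) β)
    have q2 := hO.pair _ _ _ _ _ (hO.sub _ _ _ _ _ _ hi kk).2
    have e2 : ∀ σ, xf K (P (insert i V)) β (insert i σ) = K (insert i β ∪ σ) := fun σ => by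
      rw [xf, if_neg (insert_ne_empty _ _), union_insert, insert_union]
    simp only [e2] at q2
    have a1 : ∀ σ, xf K (P (insert i V)) β σ ≤ xf K (P V) β σ := fun σ => by
      unfold xf
      split_ifs
      exacts [sup_le_sup_left (mP (subset_insert _ _)) _, le_rfl]
    have a2 : ∀ Q β σ, K (β ∪ σ) ≤ xf K Q β σ := fun Q β σ => by
      unfold xf
      split_ifs with c
      · rw [c, union_empty]
        exact le_sup_left
      · exact le_rfl
    have a3 : ∀ σ, xf K (P V) β σ ≤ xf K (P V) (insert i β) σ := fun σ => by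
      unfold xf
      split_ifs
      exacts [sup_le_sup_right (mK (subset_insert _ _)) _,
        mK (union_subset_union_left (subset_insert _ _))]
    have sp : ∀ β j, ∀ x ∈ kl V (xf K (P V) β) j, ∃ p ∈ P V j,
        x - Pi.single ∅ p ∈ kl V (fun σ => K (β ∪ σ)) j := fun β j x hx =>
      split (by simp [xf]) (fun σ c => by simp [xf, c]) hx
    have sg : ∀ β j, ∀ p ∈ P V j, ks D V (Pi.single ∅ p) - Pi.single ∅ (D p) ∈
        kl V (fun σ => K (β ∪ σ)) (j + 1) := fun β j p hp =>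
      ks_single hC D fun l hl => mK subset_union_right j (pk V l hl j hp)
    have back : ∀ j, ∀ q ∈ P V j, (Pi.single ∅ q : Ch J G) ∈ kl V (fun σ => K (insert i β ∪ σ)) j →
        (Pi.single ∅ q : Ch J G) ∈ kl V (xf K (P (insert i V)) β) j := fun j q h3 h4 => by
      rw [mem_single] at h4 ⊢
      rw [union_empty] at h4
      simpa only [xf, if_true] using h2 i V β hi iβ hβ j ⟨h3, h4⟩
    have sl : ∀ j, ∀ p ∈ P V j, (Pi.single ∅ p : Ch J G) ∈ kl V (fun _ => L) j := fun j p hp =>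
      mem_single.2 ((hP V).le j hp)
    refine hO.van _ _ _ _ _ _ _ hi kk ?_ ?_
    · simp only [e2]
      rintro x hx hd ⟨y, hy, hxy⟩
      change x - _ ∈ _ at hxy
      obtain ⟨y1, b1, b2⟩ := i1 j x hx (kl_mono a1 hd)
      obtain ⟨p, b3, b4⟩ := sp _ _ _ b2
      obtain ⟨y2, -, b5⟩ := i2 (j - 1) (y1 - y) (sub_mem b1 hy) (by
        rw [sub_add_cancel, map_sub]
        convert sub_mem (kl_mono (a2 _ _) hxy) (kl_mono a3 b2) using 1
        abel)
      obtain ⟨p2, b6, b7⟩ := sp _ _ _ b5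
      have b8 := q2.stp' j b7
      have b9 := fun β => sub_add_cancel j 1 ▸ sg β _ _ b6
      rw [map_sub, map_sub, map_sub, q2.dd', sub_zero] at b8
      have c1 := back j (p + D p2) (add_mem b3 ((hP V).stp' j b6)) (by
        convert sub_mem (sub_mem (sub_mem hxy (kl_mono (fun σ =>
          mK (union_subset_union_left (subset_insert _ _))) b4)) b8) (b9 _) using 1
        rw [Pi.single_add]
        abel)
      refine ⟨y1 - Pi.single ∅ p2, sub_mem b1 (sl _ _ b6), ?_⟩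
      convert add_mem (add_mem (kl_mono (a2 _ _) b4) c1) (kl_mono (a2 _ _) (b9 β)) using 1
      rw [Pi.single_add, map_sub]
      abel
    · simp only [e2]
      intro x hx hd
      obtain ⟨y, b1, b2⟩ := i2 _ x hx (kl_mono (a2 _ _) hd)
      obtain ⟨p, b3, b4⟩ := sp _ _ _ b2
      have b5 := q2.st' _ _ b4
      rw [map_sub, map_sub, q2.dd', sub_zero] at b5
      have c1 := back _ (D p) ((hP V).st' _ _ b3) (by
        convert sub_mem (sub_mem hd b5) (sg _ _ _ b3) using 1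
        abel)
      refine ⟨_, sl _ _ b3, ?_, y, b1, ?_⟩
      · simpa using add_mem (kl_mono (a2 _ _) (sg β _ _ b3)) c1
      · rwa [sub_right_comm] at b4

end ExX

open ExX in
theorem rowEx : OfEx := by
  intro e G J _ _ D L K P V j hK hP mK mP k1 p0 h1 h2 hv
  have hC := e.car J G
  have hO := e.cone J G
  have pk : ∀ l ∈ V, P V ≤ K {l} := fun l hl => (mP (singleton_subset_iff.2 hl)).trans (h1 l)
  have pL : Pair D L L := ⟨(hK ∅).dd, fun _ => le_rfl, (hK ∅).st, (hK ∅).st⟩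
  obtain ⟨B, hB⟩ : ∃ B : Finset J → Lat G, B = fun σ => if σ = ∅ then P V else L := ⟨_, rfl⟩
  have B0 : B ∅ = P V := by simp [hB]
  have B1 : ∀ σ, σ ≠ ∅ → B σ = L := fun σ c => by simp [hB, c]
  have C0 : xf K (P V) ∅ ∅ = P V := by simp [xf, k1]
  have C1 : ∀ σ, σ ≠ ∅ → xf K (P V) ∅ σ = K σ := fun σ c => by simp [xf, c]
  have pB : ∀ σ : Finset J, Pair D L (B σ) := fun σ => by
    by_cases c : σ = ∅
    exacts [c ▸ B0 ▸ hP V, B1 σ c ▸ pL]
  have kB : KOK D (fun _ => 1) V (fun _ => L) B :=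
    MultX.kok pB (fun _ _ _ _ => le_rfl) fun l _ σ _ => B1 _ (insert_ne_empty l σ) ▸ (pB σ).le
  have qB := hO.pair _ _ _ _ _ kB
  have qC := hO.pair _ _ _ _ _ (MultX.kok (I := V) (pair_cf hK (hP V) ∅) (fun _ _ _ _ => le_rfl)
    (mono_cf mK pk ∅))
  have hV := (e.cx _).left _ _ _ _ j qB ⟨qB.dd, fun j x hx => kl_mono (fun σ => by
      by_cases c : σ = ∅
      · rw [c, B0, C0]
      · rw [B1 σ c, C1 σ c]
        exact (hK σ).le) hx, qB.st', qC.st'⟩
    (step1 hC hO hK hP mK mP p0 h1 h2 V ∅ (disjoint_empty_right _) j)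
    ((e.filt J G).van _ _ _ _ _ _ kB fun σ _ => by
      by_cases c : σ = ∅
      · simpa [c, B0] using hv
      · rw [B1 σ c]
        exact MultX.van_self D L _)
  intro x hx hd
  obtain ⟨y, b1, b2⟩ := hV x (kl_mono (fun σ => by
      by_cases c : σ = ∅ <;> simp [sk, B1, c]) hx) (kl_mono (fun σ => by
      by_cases c : σ = ∅ <;> simp [sk, C1, c]) hd)
  obtain ⟨p, b3, b4⟩ := split (B := sk fun _ => L) (Q := P V) (by simp [B0])
    (fun σ c => by simp [sk, B1, c]) b1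
  refine ⟨_, b4, (mem_kl _ _ _ _).2 fun σ => ?_⟩
  have b5 := (mem_kl _ _ _ _).1 (add_mem b2 (qC.stp' j (mem_single.2 (C0 ▸ b3)))) σ
  rw [sub_add, ← map_sub] at b5
  by_cases c : σ = ∅
  · subst c
    have b6 := ((mem_kl _ _ _ _).1 hx ∅).1 (empty_subset _)
    have b7 := ((mem_kl _ _ _ _).1 b4 ∅).1 (empty_subset _)
    simp only [sk, if_true, mem_lat_bot] at b6 b7
    rw [Pi.sub_apply, k0 hC, b6, b7]
    simp
  · rwa [sk, if_neg c, ← C1 σ c]

end Pool.Agent.MP_ee8c61_ag.H95T
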