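import Pool.Agent.MP_ee8c61_ag.H95T.ASpec

/-! The field of rational functions. -/

namespace Pool.Agent.MP_ee8c61_ag.H95T

open H95 Finset MvPolynomial

theorem rowF0 : OfF0 := by
  intro n
  have e : ∀ p, ev (fun l : Fin n => algebraMap (Pol (Fin n)) (FractionRing (Pol (Fin n))) (X l)) p
      = algebraMap _ _ p := fun p =>
    DFunLike.congr_fun (algHom_ext (f := ev _) (g := IsScalarTower.toAlgHom ℂ _ _) (by simp)) p
  refine ⟨fun p q h => IsFractionRing.injective _ (FractionRing (Pol (Fin n)))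
    (by rwa [e, e] at h), fun g => ?_⟩
  obtain ⟨⟨t, s⟩, h⟩ := IsLocalization.surj (nonZeroDivisors (Pol (Fin n))) g
  exact ⟨s, t, nonZeroDivisors.coe_ne_zero s, by rw [e, e, mul_comm, h]⟩

end Pool.Agent.MP_ee8c61_ag.H95T
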