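import Pool.Agent.MP_ee8c61_ag.H95T.ASpec

/-! The derivations dual to the coordinates. -/

namespace Pool.Agent.MP_ee8c61_ag.H95T

open H95 Finset MvPolynomial

namespace FmX

variable {K : Type} [Field K] [Algebra ℂ K] {n : ℕ}

theorem dsum {ι : Type} (s : Finset ι) (D : ι → Derivation ℂ K K) (g : K) :
    (∑ i ∈ s, D i) g = ∑ i ∈ s, D i g :=
  (congrFun (map_sum Derivation.coeFnAddMonoidHom D s) g).trans (Finset.sum_apply ..)

theorem van {x : Fin n → K} (h : FK x) (δ : Derivation ℂ K K) (hδ : ∀ l, δ (x l) = 0) (g : K) :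
    δ g = 0 := by
  have h0 : ∀ p, δ (ev x p) = 0 := fun p => by
    induction p using MvPolynomial.induction_on with
    | C c => simp
    | add p q hp hq => rw [map_add, map_add, hp, hq, add_zero]
    | mul_X p i hp => rw [map_mul, Derivation.leibniz, hp, aeval_X, hδ, smul_zero, smul_zero, add_zero]
  obtain ⟨s, t, hs, e⟩ := h.frac g
  have h1 := h0 t
  rw [← e, Derivation.leibniz, h0, smul_zero, add_zero, smul_eq_mul] at h1
  exact (mul_eq_zero.1 h1).resolve_left ((map_ne_zero_iff _ h.inj).2 hs)

end FmX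

open FmX in
theorem rowFm : OfFm := by
  intro hE n K _ _ x h
  choose R hR using fun l : Fin n => hE (Pol (Fin n)) K (ev x).toRingHom C (pderiv l) h.inj
    (fun t => aeval_C x t) (fun g => (h.frac g).imp fun s => Exists.imp fun t k =>
      ⟨(map_ne_zero_iff _ h.inj).2 k.1, k.2⟩)
    ⟨map_add _, fun p q => by simp, fun t => pderiv_C⟩
  have h1 : ∀ i j, R i (x j) = if i = j then 1 else 0 := fun i j => by
    simpa [Pi.single_apply, eq_comm] using hR i (X j)
  have hk : ∀ (δ : Derivation ℂ K K) (p : Prop) [Decidable p], δ (if p then 1 else 0) = 0 := by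
    intro δ p _
    split_ifs <;> simp
  refine ⟨R, h1, fun i j g => ?_, fun δ g => ?_⟩
  · have := van h ⁅R i, R j⁆ (fun l => by
      rw [Derivation.commutator_apply, h1, h1, hk, hk, sub_self]) g
    rwa [Derivation.commutator_apply, sub_eq_zero] at this
  · have := van h (δ - ∑ l, δ (x l) • R l) (fun j => by
      rw [Derivation.sub_apply, dsum]
      simp [h1]) g
    rw [Derivation.sub_apply, dsum, sub_eq_zero] at this
    simpa using this

end Pool.Agent.MP_ee8c61_ag.H95T
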