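import Pool.Agent.MP_ee8c61_ag.H95T.ASpec

/-! New generators of the function field. -/

set_option autoImplicit false

namespace Pool.Agent.MP_ee8c61_ag.H95T

open H95 Finset MvPolynomial

theorem rowFz : OfFz := by
  intro _ n K _ _ x z φ h e
  have fr : ∀ g : K, ∃ s t : Pol (Fin n), ev z s ≠ 0 ∧ ev z s * g = ev z t := fun g => by
    obtain ⟨s, t, hs, h1⟩ := h.frac g
    refine ⟨ev φ s, ev φ t, ?_, by rwa [← ev_ap, ← ev_ap, e]⟩
    rw [← ev_ap, e]
    exact fun h0 => hs (h.inj (by rw [h0, map_zero]))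
  have mem : ∀ s : Pol (Fin n), ev z s ∈ Algebra.adjoin ℂ (Set.range z) := fun s => by
    rw [Algebra.adjoin_range_eq_range_aeval]
    exact ⟨s, rfl⟩
  have alg : Algebra.IsAlgebraic (Algebra.adjoin ℂ (Set.range z)) K := ⟨fun g => by
    obtain ⟨s, t, hs, h1⟩ := fr g
    refine ⟨Polynomial.C ⟨_, mem s⟩ * Polynomial.X - Polynomial.C ⟨_, mem t⟩, fun h0 => hs ?_, ?_⟩
    · simpa [Subtype.ext_iff] using congrArg (Polynomial.coeff · 1) h0
    · simpa [sub_eq_zero] using h1⟩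
  refine ⟨(Algebra.IsAlgebraic.isTranscendenceBasis_of_le_trdeg_of_finite ℂ z
    (AlgebraicIndependent.cardinalMk_le_trdeg (x := x) h.inj)).1, fun g => ?_⟩
  obtain ⟨s, t, hs, h1⟩ := fr g
  exact ⟨s, t, fun h0 => hs (by rw [h0, map_zero]), h1⟩

end Pool.Agent.MP_ee8c61_ag.H95T
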