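import Pool.Agent.MP_ee8c61_ag.H95T.ASpec

/-! Row Gn: general members exist. -/

namespace Pool.Agent.MP_ee8c61_ag.H95T

open H95 Finset MvPolynomial

namespace GnX

theorem one {n : ℕ} {E : Type} [DecidableEq E] [Fintype E] (A : Arr n E) (j : E) :
    ∃ v ∈ A.V j, (j = A.o → v = 1) ∧ ∀ G, A.pm.Fl G ∨ G = ∅ → j ∉ G → v ∉ A.VS G := by
  by_cases hj : j = A.o
  · refine ⟨1, by rw [hj, A.top]; exact one_mem_Wi n, fun _ => rfl, fun G hG _ => ?_⟩
    rcases hG with hG | rfl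
    · exact (A.fl_iff.1 hG).2.1
    · exact fun h => one_ne_zero ((Submodule.mem_bot ℂ).1 h)
  · obtain ⟨v, hv⟩ := Submodule.exists_forall_notMem_of_forall_ne_top
      (fun G : {G : Finset E // (A.pm.Fl G ∨ G = ∅) ∧ j ∉ G} =>
        (A.VS G.1).comap (A.V j).subtype) fun ⟨G, hG, hj⟩ h => by
      have h1 : A.V j ≤ A.VS G := Submodule.comap_subtype_eq_top.1 h
      rcases hG with hG | rfl
      · exact hj ((A.fl_iff.1 hG).2.2 j h1)
      · exact A.ne j (le_bot_iff.1 h1)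
    exact ⟨v, v.2, fun h => absurd h hj, fun G hG h => hv ⟨G, hG, h⟩⟩

end GnX

theorem rowGn : OfGn := by
  intro n E _ _ A
  choose ℓ h1 h2 h3 using GnX.one A
  exact ⟨ℓ, h1, h2 _ rfl, fun G j => h3 j G⟩

end Pool.Agent.MP_ee8c61_ag.H95T
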