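import Pool.Agent.MP_ee8c61_ag.H95T.ASpec

/-! The graph of a point on a principal open set. -/

namespace Pool.Agent.MP_ee8c61_ag.H95T

open H95 Finset MvPolynomial

namespace GpX

variable {R B : Type} [CommRing R] [CommRing B] [Algebra ℂ R] [Algebra ℂ B]

/-- Fractions with denominators the powers of `P`. -/
def loc (Φ : R →ₐ[ℂ] B) (P : R) : Subalgebra ℂ B where
  carrier := {w | ∃ (p : R) (N : ℕ), w * Φ P ^ N = Φ p}
  mul_mem' := fun ⟨p, N, h⟩ ⟨p', N', h'⟩ => ⟨p * p', N + N', by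
    rw [map_mul, ← h, ← h', pow_add]; ring⟩
  add_mem' := fun ⟨p, N, h⟩ ⟨p', N', h'⟩ => ⟨p * P ^ N' + p' * P ^ N, N + N', by
    rw [map_add, map_mul, map_mul, map_pow, map_pow, ← h, ← h', pow_add]; ring⟩
  algebraMap_mem' c := ⟨algebraMap ℂ R c, 0, by simp⟩

end GpX

theorem rowGp : OfGp := by
  intro n K T _ _ _ _ x ξ P hx hP
  have hP0 : P ≠ 0 := fun e => hP (by rw [e, map_zero])
  refine ⟨GpX.loc ((ev x).prod (ev ξ)) P, fun p => ⟨p, 0, by simp⟩, ?_, ?_⟩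
  · rintro p ⟨p', rfl⟩
    have h1 : ev x p ≠ 0 := fun e => left_ne_zero_of_mul hP0 (hx (e.trans (map_zero _).symm))
    have h2 : ev ξ p ≠ 0 := fun e => hP (by rw [map_mul, e, zero_mul])
    refine ⟨p', 1, Prod.ext ?_ ?_⟩
    · change (ev x p)⁻¹ * ev x (p * p') ^ 1 = ev x p'
      rw [pow_one, map_mul, inv_mul_cancel_left₀ h1]
    · change (ev ξ p)⁻¹ * ev ξ (p * p') ^ 1 = ev ξ p'
      rw [pow_one, map_mul, inv_mul_cancel_left₀ h2]
  · rintro h ⟨p, N, e⟩
    have e1 : 0 * ev x P ^ N = ev x p := congrArg Prod.fst e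
    have e2 : h * ev ξ P ^ N = ev ξ p := congrArg Prod.snd e
    rw [zero_mul] at e1
    obtain rfl : p = 0 := hx (e1.symm.trans (map_zero _).symm)
    rw [map_zero] at e2
    exact (mul_eq_zero.1 e2).resolve_right (pow_ne_zero N hP)

end Pool.Agent.MP_ee8c61_ag.H95T
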