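import Pool.Agent.MP_ee8c61_ag.H95T.ASpec

/-! The contribution of one stratum. -/

namespace Pool.Agent.MP_ee8c61_ag.H95T

open H95 Finset MvPolynomial

namespace H1X

theorem fr_eq {E : Type} [DecidableEq E] (P : PM E) {F : Finset E} (h : F.Nonempty) :
    fr F.card (P.r F - 1) = (P.lf F)⁻¹ := by
  rw [fr, PM.lf, Nat.sub_add_cancel (P.r_pos h), one_div]

end H1X

theorem rowH1 : OfH1 := by
  intro hMo hJa hRd n E _ _ A χ τ y aff L Λ hP hc
  have mu : MuOK τ L Λ := hMo E n τ L Λ hP.ch.1 hP.ch.univ hP.bij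
  obtain ⟨-, u, hu, hj⟩ := hJa n E A τ y aff L Λ hP
  obtain ⟨h1, h2⟩ := hRd n E A τ y aff L Λ hP
  have ne : ∀ p ∈ Λ, (L p).Nonempty := fun p hp => (hP.ch.2 _ (hP.bij.mapsTo hp)).1
  have e : ∏ F ∈ τ, (A.pm.lf F)⁻¹ = ∏ p ∈ Λ, fr (L p).card (A.pm.r (L p) - 1) :=
    (Finset.prod_nbij L (fun p hp => hP.bij.mapsTo hp) hP.bij.injOn hP.bij.surjOn
      fun p hp => H1X.fr_eq A.pm (ne p hp)).symm
  rw [e]
  refine HasZ.single (conE_iff.2 hc) X Λ (fun p => (L p).card) (fun p => A.pm.r (L p) - 1) u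
    (fun x _ => by simp) (fun x hx l hl => by rw [eval_X]; exact hx.1.1 l hl) ?_ ?_
    (by rw [map_one, one_mul, hj]) (fun x _ => (hu.map (eval x)).ne_zero)
    fun l hl => (ne l hl).card_pos
  · rw [Ideal.map_le_iff_le_comap]
    intro p hp
    rw [Ideal.mem_comap, Ideal.mem_span_singleton, ← mu.prod]
    exact h2 p hp
  · intro x hx
    have h3 : ∀ j, ∃ v ∈ A.V j, ∃ w, ev (ap aff (cmon L Λ)) v = lmon L Λ (lay τ j) * w ∧
        eval x w ≠ 0 := fun j => by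
      have h4 := hx.2 j
      simp only [Zj, Set.mem_ofPred_eq, not_forall] at h4
      obtain ⟨v, hv, h5⟩ := h4
      obtain ⟨w, h6, h7⟩ := h1 j v (A.le_VS self_lay hv)
      exact ⟨v, hv, w, h6, by rwa [h7 x hx.1.1]⟩
    choose v hv w hw hx' using h3
    refine ⟨∏ j, w j, ?_, ?_⟩
    · rw [← mu.prod, ← Finset.prod_mul_distrib, ← Finset.prod_congr rfl fun j _ => hw j,
        ← map_prod]
      exact Ideal.mem_map_of_mem _ (A.prod_mem_I hv)
    · rw [map_prod]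
      exact Finset.prod_ne_zero_iff.2 fun j _ => hx' j

end Pool.Agent.MP_ee8c61_ag.H95T
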