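import Pool.Agent.MP_ee8c61_ag.H95T.ASpec

/-! A field of series in several variables. -/

namespace Pool.Agent.MP_ee8c61_ag.H95T

open H95 Finset MvPolynomial

namespace HaX

variable {Γ κ : Type} [AddCommGroup Γ] [LinearOrder Γ] [IsOrderedAddMonoid Γ]
  (u : Γ ≃+ (κ → ℤ))

/-- The series of order at least `c` in the variable `i`. -/
def Sc (i : κ) (c : ℤ) : Submodule ℂ (HahnSeries Γ ℂ) where
  carrier := {h | ∀ d ∈ h.support, c ≤ u d i}
  add_mem' := fun {a b} ha hb d hd => (HahnSeries.support_add_subset a b hd).elim (ha d) (hb d)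
  zero_mem' := fun d hd => by simp at hd
  smul_mem' := fun r a ha d hd => ha d (HahnSeries.support_smul_subset r a hd)

theorem coeff_one_pair {g h : HahnSeries Γ ℂ} {a b : Γ}
    (k : ∀ a' ∈ g.support, ∀ b' ∈ h.support, a' + b' = a + b → a' = a) :
    (g * h).coeff (a + b) = g.coeff a * h.coeff b := by
  rw [HahnSeries.coeff_mul]
  refine Finset.sum_eq_single (a, b) (fun p hp hn => ?_) fun hn => ?_
  · obtain ⟨h1, h2, h3⟩ := Finset.mem_antidiagonal.1 hp
    have e := k _ h1 _ h2 h3
    rw [e] at h3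
    exact absurd (Prod.ext e (add_left_cancel h3)) hn
  · by_contra c
    exact hn (Finset.mem_antidiagonal.2 ⟨left_ne_zero_of_mul c, right_ne_zero_of_mul c, rfl⟩)

theorem inv_mem (hu : ∀ a b, u a ≤ u b → a ≤ b) (γ : κ → ℤ) (h : HahnSeries Γ ℂ)
    (h1 : ∀ i, h ∈ Sc u i (γ i)) (h2 : h.coeff (u.symm γ) ≠ 0) (i : κ) :
    h⁻¹ ∈ Sc u i (-γ i) := by
  have h0 : h ≠ 0 := fun e => h2 (by rw [e]; rfl)
  by_contra c
  have wf : {d | d ∈ (h⁻¹).support ∧ ¬-γ ≤ u d}.IsWF :=
    (h⁻¹).isWF_support.mono fun _ a => a.1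
  have ne : {d | d ∈ (h⁻¹).support ∧ ¬-γ ≤ u d}.Nonempty := by
    by_contra c'
    exact c fun d hd => by_contra fun e => c' ⟨d, hd, fun e' => e (e' i)⟩
  obtain ⟨d1, d2⟩ := wf.min_mem ne
  have e := coeff_one_pair (g := h) (h := h⁻¹) (a := u.symm γ) (b := wf.min ne)
    fun a ha b hb e => by
      by_contra c'
      have a1 : γ ≤ u a := fun j => h1 j a ha
      have a2 : u.symm γ < a :=
        lt_of_le_of_ne (hu _ _ (by rwa [u.apply_symm_apply])) (Ne.symm c')
      have b1 : b < wf.min ne := by
        by_contra c''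
        exact (add_lt_add_of_lt_of_le a2 (not_lt.1 c'')).ne' e
      have b2 : -γ ≤ u b := by_contra fun c'' => wf.not_lt_min ne ⟨hb, c''⟩ b1
      have e' := congrArg u e
      rw [map_add, map_add, u.apply_symm_apply] at e'
      refine d2 fun j => ?_
      have := congrFun e' j
      have := a1 j
      have := b2 j
      simp only [Pi.add_apply, Pi.neg_apply] at *
      omega
  rw [mul_inv_cancel₀ h0, HahnSeries.coeff_one, if_neg] at e
  · exact mul_ne_zero h2 d1 e.symm
  · intro e'
    have := congrArg u e'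
    rw [map_add, u.apply_symm_apply, map_zero] at this
    exact d2 (neg_eq_of_add_eq_zero_right this).le

/-- The structure on Hahn series. -/
noncomputable def mv (hu : ∀ a b, u a ≤ u b → a ≤ b) : MV (HahnSeries Γ ℂ) κ where
  Sc := Sc u
  co γ := HahnSeries.coeff.linearMap (u.symm γ)
  mo γ := HahnSeries.single (u.symm γ) 1
  anti _ _ _ h _ hg d hd := h.trans (hg d hd)
  mul i c c' g hg h hh d hd := by
    obtain ⟨a, ha, b, hb, rfl⟩ := HahnSeries.support_mul_subset hd
    rw [map_add]
    exact add_le_add (hg a ha) (hh b hb)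
  mo_zero := by rw [map_zero]; rfl
  mo_mem γ i d hd := by
    rw [HahnSeries.eq_of_mem_support_single hd, u.apply_symm_apply]
  co_mo _ := HahnSeries.coeff_single_same _ _
  co_ne _ _ h := HahnSeries.coeff_single_of_ne fun e => h (u.symm.injective e)
  co_zero γ i c h hh k := by_contra fun e =>
    k.not_ge (by simpa only [u.apply_symm_apply] using hh (u.symm γ) e)
  co_mul γ γ' g h hg hh := by
    rw [map_add]
    refine coeff_one_pair fun a ha b hb e => u.injective (funext fun j => ?_)
    have e' := congrFun (congrArg u e) j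
    have := hg j a ha
    have := hh j b hb
    simp only [map_add, u.apply_symm_apply, Pi.add_apply] at e' ⊢
    omega
  inv := inv_mem u hu

end HaX

theorem rowHa : OfHa := by
  intro κ _
  let e := Fintype.equivFin κ
  let u : Lex (Fin (Fintype.card κ) → ℤ) ≃+ (κ → ℤ) :=
    { toFun := fun d i => ofLex d (e i)
      invFun := fun γ => toLex fun j => γ (e.symm j)
      left_inv := fun d => funext fun j => congrArg (ofLex d) (e.apply_symm_apply j)
      right_inv := fun γ => by simp
      map_add' := fun _ _ => rfl }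
  refine ⟨HahnSeries (Lex (Fin (Fintype.card κ) → ℤ)) ℂ, inferInstance, inferInstance,
    ⟨HaX.mv u fun a b h => ?_⟩⟩
  exact Pi.toLex_monotone (a := ofLex a) (b := ofLex b) fun j => by simpa [u] using h (e.symm j)

end Pool.Agent.MP_ee8c61_ag.H95T
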