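import Pool.Agent.MP_ee8c61_ag.H95T.ASpec

/-! The zeta function of an arrangement. -/

namespace Pool.Agent.MP_ee8c61_ag.H95T

open H95 Finset MvPolynomial

theorem rowHz : OfHz := by
  classical
  intro ba gn st xs uq h1 n E _ _ A χ hχ h0
  obtain ⟨ℓ, hℓ⟩ := gn n E A
  have ex : ∀ τ : Io A, ∃ y aff L, Ad A τ.1 y aff L := fun τ => by
    have : ∀ F, ∃ v, F ∈ τ.1 → v ∈ A.VS F ∧ v ∉ A.VS (pred τ.1 F) := fun F => by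
      by_cases hF : F ∈ τ.1
      · obtain ⟨j, j1, j2⟩ := exists_of_ssubset (pred_ssub τ.2.1 (τ.2.2 F hF).1)
        exact ⟨ℓ j, fun _ => ⟨A.le_VS j1 (hℓ.mem j), hℓ.gen _ j
          ((pred_mem τ.2.1 F).elim Or.inr fun e => Or.inl (τ.2.2 _ e.1)) j2⟩⟩
      · exact ⟨0, fun h => absurd h hF⟩
    choose v hv using this
    obtain ⟨y, aff, L, Λ, hp, -⟩ := ba n E A τ.1 v τ.2 hv
    exact ⟨y, aff, L, hp.ad⟩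
  choose y aff L ad using ex
  have key := HasZ.glue (χ := χ) (I := A.I) (c := 1) (B := Set.univ)
    (ι := Σ τ : Io A, {Λ : Finset (Fin n) // Set.BijOn (L τ) Λ τ.1})
    (fun p => ap (aff p.1) (cmon (L p.1) p.2.1)) (fun p => St A p.1.1 (aff p.1) (L p.1) p.2.1)
    (fun p => h1 n E A χ _ _ _ _ _ ⟨p.1.2, ad p.1, p.2.2⟩
      ((st n E A χ hχ h0 _ _ _ _ p.1.2 (ad p.1)).1 _))
    (fun _ _ _ => Set.mem_univ _) (fun b _ hb => ?_) ?_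
  · refine (congrArg (HasZ χ A.I 1 Set.univ) ?_).mp key
    rw [Fintype.sum_sigma, PM.Zc, sum_subtype (p := A.pm.Ch) _ fun _ => by simp]
    refine sum_congr rfl fun τ _ => ?_
    rw [← (st n E A χ hχ h0 _ _ _ _ τ.2 (ad τ)).2 (univ.filter fun Λ => Set.BijOn (L τ) Λ τ.1)
      fun _ => by simp, Int.cast_sum, sum_mul,
      sum_subtype (p := fun Λ : Finset (Fin n) => Set.BijOn (L τ) Λ τ.1) _ fun _ => by simp]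
  · obtain ⟨τ, hτ, h⟩ := xs n E A b hb
    obtain ⟨Λ, w, h2, h3⟩ := h _ _ _ (ad ⟨τ, hτ⟩)
    exact ⟨⟨⟨τ, hτ⟩, Λ, h2⟩, w, h3.mem, h3.eq⟩
  · rintro ⟨τ, Λ, h2⟩ ⟨τ', Λ', h3⟩ w w' m m' hn e
    obtain ⟨u1, u2⟩ := uq n E A _ hn
    obtain rfl : τ = τ' := Subtype.ext (u1 _ _ _ _ _ _ _ _ _ _ _ _ ⟨τ.2, ad τ, h2⟩
      ⟨τ'.2, ad τ', h3⟩ ⟨m, rfl⟩ ⟨m', e.symm⟩)
    obtain ⟨rfl, e'⟩ := u2 _ _ _ _ _ _ _ _ ⟨τ.2, ad τ, h2⟩ ⟨τ.2, ad τ, h3⟩ ⟨m, rfl⟩ ⟨m', e.symm⟩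
    exact ⟨rfl, e'⟩

end Pool.Agent.MP_ee8c61_ag.H95T
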