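import Pool.Agent.MP_ee8c61_ag.H95T.ASpec

/-! The ideal on a chart is generated by the product of the general members. -/

namespace Pool.Agent.MP_ee8c61_ag.H95T

open H95 Finset MvPolynomial

namespace IdX

variable {n : ℕ} {E K : Type} [DecidableEq E] [Fintype E] [Field K] [Algebra ℂ K] {A : Arr n E}
  {x : Fin n → K} {ℓ : E → Pol (Fin n)} {f : Pol (Fin n)} {τ : Finset (Finset E)}

theorem pol (h : Gen A ℓ) (hτ : A.pm.Ch τ) (p : Pol (Fin n)) : ev x p ∈ CA A x ℓ f τ := by
  induction p using MvPolynomial.induction_on with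
  | C c => rw [aeval_C]; exact Subalgebra.algebraMap_mem _ c
  | add p q a b => rw [map_add]; exact add_mem a b
  | mul_X p l a =>
    have e : lay τ A.o = univ := hτ.lay_o
    have b := gen_mem A x ℓ f τ (j := A.o) (v := X l) (by rw [e, A.VS_univ]; exact X_mem_Wi l)
    rw [h.one, map_one, div_one] at b
    rw [map_mul]
    exact mul_mem a b

theorem one (h : Gen A ℓ) (hτ : A.pm.Ch τ) (j : E) {p : Pol (Fin n)}
    (hp : p ∈ Ideal.span (A.V j : Set (Pol (Fin n)))) : ev x p / ev x (ℓ j) ∈ CA A x ℓ f τ := by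
  induction hp using Submodule.span_induction with
  | mem v a => exact gen_mem A x ℓ f τ (A.le_VS self_lay a)
  | zero => rw [map_zero, zero_div]; exact zero_mem _
  | add p q _ _ a b => rw [map_add, add_div]; exact add_mem a b
  | smul c p _ a => rw [smul_eq_mul, map_mul, mul_div_assoc]; exact mul_mem (pol h hτ c) a

theorem all (h : Gen A ℓ) (hτ : A.pm.Ch τ) (S : Finset E) {p : Pol (Fin n)}
    (hp : p ∈ ∏ j ∈ S, Ideal.span (A.V j : Set (Pol (Fin n)))) :
    ev x p / ev x (∏ j ∈ S, ℓ j) ∈ CA A x ℓ f τ := by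
  induction S using Finset.induction_on generalizing p with
  | empty => rw [prod_empty, map_one, div_one]; exact pol h hτ p
  | insert j S hj ih =>
    rw [prod_insert hj] at hp ⊢
    refine Submodule.mul_induction_on hp (fun a ha b hb => ?_) fun p q a b => ?_
    · rw [map_mul, map_mul, mul_div_mul_comm]
      exact mul_mem (one h hτ j ha) (ih hb)
    · rw [map_add, add_div]
      exact add_mem a b

end IdX

open IdX

theorem rowId : OfId := by
  intro n r E K _ _ _ _ A x ℓ fs j₁ h
  have z : ∀ p, p ≠ 0 → ev x p ≠ 0 := fun p => (map_ne_zero_iff _ h.fk.inj).2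
  have a := z _ h.ne
  have b := z _ (prod_ne_zero_iff.2 fun j (_ : j ∈ univ) => h.gen.ne j)
  have m : ∀ i, fs i ∈ A.I := fun i => h.sp ▸ Ideal.subset_span ⟨i, rfl⟩
  refine ⟨fun τ hτ => ⟨pol h.gen hτ, fun p hp => all h.gen hτ _ hp, ⟨div_ne_zero a b,
    all h.gen hτ _ (m _), by rw [sv, inv_div]; exact inv_mem_CA A x ℓ _ τ⟩, fun l => ?_⟩, ?_⟩
  · refine Fin.addCases (fun l => ?_) (fun i => ?_) l
    · simpa [xs] using pol (x := x) (f := fs j₁) h.gen hτ (X l)
    · rw [xs, Fin.append_right, ← div_mul_div_cancel₀ b]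
      exact mul_mem (all h.gen hτ _ (m i)) (inv_mem_CA A x ℓ _ τ)
  · obtain ⟨c, e⟩ := Ideal.mem_span_range_iff_exists_fun.1 (h.sp.ge (A.prod_mem_I h.gen.mem))
    refine ⟨∑ i, rename (Fin.castAdd r) (c i) * X (Fin.natAdd n i), ?_⟩
    have k : xs x fs j₁ ∘ Fin.castAdd r = x := _root_.funext fun l => by simp [xs]
    simp only [map_sum, map_mul, aeval_rename, aeval_X, k]
    simp only [xs, Fin.append_right, ← mul_div_assoc, ← sum_div, ← map_mul, ← map_sum, e]
    rw [sv, div_mul_div_cancel₀ a, div_self b]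

end Pool.Agent.MP_ee8c61_ag.H95T
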