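import Pool.Agent.MP_ee8c61_ag.H95T.ASpec

/-! Inclusion and exclusion. -/

namespace Pool.Agent.MP_ee8c61_ag.H95T

open H95 Finset MvPolynomial

namespace IeX

variable {n : ℕ} {X Y : Set (Fin n → ℂ)}

theorem inter (h : H36.Con X) (h' : H36.Con Y) : H36.Con (X ∩ Y) := by
  simpa using (h.compl.union h'.compl).compl

theorem split {χ : H36.Chi} (H : H36.IsEuler χ) (h : H36.Con X) (h' : H36.Con Y) :
    χ (Fin n) (X ∩ Yᶜ) = χ (Fin n) X - χ (Fin n) (X ∩ Y) := by
  rw [eq_sub_iff_add_eq', ← H.add _ _ _ (inter h h') (inter h h'.compl)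
    (disjoint_compl_right.mono Set.inter_subset_right Set.inter_subset_right),
    Set.inter_union_compl]

theorem key {E : Type} [DecidableEq E] {χ : H36.Chi} (H : H36.IsEuler χ)
    (Z : E → Set (Fin n → ℂ)) (hZ : ∀ j, H36.Con (Z j)) (T : Finset E) :
    ∀ B, H36.Con B → H36.Con {x | x ∈ B ∧ ∀ j ∈ T, x ∉ Z j} ∧
      χ (Fin n) {x | x ∈ B ∧ ∀ j ∈ T, x ∉ Z j} =
        ∑ S ∈ T.powerset, (-1) ^ S.card * χ (Fin n) {x | x ∈ B ∧ ∀ j ∈ S, x ∈ Z j} := by
  induction T using Finset.induction_on with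
  | empty => exact fun B hB => by simpa using hB
  | insert a T ha ih =>
    intro B hB
    have e : {x | x ∈ B ∧ ∀ j ∈ insert a T, x ∉ Z j} = {x | x ∈ B ∧ ∀ j ∈ T, x ∉ Z j} ∩ (Z a)ᶜ := by
      ext x
      simp only [forall_mem_insert, Set.mem_inter_iff, Set.mem_compl_iff, Set.mem_ofPred_eq]
      tauto
    have e' : {x | x ∈ B ∧ ∀ j ∈ T, x ∉ Z j} ∩ Z a = {x | x ∈ B ∩ Z a ∧ ∀ j ∈ T, x ∉ Z j} := by
      ext x
      simp only [Set.mem_inter_iff, Set.mem_ofPred_eq]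
      tauto
    rw [e]
    refine ⟨inter (ih B hB).1 (hZ a).compl, ?_⟩
    rw [split H (ih B hB).1 (hZ a), e', (ih B hB).2, (ih _ (inter hB (hZ a))).2,
      sum_powerset_insert ha, sub_eq_add_neg, ← sum_neg_distrib]
    congr 1
    refine sum_congr rfl fun S hS => ?_
    rw [card_insert_of_notMem fun h => ha (mem_powerset.1 hS h), pow_succ, mul_neg_one, neg_mul]
    simp only [forall_mem_insert, Set.mem_inter_iff, and_assoc]

end IeX

theorem rowIe : OfIe := by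
  intro E _ _ χ H n B Z hB hZ
  have h0 : H36.Con (∅ : Set (Fin n → ℂ)) := by simpa using IeX.inter hB hB.compl
  refine ⟨by simpa using H.add _ ∅ ∅ h0 h0 (by simp), ?_⟩
  simpa using IeX.key H Z hZ univ B hB

end Pool.Agent.MP_ee8c61_ag.H95T
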