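import Pool.Agent.MP_ee8c61_ag.H95T.ASpec

/-! The inverse of an affine map. -/

namespace Pool.Agent.MP_ee8c61_ag.H95T

open H95 Finset MvPolynomial

namespace IvX

variable {n : ℕ} {y : Fin n → Pol (Fin n)}

theorem rep {v : Pol (Fin n)} (h : v ∈ Wi n) :
    ∃ c : Option (Fin n) → ℂ, ∑ o, c o • o.elim 1 X = v ∧
      ∀ y : Fin n → Pol (Fin n), ev y v = ∑ o, c o • o.elim 1 y := by
  obtain ⟨c, e⟩ := (Submodule.mem_span_range_iff_exists_fun ℂ
    (v := fun o : Option (Fin n) => o.elim (1 : Pol (Fin n)) X)).1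
    (Submodule.span_mono (by
      rintro _ (rfl | ⟨l, rfl⟩)
      exacts [⟨none, rfl⟩, ⟨some l, rfl⟩]) h)
  exact ⟨c, e, fun y => by rw [← e]; simp⟩

theorem map (h : ∀ q, y q ∈ Wi n) (v : Pol (Fin n)) (hv : v ∈ Wi n) : ev y v ∈ Wi n := by
  obtain ⟨c, -, e⟩ := rep hv
  rw [e]
  refine Submodule.sum_mem _ fun o _ => Submodule.smul_mem _ _ ?_
  cases o
  exacts [one_mem_Wi n, h _]

end IvX

open IvX in
theorem rowIv : OfIv := by
  intro n y h1 h2
  obtain ⟨f, hf⟩ : ∃ f : Wi n →ₗ[ℂ] Wi n, ∀ v, (f v).1 = ev y v.1 :=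
    ⟨(ev y).toLinearMap.restrict (map h2), fun _ => rfl⟩
  have inj : Function.Injective f := by
    refine (injective_iff_map_eq_zero _).2 fun v hv => Subtype.ext ?_
    obtain ⟨c, e1, e2⟩ := rep v.2
    have := Fintype.linearIndependent_iff.1 h1 c (by rw [← e2, ← hf, hv]; rfl)
    rw [← e1]
    simp [this]
  choose aff ha using fun l => LinearMap.injective_iff_surjective.1 inj ⟨X l, X_mem_Wi l⟩
  have e : ap (fun l => (aff l).1) y = X := funext fun l => by rw [ap, ← hf, ha]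
  refine ⟨fun l => aff l, funext fun q => ?_, e, fun l => (aff l).2⟩
  have := inj (a₁ := ⟨_, map (fun l => (aff l).2) _ (h2 q)⟩) (a₂ := ⟨_, X_mem_Wi q⟩)
    (Subtype.ext (by rw [hf, hf, ← ev_ap, e]; simp))
  exact congrArg Subtype.val this

end Pool.Agent.MP_ee8c61_ag.H95T
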