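import Pool.Agent.MP_ee8c61_ag.H95T.ASpec

/-! The Jacobian of a monomial chart. -/

namespace Pool.Agent.MP_ee8c61_ag.H95T

open H95 Finset MvPolynomial

namespace J0X

theorem det_tri {ι R : Type} [Fintype ι] [DecidableEq ι] [CommRing R] (M : Matrix ι ι R)
    (h : ι → ℕ) (hM : ∀ i j, i ≠ j → M i j ≠ 0 → h i < h j) : M.det = ∏ i, M i i := by
  rw [Matrix.det_apply, sum_eq_single 1]
  · simp
  · intro s _ hs
    by_contra c
    have c1 : ∀ i, M (s i) i ≠ 0 := fun i e => c (by
      rw [prod_eq_zero (f := fun i => M (s i) i) (mem_univ i) e, smul_zero])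
    obtain ⟨i, hi⟩ : ∃ i, s i ≠ i := by
      by_contra c2
      exact hs (Equiv.ext fun i => by_contra fun e => c2 ⟨i, e⟩)
    refine (sum_lt_sum (s := univ) (f := fun i => h (s i)) (g := h) (fun j _ => ?_)
      ⟨i, mem_univ i, hM _ _ hi (c1 i)⟩).ne (Equiv.sum_comp s h)
    by_cases e : s j = j
    · rw [e]
    · exact (hM _ _ e (c1 j)).le
  · simp

theorem pd_prod {n : ℕ} (S : Finset (Fin n)) (l : Fin n) (h : l ∉ S) :
    pderiv l (∏ p ∈ S, X p : Pol (Fin n)) = 0 := by
  induction S using Finset.induction_on with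
  | empty => simp
  | insert a S ha ih =>
    rw [mem_insert, not_or] at h
    rw [prod_insert ha, Derivation.leibniz, ih h.2, pderiv_X_of_ne (Ne.symm h.1)]
    simp

end J0X

open J0X in
theorem rowJ0 : OfJ0 := by
  intro E _ _ n L Λ hL
  rw [jd, det_tri _ (fun q => 2 * (L q).card + if q ∈ Λ then 1 else 0)]
  · have e : ∀ q, (Matrix.of fun i l => pderiv l (cmon L Λ i)) q q
        = ∏ p ∈ Λ with p ≠ q ∧ L q ⊆ L p, X p := fun q => by
      rw [Matrix.of_apply, cmon, Derivation.leibniz, pd_prod _ q (by simp), pderiv_X_self]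
      simp
    rw [prod_congr rfl fun q _ => e q,
      prod_comm' (t' := Λ) (s' := fun p => (univ.filter fun q => L q ⊆ L p).erase p)
        fun q p => by simp only [mem_univ, mem_filter, mem_erase, true_and]; tauto]
    refine prod_congr rfl fun p _ => ?_
    rw [prod_const, card_erase_of_mem (by simp)]
  · intro q l hne h0
    have hl : l ∈ Λ.filter fun p => p ≠ q ∧ L q ⊆ L p := by
      by_contra c
      refine h0 ?_
      rw [Matrix.of_apply, cmon, Derivation.leibniz, pd_prod _ l c, pderiv_X_of_ne hne]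
      simp
    obtain ⟨h1, -, h2⟩ := mem_filter.1 hl
    rw [if_pos h1]
    split_ifs with c
    · have := card_lt_card (h2.ssubset_of_ne fun e => hne (hL c h1 e))
      omega
    · have := card_le_card h2
      omega

end Pool.Agent.MP_ee8c61_ag.H95T
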