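import Pool.Agent.MP_ee8c61_ag.H95T.ESpec

/-! Vanishing on a principal open set. -/

namespace Pool.Agent.MP_ee8c61_ag.H95T

open H59 H59.Sys Finset

namespace KXX

theorem tay {Ω : Type} {m : ℕ} [CommRing Ω] [Algebra ℂ Ω] (B : Subalgebra ℂ Ω) (x : Fin m → Ω)
    (hx : ∀ l, x l ∈ B) (x0 : Fin m → ℂ) (q : MvPolynomial (Fin m) ℂ) :
    ∃ c : Fin m → Ω, (∀ l, c l ∈ B) ∧
      MvPolynomial.aeval x q - algebraMap ℂ Ω (MvPolynomial.eval x0 q) =
        ∑ l, c l * (x l - algebraMap ℂ Ω (x0 l)) := by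
  induction q using MvPolynomial.induction_on with
  | C a => exact ⟨0, fun _ => zero_mem _, by simp⟩
  | add p q hp hq =>
    obtain ⟨c, a, b⟩ := hp
    obtain ⟨c', a', b'⟩ := hq
    refine ⟨c + c', fun l => add_mem (a l) (a' l), ?_⟩
    simp only [map_add, Pi.add_apply, add_mul, sum_add_distrib, ← b, ← b']
    ring
  | mul_X p i hp =>
    obtain ⟨c, a, b⟩ := hp
    refine ⟨fun l => x i * c l + if l = i then algebraMap ℂ Ω (MvPolynomial.eval x0 p) else 0,
      fun l => add_mem (mul_mem (hx i) (a l)) ?_, ?_⟩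
    · split_ifs
      · exact B.algebraMap_mem _
      · exact zero_mem _
    · simp only [add_mul, sum_add_distrib, mul_assoc, ← mul_sum, ← b, ite_mul, zero_mul,
        sum_ite_eq', mem_univ, if_true, map_mul, MvPolynomial.aeval_X, MvPolynomial.eval_X]
      ring

end KXX

theorem rowKX : OfKX := by
  intro e Ω ι J n m _ _ _ _ _ _ _ S x q s c x0 hg hq ha
  have lm := e.lm ℂ Ω ι J n S
  have nv := e.nv Ω ι J n (m + 1) S (Matrix.vecCons s x)
    (Matrix.vecCons (MvPolynomial.eval x0 q)⁻¹ x0) c hg ha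
  obtain ⟨w, ρ, μ, -, hp, -⟩ := ha
  have h1 : ∀ l, Matrix.vecCons s x l ∈ iInf S.A :=
    fun l => Algebra.mem_iInf.2 fun a => hp.x_mem a l
  have hs : s ∈ iInf S.A := h1 0
  have hx : ∀ l, x l ∈ iInf S.A := fun l => h1 l.succ
  obtain ⟨d, d1, d2⟩ := KXX.tay (iInf S.A) x hx x0 q
  intro j hj
  refine e.kx Ω (Ch ι (Fm n Ω)) (Fin m) (Fin (m + 1)) (iInf S.A).toSubring (cech 0) (S.T {c})
    (S.T ∅) (fun l => x l - algebraMap ℂ Ω (x0 l)) (fun i => Matrix.vecCons s x i -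
      algebraMap ℂ Ω (Matrix.vecCons (MvPolynomial.eval x0 q)⁻¹ x0 i)) univ univ (n + 1)
    (lm.pair 0 _ _ (mul_zero _) (fun _ h => absurd h (notMem_empty _))
      fun _ _ _ _ _ => zero_mem _) lm.lin0
    (fun b hb => lm.mu_T _ b (Algebra.mem_iInf.1 hb))
    (fun b hb => lm.mu_T _ b (Algebra.mem_iInf.1 hb))
    (fun l _ => sub_mem (hx l) (Subalgebra.algebraMap_mem _ _))
    (fun i _ => sub_mem (h1 i) (Subalgebra.algebraMap_mem _ _)) (fun i _ => ?_)
    (fun j hj => nv j (by omega)) j (by omega)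
  refine Fin.cases ?_ (fun i => ?_) i
  · simp only [Matrix.cons_val_zero]
    by_cases h : MvPolynomial.eval x0 q = 0
    · refine ⟨0, fun l => s * d l, fun l => mul_mem hs (d1 l), ?_⟩
      simp only [mul_assoc, ← mul_sum, ← d2, h, map_zero, sub_zero, pow_zero]
      rw [mul_comm, hq]
    · refine ⟨1, fun l => -(s * algebraMap ℂ Ω (MvPolynomial.eval x0 q)⁻¹) * d l,
        fun l => mul_mem (neg_mem (mul_mem hs (Subalgebra.algebraMap_mem _ _))) (d1 l), ?_⟩
      have h2 : algebraMap ℂ Ω (MvPolynomial.eval x0 q)⁻¹ *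
          algebraMap ℂ Ω (MvPolynomial.eval x0 q) = 1 := by
        rw [← map_mul, inv_mul_cancel₀ h, map_one]
      simp only [mul_assoc _ (d _), ← mul_sum, ← d2, pow_one]
      linear_combination algebraMap ℂ Ω (MvPolynomial.eval x0 q)⁻¹ * hq - s * h2
  · refine ⟨1, fun l => if l = i then 1 else 0, fun l => ?_, by simp⟩
    dsimp only
    split_ifs
    · exact one_mem _
    · exact zero_mem _

end Pool.Agent.MP_ee8c61_ag.H95T
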