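import Pool.Agent.MP_ee8c61_ag.H95T.ESpec
import Pool.Agent.MP_ee8c61_ag.H59.RNvK

/-! Intersections of lattices, and strata that are empty. -/

namespace Pool.Agent.MP_ee8c61_ag.H95T

open H59 H59.Sys Finset NvKX

namespace LtX

variable {k Ω ι J : Type} {n : ℕ} [CommRing k] [CommRing Ω] [Algebra k Ω] [Fintype J]
  (S : Sys k Ω ι J n)

theorem inter (e : EK) (hR : S.Reg) (c : J → ℤ) (b U : Finset J) (σ : Finset ι) (h : Disjoint U b) :
    S.lm {c + ind U} σ ⊓ S.lm (KJ c b) σ ≤ S.lm (KJ (c + ind U) b) σ := by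
  classical
  induction U using Finset.induction_on with
  | empty =>
    rw [ind_empty, add_zero]
    exact inf_le_right
  | insert j U hj ih =>
    rw [disjoint_insert_left] at h
    rw [ind_insert hj, add_comm (ind {j}), ← add_assoc, ← e.inter k Ω ι J n S hR _ b j h.1 σ]
    refine le_inf inf_le_left (le_trans (inf_le_inf_right _ ?_) (ih h.2))
    refine (e.lm k Ω ι J n S).le _ _ σ fun c' hc => ⟨_, mem_singleton_self _, ?_⟩
    rw [mem_singleton.1 hc]
    exact le_add_of_nonneg_right (ind_nonneg _)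

end LtX

theorem rowLt : OfLt := by
  intro e k Ω ι J n _ _ _ _ S
  have hL := e.lm k Ω ι J n S
  have hO := e.lo k Ω ι J n S
  refine ⟨fun c τ h j γ hγ => ?_, fun κ _ hR c i U β hU hβ hd j γ hγ => ?_⟩
  · classical
    rw [mem_T] at hγ ⊢
    intro σ
    have := hγ σ
    obtain rfl | ⟨a, ha⟩ := σ.eq_empty_or_nonempty
    · rwa [hL.emp] at this ⊢
    rw [hL.mem _ σ a ha, (e.fo Ω n).mem_fl] at this ⊢
    refine ⟨fun s => ?_, this.2⟩
    obtain ⟨i, hi, hn⟩ := h a
    refine (hO.mem_KJ a σ c τ _).2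
      ⟨Pi.single i (S.crd a (γ σ) s * (((S.mon a c)⁻¹ : Ωˣ) : Ω)), fun l => ?_, ?_⟩
    · by_cases e : l = i
      · rw [e, Pi.single_eq_same]
        exact (hO.mem_one a σ c _).1 (this.1 s)
      · rw [Pi.single_eq_of_ne e]
        exact zero_mem _
    · rw [sum_eq_single_of_mem i hi fun l _ e => by rw [Pi.single_eq_of_ne e, mul_zero],
        Pi.single_eq_same, S.η_none a i hn, Units.val_one, one_mul, mul_comm,
        Units.inv_mul_cancel_right]
  · classical
    have hP := e.pt k Ω ι J n S κ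
    have hL' := e.lm k _ ι J n (S.pol κ)
    have h1 : γ ∈ (S.pol κ).T (KJ (c + ind U) (insert i β)) j :=
      (hP.mem _ j γ).2 fun m => (mem_T ..).2 fun σ =>
        LtX.inter S e hR c _ U σ (disjoint_insert_right.2 ⟨hU, hd⟩) _
          ⟨(mem_T ..).1 ((hP.mem _ j γ).1 hγ.1 m) σ, (mem_T ..).1 ((hP.mem _ j γ).1 hγ.2 m) σ⟩
    have h2 : (S.pol κ).T (KJ (c + ind U) (insert i β)) =
        (S.pol κ).T {c + ind (insert i U)} ⊔ (S.pol κ).T (KJ (c + ind U) β) := by
      rw [KJ_insert, ind_insert hU, add_comm (ind {i}), ← add_assoc, Sys.T, Sys.T, Sys.T, ← lat_sup]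
      exact congrArg lat (funext fun σ => hL'.union _ _ σ)
    rw [h2, sup_comm] at h1
    refine sup_le_sup_right (hL'.T_le (KJ c β) _ fun c' hc => ?_) _ j h1
    obtain ⟨l, hl, rfl⟩ := (mem_KJ ..).1 hc
    exact ⟨_, (mem_KJ ..).2 ⟨l, hl, rfl⟩,
      add_le_add_left (le_add_of_nonneg_right (ind_nonneg _)) _⟩

end Pool.Agent.MP_ee8c61_ag.H95T
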