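import Pool.Agent.MP_ee8c61_ag.H95T.ASpec

/-! The level sets of the orders form a chain of flats. -/

namespace Pool.Agent.MP_ee8c61_ag.H95T

open H95 Finset MvPolynomial

namespace LvX

/-- The polynomials whose image is divisible by `a`. -/
def dv {n : ℕ} {O : Type} [CommRing O] (e : Pol (Fin n) →+* O) (a : O) :
    Submodule ℂ (Pol (Fin n)) where
  carrier := {v | a ∣ e v}
  add_mem' := fun h1 h2 => by simpa using dvd_add h1 h2
  zero_mem' := by simp
  smul_mem' := fun c v h => by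
    simp only [Set.mem_ofPred_eq, smul_eq_C_mul, map_mul] at h ⊢
    exact h.mul_left _

end LvX

theorem rowLv : OfLv := by
  intro n E _ _ A O _ e m h1 h2 h3
  classical
  set Fs : E → Finset E := fun j => univ.filter fun i => m j ∣ m i with hFs
  have mem : ∀ i j, i ∈ Fs j ↔ m j ∣ m i := fun i j => by simp [hFs]
  have sub : ∀ i j, m i ∣ m j ↔ Fs j ⊆ Fs i := fun i j =>
    ⟨fun h k hk => (mem _ _).2 (h.trans ((mem _ _).1 hk)),
      fun h => (mem _ _).1 (h ((mem _ _).2 dvd_rfl))⟩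
  set τ := (univ.filter fun j => ¬IsUnit (m j)).image Fs with hτ
  have mt : ∀ F, F ∈ τ ↔ ∃ j, ¬IsUnit (m j) ∧ Fs j = F := fun F => by simp [hτ]
  have ly : ∀ j, lay τ j = Fs j := fun j => by
    refine Subset.antisymm ?_ fun i hi => mem_lay.2 fun G hG hj => ?_
    · by_cases hu : IsUnit (m j)
      · exact fun i _ => (mem _ _).2 hu.dvd
      · exact (lay_sub ((mt _).2 ⟨j, hu, rfl⟩)).2 ((mem _ _).2 dvd_rfl)
    · obtain ⟨k, -, rfl⟩ := (mt G).1 hG
      exact (mem _ _).2 (((mem _ _).1 hj).trans ((mem _ _).1 hi))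
  refine ⟨τ, ⟨fun F hF G hG => ?_, fun F hF => ?_⟩, fun i j => by rw [ly, ly]; exact sub i j⟩
  · obtain ⟨i, -, rfl⟩ := (mt F).1 hF
    obtain ⟨j, -, rfl⟩ := (mt G).1 hG
    exact (h1 j i).imp (sub _ _).1 (sub _ _).1
  · obtain ⟨j, hu, rfl⟩ := (mt F).1 hF
    have le : A.VS (Fs j) ≤ LvX.dv e (m j) :=
      A.VS_le_iff.2 fun i hi v hv => ((mem _ _).1 hi).trans (h2 i v hv)
    refine A.fl_iff.2 ⟨⟨j, (mem _ _).2 dvd_rfl⟩, fun h => hu ?_, fun i hi => ?_⟩
    · have : m j ∣ e 1 := le h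
      rw [map_one] at this
      exact isUnit_of_dvd_one this
    · obtain ⟨v, hv, hd⟩ := h3 i
      exact (mem _ _).2 (dvd_trans (le (hi hv)) hd)

end Pool.Agent.MP_ee8c61_ag.H95T
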