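import Pool.Agent.MP_ee8c61_ag.H95T.ESpec
import Pool.Agent.MP_ee8c61_ag.H59.RWt
import Pool.Agent.MP_ee8c61_ag.H59.RMult

/-! Passage to the graded differential and to the interior. -/

namespace Pool.Agent.MP_ee8c61_ag.H95T

open H59 Finset

namespace LwX

variable {G J : Type} [AddCommGroup G] [LinearOrder J]

theorem sk_le {F F' : Finset J → Lat G} {σ τ : Finset J} (h : σ ⊆ τ) (h' : F σ ≤ F' τ) :
    sk F σ ≤ sk F' τ := by
  unfold sk
  split_ifs with a b b
  exacts [le_rfl, bot_le, absurd (subset_empty.1 (b ▸ h)) a, h']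

theorem keeps_sk {g : Op G} {F : Finset J → Lat G} (h : ∀ s, Keeps g (F s) (F s)) (s : Finset J) :
    Keeps g (sk F s) (sk F s) := by
  unfold sk
  split_ifs
  · intro j x hx
    rw [mem_lat_bot] at hx ⊢
    rw [hx, map_zero]
  · exact h s

omit [LinearOrder J] in
theorem grading [Fintype J] {π : ℤ → Op G} (h : Grading π) :
    Grading fun w => (ev (π w) : Op (Ch J G)) := by
  refine ⟨fun w w' => op_ext fun x => funext fun s => ?_, fun x => ?_⟩
  · rw [op_mul, ev_apply, ev_apply, WtX.pp h]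
    split_ifs <;> rfl
  · choose f h1 h2 using fun s => h.fin (x s)
    refine ⟨univ.biUnion f, fun w hw => funext fun s => h1 s w fun c =>
      hw (mem_biUnion.2 ⟨s, mem_univ _, c⟩), funext fun s => ?_⟩
    rw [Finset.sum_apply]
    exact (h2 s).trans (sum_subset (subset_biUnion_of_mem f (mem_univ s)) fun w _ c => h1 s w c)

theorem wok [Fintype J] (hC : Car J G) (hO : Cone J G) {π : ℤ → Op G} {D0 D1 : Op G} {L : Lat G}
    {K : Finset J → Lat G} (W : Finset J) (h : ∀ s, WOK π D0 D1 L (K s)) (hK : Monotone K) :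
    WOK (fun w => ev (π w)) (ks D0 W) (od D1) (kl W (sk fun _ => L)) (kl W (sk K)) := by
  refine ⟨grading (h ∅).gr, ?_, fun w => ?_, fun w => ?_,
    fun w => hO.keeps _ _ _ _ fun σ _ => keeps_sk (fun s => (h s).kp w) σ,
    fun w => hO.keeps _ _ _ _ fun σ _ => keeps_sk (fun s => (h s).kp' w) σ⟩
  · rw [← hC.kos_add]
    refine hO.pair _ _ _ _ _ (MultX.kok (fun σ => ?_)
      (fun i _ σ _ => sk_le (subset_insert _ _) le_rfl)
      fun i _ σ _ => sk_le (subset_insert _ _) (hK (subset_insert _ _)))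
    unfold sk
    split_ifs
    · have : ∀ j, ∀ x ∈ (⊥ : Lat G) j, (D0 + D1) x ∈ (⊥ : Lat G) (j + 1) := fun j x hx => by
        rw [mem_lat_bot] at hx ⊢
        rw [hx, map_zero]
      exact ⟨(h ∅).pair.dd, fun _ => le_rfl, this, this⟩
    · exact (h σ).pair
  · exact (hC.kos_ev D0 (π w) _ W ((h ∅).c0 w).symm fun _ _ => Commute.one_right _).eq.symm
  · rw [hC.od_ev, hC.ev_od, (h ∅).c1]

theorem kl_le {F F' : Finset J → Lat G} (W : Finset J) (h : ∀ s, F s ≤ F' s) (j : ℤ) :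
    kl W F j ≤ kl W F' j := fun _ hx => (mem_kl _ _ _ _).2 fun σ =>
  ⟨fun c => h σ _ (((mem_kl _ _ _ _).1 hx σ).1 c), ((mem_kl _ _ _ _).1 hx σ).2⟩

end LwX

open LwX in
theorem rowLw : OfLw := by
  intro e G J _ _ _ π D0 D1 L K W B y Z q w h hK hy hZ h1 h2 v1 v2
  have hW := wok (e.car J G) (e.cone J G) W h hK
  have p0 := WtX.pair hW
  have hy' : ev (π w) y = y := funext hy
  have hD : ks (D0 + D1) W = ks D0 W + od D1 := (e.car J G).kos_add _ _ _ _
  rw [hD] at h1
  obtain ⟨Y, hY, e1⟩ := WtX.red hW v1 (w + 1) Z hZ fun w' hw' => by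
    have := neg_mem (hW.kp' w' _ _ h1)
    rwa [map_sub, ← hy', WtX.pp hW.gr, if_neg (by omega), zero_sub, neg_neg] at this
  have a1 := sub_mem hZ (hW.pair.stp _ hY)
  have a2 : y - (ks D0 W + od D1 : Op (Ch J G)) (Z - (ks D0 W + od D1 : Op (Ch J G)) Y) ∈
      kl W (sk K) (q + 1) := by
    rwa [map_sub, hW.pair.dd', sub_zero]
  have a3 := e1 _ le_rfl
  generalize Z - (ks D0 W + od D1 : Op (Ch J G)) Y = Z1 at a1 a2 a3
  have a4 : od D1 (ev (π (w + 1)) Z1) ∈ kl W (sk K) (q + 1) := by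
    simpa only [op_add, add_sub_cancel_left] using sub_mem (hW.pair.st' _ _ a3) (p0.st' _ _ a3)
  have a5 : y - ks D0 W (ev (π w) Z1) ∈ kl W (sk K) (q + 1) := by
    have := add_mem (hW.kp' w _ _ a2) a4
    rw [map_sub, WtX.comp hW, hy'] at this
    simpa only [← sub_sub, sub_add_cancel] using this
  have le : ∀ s, sk K s ≤ sk (bd B L K) s := fun s => sk_le subset_rfl (by
    unfold bd
    split_ifs
    exacts [le_rfl, (h s).pair.le])
  obtain ⟨Y', -, e2⟩ := v2 _ (hW.kp w _ _ a1) (by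
    simpa only [sub_sub_cancel] using sub_mem h2 (kl_le W le _ a5))
  exact ⟨_, e2, by rwa [map_sub, p0.dd', sub_zero]⟩

end Pool.Agent.MP_ee8c61_ag.H95T
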