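import Pool.Agent.MP_ee8c61_ag.H95T.ESpec
import Pool.Agent.MP_ee8c61_ag.H59.RMain0

/-! The main argument on a simplicial complex from the vanishing statements. -/

namespace Pool.Agent.MP_ee8c61_ag.H95T

open H59 H59.Sys H59.Main0X Finset

namespace M0X

variable {G J : Type} [AddCommGroup G] [LinearOrder J]

theorem yv_wt (hA : Ap J G) (π : ℤ → Op G) (H : J → Op G)
    (h : ∀ i w, H i * π w = π (w + 1) * H i) (W : Finset J) (k : ℕ) (w : ℤ) (x : G)
    (hx : π w x = x) (s : Finset J) : π (w + k) (yv H x W (k + 1) s) = yv H x W (k + 1) s := by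
  unfold yv
  split_ifs with c
  · rw [map_sum]
    refine sum_congr rfl fun i hi => ?_
    have e : k = (s.erase i).card := by rw [card_erase_of_mem hi, c.2]; rfl
    rw [map_zsmul, e, weight hA _ H h _ _ _ hx]
  · exact map_zero _

theorem yv_mem (hA : Ap J G) (H : J → Op G) (L : Lat G) (K : Finset J → Lat G) (W : Finset J)
    (B : Finset (Finset J)) (k : ℕ) (q : ℤ) (x : G) (h : ∀ i, Maps (H i) L L (-1)) (hx : x ∈ L q)
    (hB : ∀ V ∈ B, ∀ s ⊆ V, k < s.card → L ≤ K s) :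
    yv H x W (k + 1) ∈ kl W (sk (bd B L K)) (q + 1) := by
  rw [mem_kl]
  intro s
  refine ⟨fun _ => ?_, fun c => if_neg fun d => c d.1⟩
  unfold yv
  split_ifs with c
  · have m : ∑ i ∈ s, sgn i s • ap H (s.erase i) x ∈ L (q + 1 - s.card) :=
      sum_mem fun i hi => zsmul_mem (by
        have := hA.maps H L (-1) (s.erase i) (fun i _ => h i) q x hx
        rw [card_erase_of_mem hi, c.2, Nat.add_sub_cancel] at this
        rw [c.2, show q + 1 - (k + 1 : ℕ) = q + k * -1 by push_cast; ring]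
        exact this) _
    have n : s ≠ ∅ := fun e => by
      have := c.2
      rw [e, card_empty] at this
      omega
    rw [sk, if_neg n, bd]
    split_ifs with d
    · obtain ⟨V, h1, h2⟩ := d
      exact hB V h1 s h2 (by omega) _ m
    · exact m
  · exact zero_mem _

end M0X

open M0X

theorem rowM0 : OfM0 := by
  intro e hMu hLw hLt hTr hSc Ω ι J n m k _ _ _ _ _ _ _ _ S x f a kk b la c0 W B Fc q s g u0 hM hT hV
  classical
  by_contra hb
  obtain ⟨r, u, hr, hu, hbu⟩ := split b la _ hb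
  have hx : ∀ c l, x l ∈ S.A c := fun c l => by
    obtain ⟨w, ρ, μ, -, p, -⟩ := hT.adm0
    simpa using p.x_mem c l.succ
  have hf := hM.f_ord
  have L := e.lm ℂ _ ι J n (S.px m)
  have Ho := e.ho ℂ _ ι J n (S.px m)
  have Th := e.th Ω ι J n m S x f a hx hf
  have Gr := e.gr Ω ι J n m S x f a hx hf
  have Wt := e.wt (Ch ι (Fm n (PX m Ω)))
  have A := e.ap J (Ch ι (Fm n (PX m Ω)))
  have dead : ∀ τ, ¬ Al (Lb S) τ → (S.px m).T {c0} ≤ (S.px m).T (KJ c0 τ) := fun τ h =>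
    (hLt ℂ _ ι J n (S.px m)).1 c0 τ fun c => by
      by_contra d
      exact h ⟨c, fun i hi z => d ⟨i, hi, z⟩⟩
  obtain ⟨e1, e2, v, η, e3, e4⟩ := e.eta Ω ι J n m S x f a hx hf kk b c0 hM hT.le hT.zero
  set D : Op (Ch ι (Fm n (PX m Ω))) := cech ((S.px m).dd + we (S.th x f)) with hD
  set t : PX m Ω := MvPolynomial.X none + algebraMap ℂ (PX m Ω) la with ht
  have ha : ∀ i ∈ W, (a i : ℂ) ≠ 0 := fun i hi => Nat.cast_ne_zero.2 (hT.res i hi).1
  have a0 : (0 : J → ℤ) ≤ fun j => (a j : ℤ) := fun j => Int.natCast_nonneg _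
  have pair : ∀ C C', Le C' C → Pair D ((S.px m).T C) ((S.px m).T C') :=
    fun C C' h => L.pair _ C C' Th.sq h Th.maps
  have van : ∀ C C' j, Le C' C → Van (cech (we (S.th x f))) ((S.px m).T C) ((S.px m).T C') j →
      Van D ((S.px m).T C) ((S.px m).T C') j := fun C C' j h hv => by
    rw [hD, ← Gr.sum]
    refine Wt.van _ _ _ _ _ j (1 - j) (Gr.wok C C' h) (fun y hy w hw => ?_) hv
    rw [Gr.low C j y hy w hw]
    exact zero_mem _
  have adj : ∀ g ∈ Algebra.adjoin ℂ {t}, Commute (mu _ g) D ∧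
      ∀ C, Keeps (mu _ g) ((S.px m).T C) ((S.px m).T C) := fun g hg => by
    refine ⟨Th.comm g (Algebra.adjoin_le (Set.singleton_subset_iff.2 ?_) hg),
      fun C => L.mu_T C g fun c => (Algebra.adjoin_le (S := (S.px m).A c)
        (Set.singleton_subset_iff.2 ?_) hg)⟩
    · exact add_mem (Algebra.subset_adjoin ⟨none, rfl⟩) (Subalgebra.algebraMap_mem _ _)
    · exact add_mem (X_mem _ _) (Subalgebra.algebraMap_mem _ _)
  have tm : t ∈ Algebra.adjoin ℂ {t} := Algebra.subset_adjoin rfl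
  have um : Polynomial.aeval t u ∈ Algebra.adjoin ℂ {t} := Polynomial.aeval_mem_adjoin_singleton _ _
  have cm : ∀ c : ℂ, algebraMap ℂ (PX m Ω) c ∈ Algebra.adjoin ℂ {t} :=
    fun c => Subalgebra.algebraMap_mem _ _
  have Hm : ∀ i C, Maps (Hs (S.px m) a i) ((S.px m).T C) ((S.px m).T C) (-1) := fun i C j y hy =>
    (adj _ (cm _)).2 C _ _ (Ho.maps C i j y hy)
  have mono : Monotone fun s => (S.px m).T (KJ c0 s) := fun s s' h => L.T_le _ _ fun c hc => ⟨c, by
    obtain ⟨i, hi, e⟩ := (mem_KJ _ _ _).1 hc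
    exact (mem_KJ _ _ _).2 ⟨i, h hi, e⟩, le_rfl⟩
  rw [hbu, ← ht] at e4
  have l1 : Le {c0 + fun j => (a j : ℤ)} {c0} := fun c hc =>
    ⟨c0, mem_singleton_self _, mem_singleton.1 hc ▸ le_add_of_nonneg_right a0⟩
  have l2 : Le {c0} {c0 - v • fun j => (a j : ℤ)} := fun c hc =>
    ⟨_, mem_singleton_self _, mem_singleton.1 hc ▸ sub_le_self _ (nsmul_nonneg a0 v)⟩
  obtain ⟨y, -, hy⟩ := van _ _ n l2 (hV.v1 v) η e3 (by
    have := sub_mem ((adj _ (mul_mem (pow_mem tm r) um)).2 {c0} _ _ e1) (L.T_le _ _ l1 _ e4)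
    rwa [mu_apply, sub_sub_cancel] at this)
  have hk := adj _ (pow_mem tm (k - r))
  have key := hMu (PX m Ω) _ J D t (Hs (S.px m) a) ((S.px m).T {c0})
    (fun s => (S.px m).T (KJ c0 s)) W (n + 1) (om ι n (PX m Ω))
    (t ^ (k - r) • (η - D y)) u k (fun s => pair _ _ (le_KJ _ _)) mono
    (fun g hg => ⟨(adj g hg).1, fun i => (mu_comm _ _).mul_right ((Ho.lin i).comm g),
      (adj g hg).2 _, fun s => (adj g hg).2 _⟩) (fun i => Hm i _) (fun i s => Hm i _)
    (fun i hi j z hz => ?_) e1 e2 ?_ hu (fun i hi => ?_)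
    (fun s hs hs' => dead s fun d => by have := hT.comb.top s hs d; omega)
  · obtain ⟨Z, f1, f2⟩ := key
    rw [hD, ← Gr.sum] at f2
    obtain ⟨Z', f3, f4⟩ := hLw _ J (wt ι n m Ω) _ _ _ _ W B _ Z (n + 1) (-n + k)
      (fun s => Gr.wok {c0} (KJ c0 s) (le_KJ _ _)) mono
      (yv_wt A _ _ (fun j w => by
        rw [Hs, mul_assoc, Gr.hh, ← mul_assoc, ← mul_assoc, MvPolynomial.algebraMap_apply,
          (Gr.mu _ _).eq]) W k _ _ Gr.om) f1 f2
      (yv_mem A _ _ _ W B k _ _ (fun i => Hm i _) e1 fun V h1 s h2 h3 => dead s fun d => by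
        have := hT.comb.bd V h1 s h2 d
        omega) hV.v2 hV.v3
    obtain ⟨Z0, f5, f6⟩ := hTr Ω ι J n m S x f a hx hf c0 W B (k + 1) (n + 1) Z' f3 f4
    exact hSc Ω ι J n k S a kk c0 W B g u0 hM.det hT.ord hT.lab
      (fun i hi => ⟨(hT.res i hi).1, hT.u0 i hi⟩) (fun V h => (hT.adm V (hT.bd V h)).1) hT.comb
      hT.non Z0 f5 f6
  · have g1 := (adj _ (cm (a i : ℂ)⁻¹)).2 _ _ _ (Th.hom c0 i j z hz)
    have g2 : algebraMap ℂ (PX m Ω) (a i : ℂ)⁻¹ *
        ((c0 i : PX m Ω) + (a i : PX m Ω) * MvPolynomial.X none) = t := by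
      rw [← map_intCast (algebraMap ℂ (PX m Ω)), ← map_natCast (algebraMap ℂ (PX m Ω)), mul_add,
        ← mul_assoc, ← map_mul, ← map_mul, (hT.res i hi).2, inv_mul_cancel₀ (ha i hi), map_one,
        one_mul, mul_left_comm, inv_mul_cancel₀ (ha i hi), mul_one, add_comm]
    rw [map_sub, map_add, mu_apply _ (_ • z), smul_smul, g2, ← op_mul, (adj _ (cm _)).1.eq] at g1
    refine L.T_le _ _ (fun c hc => ⟨c, (mem_KJ _ _ _).2 ⟨i, mem_singleton_self _,
      (mem_singleton.1 hc).symm⟩, le_rfl⟩) _ g1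
  · rw [add_sub_cancel_right]
    exact hk.2 _ _ _ hy
  · have g1 := hk.2 _ _ _ e4
    rw [map_sub, mu_apply, smul_smul, ← mul_assoc, ← pow_add,
      show k - r + r = k by omega] at g1
    have g2 : D (t ^ (k - r) • (η - D y)) = mu _ (t ^ (k - r)) (D η) := by
      rw [← mu_apply, ← op_mul, ← hk.1.eq, op_mul, map_sub D, (pair _ _ l1).dd', sub_zero]
    rw [g2]
    refine L.T_le _ _ (fun c hc => ⟨_, (mem_KJ _ _ _).2 ⟨i, mem_singleton_self _, rfl⟩, ?_⟩) _ g1
    rw [mem_singleton.1 hc]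
    refine add_le_add_right (fun j => ?_) _
    rw [ind_apply]
    split_ifs with hj
    · rw [mem_singleton.1 hj]
      exact Int.natCast_pos.2 (Nat.pos_of_ne_zero (hT.res i hi).1)
    · exact Int.natCast_nonneg _

end Pool.Agent.MP_ee8c61_ag.H95T
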