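import Pool.Agent.MP_ee8c61_ag.H95T.ESpec
import Pool.Agent.MP_ee8c61_ag.H95G.RES

/-! The main theorem in a field from the main theorem in a domain. -/

namespace Pool.Agent.MP_ee8c61_ag.H95T

open H59 H95G H95G.RESA

namespace MFX

variable {K ι J : Type} [Field K] [Algebra ℂ K] {Om : Subalgebra ℂ K} {n m : ℕ}
  {S : Sys ℂ K ι J n}

theorem cons_eq {s : K} {x : Fin m → K} (hv : ∀ l, Matrix.vecCons s x l ∈ Om) :
    (Matrix.vecCons (⟨s, hv 0⟩ : Om) fun l => (⟨x l, hv l.succ⟩ : Om)) =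
      fun l => ⟨Matrix.vecCons s x l, hv l⟩ := by
  funext l
  refine Fin.cases ?_ (fun l => ?_) l <;> rfl

theorem aa_le (h : Cl S Om) (σ : Finset ι) : (sys h).AA σ ≤ (S.AA σ).comap Om.val :=
  iSup₂_le fun a ha _ hg => (le_iSup₂_of_le (f := fun a (_ : a ∈ σ) => S.A a) a ha le_rfl) hg

theorem ns_le (h : Cl S Om) (W : Finset J) (g : Om) (hg : g ∈ NS (sys h) W) :
    (g : K) ∈ NS S W := by
  induction hg using Submodule.span_induction with
  | mem g hg =>
    obtain ⟨σ, c, i, g', h1, h2, h3, h4, rfl⟩ := hg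
    exact Submodule.subset_span ⟨σ, c, i, g', h1, h2, h3, aa_le h σ h4, rfl⟩
  | zero => exact zero_mem _
  | add g g' _ _ h1 h2 => exact add_mem h1 h2
  | smul t g _ h1 => exact Submodule.smul_mem _ t h1

variable [Fintype J]

theorem adm_sys (h : Cl S Om) {s : K} {x : Fin m → K} (hv : ∀ l, Matrix.vecCons s x l ∈ Om)
    {c : J → ℤ} (hA : S.Adm (Matrix.vecCons s x) c) :
    (sys h).Adm (Matrix.vecCons (⟨s, hv 0⟩ : Om) fun l => (⟨x l, hv l.succ⟩ : Om)) c := by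
  obtain ⟨w, ρ, μ, h1, hP, h2⟩ := hA
  rw [cons_eq hv]
  exact ⟨w, _, μ, h1, pol_sys h hP hv, h2⟩

end MFX

open MFX in
theorem rowMF : OfMF := by
  intro hS K ι J n m k _ _ _ _ _ S x f a kk b la c0 W B Fc q s g u hM hT
  have h := cl_om hM
  have c := Classical.arbitrary ι
  have hv : ∀ l, Matrix.vecCons s x l ∈ RESA.om S := fun l => by
    obtain ⟨w, ρ, μ, _, hP, _⟩ := hT.adm0
    exact h.A c (hP.x_mem c l)
  refine hS (RESA.om S) ι J n m k (sys h) (fun l => ⟨x l, hv l.succ⟩)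
    (un f (mem_of_ord h (hM.f_ord c))) a kk b la c0 W B Fc q ⟨s, hv 0⟩
    (fun l => un (g l) (mem_of_ord h (hT.ord l c))) u (mainIn hM h (fun l => hv l.succ) _)
    ⟨hT.le, hT.zero, hT.lab, hT.res, Subtype.ext ?_, adm_sys h hv hT.adm0,
      fun V hV => ⟨(hT.adm V hV).1, adm_sys h hv (hT.adm V hV).2⟩, hT.top, hT.inter, hT.bd,
      fun l c' => isU_sys h c' _ ?_, hT.u0, hT.comb, fun h1 => hT.non (ns_le h W 1 h1)⟩
  · have e := MvPolynomial.comp_aeval_apply (fun l => (⟨x l, hv l.succ⟩ : RESA.om S))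
      (RESA.om S).val q
    rw [MulMemClass.coe_mul]
    exact (congrArg (· * s) e).trans hT.inv
  · rw [map_mul, up_un, up_mon]
    exact hT.ord l c'

end Pool.Agent.MP_ee8c61_ag.H95T
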