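import Pool.Agent.MP_ee8c61_ag.H95T.ASpec

/-! The input of the main theorem for the system of an arrangement. -/

namespace Pool.Agent.MP_ee8c61_ag.H95T

open H95 Finset MvPolynomial

namespace MkX

variable {K ι J : Type} {n : ℕ} [Field K] [Algebra ℂ K] (S : H59.Sys ℂ K ι J n)

theorem isU_mul {c : ι} {u v : Kˣ} (h : S.IsU c u) (h' : S.IsU c v) : S.IsU c (u * v) :=
  ⟨by rw [Units.val_mul]; exact mul_mem h.1 h'.1,
    by rw [mul_inv, Units.val_mul]; exact mul_mem h.2 h'.2⟩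

theorem isU_one (c : ι) : S.IsU c 1 := ⟨one_mem _, by rw [inv_one]; exact one_mem _⟩

theorem mon_card {E : Type} [DecidableEq E] [Fintype E] (S : H59.Sys ℂ K ι (Finset E) n) (c : ι) :
    (S.mon c fun F => -(F.card : ℤ))
      = ∏ j : E, S.mon c fun F => -((if j ∈ F then 1 else 0 : ℕ) : ℤ) := by
  simp only [H59.Sys.mon]
  rw [prod_comm]
  refine prod_congr rfl fun F _ => ?_
  simp only [zpow_neg, zpow_natCast, prod_inv_distrib, prod_pow_eq_pow_sum]
  congr 2
  simp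

end MkX

theorem rowMk : OfMk := by
  intro hBs hId n r E K _ _ _ _ A x ℓ fs j₁ ctx S fit b f hb hf
  obtain ⟨hI, -⟩ := hId n r E K A x ℓ fs j₁ ctx
  have hl : ∀ j, ev x (ℓ j) ≠ 0 := fun j h =>
    ctx.gen.ne j (ctx.fk.inj (h.trans (map_zero _).symm))
  have hne : ev x (fs j₁) ≠ 0 := hf ▸ f.ne_zero
  have hxs : ∀ c l, xs x fs j₁ l ∈ S.A c := fun c l => by
    rw [fit.A_eq]; exact (hI c.1 c.2).2.2.2 l
  have hxA : ∀ c l, x l ∈ S.A c := fun c l => by
    simpa only [xs, Fin.append_left] using hxs c (Fin.castAdd r l)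
  refine ⟨fit.et, fun c l => fit.r ▸ hxA c l, fun c => ?_, fit.det, ?_⟩
  · obtain ⟨h0, h1, h2⟩ := (hI c.1 c.2).2.2.1
    have e : f = Units.mk0 _ h0 * ∏ j, Units.mk0 _ (hl j) := by
      ext
      rw [hf, Units.val_mul, Units.coe_prod]
      simp only [Units.val_mk0, sv, map_prod]
      rw [div_mul_cancel₀ _ (prod_ne_zero_iff.2 fun j _ => hl j)]
    rw [e, MkX.mon_card, mul_assoc, ← prod_mul_distrib]
    refine MkX.isU_mul S ⟨?_, ?_⟩ (prod_induction _ (S.IsU c) (fun _ _ => MkX.isU_mul S)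
      (MkX.isU_one S c) fun j _ => fit.ell c j _ rfl)
    · rw [fit.A_eq]; exact h1
    · rw [fit.A_eq, Units.val_inv_eq_inv_val]; exact h2
  · obtain ⟨u, β, Q, h1, h2, h3⟩ := hBs K n r x fs b j₁ S.R (⨅ c, S.A c) hb
      (by rw [← fit.r]; exact S.R_r) hne (fun l => Algebra.mem_iInf.2 fun c => hxA c l)
      fun j => Algebra.mem_iInf.2 fun c => by
        simpa only [xs, Fin.append_right] using hxs c (Fin.natAdd n j)
    obtain rfl : f = Units.mk0 _ hne := Units.ext hf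
    exact ⟨u, β, Q, fun c l e => Algebra.mem_iInf.1 (h1 l e) c,
      fun c e => Algebra.mem_iInf.1 (h2 e) c, h3⟩

end Pool.Agent.MP_ee8c61_ag.H95T
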