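import Pool.Agent.MP_ee8c61_ag.H95T.ASpec

/-! Identities between the monomials of a chart. -/

namespace Pool.Agent.MP_ee8c61_ag.H95T

open H95 Finset MvPolynomial

namespace MoX

variable {n : ℕ} {E : Type} [DecidableEq E] {L : Fin n → Finset E} {Λ : Finset (Fin n)}

theorem piv {p : Fin n} (hp : p ∈ Λ) : cmon L Λ p = lmon L Λ (L p) := by
  rw [cmon, lmon, ← mul_prod_erase (Λ.filter (L p ⊆ L ·)) _ (mem_filter.2 ⟨hp, Subset.rfl⟩)]
  congr 2
  ext q
  simp only [mem_filter, mem_erase]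
  tauto

theorem dvd {G G' : Finset E} (h : G ⊆ G') : lmon L Λ G' ∣ lmon L Λ G :=
  prod_dvd_prod_of_subset _ _ _ fun _ hp =>
    mem_filter.2 ⟨(mem_filter.1 hp).1, h.trans (mem_filter.1 hp).2⟩

end MoX

open MoX

theorem rowMo : OfMo := by
  intro E _ _ n τ L Λ h hu hb
  have hL : ∀ p ∈ Λ, L p ∈ τ := fun p hp => hb.mapsTo hp
  have hl : ∀ j, lmon L Λ (lay τ j) = ∏ p ∈ Λ with j ∈ L p, X p := fun j =>
    prod_congr (filter_congr fun p hp => lay_sub (hL p hp)) fun _ _ => rfl
  refine ⟨fun p hp => piv hp, fun q hq => ?_, fun p hp => ?_, ?_, fun _ _ => dvd,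
    fun p hp G hG => ?_, hl, ?_⟩
  · exact congrArg (X q * ·) (prod_congr
      (filter_congr fun p hp => and_iff_right fun e => hq (e ▸ hp)) fun _ _ => rfl)
  · refine (piv hp).symm.trans (congrArg (X p * ·) (prod_congr
      (filter_congr fun q hq => ?_) fun _ _ => rfl))
    have k := ssub_suc h fun e : L p = univ => hu (e ▸ hL p hp)
    exact ⟨fun e => suc_sub (hL q hq) (e.2.ssubset_of_ne fun r => e.1 (hb.injOn hq hp r.symm)),
      fun e => ⟨fun r => k.not_subset (r ▸ e), k.subset.trans e⟩⟩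
  · exact prod_eq_one fun p hp => absurd
      (univ_subset_iff.1 (mem_filter.1 hp).2 ▸ hL p (mem_filter.1 hp).1) hu
  · rw [← piv hp, cmon]
    exact mul_dvd_mul_left _ (prod_dvd_prod_of_subset _ _ _ fun q hq => mem_filter.2
      ⟨(mem_filter.1 hq).1, fun r => hG.not_subset (r ▸ (mem_filter.1 hq).2),
        hG.subset.trans (mem_filter.1 hq).2⟩)
  · simp only [hl, prod_filter]
    rw [prod_comm]
    exact prod_congr rfl fun p _ => by rw [prod_ite_mem, univ_inter, prod_const]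

end Pool.Agent.MP_ee8c61_ag.H95T
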