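import Pool.Agent.MP_ee8c61_ag.H95T.ESpec
import Pool.Agent.MP_ee8c61_ag.H59.RMult

/-! The residue cochain is a coboundary. -/

namespace Pool.Agent.MP_ee8c61_ag.H95T

open H59 H59.MultX Finset

namespace MuX

variable {G J : Type} [AddCommGroup G] [LinearOrder J]

theorem pairL (hO : Cone J G) {D : Op G} {L L' : Lat G} (hP : Pair D L L') (W : Finset J) :
    Pair (ks D W) (kl W fun _ => L) (kl W fun _ => L) :=
  hO.pair _ _ _ _ _ (kok (fun _ => ⟨hP.dd, fun _ => le_rfl, hP.st, hP.st⟩)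
    (fun _ _ _ _ => le_rfl) fun _ _ _ _ => le_rfl)

/-- The value at the empty set can be removed. -/
theorem core (hC : Car J G) (hO : Cone J G) {D : Op G} {L : Lat G} {K : Finset J → Lat G}
    {W : Finset J} {q : ℤ} {η : G} {X : Ch J G} (hP : Pair D L (K ∅)) (hη : η ∈ L (q - 1))
    (hX : X ∈ kl W (fun _ => L) q) (h0 : ∀ i ∈ W, X ∅ - D η ∈ K {i} q) (h1 : D (X ∅) = 0) :
    ∃ Z ∈ kl W (sk fun _ => L) q, ks D W X - ks D W Z ∈ kl W (sk K) (q + 1) := by
  have q1 := pairL hO hP W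
  have e1 : (Pi.single ∅ η : Ch J G) ∈ kl W (fun _ => L) (q - 1) := (mem_kl _ _ _ _).2 fun σ => by
    by_cases c : σ = ∅
    · simpa [c] using hη
    · simp [c]
  have e2 := (mem_kl _ _ _ _).1 (sub_mem hX (q1.stp q e1))
  refine ⟨X - ks D W (Pi.single ∅ η) - Pi.single ∅ (X ∅ - D η), (mem_kl _ _ _ _).2 fun σ => ?_, ?_⟩
  · by_cases c : σ = ∅
    · subst c
      simp [sk, hC.kos_apply]
    · simpa only [sk, if_neg c, Pi.sub_apply, Pi.single_eq_of_ne c, sub_zero] using e2 σ
  · rw [map_sub, map_sub, q1.dd', sub_zero, sub_sub_cancel, kl, mem_lat]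
    intro σ
    rw [hC.kos_apply]
    by_cases c : σ = ∅
    · subst c
      simp [h1, hP.dd']
    · rw [Pi.single_eq_of_ne c, map_zero, smul_zero, zero_add]
      refine sum_mem fun i hi => zsmul_mem ?_ _
      by_cases c' : σ.erase i = ∅
      · obtain ⟨a, b⟩ := mem_inter.1 hi
        have : σ = {i} := by rw [← insert_erase b, c', insert_empty]
        subst this
        simpa [sk, a] using h0 i a
      · rw [Pi.single_eq_of_ne c', map_zero]
        exact zero_mem _

end MuX

open MuX in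
theorem rowMu : OfMu := by
  intro e Ω G J _ _ _ _ _ D t H L K W q ω η u k hP hK hg mL mK hH hω dω hη u0 h0 hT
  have hC := e.car J G
  have hA := e.ap J G
  have tA : t ∈ Algebra.adjoin ℂ {t} := Algebra.self_mem_adjoin_singleton ℂ t
  have cD : ∀ g ∈ Algebra.adjoin ℂ {t}, ∀ x, D (g • x) = g • D x := fun g h x =>
    (DFunLike.congr_fun (hg g h).1.eq x).symm
  have a1 : ∀ s : Finset J, ap H s ω ∈ L (q - s.card) := fun s => by
    simpa [sub_eq_add_neg] using hA.maps H L (-1) s (fun i _ => mL i) q ω hω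
  have a2 : ∀ s ⊆ W, D (ap H s ω) - t • ∑ i ∈ s, sgn i s • ap H (s.erase i) ω ∈
      K s (q - s.card + 1) := fun s hs => by
    have := hA.der H D (mu G t) L (K s) s q ω (fun i _ => (hg t tA).2.1 i) (fun i _ => mL i)
      (fun i _ => mK i s) (fun i hi j y hy =>
        hK (singleton_subset_iff.2 hi) j (hH i (hs hi) j y hy)) hω dω
    simpa only [smul_sum, smul_comm t, mu_apply] using this
  set v := algebraMap ℂ Ω (u.coeff 0)⁻¹ with hv
  have α : cs k * v ∈ Algebra.adjoin ℂ {t} :=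
    mul_mem (intCast_mem _ (cs k)) (Subalgebra.algebraMap_mem _ _)
  set g : ℕ → Ω := fun r => cs r * (cs k * v * if r ≤ k then t ^ (k - r) * Polynomial.aeval t u
    else Polynomial.aeval t u.divX) with hg'
  have gA : ∀ r, g r ∈ Algebra.adjoin ℂ {t} := fun r => by
    refine mul_mem (intCast_mem _ _) (mul_mem α ?_)
    split_ifs
    exacts [mul_mem (pow_mem tA _) (Polynomial.aeval_mem_adjoin_singleton ℂ t),
      Polynomial.aeval_mem_adjoin_singleton ℂ t]
  have gs : ∀ r ≤ k, g r + (-1 : ℤ) ^ (r + 1) • g (r + 1) * t = if r = k then 1 else 0 := by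
    intro r hr
    simp only [hg', cs, if_pos hr]
    split_ifs with a b b
    · omega
    · rw [show k - r = k - (r + 1) + 1 by omega]
      rcases neg_one_pow_eq_or ℤ r with c | c <;> simp [pow_succ, c] <;> ring
    · subst b
      have e1 : (cs r : Ω) * cs r = 1 := by exact_mod_cast congrArg (Int.cast : ℤ → Ω) (cs_sq r)
      have e2 := congrArg (Polynomial.aeval t) u.X_mul_divX_add
      have e3 : v * algebraMap ℂ Ω (u.coeff 0) = 1 := by
        rw [hv, ← map_mul, inv_mul_cancel₀ (by rwa [Polynomial.coeff_zero_eq_eval_zero]), map_one]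
      rw [map_add, map_mul, Polynomial.aeval_X, Polynomial.aeval_C] at e2
      rcases neg_one_pow_eq_or ℤ r with c | c <;> simp [pow_succ, c] <;>
        linear_combination (v * Polynomial.aeval t u - v * Polynomial.aeval t u.divX * t) * e1 -
          v * e2 + e3
    · omega
  set X : Ch J G := fun s => if s ⊆ W then g s.card • ap H s ω else 0 with hX
  have x0 : X ∅ = (cs k * v) • (t ^ k * Polynomial.aeval t u) • ω := by
    simp [hX, hg', hA.emp, cs, smul_smul]
  have xL : X ∈ kl W (fun _ => L) q := (mem_kl _ _ _ _).2 fun σ => ⟨fun c => by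
    simp only [hX, if_pos c]
    exact (hg _ (gA _)).2.2.1 _ _ (a1 σ), fun c => if_neg c⟩
  have d0 : D (X ∅) = 0 := by
    rw [x0, cD _ α, cD _ (mul_mem (pow_mem tA _) (Polynomial.aeval_mem_adjoin_singleton ℂ t)), dω,
      smul_zero, smul_zero]
  obtain ⟨Z, z1, z2⟩ := core (K := K) hC (e.cone J G) (hP ∅) ((hg _ α).2.2.1 _ _ hη) xL
    (fun i hi => by
      rw [x0, mu_apply, cD _ α, ← smul_sub]
      exact (hg _ α).2.2.2 _ _ _ (h0 i hi)) d0
  refine ⟨Z, z1, ?_⟩
  rw [← sub_add_sub_cancel _ (ks D W X)]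
  refine add_mem ((mem_kl _ _ _ _).2 fun σ => ?_) z2
  have e3 := (mem_kl _ _ _ _).1 ((pairL (e.cone J G) (hP ∅) W).st q X xL) σ
  rw [Pi.sub_apply]
  refine ⟨fun hσ => ?_, fun c => by rw [e3.2 c, yv, if_neg fun c' => c c'.1, sub_zero]⟩
  by_cases c : σ = ∅
  · subst c
    simp [sk, yv, hC.kos_apply, d0]
  rw [sk, if_neg c]
  obtain ⟨r, hr⟩ : ∃ r, σ.card = r + 1 :=
    ⟨σ.card - 1, by have := (nonempty_iff_ne_empty.2 c).card_pos; omega⟩
  by_cases rk : r ≤ k
  · have w1 : ks D W X σ = (-1 : ℤ) ^ (r + 1) • g (r + 1) • D (ap H σ ω) +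
        g r • ∑ i ∈ σ, sgn i σ • ap H (σ.erase i) ω := by
      rw [hC.kos_apply, inter_eq_right.2 hσ, smul_sum]
      simp only [hX, if_pos hσ, hr, cD _ (gA _)]
      refine congrArg _ (sum_congr rfl fun i hi => ?_)
      simp only [if_pos ((erase_subset i σ).trans hσ), card_erase_of_mem hi, hr, op_one,
        Nat.add_sub_cancel, smul_comm (g r)]
    have w2 : yv H ω W (k + 1) σ = (if r = k then 1 else 0 : Ω) •
        ∑ i ∈ σ, sgn i σ • ap H (σ.erase i) ω := by
      by_cases b : r = k <;> simp [yv, hσ, hr, b]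
    have := neg_mem (zsmul_mem ((hg _ (gA (r + 1))).2.2.2 σ _ _ (a2 σ hσ)) ((-1 : ℤ) ^ (r + 1)))
    rw [w1, w2, ← gs r rk, show q + 1 - σ.card = q - σ.card + 1 by ring]
    convert this using 1
    rw [mu_apply, add_smul, smul_mul_assoc, smul_assoc, mul_smul _ t, smul_sub, smul_sub]
    abel
  · rw [yv, if_neg fun c' => by omega, zero_sub]
    exact neg_mem (hT σ hσ (by omega) _ (e3.1 hσ))

end Pool.Agent.MP_ee8c61_ag.H95T
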