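import Pool.Agent.MP_ee8c61_ag.H95T.ESpec
import Pool.Agent.MP_ee8c61_ag.H59.RMult
import Pool.Agent.MP_ee8c61_ag.H59.RNvK

/-! The argument of Mayer and Vietoris. -/

namespace Pool.Agent.MP_ee8c61_ag.H95T

open H59 Finset

namespace MvX

variable {G J : Type} [AddCommGroup G] [LinearOrder J] {D : Op G} {L : Lat G}
  {K : Finset J → Lat G} {V W : Finset J} {B B' : Finset (Finset J)}

theorem inf {D : Op G} {L M : Lat G} {j : ℤ} (hL : Pair D L L) (hM : Pair D M M)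
    (h : Van D (L ⊔ M) M j) : Van D L (L ⊓ M) j := fun x hx hd => by
  obtain ⟨y, hy, e⟩ := h x (AddSubgroup.mem_sup_left hx) hd.2
  obtain ⟨a, ha, b, hb, rfl⟩ := AddSubgroup.mem_sup.1 hy
  refine ⟨a, ha, AddSubgroup.mem_inf.2 ⟨sub_mem hx (hL.stp j ha), ?_⟩⟩
  have := add_mem e (hM.stp j hb)
  rwa [map_add, ← sub_sub, sub_add_cancel] at this

theorem mono (hP : ∀ s, Pair D L (K s)) (hK : Monotone K) (B : Finset (Finset J)) (i : J)
    (σ : Finset J) : sk (bd B L K) σ ≤ sk (bd B L K) (insert i σ) := by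
  simp only [sk, bd, if_neg (insert_ne_empty i σ)]
  split_ifs with a b c d e
  exacts [bot_le, bot_le, hK (subset_insert i σ), (hP σ).le,
    absurd (e.imp fun _ h => ⟨h.1, (subset_insert i σ).trans h.2⟩) c, le_rfl]

theorem pair (hO : Cone J G) (hP : ∀ s, Pair D L (K s)) (hK : Monotone K) (W : Finset J)
    (h : ∀ τ, (∃ V ∈ B, τ ⊆ V) → ∃ V ∈ B', τ ⊆ V) :
    Pair (ks D W) (kl W (sk (bd B L K))) (kl W (sk (bd B' L K))) := by
  refine hO.pair _ _ _ _ _ (MultX.kok (fun σ => ?_) (fun i _ σ _ => mono hP hK B i σ)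
    fun i _ σ _ => mono hP hK B' i σ)
  have p := hP σ
  have z : ∀ j, ∀ x ∈ (⊥ : Lat G) j, D x ∈ (⊥ : Lat G) (j + 1) := fun j x hx => by
    rw [mem_lat_bot] at hx ⊢
    rw [hx, map_zero]
  simp only [sk, bd]
  split_ifs with a b c d
  exacts [⟨p.dd, fun _ => le_rfl, z, z⟩, ⟨p.dd, fun _ => le_rfl, p.st', p.st'⟩, absurd (h σ b) c, p,
    ⟨p.dd, fun _ => le_rfl, p.st, p.st⟩]

theorem bd_empty : bd ∅ L K = fun _ => L := funext fun _ => if_neg (by simp)

theorem sup_eq (hP : ∀ s, Pair D L (K s)) : kl W (sk (bd (B.image (V ∩ ·)) L K)) =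
    kl W (sk (bd {V} L K)) ⊔ kl W (sk (bd B L K)) := by
  rw [kl, kl, kl, ← NvKX.lat_sup]
  refine congrArg _ (funext fun σ => ?_)
  have e : (∃ U ∈ B.image (V ∩ ·), σ ⊆ U) ↔ σ ⊆ V ∧ ∃ U ∈ B, σ ⊆ U := by
    simp only [mem_image, exists_exists_and_eq_and, subset_inter_iff]
    tauto
  have p : K σ ≤ L := (hP σ).le
  simp only [sk, bd, e, mem_singleton, exists_eq_left]
  split_ifs <;> simp_all

theorem inf_eq (hP : ∀ s, Pair D L (K s)) : kl W (sk (bd (insert V B) L K)) =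
    kl W (sk (bd {V} L K)) ⊓ kl W (sk (bd B L K)) := by
  rw [kl, kl, kl, ← NvKX.lat_inf]
  refine congrArg _ (funext fun σ => ?_)
  have p : K σ ≤ L := (hP σ).le
  simp only [sk, bd, mem_insert, exists_eq_or_imp, mem_singleton, exists_eq_left]
  split_ifs <;> simp_all

theorem loc (hC : Car J G) (hV : V ⊆ W) {γ γ' : Ch J G} (h : ∀ τ ⊆ V, γ τ = γ' τ) {σ : Finset J}
    (hσ : σ ⊆ V) : ks D W γ σ = ks D V γ' σ := by
  rw [hC.kos_apply, hC.kos_apply, inter_eq_right.2 hσ, inter_eq_right.2 (hσ.trans hV), h σ hσ]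
  exact congrArg _ (sum_congr rfl fun i _ => by rw [h _ ((erase_subset i σ).trans hσ)])

theorem face (hC : Car J G) (hO : Cone J G) (hP : ∀ s, Pair D L (K s)) (hK : Monotone K)
    (hV : V ⊆ W) {j : ℤ} (h : Van (ks D V) (kl V (sk fun _ => L)) (kl V (sk K)) j) :
    Van (ks D W) (kl W (sk fun _ => L)) (kl W (sk (bd {V} L K))) j := fun x hx hd => by
  have p := fun W => pair (B := ∅) (B' := ∅) hO hP hK W fun _ h => h
  rw [bd_empty] at p
  have e1 : ∀ σ ⊆ V, sk (bd {V} L K) σ = sk K σ := fun σ hσ => by simp [sk, bd, hσ]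
  have e2 : ∀ σ, ¬σ ⊆ V → sk (bd {V} L K) σ = sk (fun _ => L) σ := fun σ hσ => by
    simp [sk, bd, hσ]
  have h1 : (fun τ => if τ ⊆ V then x τ else 0) ∈ kl V (sk fun _ => L) j :=
    (mem_kl _ _ _ _).2 fun σ => ⟨fun hσ => by
      rw [if_pos hσ]
      exact ((mem_kl _ _ _ _).1 hx σ).1 (hσ.trans hV), fun hσ => if_neg hσ⟩
  obtain ⟨y, hy, e⟩ := h _ h1 ((mem_kl _ _ _ _).2 fun σ => ⟨fun hσ => by
    rw [← loc hC hV (γ := x) (fun τ hτ => (if_pos hτ).symm) hσ, ← e1 σ hσ]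
    exact ((mem_kl _ _ _ _).1 hd σ).1 (hσ.trans hV), ((mem_kl _ _ _ _).1 ((p V).st j _ h1) σ).2⟩)
  rw [mem_kl] at hy e
  have h2 : y ∈ kl W (sk fun _ => L) (j - 1) := (mem_kl _ _ _ _).2 fun σ => ⟨fun _ => by
    by_cases hσ : σ ⊆ V
    · exact (hy σ).1 hσ
    · rw [(hy σ).2 hσ]
      exact zero_mem _, fun hσ => (hy σ).2 fun c => hσ (c.trans hV)⟩
  have h3 := (mem_kl _ _ _ _).1 (sub_mem hx ((p W).stp j h2))
  refine ⟨y, h2, (mem_kl _ _ _ _).2 fun σ => ⟨fun c => ?_, (h3 σ).2⟩⟩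
  by_cases hσ : σ ⊆ V
  · have := (e σ).1 hσ
    rwa [Pi.sub_apply, if_pos hσ, ← loc hC hV (fun _ _ => rfl) hσ, ← e1 σ hσ] at this
  · rw [e2 σ hσ]
    exact (h3 σ).1 c

end MvX

open MvX in
theorem rowMv : OfMv := by
  intro e G J _ _ D L K W Fc Q hP hK hI hF B
  have hX := e.cx (Ch J G)
  have p := fun {B B'} => pair (B := B) (B' := B') (e.cone J G) hP hK W
  have p0 : ∀ B, Pair (ks D W) (kl W (sk fun _ => L)) (kl W (sk (bd B L K))) := fun B =>
    bd_empty (K := K) ▸ p (B := ∅) (by simp)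
  induction hn : B.card using Nat.strong_induction_on generalizing B with
  | _ n ih =>
    intro hB j hj
    rcases B.eq_empty_or_nonempty with rfl | ⟨V, hV⟩
    · rw [bd_empty]
      exact MultX.van_self _ _ _
    have c : (B.erase V).card < n := hn ▸ card_erase_lt_of_mem hV
    have h1 := hX.left _ _ _ _ j (p0 ((B.erase V).image (V ∩ ·))) (p (B' := B.erase V) (by
        rintro τ ⟨_, h, a⟩
        obtain ⟨U, b, rfl⟩ := mem_image.1 h
        exact ⟨U, b, a.trans inter_subset_right⟩))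
      (ih _ c _ rfl (fun U h => hB U (mem_of_mem_erase h)) j hj)
      (ih _ (card_image_le.trans_lt c) _ rfl (fun U h => by
        obtain ⟨U, b, rfl⟩ := mem_image.1 h
        exact hI _ _ (hB V hV) (hB U (mem_of_mem_erase b))) (j - 1) (by omega))
    rw [sup_eq hP] at h1
    have h2 := inf (p fun _ h => h) (p fun _ h => h) h1
    rw [← inf_eq hP, insert_erase hV] at h2
    exact hX.mid _ _ _ _ j (p0 {V}) (p fun τ ⟨U, a, b⟩ => ⟨V, hV, mem_singleton.1 a ▸ b⟩) h2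
      (face (e.car J G) (e.cone J G) hP hK (hF V (hB V hV)).1 ((hF V (hB V hV)).2 j hj))

end Pool.Agent.MP_ee8c61_ag.H95T
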