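import Pool.Agent.MP_ee8c61_ag.H95T.ASpec

/-! When the affine subspace of a set is not empty. -/

namespace Pool.Agent.MP_ee8c61_ag.H95T

open H95 Finset MvPolynomial

namespace NeX

variable {n : ℕ} {E : Type} [DecidableEq E]

/-- The point restricted to a layer. -/
def cv (L : Fin n → Finset E) (Λ : Finset (Fin n)) (x : Fin n → ℂ) (G : Finset E) (q : Fin n) : ℂ :=
  if L q = G then (if q ∈ Λ then 1 else x q) else 0

theorem eval_rdc (aff : Fin n → Pol (Fin n)) (L : Fin n → Finset E) (Λ : Finset (Fin n))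
    (x : Fin n → ℂ) (G : Finset E) (v : Pol (Fin n)) :
    eval x (rdc aff L Λ G v) = ev (cv L Λ x G) (ev aff v) := by
  refine (ev_ap (thv L Λ G) x (ev aff v)).symm.trans (congrArg (fun c => ev c (ev aff v)) ?_)
  funext q
  simp only [ap, thv, cv]
  split_ifs <;> simp

theorem Wi_ext {f g : Pol (Fin n) →ₗ[ℂ] ℂ} (h1 : f 1 = g 1) (h : ∀ l, f (X l) = g (X l))
    {v : Pol (Fin n)} (hv : v ∈ Wi n) : f v = g v :=
  LinearMap.eqOn_span (by rintro _ (rfl | ⟨l, rfl⟩); exacts [h1, h l]) hv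

theorem lin {y aff : Fin n → Pol (Fin n)} (ay : ap aff y = X) (am : ∀ l, aff l ∈ Wi n)
    (φ : Pol (Fin n) →ₗ[ℂ] ℂ) (h : φ 1 = 1) {v : Pol (Fin n)} (hv : v ∈ Wi n) :
    ev (fun q => φ (y q)) (ev aff v) = φ v := by
  refine Wi_ext (f := ((ev fun q => φ (y q)).comp (ev aff)).toLinearMap) (by simp [h])
    (fun l => ?_) hv
  have := Wi_ext (f := (ev fun q => φ (y q)).toLinearMap) (g := φ ∘ₗ (ev y).toLinearMap)
    (by simp [h]) (by simp) (am l)
  conv_rhs => rw [← congrFun ay l]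
  simpa [ap] using this

end NeX

open NeX in
theorem rowNe : OfNe := by
  rintro n E _ _ A τ y aff L Λ ⟨ch, ad, bij⟩ S
  have hu := ch.univ
  constructor
  · rintro ⟨x, ⟨-, x2⟩, hZ⟩
    refine ⟨fun p hp => ⟨cv L Λ x (L p), by simp [cv, hp], fun q hq => ?_, fun q hq => if_neg hq,
      fun j hj e v hv => ?_⟩, fun h1 => ?_⟩
    · unfold cv
      split_ifs with a b
      exacts [absurd (bij.injOn b hp a) hq.ne', x2 p hp q a hq, rfl]
    · exact (eval_rdc aff L Λ x _ v).symm.trans (e ▸ hZ j hj v hv)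
    · have : A.VS (tp τ ∪ S) ≤ LinearMap.ker ((ev (cv L Λ x univ)).comp (ev aff)).toLinearMap := by
        refine A.VS_le_iff.2 fun j hj => ?_
        rcases lay_cases ch.1 j with a | a
        · refine (A.le_VS self_lay).trans ((ad.sp _ a).trans_le (Submodule.span_le.2 ?_))
          rintro _ ⟨q, hq, rfl⟩
          change ev (cv L Λ x univ) (ap y aff q) = 0
          rw [ad.ya, aeval_X]
          exact if_neg fun e : L q = univ => hu (univ_subset_iff.1 (e.ge.trans hq) ▸ a)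
        · exact fun v hv => (eval_rdc aff L Λ x _ v).symm.trans (a ▸ hZ j
            ((mem_union.1 hj).resolve_left fun b => hu (a ▸ lay_mem ch.1 b)) v hv)
      simpa using this h1
  · rintro ⟨hs, h1⟩
    choose! c c1 c2 c3 c4 using hs
    obtain ⟨φ, φ1, φ0⟩ : ∃ φ : Pol (Fin n) →ₗ[ℂ] ℂ, φ 1 = 1 ∧ ∀ v ∈ A.VS (tp τ ∪ S), φ v = 0 := by
      obtain ⟨φ, a, b⟩ := Submodule.exists_dual_map_eq_bot_of_notMem h1 inferInstance
      refine ⟨(φ 1)⁻¹ • φ, inv_mul_cancel₀ a, fun v hv => ?_⟩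
      have : φ v = 0 := (Submodule.mem_bot ℂ).1 (b ▸ Submodule.mem_map_of_mem hv)
      simp [this]
    obtain ⟨x, hx⟩ : ∃ x : Fin n → ℂ, ∀ q, x q =
      if q ∈ Λ then 0 else if L q = univ then φ (y q) else ∑ p ∈ Λ, c p q := ⟨_, fun _ => rfl⟩
    have k1 : ∀ p ∈ Λ, cv L Λ x (L p) = c p := fun p hp => funext fun q => by
      unfold cv
      split_ifs with a b
      · rw [bij.injOn b hp a, c1 p hp]
      · rw [hx, if_neg b, if_neg fun e : L q = univ => hu (a.symm.trans e ▸ bij.mapsTo hp)]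
        exact sum_eq_single_of_mem p hp fun p' hp' ne =>
          c3 p' hp' q fun e => ne (bij.injOn hp' hp (e.symm.trans a))
      · exact (c3 p hp q a).symm
    have k2 : cv L Λ x univ = fun q => φ (y q) := funext fun q => by
      unfold cv
      split_ifs with a b
      · exact absurd (a ▸ bij.mapsTo b) hu
      · rw [hx, if_neg b, if_pos a]
      · have hq := (ad.lm q).resolve_right a
        exact (φ0 _ (A.VS_mono ((sub_tp hq).trans subset_union_left)
          ((ad.sp _ hq).ge (Submodule.subset_span ⟨q, Subset.rfl, rfl⟩)))).symm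
    refine ⟨x, ⟨fun p hp => by rw [hx, if_pos hp], fun p hp q a hq => ?_⟩, fun j hj v hv => ?_⟩
    · by_cases b : q ∈ Λ
      · rw [hx, if_pos b]
      · rw [← c2 p hp q hq, ← k1 p hp, cv, if_pos a, if_neg b]
    · rw [eval_rdc]
      rcases lay_cases ch.1 j with a | a
      · obtain ⟨p, hp, e⟩ := bij.surjOn a
        rw [← e, k1 p hp]
        exact c4 p hp j hj e.symm v hv
      · rw [a, k2, lin ad.ay ad.am φ φ1 (A.le j hv)]
        exact φ0 v (A.le_VS (mem_union_right _ hj) hv)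

end Pool.Agent.MP_ee8c61_ag.H95T
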