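import Pool.Agent.MP_ee8c61_ag.H95T.ASpec

/-! The functional which kills the functions that vanish on a divisor. -/

namespace Pool.Agent.MP_ee8c61_ag.H95T

open H95 Finset MvPolynomial

namespace NoX

section

variable {T κ : Type} [Field T] [Algebra ℂ T] (M : MV T κ)

theorem one_mem' (i : κ) : (1 : T) ∈ M.Sc i 0 := M.mo_zero ▸ M.mo_mem 0 i

theorem co_one : M.co 0 1 = 1 := M.mo_zero ▸ M.co_mo 0

theorem mul0 {i : κ} {c : ℤ} {g h : T} (hg : g ∈ M.Sc i 0) (hh : h ∈ M.Sc i c) :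
    g * h ∈ M.Sc i c := by simpa using M.mul i 0 c g hg h hh

theorem div0 {i : κ} {c : ℤ} {g h : T} (hg : g ∈ M.Sc i c) (hh : h ∈ M.Sc i (-c)) :
    g * h ∈ M.Sc i 0 := by simpa using M.mul i c (-c) g hg h hh

/-- The series without a pole in the variable `i`. -/
def sub0 (i : κ) : Subalgebra ℂ T :=
  (M.Sc i 0).toSubalgebra (one_mem' M i) fun _ _ hg hh => mul0 M hg hh

theorem prod_co {α : Type} (S : Finset α) (g : α → T) (γ : α → κ → ℤ)
    (h : ∀ j i, g j ∈ M.Sc i (γ j i)) : (∀ i, ∏ j ∈ S, g j ∈ M.Sc i ((∑ j ∈ S, γ j) i)) ∧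
      M.co (∑ j ∈ S, γ j) (∏ j ∈ S, g j) = ∏ j ∈ S, M.co (γ j) (g j) := by
  classical
  induction S using Finset.induction_on with
  | empty => exact ⟨one_mem' M, co_one M⟩
  | insert j S hj ih =>
    rw [prod_insert hj, prod_insert hj, sum_insert hj, M.co_mul _ _ _ _ (h j) ih.1, ih.2]
    exact ⟨fun i => M.mul i _ _ _ (h j i) _ (ih.1 i), rfl⟩

variable {n : ℕ} {ξ : Fin n → T}

theorem all0 (h : ∀ l i, ξ l ∈ M.Sc i 0) (p : Pol (Fin n)) (i : κ) : ev ξ p ∈ M.Sc i 0 := by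
  induction p using MvPolynomial.induction_on with
  | C c => exact (aeval_C ξ c).symm ▸ (sub0 M i).algebraMap_mem c
  | add p q hp hq => exact map_add (ev ξ) p q ▸ add_mem hp hq
  | mul_X p l hp => simpa using mul0 M hp (h l i)

theorem ideal_mem (h : ∀ p i, ev ξ p ∈ M.Sc i 0) {α : Type} (V : α → Set (Pol (Fin n)))
    (γ : α → κ → ℤ) (hV : ∀ j, ∀ v ∈ V j, ∀ i, ev ξ v ∈ M.Sc i (γ j i)) (i : κ) (S : Finset α) :
    ∀ p ∈ ∏ j ∈ S, Ideal.span (V j), ev ξ p ∈ M.Sc i ((∑ j ∈ S, γ j) i) := by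
  classical
  induction S using Finset.induction_on with
  | empty => exact fun p _ => h p i
  | insert j S hj ih =>
    rw [prod_insert hj, sum_insert hj]
    intro p hp
    refine Submodule.mul_induction_on hp (fun a ha b hb => ?_) fun a b ha hb => ?_
    · rw [map_mul]
      refine M.mul i _ _ _ ?_ _ (ih b hb)
      induction ha using Submodule.span_induction with
      | mem v hv => exact hV j v hv i
      | zero => exact map_zero (ev ξ) ▸ zero_mem _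
      | add a b _ _ ha hb => exact map_add (ev ξ) a b ▸ add_mem ha hb
      | smul c a _ ha => exact map_mul (ev ξ) c a ▸ mul0 M (h c i) ha
    · exact map_add (ev ξ) a b ▸ add_mem ha hb

end

end NoX

open NoX

theorem rowNo : OfNo := by
  intro hHa hXi hGp n E _ _ A r K _ _ x ℓ fs W fk gen sp rng fl
  obtain ⟨T, _, _, ⟨M⟩⟩ := hHa (Finset E)
  obtain ⟨ξ, hξ⟩ := hXi n E A T M ℓ W gen rng fl
  have a0 : ∀ p F, ev ξ p ∈ M.Sc F 0 := all0 M fun l F => by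
    have := (hξ A.o).1 (X l) (A.top ▸ X_mem_Wi l) F
    rwa [ee, if_neg fun h => (fl F h.1).o h.2, aeval_X] at this
  have hl : ∀ j F, ev ξ (ℓ j) ∈ M.Sc F (ee W j F) := fun j => (hξ j).1 _ (gen.mem j)
  have aI : ∀ p ∈ A.I, ∀ F, ev ξ p ∈ M.Sc F ((∑ j, ee W j) F) := fun p hp F =>
    ideal_mem M a0 (fun j => A.V j) (ee W) (fun j => (hξ j).1) F univ p hp
  have fI : ∀ i, fs i ∈ A.I := fun i => sp ▸ Ideal.subset_span ⟨i, rfl⟩
  have lI : ∏ j, ℓ j ∈ A.I := A.prod_mem_I gen.mem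
  have c0 : M.co (∑ j, ee W j) (ev ξ (∏ j, ℓ j)) ≠ 0 := by
    rw [map_prod, (prod_co M univ _ _ hl).2]
    exact prod_ne_zero_iff.2 fun j _ => (hξ j).2
  obtain ⟨j₁, c1⟩ : ∃ j₁, M.co (∑ j, ee W j) (ev ξ (fs j₁)) ≠ 0 := by
    by_contra u
    obtain ⟨c, hc⟩ := Ideal.mem_span_range_iff_exists_fun.1 (sp ▸ lI)
    refine c0 ?_
    rw [← hc, map_sum, map_sum]
    refine sum_eq_zero fun i _ => ?_
    have := M.co_mul 0 _ _ _ (a0 (c i)) (aI _ (fI i))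
    rw [zero_add] at this
    rw [map_mul, this, not_not.1 fun z => u ⟨i, z⟩, mul_zero]
  obtain ⟨B, b1, b2, b3⟩ := hGp n K T x ξ ((∏ j, ℓ j) * fs j₁) fk.inj (by
    rw [map_mul]
    exact mul_ne_zero (fun z => c0 (by rw [z, map_zero])) fun z => c1 (by rw [z, map_zero]))
  have bq : ∀ p q, q ∣ (∏ j, ℓ j) * fs j₁ → (ev x p / ev x q, ev ξ p * (ev ξ q)⁻¹) ∈ B :=
    fun p q h => by
      rw [div_eq_mul_inv]
      exact mul_mem (b1 p) (b2 q h)
  have dl : ∀ j, ℓ j ∣ (∏ j, ℓ j) * fs j₁ := fun j => (dvd_prod_of_mem ℓ (mem_univ j)).mul_right _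
  have il : ∀ j F, (ev ξ (ℓ j))⁻¹ ∈ M.Sc F (-ee W j F) := fun j => M.inv _ _ (hl j) (hξ j).2
  refine ⟨j₁, fun z => c1 (by rw [z, map_zero, map_zero]),
    (B.toSubmodule ⊓ (M.co 0).ker.comap (LinearMap.snd ℂ K T)).map (LinearMap.fst ℂ K T), ?_,
    fun F hF j hj j' hj' h hh => ?_⟩
  · rintro ⟨⟨g, h⟩, ⟨h1, h2⟩, rfl : g = 1⟩
    have e : h - 1 = 0 := b3 _ (sub_self (1 : K) ▸ B.sub_mem h1 B.one_mem)
    have h3 : M.co 0 h = 0 := h2
    rw [sub_eq_zero.1 e, co_one] at h3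
    exact one_ne_zero h3
  · have le : ⨆ τ : {τ : Finset (Finset E) // F ∈ τ}, CA A x ℓ (fs j₁) τ ≤
        (B ⊓ (sub0 M F).comap (AlgHom.snd ℂ K T)).map (AlgHom.fst ℂ K T) := by
      refine iSup_le fun τ => Algebra.adjoin_le ?_
      rintro g (⟨i, v, hv, rfl⟩ | rfl)
      · refine ⟨_, ⟨bq v _ (dl i), div0 M ?_ (il i F)⟩, rfl⟩
        by_cases c : i ∈ F
        · refine (A.VS_le_iff (U := (M.Sc F (ee W i F)).comap (ev ξ).toLinearMap)).2
            (fun i' hi' v hv => ?_) hv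
          have := (hξ i').1 v hv F
          rw [ee, if_pos ⟨hF, (lay_sub τ.2).2 c hi'⟩] at this
          rwa [ee, if_pos ⟨hF, c⟩]
        · rw [ee, if_neg fun h => c h.2]
          exact a0 v F
      · exact ⟨_, ⟨bq _ _ (dvd_mul_left _ _), div0 M (aI _ lI F) (M.inv _ _ (aI _ (fI j₁)) c1 F)⟩,
          rfl⟩
    obtain ⟨⟨g, h'⟩, ⟨h1, h2⟩, rfl⟩ := le hh
    refine ⟨_, ⟨B.mul_mem (bq (ℓ j) _ (dl j')) h1, ?_⟩, rfl⟩
    have e := M.mul F _ _ _ (M.mul F _ _ _ (hl j F) _ (il j' F)) h' h2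
    rw [ee, ee, if_pos ⟨hF, hj⟩, if_neg fun h => hj' h.2] at e
    exact M.co_zero 0 F _ _ e (by simp)

end Pool.Agent.MP_ee8c61_ag.H95T
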