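import Pool.Agent.MP_ee8c61_ag.H95T.CSpec

/-! Row `Pd`: the alternating sum factors over the blocks. -/

namespace Pool.Agent.MP_ee8c61_ag.H95T

open Finset

namespace PdX

variable {E : Type} [DecidableEq E]

theorem sum_pow_union {A B : Finset E} (h : Disjoint A B) (f : Finset E → ℤ) :
    ∑ S ∈ (A ∪ B).powerset, f S = ∑ S ∈ A.powerset, ∑ T ∈ B.powerset, f (S ∪ T) := by
  rw [← sum_product']
  have hd := disjoint_left.1 h
  refine sum_nbij' (fun S => (S ∩ A, S ∩ B)) (fun p => p.1 ∪ p.2) ?_ ?_ ?_ ?_ ?_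
  · intro S _
    simp
  · intro p hp
    rw [mem_product, mem_powerset, mem_powerset] at hp
    exact mem_powerset.2 (union_subset_union hp.1 hp.2)
  · intro S hS
    rw [← inter_union_distrib_left, inter_eq_left.2 (mem_powerset.1 hS)]
  · rintro ⟨S, T⟩ hp
    rw [mem_product, mem_powerset, mem_powerset] at hp
    refine Prod.ext ?_ ?_ <;> ext j <;> simp only [mem_inter, mem_union]
    · exact ⟨fun ⟨a, b⟩ => a.resolve_right fun c => hd b (hp.2 c), fun a => ⟨Or.inl a, hp.1 a⟩⟩
    · exact ⟨fun ⟨a, b⟩ => a.resolve_left fun c => hd (hp.1 c) b, fun a => ⟨Or.inr a, hp.2 a⟩⟩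
  · intro S hS
    rw [← inter_union_distrib_left, inter_eq_left.2 (mem_powerset.1 hS)]

variable [Fintype E]

theorem gen {L : Type} [DecidableEq L] (lab : E → L) (h : L → Finset E → ℤ) (G : Finset L) :
    ∑ S ∈ (univ.filter fun j => lab j ∈ G).powerset, ∏ g ∈ G, h g (S.filter (lab · = g)) =
      ∏ g ∈ G, ∑ S ∈ (univ.filter (lab · = g)).powerset, h g S := by
  induction G using Finset.induction_on with
  | empty => simp
  | insert g G hg ih =>
    have e : (univ.filter fun j => lab j ∈ insert g G) =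
        univ.filter (lab · = g) ∪ univ.filter fun j => lab j ∈ G := by
      ext j
      simp
    rw [e, sum_pow_union (disjoint_filter.2 fun j _ (a : lab j = g) b => hg (a ▸ b)),
      prod_insert hg, ← ih,
      sum_mul_sum]
    refine sum_congr rfl fun S hS => sum_congr rfl fun T hT => ?_
    have hS' := fun j (a : j ∈ S) => (mem_filter.1 (mem_powerset.1 hS a)).2
    have hT' := fun j (a : j ∈ T) => (mem_filter.1 (mem_powerset.1 hT a)).2
    rw [prod_insert hg]
    refine congrArg₂ (· * ·) (congrArg _ ?_) (prod_congr rfl fun g' hg' => congrArg _ ?_) <;>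
      ext j <;> simp only [mem_filter, mem_union]
    · exact ⟨fun ⟨a, b⟩ => a.resolve_right fun c => hg (b ▸ hT' j c), fun a => ⟨Or.inl a, hS' j a⟩⟩
    · exact ⟨fun ⟨a, b⟩ => ⟨a.resolve_left fun c => hg ((hS' j c).symm.trans b ▸ hg'), b⟩,
        fun ⟨a, b⟩ => ⟨Or.inr a, b⟩⟩

end PdX

open Classical in
theorem rowPd : OfPd := by
  intro E _ _ P τ hτ
  have hu := hτ.univ
  have hl : ∀ j, lay τ j ∈ insert univ τ := fun j =>
    mem_insert.2 (lay_cases hτ.1 j).symm
  have ht : ∀ j, lay τ j = univ ↔ j ∉ tp τ := fun j =>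
    ⟨fun e a => hu (e ▸ lay_mem hτ.1 a), lay_univ⟩
  have k := PdX.gen (lay τ) (fun g S => (-1) ^ S.card *
    if g = univ then (if P.N (tp τ ∪ S) then 1 else 0) else (P.r g : ℤ) - P.r (pred τ g ∪ S))
    (insert univ τ)
  rw [filter_true_of_mem fun j _ => hl j, powerset_univ] at k
  refine Eq.trans (sum_congr rfl fun S _ => ?_) (k.trans ?_)
  · rw [prod_mul_distrib, prod_pow_eq_pow_sum, ← card_eq_sum_card_fiberwise fun j _ => hl j,
      prod_insert hu, if_pos rfl]
    have e1 : tp τ ∪ S.filter (lay τ · = univ) = tp τ ∪ S := by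
      ext j
      simp only [mem_union, mem_filter, ht]
      tauto
    rw [e1]
    refine congrArg _ (congrArg _ (prod_congr rfl fun F hF => ?_))
    have e2 : pred τ F ∪ S.filter (lay τ · = F) = pred τ F ∪ S ∩ F := by
      ext j
      simp only [mem_union, mem_filter, mem_inter, lay_eq hτ.1 hF, mem_sdiff]
      tauto
    rw [if_neg fun e : F = univ => hu (e ▸ hF), e2]
  · rw [prod_insert hu, PM.coef, PM.ci]
    refine congrArg₂ (· * ·) ?_ (prod_congr rfl fun F hF => ?_)
    · refine sum_congr (congrArg _ ?_) fun S _ => by rw [if_pos rfl]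
      ext j
      simp [ht]
    · refine sum_congr (congrArg _ ?_) fun S _ => by
        rw [if_neg fun e : F = univ => hu (e ▸ hF)]
      ext j
      simp [lay_eq hτ.1 hF]

end Pool.Agent.MP_ee8c61_ag.H95T
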