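import Pool.Agent.MP_ee8c61_ag.H95T.ASpec

/-! The polarizations of the system of charts of an arrangement. -/

namespace Pool.Agent.MP_ee8c61_ag.H95T

open H95 Finset MvPolynomial

namespace PlX

section Sys

variable {K ι J : Type} {n : ℕ} [Field K] [Algebra ℂ K] [Fintype J] (S : H59.Sys ℂ K ι J n)

theorem int_of (B : Subalgebra ℂ K) {g : K}
    (h : ∀ V : ValuationSubring K, (∀ t ∈ B, t ∈ V) → g ∈ V) : IsIntegral B g := by
  have e := iInf_valuationSubring_superset (s := (B.toSubring : Set K))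
  rw [Subring.closure_eq] at e
  have : g ∈ (integralClosure B.toSubring K).toSubring :=
    e ▸ Subring.mem_iInf.2 fun V => h V.1 V.2
  exact this

omit [Fintype J] in
theorem isU_iff (a : ι) (u : Kˣ) : S.IsU a u ↔ u ∈ (S.A a).toSubmonoid.units := Iff.rfl

omit [Fintype J] in
theorem eta_mem (a : ι) (j : J) : (S.η a j : K) ∈ S.A a := by
  cases e : S.lab a j with
  | none => rw [S.η_none a j e]; exact one_mem _
  | some i => rw [S.η_some a j i e]; exact S.z_mem a i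

theorem mon_congr (a : ι) {c c' : J → ℤ} (h : ∀ j, S.lab a j ≠ none → c j = c' j) :
    S.mon a c = S.mon a c' := Finset.prod_congr rfl fun j _ => by
  by_cases e : S.lab a j = none
  · rw [S.η_none a j e, one_zpow, one_zpow]
  · rw [h j e]

theorem mon_mem (a : ι) {c : J → ℤ} (h : ∀ j, S.lab a j ≠ none → 0 ≤ c j) :
    (S.mon a c : K) ∈ S.A a := by
  rw [H59.Sys.mon, Units.coe_prod]
  refine prod_mem fun j _ => ?_
  by_cases e : S.lab a j = none
  · rw [S.η_none a j e, one_zpow]; exact one_mem _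
  · obtain ⟨m, hm⟩ := Int.eq_ofNat_of_zero_le (h j e)
    rw [hm, zpow_natCast, Units.val_pow_eq_pow_val]
    exact pow_mem (eta_mem S a j) m

theorem mon_neg (a : ι) (c : J → ℤ) : (S.mon a fun j => -c j) * S.mon a c = 1 := by
  simp only [H59.Sys.mon, ← prod_mul_distrib, ← zpow_add, neg_add_cancel, zpow_zero,
    prod_const_one]

end Sys

section Lm

variable {K ι E : Type} {n : ℕ} [Field K] [Algebra ℂ K] [DecidableEq E] [Fintype E]
  {S : H59.Sys ℂ K ι (Finset E) n} {u : E → Kˣ} {a : ι}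

theorem zpow_sum' {G α : Type} [CommGroup G] (g : G) (s : Finset α) (f : α → ℤ) :
    g ^ ∑ i ∈ s, f i = ∏ i ∈ s, g ^ f i := by
  classical
  induction s using Finset.induction_on with
  | empty => simp
  | insert i s hi ih => rw [sum_insert hi, prod_insert hi, zpow_add, ih]

theorem key (h1 : ∀ j, S.IsU a (u j * S.mon a fun F => -((if j ∈ F then 1 else 0 : ℕ) : ℤ)))
    (h : E → ℤ) : S.IsU a ((∏ j, u j ^ h j) * S.mon a fun F => -∑ j ∈ F, h j) := by
  have e : ((∏ j, u j ^ h j) * S.mon a fun F => -∑ j ∈ F, h j) =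
      ∏ j, (u j * S.mon a fun F => -((if j ∈ F then 1 else 0 : ℕ) : ℤ)) ^ h j := by
    simp only [mul_zpow, prod_mul_distrib, H59.Sys.mon, ← prod_zpow, ← zpow_mul]
    rw [prod_comm]
    refine congrArg _ (prod_congr rfl fun F _ => ?_)
    rw [← zpow_sum']
    congr 1
    simp [Finset.sum_ite_mem]
  rw [e, isU_iff]
  exact prod_mem fun j _ => zpow_mem ((isU_iff S a _).1 (h1 j)) _

theorem lm_mem (h1 : ∀ j, S.IsU a (u j * S.mon a fun F => -((if j ∈ F then 1 else 0 : ℕ) : ℤ)))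
    {h : E → ℤ} (h0 : ∀ F, S.lab a F ≠ none → 0 ≤ ∑ j ∈ F, h j) :
    ((∏ j, u j ^ h j : Kˣ) : K) ∈ S.A a := by
  have := mul_mem (key h1 h).1 (mon_mem S a h0)
  rwa [← Units.val_mul, mul_assoc, mon_neg, mul_one] at this

end Lm

end PlX

open PlX in
theorem rowPl : OfPl := by
  intro gd hid rh vl n r E K _ _ _ _ A x ℓ fs j₁ cx S ft
  obtain ⟨G, g, hG⟩ := rh n r E K A x ℓ fs j₁ cx
  refine ⟨g, hG.nn, fun k T w hw => ?_⟩
  choose t t1 t2 using fun a : Io A => gd E A.pm a.1 a.2.1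
  obtain ⟨u, hu⟩ : ∃ u : E → Kˣ, ∀ j, (u j : K) = ev x (ℓ j) :=
    ⟨fun j => Units.mk0 _ ((map_ne_zero_iff _ cx.fk.inj).2 (cx.gen.ne j)), fun _ => rfl⟩
  have el := fun a j => ft.ell a j (u j) (hu j)
  have lb : ∀ (a : Io A) F, S.lab a F ≠ none → F ∈ a.1 := fun a F h => (ft.lb a F).1 h
  obtain ⟨ρ, hρ⟩ : ∃ ρ : Io A → Kˣ, ∀ a, ρ a = ∏ j, u j ^ (-(k * t a j : ℤ) - T j + G a.1 j) :=
    ⟨_, fun _ => rfl⟩
  have rt : ∀ a b, ((ρ a / ρ b : Kˣ) : K) = (∏ j, u j ^ (k * (t b j - t a j) : ℤ) : Kˣ) *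
      ∏ j, ev x (ℓ j) ^ (G a.1 j - G b.1 j) := fun a b => by
    simp only [← hu, ← Units.val_zpow_eq_zpow_val, ← Units.coe_prod, ← Units.val_mul]
    rw [hρ, hρ, ← prod_div_distrib, ← prod_mul_distrib]
    refine congrArg _ (prod_congr rfl fun j _ => ?_)
    rw [div_eq_mul_inv, ← zpow_sub, ← zpow_add]
    congr 1
    ring
  have m1 : ∀ a b, ((∏ j, u j ^ (k * (t b j - t a j) : ℤ) : Kˣ) : K) ∈ S.A b := fun a b =>
    lm_mem (el b) fun F hF => by
      have h1 : ((∑ j ∈ F, t a j : ℕ) : ℤ) ≤ (∑ j ∈ F, t b j : ℕ) := by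
        rw [t2 b F (lb b F hF)]
        exact_mod_cast t1 a F
      push_cast at h1
      rw [← mul_sum, sum_sub_distrib]
      exact mul_nonneg (Int.natCast_nonneg k) (sub_nonneg.2 h1)
  have lc : ∀ a b, ∀ y ∈ S.A a, ∃ e : ℕ, (((ρ a / ρ b) ^ e : Kˣ) : K) * y ∈ S.A b :=
    fun a b y hy => by
      obtain ⟨e, he⟩ := hG.loc a.1 b.1 a.2.1 b.2.1 y (ft.A_eq a ▸ hy)
      refine ⟨e, ?_⟩
      rw [Units.val_pow_eq_pow_val, rt, mul_pow, mul_assoc]
      exact mul_mem (pow_mem (m1 a b) e) (ft.A_eq b ▸ he)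
  refine ⟨ρ, fun a l => ?_, fun a b => ?_, lc, fun a => ?_,
    fun a y hy => int_of _ fun V hB => ?_⟩
  · obtain ⟨-, -, h1, h2⟩ := (hid n r E K A x ℓ fs j₁ cx).1 a.1 a.2
    rw [ft.A_eq]
    exact Fin.cases h1.2.1 h2 l
  · rw [rt]
    exact mul_mem (m1 a b) (ft.A_eq b ▸ hG.mem a.1 b.1 a.2.1 b.2.1)
  · rw [hρ, mon_congr S a (c' := fun F => -∑ j ∈ F, (-(k * t a j : ℤ) - T j + G a.1 j))
      fun F hF => ?_]
    · exact key (el a) _
    · have h1 := lb a F hF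
      have h2 : ((∑ j ∈ F, t a j : ℕ) : ℤ) = A.pm.r F := by rw [t2 a F h1]
      push_cast at h2
      rw [hw F (a.2.2 F h1), sum_add_distrib, sum_sub_distrib, sum_neg_distrib, ← mul_sum, h2,
        hG.ord a.1 a.2.1 F h1]
      ring
  · obtain ⟨τ, h1, h2⟩ := vl n r E K A x ℓ fs j₁ cx V
      (fun z => hB _ (Subalgebra.algebraMap_mem _ z))
      fun l => hB _ (Algebra.subset_adjoin (Or.inl ⟨l, rfl⟩))
    obtain ⟨e, he⟩ := lc a ⟨τ, h1⟩ y hy
    rw [ft.A_eq] at he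
    have := mul_mem (pow_mem (hB _ (Algebra.subset_adjoin (Or.inr ⟨⟨τ, h1⟩, rfl⟩))) e) (h2 _ he)
    rwa [← mul_assoc, ← Units.val_pow_eq_pow_val, ← Units.val_mul, ← mul_pow, div_mul_div_cancel,
      div_self', one_pow, Units.val_one, one_mul] at this

end Pool.Agent.MP_ee8c61_ag.H95T
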