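import Pool.Agent.MP_ee8c61_ag.H95T.ESpec

/-! The determinant is not a relative coboundary. -/

namespace Pool.Agent.MP_ee8c61_ag.H95T

open H59 H59.Sys Finset

namespace PrX

variable {J : Type} [LinearOrder J] {k : ℕ}

/-- The determinant of the vectors `P i`, `i ∈ t`. -/
noncomputable def dv (P : J → Fin (k + 1) → ℂ) (t : Finset J) : ℂ :=
  ap (fun i => we (P i)) t (vac (k + 1) 1) univ

theorem laplace (hA : Ap J (Fm (k + 1) ℂ)) (hF : Fo ℂ (k + 1)) (P : J → Fin (k + 1) → ℂ)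
    (t : Finset J) (h : ∀ i ∈ t, P i 0 = 1) :
    ∑ i ∈ t, sgn i t • Dt P (t.erase i) = dv P t := by
  have hc := hF.co_single 0
  have h1 := hA.der (fun i => we (P i)) (io 0) 1 (fun _ => ⊤) ⊥ t 0 (vac (k + 1) 1)
    (fun i _ => Commute.one_left _) (fun i _ j x _ => trivial)
    (fun i _ j x hx => by
      rw [mem_lat_bot] at hx ⊢
      rw [hx, map_zero])
    (fun i hi j y _ => by
      rw [mem_lat_bot]
      have h2 := DFunLike.congr_fun (hF.we_co (P i) (Pi.single 0 1)) y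
      rw [hc, single_one_dotProduct, h i hi, map_one] at h2
      rw [← h2, op_add, op_mul, op_mul, add_comm (io 0 _), sub_self])
    trivial (by rw [← hc]; exact hF.co_vac _ _)
  rw [mem_lat_bot, sub_eq_zero] at h1
  have h3 := congrFun h1 (univ.erase 0)
  rw [io_apply, if_neg (by simp), insert_erase (mem_univ _), Finset.sum_apply] at h3
  have h4 : sgn (0 : Fin (k + 1)) (univ.erase 0) = 1 := by
    simp [sgn]
  rw [h4, one_smul] at h3
  rw [dv, h3]
  rfl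

omit [LinearOrder J] in
theorem scale_list (hF : Fo ℂ (k + 1)) (P Q : J → Fin (k + 1) → ℂ) (c : J → ℂ)
    (x : Fm (k + 1) ℂ) : ∀ l : List J, (∀ i ∈ l, P i = c i • Q i) →
    (l.map fun i => we (P i)).prod x = (l.map c).prod • (l.map fun i => we (Q i)).prod x
  | [], _ => by simp
  | i :: l, h => by
    rw [List.map_cons, List.map_cons, List.map_cons, List.prod_cons, List.prod_cons,
      List.prod_cons, op_mul, op_mul, scale_list hF P Q c x l fun j hj => h j (by simp [hj]),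
      h i (by simp), hF.we_smul, op_mul, mu_apply, hF.lin_we, mul_smul]

theorem scale (hF : Fo ℂ (k + 1)) (P Q : J → Fin (k + 1) → ℂ) (c : J → ℂ) (t : Finset J)
    (h : ∀ i ∈ t, P i = c i • Q i) : dv P t = (∏ i ∈ t, c i) * dv Q t := by
  have h1 := scale_list hF P Q c (vac (k + 1) 1) (t.sort (· ≤ ·))
    fun i hi => h i ((mem_sort _).1 hi)
  have h2 : ((t.sort (· ≤ ·)).map c).prod = ∏ i ∈ t, c i := by
    rw [((sort_perm_toList t (· ≤ ·)).map c).prod_eq, prod_map_toList]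
  rw [dv, dv, ap, ap, h1, h2]
  rfl

theorem bal (hA : Ap J (Fm (k + 1) ℂ)) (hF : Fo ℂ (k + 1)) (U : J → Fin (k + 1) → ℂ)
    (ρ Λ : Finset J) (hΛ : ∀ i ∈ Λ, i ∉ ρ) (h : ∑ i ∈ Λ, U i ∈ Submodule.span ℂ (U '' ρ)) :
    ∑ i ∈ Λ, sgn i ρ • dv U (insert i ρ) = 0 := by
  have hi := hA.ins (fun i => we (U i)) (fun i j => hF.we_we _ _) fun i => hF.we_sq _
  have h1 : ∀ u ∈ Submodule.span ℂ (U '' ρ), we u * ap (fun i => we (U i)) ρ = 0 := by
    intro u hu
    induction hu using Submodule.span_induction with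
    | mem u hu =>
      obtain ⟨i, hi', rfl⟩ := hu
      rw [hi, if_pos (mem_coe.1 hi')]
    | zero =>
      have := hF.we_smul 0 0
      rw [smul_zero, map_zero, zero_mul] at this
      rw [this, zero_mul]
    | add u u' _ _ h h' => rw [hF.we_add, add_mul, h, h', add_zero]
    | smul g u _ h => rw [hF.we_smul, mul_assoc, h, mul_zero]
  have h2 := h1 _ h
  rw [hF.we_sum, sum_mul, sum_congr rfl fun i hi' => (hi i ρ).trans (if_neg (hΛ i hi'))] at h2
  have h3 := congrFun (DFunLike.congr_fun h2 (vac (k + 1) 1)) univ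
  rw [H59.op_sum, Finset.sum_apply] at h3
  exact h3

theorem ne_zero (hA : Ap J (Fm (k + 1) ℂ)) (hF : Fo ℂ (k + 1)) (U : J → Fin (k + 1) → ℂ)
    (t : Finset J) (hc : t.card = k + 1) (h : LinearIndepOn ℂ U t) : dv U t ≠ 0 := by
  intro h0
  have h1 : ∀ i ∈ t, ∃ β : Fin (k + 1) → ℂ, ∀ j ∈ t, β ⬝ᵥ U j = if i = j then 1 else 0 := by
    intro i hi
    obtain ⟨f, hf, hf'⟩ := Submodule.exists_dual_map_eq_bot_of_notMem
      (h.notMem_span (mem_coe.2 hi)) inferInstance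
    refine ⟨(f (U i))⁻¹ • fun l => f fun j => if l = j then 1 else 0, fun j hj => ?_⟩
    have h2 : (fun l => f fun j => if l = j then 1 else 0) ⬝ᵥ U j = f (U j) := by
      rw [LinearMap.pi_apply_eq_sum_univ f (U j), dotProduct]
      exact sum_congr rfl fun l _ => mul_comm _ _
    rw [smul_dotProduct, h2, smul_eq_mul]
    split_ifs with hij
    · rw [← hij, inv_mul_cancel₀ hf]
    · have h3 : f (U j) ∈ (⊥ : Submodule ℂ ℂ) := hf' ▸ Submodule.mem_map_of_mem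
        (Submodule.subset_span ⟨j, ⟨mem_coe.2 hj, Ne.symm hij⟩, rfl⟩)
      rw [(Submodule.mem_bot ℂ).1 h3, mul_zero]
  choose! β hβ using h1
  have h2 := hA.maps (fun i => we (U i)) (fl (k + 1) ⊤) 1 t
    (fun i _ => hF.fl_we ⊤ ⊤ _ fun _ _ _ => trivial) 0 (vac (k + 1) 1)
    ((hF.mem_fl _ _ _).2 ⟨fun _ => trivial, by rw [hF.pd_zero]; simp [vac]⟩)
  rw [hF.mem_fl, zero_add, mul_one, hc, hF.pd_top] at h2
  have h3 := hA.unw (fun i => we (U i)) (fun i => co (β i)) ⊥ t (vac (k + 1) 1)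
    (fun i hi j hj => by
      rw [add_comm (co _ * _), hF.we_co, hβ i hi j hj]
      split_ifs
      · exact map_one _
      · exact map_zero _)
    (fun i _ => hF.co_vac _ _)
    (fun i _ y hy => by
      rw [AddSubgroup.mem_bot] at hy ⊢
      rw [hy, map_zero])
    (by
      rw [AddSubgroup.mem_bot, ← h2.2]
      rw [dv] at h0
      rw [h0, H59.top, Pi.single_zero])
  have h4 := congrFun (AddSubgroup.mem_bot.1 h3) ∅
  simp [vac] at h4

open Classical in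
theorem swap {ι : Type} (lb : ι → J → Prop) (W : Finset J) (F : Finset J → J → ℂ) :
    ∑ τ ∈ (W.powersetCard (k + 1)).filter (Al lb), ∑ i ∈ τ, F τ i =
      ∑ ρ ∈ W.powersetCard k, ∑ i ∈ W.filter fun i => i ∉ ρ ∧ ∃ c, lb c i ∧ ∀ j ∈ ρ, lb c j,
        F (insert i ρ) i := by
  rw [sum_sigma', sum_sigma']
  refine sum_bij' (fun x _ => ⟨x.1.erase x.2, x.2⟩) (fun x _ => ⟨insert x.2 x.1, x.2⟩)
    ?_ ?_ ?_ ?_ ?_
  · rintro ⟨τ, i⟩ hx
    simp only [mem_sigma, mem_filter, mem_powersetCard] at hx ⊢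
    obtain ⟨⟨⟨h1, h2⟩, c, h3⟩, h4⟩ := hx
    exact ⟨⟨(erase_subset _ _).trans h1, by rw [card_erase_of_mem h4, h2]; rfl⟩, h1 h4,
      notMem_erase _ _, c, h3 i h4, fun j hj => h3 j (mem_of_mem_erase hj)⟩
  · rintro ⟨ρ, i⟩ hx
    simp only [mem_sigma, mem_filter, mem_powersetCard] at hx ⊢
    obtain ⟨⟨h1, h2⟩, h3, h4, c, h5, h6⟩ := hx
    exact ⟨⟨⟨insert_subset h3 h1, by rw [card_insert_of_notMem h4, h2]⟩, c,
      forall_mem_insert .. |>.2 ⟨h5, h6⟩⟩, mem_insert_self _ _⟩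
  · rintro ⟨τ, i⟩ hx
    simp only [mem_sigma] at hx
    simp only [insert_erase hx.2]
  · rintro ⟨ρ, i⟩ hx
    simp only [mem_sigma, mem_filter] at hx
    simp only [erase_insert hx.2.2.1]
  · rintro ⟨τ, i⟩ hx
    simp only [mem_sigma] at hx
    simp only [insert_erase hx.2]

end PrX

open PrX Classical in
theorem rowPr : OfPr := by
  intro e ι J _ lb W B k U a w c hC ha hc hw0 hwB H
  have hA := e.ap J (Fm (k + 1) ℂ)
  have hF := e.fo ℂ (k + 1)
  set P : J → Fin (k + 1) → ℂ := fun j => (a j : ℂ)⁻¹ • U j with hP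
  set T := (W.powersetCard (k + 1)).filter (Al lb) with hT
  have hT' : ∀ τ ∈ T, τ ⊆ W ∧ Al lb τ ∧ τ.card = k + 1 := fun τ h => by
    rw [hT, mem_filter, mem_powersetCard] at h
    exact ⟨h.1.1, h.2, h.1.2⟩
  have ha' : ∀ i ∈ W, (a i : ℂ) ≠ 0 := fun i hi => Nat.cast_ne_zero.2 (ha i hi).1
  have h1 : ∀ τ ⊆ W, dv U τ = (∏ i ∈ τ, (a i : ℂ)) * dv P τ := fun τ h =>
    scale hF U P _ τ fun i hi => by rw [hP, smul_inv_smul₀ (ha' i (h hi))]
  have h2 : ∑ τ ∈ T, c * dv P τ * (starRingEnd ℂ) (dv U τ) =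
      ∑ τ ∈ T, ∑ i ∈ τ, w (τ.erase i) * (starRingEnd ℂ) (sgn i τ • dv U τ) := by
    refine sum_congr rfl fun τ h => ?_
    obtain ⟨g1, g2, g3⟩ := hT' τ h
    rw [← laplace hA hF P τ fun i hi => by
      show (a i : ℂ)⁻¹ * U i 0 = 1
      rw [(ha i (g1 hi)).2, inv_mul_cancel₀ (ha' i (g1 hi))],
      H τ g1 g2 g3, sum_mul]
    refine sum_congr rfl fun i _ => ?_
    rw [map_zsmul, smul_mul_assoc, mul_smul_comm]
  have h3 : ∑ τ ∈ T, ∑ i ∈ τ, w (τ.erase i) * (starRingEnd ℂ) (sgn i τ • dv U τ) = 0 := by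
    rw [hT, swap lb W fun τ i => w (τ.erase i) * (starRingEnd ℂ) (sgn i τ • dv U τ)]
    refine sum_eq_zero fun ρ hρ => ?_
    rw [mem_powersetCard] at hρ
    rw [sum_congr rfl fun i hi => by rw [erase_insert (mem_filter.1 hi).2.1, sgn_insert],
      ← mul_sum, ← map_sum]
    by_cases g1 : Al lb ρ
    · by_cases g2 : w ρ = 0
      · rw [g2, zero_mul]
      · rw [bal hA hF U ρ _ (fun i hi => (mem_filter.1 hi).2.1) (hC.bal ρ hρ.1
          (nonempty_iff_ne_empty.2 fun h => g2 (h ▸ hw0)) hρ.2 g1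
          (fun V hV h => g2 (hwB V hV ρ h g1)) _ fun i => mem_filter), map_zero, mul_zero]
    · rw [sum_eq_zero fun i hi => absurd ((mem_filter.1 hi).2.2.imp fun c h => h.2) g1, map_zero,
        mul_zero]
  have h4 : ∑ τ ∈ T, c * dv P τ * (starRingEnd ℂ) (dv U τ) =
      c * ((∑ τ ∈ T, (∏ i ∈ τ, (a i : ℝ)) * Complex.normSq (dv P τ) : ℝ) : ℂ) := by
    rw [Complex.ofReal_sum, mul_sum]
    refine sum_congr rfl fun τ h => ?_
    rw [h1 τ (hT' τ h).1, map_mul, map_prod, Complex.ofReal_mul, ← Complex.mul_conj,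
      Complex.ofReal_prod]
    simp only [map_natCast, Complex.ofReal_natCast]
    ring
  obtain ⟨τ, g1, g2, g3, g4⟩ := hC.ex
  have h5 : 0 < ∑ τ ∈ T, (∏ i ∈ τ, (a i : ℝ)) * Complex.normSq (dv P τ) := by
    refine sum_pos' (fun τ _ => mul_nonneg (prod_nonneg fun i _ => Nat.cast_nonneg _)
      (Complex.normSq_nonneg _)) ⟨τ, ?_, mul_pos (prod_pos fun i hi =>
        Nat.cast_pos.2 (Nat.pos_of_ne_zero (ha i (g1 hi)).1)) (Complex.normSq_pos.2 fun h => ?_)⟩
    · rw [hT, mem_filter, mem_powersetCard]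
      exact ⟨⟨g1, g3⟩, g2⟩
    · exact ne_zero hA hF U τ g3 g4 (by rw [h1 τ g1, h, mul_zero])
  exact mul_ne_zero hc (Complex.ofReal_ne_zero.2 h5.ne') (by rw [← h4, h2, h3])

end Pool.Agent.MP_ee8c61_ag.H95T
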