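import Pool.Agent.MP_ee8c61_ag.H95T.ESpec
import Pool.Agent.MP_ee8c61_ag.H59.RMain0
import Pool.Agent.MP_ee8c61_ag.H59.RNon

/-! The functional on the lattices of the strata. -/

namespace Pool.Agent.MP_ee8c61_ag.H95T

open H59 H59.Sys Finset

namespace PsX

theorem off {Ω : Type} [CommRing Ω] {n : ℕ} {p : ℤ} {w : Fm n Ω} (h : pd n p w = w)
    (hp : p ≠ n) : w univ = 0 := by
  rw [← h, pd, evs_apply, if_neg (by simpa using hp.symm), op_zero]

theorem mon_eq {Ω ι J : Type} {n : ℕ} [CommRing Ω] [Algebra ℂ Ω] [Fintype J]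
    (S : Sys ℂ Ω ι J n) (kk : J → ℕ) (c0 : J → ℤ) (c : ι)
    (h : ∀ j, Lb S c j → c0 j = kk j + 1) :
    (∏ j, S.η c j) * S.mon c (fun j => (kk j : ℤ)) = S.mon c c0 := by
  rw [mon, mon, ← prod_mul_distrib]
  refine prod_congr rfl fun j _ => ?_
  by_cases e : S.lab c j = none
  · simp [S.η_none c j e]
  · rw [h j e, zpow_add_one, mul_comm]

end PsX

open PsX in
theorem rowPs : OfPs := by
  intro e Ω ι J n k _ _ _ _ _ _ S kk c0 W g u hD hO hc
  have hF := e.fr _ _ _ _ _ S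
  have hL := e.lo _ _ _ _ _ S
  have hM := e.lm _ _ _ _ _ S
  have hO' := e.fo Ω n
  have hk : ((univ : Finset (Fin (k + 1))).erase 0).card = k := by simp
  refine ⟨fun p ζ h1 h2 => ?_, fun τ hτ σ hσ p ζ hζ => ?_⟩
  · have := Main0X.weight (e.ap (Fin (k + 1)) _) (pd n) (fun l => we (dl S (g l)))
      (fun l w => hO'.pd_we _ w) (univ.erase 0) p ζ h1
    rw [hk] at this
    exact off this h2
  rcases σ.eq_empty_or_nonempty with rfl | ⟨c, hcσ⟩
  · rw [hM.emp, mem_lat_bot] at hζ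
    rw [ps, hζ, map_zero]
    exact zero_mem _
  have hlog : ∀ l, S.LogF σ (dl S (g l)) := fun l => hM.logF_all _ (fun a i => by
    obtain ⟨h, h1, h2⟩ := (e.th Ω ι J n 0 S Fin.elim0 (g l) (u l) (fun _ l => l.elim0)
      (hO l)).dlog a i
    have h3 : S.v a i ⬝ᵥ dl S (g l) = (((g l)⁻¹ : Ωˣ) : Ω) * S.dv a i (g l) := by
      rw [← hF.dv_gr, ← smul_eq_mul, ← dotProduct_smul]
      rfl
    rw [h3, h2]
    exact add_mem (natCast_mem _ _) (mul_mem (hF.un_mem a i) h1)) σ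
  have h1 := (e.ap (Fin (k + 1)) _).maps (fun l => we (dl S (g l))) (S.lm (KJ c0 τ) σ) 1
    (univ.erase 0) (fun l _ => hM.we _ _ _ (hlog l)) p ζ hζ
  rw [ps]
  generalize ap (fun l => we (dl S (g l))) (univ.erase 0) ζ = w at h1 ⊢
  generalize p + _ = q at h1
  have h2 := hM.pure _ _ _ _ h1
  by_cases hq : q = n
  swap
  · rw [off h2 hq]
    exact zero_mem _
  subst hq
  rw [hO'.pd_top] at h2
  have h3 := ((hO'.mem_fl _ _ _).1 ((hM.mem _ σ c hcσ _ _).1 h1)).1 univ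
  obtain ⟨U, hU, hU2⟩ := hD c
  rw [← h2, crd, e.det, top, Pi.single_eq_same, NonX.det_v S hF, hU2, ← Units.val_mul,
    mul_left_comm, mon_eq S kk c0 c (hc c), hL.mem_KJ] at h3
  obtain ⟨h, h4, h5⟩ := h3
  have h6 : w univ = ∑ i ∈ τ, (S.η c i : Ω) * (((U⁻¹ : Ωˣ) : Ω) * h i) := by
    rw [mul_comm U, Units.val_mul, mul_assoc, Units.mul_right_inj] at h5
    rw [← Units.inv_mul_cancel_left U (w univ), h5, mul_sum]
    exact sum_congr rfl fun i _ => mul_left_comm _ _ _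
  rw [h6]
  exact Submodule.sum_mem _ fun i hi => Submodule.subset_span ⟨σ, c, i, _, hcσ, hτ hi,
    fun c' hc' => hσ c' hc' i hi, mul_mem (hL.le σ c hcσ hU.2) (h4 i), rfl⟩

end Pool.Agent.MP_ee8c61_ag.H95T
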