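import Pool.Agent.MP_ee8c61_ag.H95T.ESpec

/-! The functional on the contractions of the top form. -/

namespace Pool.Agent.MP_ee8c61_ag.H95T

open H59 H59.Sys Finset

namespace PvX

section

variable {ι G : Type} [LinearOrder ι] [AddCommGroup G]

theorem nm {a : ι} {s : Finset ι} (h : ∀ x ∈ s, a < x) : a ∉ s := fun k => lt_irrefl _ (h a k)

theorem ap_ins (E : ι → Op G) {a : ι} {s : Finset ι} (h : ∀ x ∈ s, a < x) :
    ap E (insert a s) = E a * ap E s := by
  rw [ap, sort_insert _ (fun b hb => (h b hb).le) (nm h), List.map_cons, List.prod_cons, ap]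

theorem sgn_min {a : ι} {s : Finset ι} (h : ∀ x ∈ s, a < x) : sgn a s = 1 := by
  rw [sgn, filter_eq_empty_iff.2 fun x hx => (h x hx).not_gt]
  simp

theorem sgn_ins {a j : ι} {s : Finset ι} (h : a < j) (ha : a ∉ s) :
    sgn j (insert a s) = -sgn j s := by
  rw [sgn, sgn, filter_insert, if_pos h, card_insert_of_notMem fun k => ha (mem_filter.1 k).1,
    pow_succ, mul_neg_one]

/-- An odd derivation acting on an ordered product. -/
theorem der (E t : ι → Op G) (D : Op G) (h : ∀ i x, E i (D x) + D (E i x) = t i x)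
    (hc : ∀ i j x, t i (E j x) = E j (t i x)) (s : Finset ι) (x : G) :
    D (ap E s x) = ∑ i ∈ s, sgn i s • t i (ap E (s.erase i) x) +
      (-1 : ℤ) ^ s.card • ap E s (D x) := by
  induction s using Finset.induction_on_min with
  | empty => simp [ap]
  | insert a s ha ih =>
    have e : ∑ i ∈ s, sgn i (insert a s) • t i (ap E ((insert a s).erase i) x)
        = -E a (∑ i ∈ s, sgn i s • t i (ap E (s.erase i) x)) := by
      rw [map_sum, ← sum_neg_distrib]
      refine sum_congr rfl fun i hi => ?_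
      rw [sgn_ins (ha i hi) (nm ha), erase_insert_of_ne (ha i hi).ne,
        ap_ins E fun y hy => ha y (mem_of_mem_erase hy), op_mul, hc, map_zsmul, neg_smul]
    rw [sum_insert (nm ha), e, erase_insert (nm ha), sgn_insert, sgn_min ha, one_smul, ap_ins E ha,
      op_mul, op_mul, card_insert_of_notMem (nm ha), eq_sub_of_add_eq' (h a _), ih, map_add,
      map_zsmul, pow_succ, mul_neg_one, neg_smul]
    abel

end

/-- The signs. -/
def ep0 : ℕ → ℤ
  | 0 => 1
  | r + 1 => (-1) ^ (r + 1) * ep0 r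

theorem ep0_sq (r : ℕ) : ep0 r * ep0 r = 1 := by
  induction r with
  | zero => rfl
  | succ r ih => rw [ep0, mul_mul_mul_comm, ih, ← mul_pow]; simp

section

variable {Ω : Type} [CommRing Ω] {n m : ℕ}

theorem we_apply (p : Fin m → Ω) (w : Fm m Ω) (s : Finset (Fin m)) :
    we p w s = ∑ l ∈ s, sgn l s • (p l * w (s.erase l)) := by
  rw [we, H59.op_sum, Finset.sum_apply, ← sum_subset (subset_univ s) fun l _ hl => by
    simp [ep_apply, hl]]
  exact sum_congr rfl fun l hl => by simp [ep_apply, hl, mul_left_comm]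

theorem co_univ (v : Fin n → Ω) (w : Fm n Ω) : co v w univ = 0 := by
  rw [co, H59.op_sum, Finset.sum_apply]
  exact sum_eq_zero fun l _ => by simp [io_apply]

/-- The top coefficients of the wedge products with the forms `al l`. -/
def Th (al : Fin m → Fin n → Ω) : Fm n Ω →+ Fm m Ω :=
  AddMonoidHom.mk' (fun w s => ep0 s.card • ap (fun l => we (al l)) s w univ) fun w w' => by
    funext s
    simp

theorem Th_apply (al : Fin m → Fin n → Ω) (w : Fm n Ω) (s : Finset (Fin m)) :
    Th al w s = ep0 s.card • ap (fun l => we (al l)) s w univ := rfl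

theorem Th_top (hO : Fo Ω n) (al : Fin m → Fin n → Ω) : Th al (top n 1) = vac m 1 := by
  funext s
  rw [Th_apply]
  induction s using Finset.induction_on_max with
  | empty => simp [ap, ep0, top, vac]
  | insert a s ha _ =>
    have e : ap (fun l => we (al l)) (insert a s) (top n 1) = 0 := by
      have : (insert a s).sort (· ≤ ·) = s.sort (· ≤ ·) ++ [a] := by
        refine List.Perm.eq_of_pairwise' (pairwise_sort _ _) ?_ ?_
        · refine List.pairwise_append.2 ⟨pairwise_sort _ _, List.pairwise_singleton _ _, ?_⟩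
          intro x hx y hy
          rw [List.mem_singleton.1 hy]
          exact (ha x ((mem_sort _).1 hx)).le
        · refine (sort_perm_toList _ _).trans ((toList_insert fun c => lt_irrefl _ (ha a c)).trans ?_)
          exact ((sort_perm_toList _ _).symm.cons a).trans (List.perm_append_singleton _ _).symm
      rw [ap, this, List.map_append, List.prod_append, op_mul]
      simp [hO.we_top]
    rw [e, vac, Pi.single_eq_of_ne (insert_ne_empty _ _)]
    simp

theorem Th_co (hA : SAp) (hO : Fo Ω n) (al : Fin m → Fin n → Ω) (c : Ω) (v : Fin n → Ω)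
    (w : Fm n Ω) : Th al (-(c • co v w)) = we (fun l => c * (v ⬝ᵥ al l)) (Th al w) := by
  funext s
  have h1 := congrFun (der (fun l => we (al l)) (fun l => mu _ (v ⬝ᵥ al l)) (co v)
    (fun i x => DFunLike.congr_fun (hO.we_co (al i) v) x)
    (fun i j x => (hO.lin_we (al j) _ x).symm) s w) univ
  have h2 := (hA (Fin m) _).map _ (mu (Fm n Ω) c) (fun l => we (al l)) (fun l => we (al l)) s
    (fun i _ x => (hO.lin_we (al i) c x).symm) (co v w)
  change c • _ = ap _ s (c • co v w) at h2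
  rw [co_univ, Pi.add_apply, Finset.sum_apply] at h1
  rw [we_apply, Th_apply, map_neg, ← h2]
  rcases s.eq_empty_or_nonempty with rfl | hs
  · simp [ap, co_univ]
  · obtain ⟨r, hr⟩ : ∃ r, s.card = r + 1 := ⟨s.card - 1, by have := card_pos.2 hs; omega⟩
    have h3 : ∑ l ∈ s, sgn l s • (c * (v ⬝ᵥ al l) * Th al w (s.erase l)) =
        (ep0 r : Ω) * c * ∑ l ∈ s, (sgn l s • mu (Fm n Ω) (v ⬝ᵥ al l)
          (ap (fun l => we (al l)) (s.erase l) w)) univ := by
      rw [mul_sum]
      refine sum_congr rfl fun l hl => ?_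
      rw [Th_apply, card_erase_of_mem hl, hr, Nat.add_sub_cancel]
      simp only [mu_apply, Pi.smul_apply, smul_eq_mul, zsmul_eq_mul]
      ring
    rw [h3, eq_neg_of_add_eq_zero_left h1.symm, hr, ep0]
    simp only [Pi.smul_apply, Pi.neg_apply, smul_eq_mul, zsmul_eq_mul]
    push_cast
    ring

theorem map_minor (hA : SAp) (hO : SFo) {J R R' : Type} [LinearOrder J] [CommRing R] [CommRing R']
    (φ : R →+* R') (p : J → Fin m → R) (p' : J → Fin m → R') (ρ : Finset J)
    (h : ∀ i ∈ ρ, ∀ l, φ (p i l) = p' i l) (s : Finset (Fin m)) :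
    φ (ap (fun i => we (p i)) ρ (vac m 1) s) = ap (fun i => we (p' i)) ρ (vac m 1) s := by
  have h1 := (hA J _).map _ (up (φ : R →+ R')) (fun i => we (p i)) (fun i => we (p' i)) ρ
    (fun i hi => (hO R m).up_we R' φ _ _ fun l g => by simp [h i hi l]) (vac m 1)
  have h2 : up (φ : R →+ R') (vac m 1) = vac m 1 := by
    funext σ
    by_cases e : σ = ∅ <;> simp [vac, e]
  rw [h2] at h1
  exact congrFun h1 s

end

end PvX

open PvX in
theorem rowPv : OfPv := by
  intro e Ω ι J n k _ _ _ _ _ _ _ S a W g u hord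
  have hε : ((ep0 k : ℤ) : ℂ) ≠ 0 := by
    exact_mod_cast left_ne_zero_of_mul_eq_one (ep0_sq k)
  refine ⟨(ep0 k : ℤ), hε, fun c ρ hW hk hl => ?_⟩
  have hF := e.fr _ _ _ _ _ S
  have hL := e.lo _ _ _ _ _ S
  have hO := e.fo Ω n
  let φ : Ch ι (Fm n Ω) →+ Fm (k + 1) Ω :=
    (Th fun l => dl S (g l)).comp (Pi.evalAddMonoidHom (fun _ : Finset ι => Fm n Ω) {c})
  have hφ : ∀ γ, φ γ = Th (fun l => dl S (g l)) (γ {c}) := fun _ => rfl
  have h1 := (e.ap J _).map _ φ (Hs S a) (fun i => we fun l =>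
      algebraMap ℂ Ω (a i : ℂ)⁻¹ * (S.vv c i ⬝ᵥ dl S (g l))) ρ (fun i _ γ => by
    have e1 : Hs S a i γ {c} = -(algebraMap ℂ Ω (a i : ℂ)⁻¹ • co (S.vv c i) (γ {c})) := by
      change algebraMap ℂ Ω (a i : ℂ)⁻¹ • (S.hh i γ {c}) = _
      rw [hh, ods_apply, pick_single]
      simp
    rw [hφ, hφ, e1, Th_co e.ap hO]) (om ι n Ω)
  rw [hφ (om ι n Ω), om, if_pos (card_singleton _), Th_top hO, hφ] at h1
  have h2 := congrFun h1 (univ.erase 0)
  rw [Th_apply, card_erase_of_mem (mem_univ _), card_fin, Nat.add_sub_cancel] at h2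
  have h3 : ∀ i l, ∃ h : S.A c, i ∈ ρ → S.vv c i ⬝ᵥ dl S (g l) = u l i + S.η c i * h := by
    intro i l
    by_cases hi : i ∈ ρ
    · obtain ⟨l0, hl0⟩ := Option.ne_none_iff_exists'.1 (hl i hi)
      obtain ⟨h, hh, hd⟩ := (e.th Ω ι J n 0 S Fin.elim0 (g l) (u l) (fun _ l => l.elim0)
        (hord l)).dlog c l0
      refine ⟨⟨h, hh⟩, fun _ => ?_⟩
      rw [sum_eq_single i (fun j _ hj => if_neg fun c' => hj (S.lab_inj c j i l0 c' hl0))
        (fun c' => absurd (mem_univ _) c'), if_pos hl0, hF.un_some c i l0 hl0, ← hF.dv_gr] at hd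
      rw [vv, hl0, Option.elim_some, ← hd, ← smul_eq_mul, ← dotProduct_smul]
      rfl
    · exact ⟨0, fun c' => absurd c' hi⟩
  choose h hh using h3
  let I : Ideal (S.A c) :=
    { carrier := {x | ∀ y : S.A c, ((y * x : S.A c) : Ω) ∈ NS S W}
      add_mem' := fun hx hy z => by
        rw [mul_add, Subalgebra.coe_add]
        exact add_mem (hx z) (hy z)
      zero_mem' := fun z => by
        rw [mul_zero, Subalgebra.coe_zero]
        exact zero_mem _
      smul_mem' := fun b x hx z => by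
        rw [smul_eq_mul, ← mul_assoc]
        exact hx _ }
  have hη : ∀ i ∈ ρ, (⟨S.η c i, hF.eta_mem c i⟩ : S.A c) ∈ I := fun i hi y =>
    Submodule.subset_span ⟨{c}, c, i, y, mem_singleton_self _, hW hi,
      fun c' hc' => mem_singleton.1 hc' ▸ hl i hi, by rw [hL.single]; exact y.2, mul_comm _ _⟩
  let p : J → Fin (k + 1) → S.A c := fun i l =>
    algebraMap ℂ _ (a i : ℂ)⁻¹ * (u l i + ⟨S.η c i, hF.eta_mem c i⟩ * h i l)
  have h4 := map_minor e.ap e.fo (S.A c).val.toRingHom p (fun i l =>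
      algebraMap ℂ Ω (a i : ℂ)⁻¹ * (S.vv c i ⬝ᵥ dl S (g l))) ρ (fun i hi l => by
    rw [hh i l hi]
    simp [p]) (univ.erase 0)
  have h5 := map_minor e.ap e.fo (Ideal.Quotient.mk I) p _ ρ (fun _ _ _ => rfl) (univ.erase 0)
  have h6 := map_minor e.ap e.fo ((Ideal.Quotient.mk I).comp (algebraMap ℂ (S.A c)))
    (fun j => (a j : ℂ)⁻¹ • fun l => (u l j : ℂ)) (fun i l => Ideal.Quotient.mk I (p i l)) ρ
    (fun i hi l => by
      simp only [p, map_mul, map_add, Ideal.Quotient.eq_zero_iff_mem.2 (hη i hi)]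
      simp) (univ.erase 0)
  have h7 := Ideal.Quotient.eq.1 (h5.trans h6.symm) 1
  have h8 := (NS S W).smul_mem ((ep0 k : ℤ) : ℂ) h7
  rw [one_mul, Subalgebra.coe_sub, smul_sub] at h8
  convert h8 using 2
  · have h9 := h4.trans h2.symm
    change ((_ : S.A c) : Ω) = _ at h9
    rw [h9, Int.cast_smul_eq_zsmul, smul_smul, ep0_sq, one_smul, ps]
  · rw [map_mul, Algebra.smul_def]
    rfl

end Pool.Agent.MP_ee8c61_ag.H95T
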