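import Pool.Agent.MP_ee8c61_ag.H95T.ASpec

/-! Strict transforms in a monomial chart. -/

namespace Pool.Agent.MP_ee8c61_ag.H95T

open H95 Finset MvPolynomial

namespace RdX

variable {n : ℕ} {E : Type} [DecidableEq E] (L : Fin n → Finset E) (Λ : Finset (Fin n))
  (G : Finset E)

/-- The polynomials whose total transform is divisible by the monomial of the layer. -/
def U : Submodule ℂ (Pol (Fin n)) where
  carrier := {w | ∃ u, ev (cmon L Λ) w = lmon L Λ G * u ∧
    ∀ x, (∀ p ∈ Λ, x p = 0) → eval x u = eval x (ev (thv L Λ G) w)}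
  zero_mem' := ⟨0, by simp, by simp⟩
  add_mem' := by
    rintro a b ⟨u, h, k⟩ ⟨u', h', k'⟩
    exact ⟨u + u', by rw [map_add, h, h', mul_add], fun x hx => by
      rw [map_add, map_add, map_add, k x hx, k' x hx]⟩
  smul_mem' := by
    rintro c a ⟨u, h, k⟩
    exact ⟨c • u, by rw [map_smul, h, mul_smul_comm], fun x hx => by
      rw [smul_eval, map_smul, smul_eval, k x hx]⟩

variable {L Λ G} [Fintype E] {τ : Finset (Finset E)}

theorem X_mem (M : MuOK τ L Λ) (lm : ∀ q, L q ∈ τ ∨ L q = univ) (hb : Set.BijOn L Λ τ) {q : Fin n}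
    (h : L q ⊆ G) : X q ∈ U L Λ G := by
  by_cases e : L q = G
  · by_cases k : q ∈ Λ
    · exact ⟨1, by rw [aeval_X, M.piv q k, e, mul_one], fun x _ => by simp [thv, e, k]⟩
    · exact ⟨X q, by rw [aeval_X, M.non q k, e, mul_comm], fun x _ => by simp [thv, e, k]⟩
  have s := h.ssubset_of_ne e
  obtain ⟨p, hp, e'⟩ := hb.surjOn ((lm q).resolve_right fun k => (k ▸ s).not_subset (subset_univ _))
  obtain ⟨c, hc⟩ := M.step p hp G (e' ▸ s)
  rw [e'] at hc
  by_cases k : q ∈ Λ
  · exact ⟨X p * c, by rw [aeval_X, M.piv q k, hc]; ring, fun x hx => by simp [thv, e, hx p hp]⟩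
  · exact ⟨X p * c * X q, by rw [aeval_X, M.non q k, hc]; ring,
      fun x hx => by simp [thv, e, hx p hp]⟩

end RdX

open RdX

theorem rowRd : OfRd := by
  intro hM n E _ _ A τ y aff L Λ P
  have M := hM E n τ L Λ P.ch.1 P.ch.univ P.bij
  have key : ∀ j, A.VS (lay τ j) ≤ (U L Λ (lay τ j)).comap (ev aff).toLinearMap := fun j => by
    rcases lay_cases P.ch.1 j with h | h
    · rw [P.ad.sp _ h, Submodule.span_le]
      rintro _ ⟨q, hq, rfl⟩
      exact (congrArg (· ∈ _) (congrFun P.ad.ya q)).mpr (X_mem M P.ad.lm P.bij hq)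
    · have w : Wi n ≤ U L Λ univ := Submodule.span_le.2 (by
        rintro _ (rfl | ⟨q, rfl⟩)
        · exact ⟨1, by simp [M.univ], by simp⟩
        · exact X_mem M P.ad.lm P.bij (subset_univ _))
      rw [h, A.VS_univ, Wi, Submodule.span_le]
      rintro _ (rfl | ⟨q, rfl⟩)
      · exact w ((map_one (ev aff)).symm ▸ one_mem_Wi n)
      · exact w (by simpa using P.ad.am q)
  have k1 : ∀ j, ∀ v ∈ A.VS (lay τ j), ∃ u, ev (ap aff (cmon L Λ)) v = lmon L Λ (lay τ j) * u ∧
      ∀ x, (∀ p ∈ Λ, x p = 0) → eval x u = eval x (rdc aff L Λ (lay τ j) v) := fun j v hv => by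
    rw [ev_ap]
    exact key j hv
  refine ⟨k1, fun p hp => ?_⟩
  rw [← Ideal.mem_span_singleton, ← Ideal.prod_span_singleton]
  have : A.I.map (ev (ap aff (cmon L Λ))).toRingHom ≤ ∏ j, Ideal.span {lmon L Λ (lay τ j)} := by
    rw [Arr.I, ← Ideal.mapHom_apply, map_prod]
    refine Finset.prod_le_prod' fun j _ => ?_
    rw [Ideal.mapHom_apply, Ideal.map_le_iff_le_comap, Ideal.span_le]
    exact fun v hv => Ideal.mem_span_singleton.2 ((k1 j v (A.le_VS self_lay hv)).imp fun _ h => h.1)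
  exact this (Ideal.mem_map_of_mem _ hp)

end Pool.Agent.MP_ee8c61_ag.H95T
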