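import Pool.Agent.MP_ee8c61_ag.H95T.CSpec

/-! The link of a chain of corank one. -/

namespace Pool.Agent.MP_ee8c61_ag.H95T

open Finset

namespace RgX

variable {E : Type} [DecidableEq E] {W ρ : Finset (Finset E)} {H H' G : Finset E} {j j' : E}

theorem mem_lk : H ∈ lk W ρ ↔ H ∈ W ∧ H ∉ ρ ∧ Chn (insert H ρ) := mem_filter

theorem cmp (hH : H ∈ lk W ρ) (hG : G ∈ ρ) : G ⊂ H ∨ H ⊂ G := by
  obtain ⟨-, h1, h2⟩ := mem_lk.1 hH
  have h3 : G ≠ H := fun e => h1 (e ▸ hG)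
  exact (h2 G (mem_insert_of_mem hG) H (mem_insert_self _ _)).imp (·.ssubset_of_ne h3)
    (·.ssubset_of_ne h3.symm)

theorem inc (hρ : ρ ⊆ W) (hb : Bd W (ρ.card + 1)) (hH : H ∈ lk W ρ) (hH' : H' ∈ lk W ρ)
    (hne : H' ≠ H) : ¬H' ⊆ H := fun h => by
  obtain ⟨a1, a2, a3⟩ := mem_lk.1 hH
  obtain ⟨b1, b2, -⟩ := mem_lk.1 hH'
  have := hb (insert H' (insert H ρ)) (insert_subset b1 (insert_subset a1 hρ))
    (chn_insert a3 fun G hG => (mem_insert.1 hG).elim (fun e => .inl (e ▸ h))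
      fun e => ((cmp hH' e).imp (·.subset) (·.subset)).symm)
  rw [card_insert_of_notMem (by simp [hne, b2]), card_insert_of_notMem a2] at this
  omega

variable [Fintype E]

theorem sub (hρ : ρ ⊆ W) (hH : H ∈ lk W ρ) (hj : j ∈ H \ pred ρ H) (hj' : j' ∈ suc ρ H \ H) :
    ρ ⊆ fc W j j' := fun G hG => by
  rw [mem_sdiff] at hj hj'
  refine mem_filter.2 ⟨hρ hG, (cmp hH hG).elim (fun h => iff_of_false (fun e => ?_) fun e => ?_)
    fun h => iff_of_true (h.subset hj.1) (suc_sub hG h hj'.1)⟩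
  exacts [hj.2 (sub_pred hG h e), hj'.2 (h.subset e)]

theorem face (hW : Rng W) (hρ : ρ ⊆ W) (hc : Chn ρ) (hT : ∃ T ∈ W, j ∈ T ∧ j' ∉ T)
    (hf : ρ ⊆ fc W j j') : ∃ H ∈ lk W ρ, j ∈ H \ pred ρ H ∧ j' ∈ suc ρ H \ H := by
  obtain ⟨T, hT, h1, h2⟩ := hT
  have h3 : ∀ G ∈ ρ, j ∈ G ↔ j' ∈ G := fun G hG => (mem_filter.1 (hf hG)).2
  have h4 : j ∈ T ∩ lay ρ j := mem_inter.2 ⟨h1, self_lay⟩
  have h5 : T ∩ lay ρ j ∈ W := by
    rcases lay_cases hc j with e | e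
    · exact (hW.int T hT _ (hρ e)).resolve_left (ne_empty_of_mem h4)
    · rwa [e, inter_univ]
  have h6 : T ∩ lay ρ j ∪ tp (ρ.filter (j ∉ ·)) ∈ W := by
    rcases (ρ.filter (j ∉ ·)).eq_empty_or_nonempty with e | e
    · rwa [e, tp, sup_empty, bot_eq_empty, union_empty]
    · exact hW.un _ h5 _ (hρ (filter_subset _ _ (tp_mem (hc.mono (filter_subset _ _)) e)))
  have h7 : j' ∉ T ∩ lay ρ j ∪ tp (ρ.filter (j ∉ ·)) := fun e => by
    rcases mem_union.1 e with e | e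
    · exact h2 (mem_inter.1 e).1
    · obtain ⟨G, a, b⟩ := mem_tp.1 e
      exact (mem_filter.1 a).2 ((h3 G (mem_filter.1 a).1).2 b)
  have h8 : j ∈ T ∩ lay ρ j ∪ tp (ρ.filter (j ∉ ·)) := mem_union_left _ h4
  refine ⟨_, mem_lk.2 ⟨h6, fun e => h7 ((h3 _ e).1 h8), chn_insert hc fun G hG => ?_⟩,
    mem_sdiff.2 ⟨h8, fun e => ?_⟩,
    mem_sdiff.2 ⟨mem_suc.2 fun G hG e => (h3 G hG).1 (e.subset h8), h7⟩⟩
  · by_cases e : j ∈ G
    · refine .inl (union_subset (inter_subset_right.trans ((lay_sub hG).2 e)) fun i hi => ?_)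
      obtain ⟨G', a, b⟩ := mem_tp.1 hi
      exact (hc G' (mem_filter.1 a).1 G hG).resolve_right (fun c => (mem_filter.1 a).2 (c e)) b
    · exact .inr ((sub_tp (mem_filter.2 ⟨hG, e⟩)).trans subset_union_right)
  · obtain ⟨G, a, b, c⟩ := mem_pred.1 e
    exact h7 (b.subset ((h3 G a).1 c))

end RgX

open RgX in
theorem rowRg : OfRg := by
  intro hB E _ _ W ρ hW hρ hc hb
  have cls : ∀ H ∈ lk W ρ, ∀ T ∈ W, (∀ i ∈ H \ pred ρ H, ∀ j ∈ H \ pred ρ H, i ∈ T → j ∈ T) ∧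
      ∀ i ∈ suc ρ H \ H, ∀ j ∈ suc ρ H \ H, i ∈ T → j ∈ T := fun H hH T hT => by
    obtain ⟨a1, a2, a3⟩ := mem_lk.1 hH
    have a4 := insert_subset a1 hρ
    have a5 := ((hB E W hW).1 _ ⟨a4, a3, card_insert_of_notMem a2 ▸ hb⟩ T hT).2
    have a6 := fun j => lay_eq (j := j) a3 (mem_insert_self _ _)
    have a7 := fun j => lay_eq_suc (j := j) a3 (mem_insert_self _ _) fun e => hW.nt (a4 e)
    simp only [pred_insert, suc_insert] at a6 a7
    exact ⟨fun i hi j hj => a5 i j (((a6 i).2 hi).trans ((a6 j).2 hj).symm),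
      fun i hi j hj => a5 i j (((a7 i).2 hi).trans ((a7 j).2 hj).symm)⟩
  have two : ∀ H ∈ lk W ρ, ∀ H' ∈ lk W ρ, H' ≠ H → H' = pred ρ H ∪ (suc ρ H \ H) ∧ suc ρ H ∈ ρ ∧
      pred ρ H' = pred ρ H ∧ suc ρ H' = suc ρ H := fun H hH H' hH' hne => by
    have n1 := inc hρ hb hH hH' hne
    have n2 := inc hρ hb hH' hH hne.symm
    have e1 : pred ρ H' = pred ρ H := congrArg (sup · id) (filter_congr fun G hG =>
      ⟨fun h => (cmp hH hG).resolve_right fun e => n2 (e.trans h).subset,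
        fun h => (cmp hH' hG).resolve_right fun e => n1 (e.trans h).subset⟩)
    have e2 : suc ρ H' = suc ρ H := congrArg (inf · id) (filter_congr fun G hG =>
      ⟨fun h => (cmp hH hG).resolve_left fun e => n1 (h.trans e).subset,
        fun h => (cmp hH' hG).resolve_left fun e => n2 (h.trans e).subset⟩)
    have s1 : pred ρ H ⊆ H' := e1 ▸ pred_sub
    have s2 : H' ⊆ suc ρ H := e2 ▸ sub_suc
    obtain ⟨a, a1, a2⟩ := not_subset.1 n1
    obtain ⟨b, b1, b2⟩ := not_subset.1 n2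
    obtain ⟨c1, c2⟩ := cls H hH H' (mem_lk.1 hH').1
    have s3 : suc ρ H \ H ⊆ H' := fun i hi => c2 a (mem_sdiff.2 ⟨s2 a1, a2⟩) i hi a1
    refine ⟨Subset.antisymm (fun i hi => mem_union.2 ?_) (union_subset s1 s3),
      ((suc_mem hc H).resolve_left fun e => hW.nt ?_).1, e1, e2⟩
    · by_cases h : i ∈ H
      · exact .inl (by_contra fun e => b2 (c1 i (mem_sdiff.2 ⟨h, e⟩) b
          (mem_sdiff.2 ⟨b1, fun e => b2 (s1 e)⟩) hi))
      · exact .inr (mem_sdiff.2 ⟨s2 hi, h⟩)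
    · have : H ∪ H' = univ := eq_univ_of_forall fun i => mem_union.2
        ((em (i ∈ H)).imp_right fun h => s3 (mem_sdiff.2 ⟨e ▸ mem_univ _, h⟩))
      exact this ▸ hW.un H (mem_lk.1 hH).1 H' (mem_lk.1 hH').1
  refine ⟨two, fun H hH j hj j' hj' => sub hρ hH hj hj', fun H hH j hj j' hj' =>
    ⟨fun h H' hH' => by_contra fun hne => ?_, fun h T hT e => by_contra fun e' => ?_⟩,
    fun j j' => face hW hρ hc, cls⟩
  · have e := (two H hH H' hH' hne).1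
    have := h H' (mem_lk.1 hH').1 (e ▸ mem_union_right _ hj')
    rw [e, mem_union, mem_sdiff] at this
    exact this.elim (mem_sdiff.1 hj).2 fun a => a.2 (mem_sdiff.1 hj).1
  · obtain ⟨H', a, b, -⟩ := face hW hρ hc ⟨T, hT, e, e'⟩ fun G hG =>
      mem_filter.2 ((mem_filter.1 (sub hρ hH hj hj' hG)).imp_right Iff.symm)
    exact (mem_sdiff.1 hj').2 (h H' a ▸ (mem_sdiff.1 b).1)

end Pool.Agent.MP_ee8c61_ag.H95T
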