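import Pool.Agent.MP_ee8c61_ag.H95T.ASpec

/-! The strictly convex part of the polarization. -/

namespace Pool.Agent.MP_ee8c61_ag.H95T

open H95 Finset MvPolynomial

namespace RhX

variable {E : Type} [DecidableEq E] [Fintype E]

theorem ex_jj (a : Finset (Finset E)) (p : Finset E × E) : ∃ j, Chn a → p.2 ∈ p.1 →
    j ∈ p.1 ∧ p.1 ⊆ lay a j ∧ (p.1 ⊆ lay a p.2 → j = p.2) := by
  by_cases c : p.1 ⊆ lay a p.2
  · exact ⟨p.2, fun _ h => ⟨h, c, fun _ => rfl⟩⟩
  by_cases h : p.2 ∈ p.1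
  · obtain ⟨j, hj, hm⟩ := exists_max_image p.1 (fun i => (lay a i).card) ⟨_, h⟩
    refine ⟨j, fun ha _ => ⟨hj, fun i hi => lay_sub_lay.1 ?_, fun d => absurd d c⟩⟩
    rcases lay_total ha i j with e | e
    · exact e
    · exact (eq_of_subset_of_card_le e (hm i hi)).ge
  · exact ⟨p.2, fun _ d => absurd d h⟩

theorem prod_eq {K P : Type} [Field K] (l : E → K) (hl : ∀ j, l j ≠ 0) (I : Finset P)
    (u v : P → E) : ∏ j, l j ^ (((I.filter (u · = j)).card : ℤ) - (I.filter (v · = j)).card) =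
      ∏ p ∈ I, l (u p) / l (v p) := by
  rw [prod_div_distrib, ← prod_fiberwise' I u, ← prod_fiberwise' I v, ← prod_div_distrib]
  refine prod_congr rfl fun j _ => ?_
  rw [zpow_sub₀ (hl j), zpow_natCast, zpow_natCast, prod_const, prod_const]

end RhX

theorem rowRh : OfRh := by
  intro n r E K _ _ _ _ A x ℓ fs j₁ hC
  choose jj hj using RhX.ex_jj (E := E)
  have hl : ∀ j, ev x (ℓ j) ≠ 0 := fun j e =>
    hC.gen.ne j (hC.fk.inj (e.trans (map_zero _).symm))
  let I : Finset (Finset E × E) := univ.filter fun p => p.2 ∈ p.1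
  have hI : ∀ p, p ∈ I ↔ p.2 ∈ p.1 := fun p => by simp [I]
  have hf : ∀ a b, Chn a → Chn b → ∀ p ∈ I,
      ev x (ℓ (jj a p)) / ev x (ℓ (jj b p)) ∈ CA A x ℓ (fs j₁) b := fun a b ha hb p hp =>
    gen_mem A x ℓ _ b (A.le_VS ((hj b p hb ((hI p).1 hp)).2.1 (hj a p ha ((hI p).1 hp)).1)
      (hC.gen.mem _))
  refine ⟨fun a j => ((I.filter (jj a · = j)).card : ℤ),
    fun F => ((I.filter (·.1 ⊆ F)).card : ℤ), fun F => Int.natCast_nonneg _, fun a ha F hF => ?_,
    fun a b ha hb => ?_, fun a b ha hb h hh => ?_⟩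
  · rw [← Nat.cast_sum, sum_card_fiberwise_eq_card_filter]
    refine congrArg (fun s : Finset _ => (s.card : ℤ)) (filter_congr fun p hp => ?_)
    obtain ⟨h1, h2, -⟩ := hj a p ha ((hI p).1 hp)
    exact ⟨fun k => h2.trans ((lay_sub hF).2 k), fun k => k h1⟩
  · rw [RhX.prod_eq _ hl]
    exact prod_mem (hf a b ha hb)
  · rw [RhX.prod_eq _ hl]
    have hρ := prod_mem (hf a b ha hb)
    induction hh using Algebra.adjoin_induction with
    | mem g hg =>
      rcases hg with ⟨j, v, hv, rfl⟩ | rfl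
      · have hp : (lay a j, j) ∈ I := (hI _).2 self_lay
        have h1 : jj a (lay a j, j) = j := (hj a _ ha self_lay).2.2 Subset.rfl
        refine ⟨1, ?_⟩
        rw [pow_one, ← prod_erase_mul _ _ hp, h1, mul_assoc, mul_comm (ev x (ℓ j) / _),
          div_mul_div_cancel₀ (hl j)]
        exact mul_mem (prod_mem fun p hp => hf a b ha hb p (mem_of_mem_erase hp))
          (gen_mem A x ℓ _ b (A.VS_mono (hj b (lay a j, j) hb self_lay).2.1 hv))
      · exact ⟨0, by rw [pow_zero, one_mul]; exact inv_mem_CA A x ℓ _ b⟩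
    | algebraMap c => exact ⟨0, by rw [pow_zero, one_mul]; exact Subalgebra.algebraMap_mem _ c⟩
    | add g g' _ _ h1 h2 =>
      obtain ⟨e, h1⟩ := h1
      obtain ⟨e', h2⟩ := h2
      refine ⟨e + e', ?_⟩
      convert add_mem (mul_mem (pow_mem hρ e') h1) (mul_mem (pow_mem hρ e) h2) using 1
      ring
    | mul g g' _ _ h1 h2 =>
      obtain ⟨e, h1⟩ := h1
      obtain ⟨e', h2⟩ := h2
      refine ⟨e + e', ?_⟩
      convert mul_mem h1 h2 using 1
      ring

end Pool.Agent.MP_ee8c61_ag.H95T
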