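import Pool.Agent.MP_ee8c61_ag.H95T.ESpec

/-! The residue cochain is not a coboundary of an interior cochain. -/

namespace Pool.Agent.MP_ee8c61_ag.H95T

open H59 H59.Sys Finset

theorem rowSc : OfSc := by
  intro e hPs hPv hDc hPr Ω ι J n k _ _ _ _ _ _ _ S a kk c0 W B g u hdet hord hlab hres hB hc hnon
    Z hZ hY
  obtain ⟨φ, φ1, φ0⟩ := Submodule.exists_dual_map_eq_bot_of_notMem hnon inferInstance
  have hφ : ∀ h ∈ NS S W, φ h = 0 := fun h hh =>
    (Submodule.mem_bot ℂ).1 (φ0 ▸ Submodule.mem_map_of_mem hh)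
  obtain ⟨ψ, hψ⟩ : ∃ ψ : Fm n Ω →+ ℂ, ∀ ζ, ψ ζ = φ (ps S g ζ) :=
    ⟨φ.toAddMonoidHom.comp ((Pi.evalAddMonoidHom _ univ).comp
      (ap (fun l => we (dl S (g l))) (univ.erase 0))), fun _ => rfl⟩
  obtain ⟨P1, P2⟩ := hPs Ω ι J n k S kk c0 W g u hdet hord hlab
  obtain ⟨ε, hε, P3⟩ := hPv Ω ι J n k S a W g u hord
  have lm := e.lm ℂ Ω ι J n S
  rw [mem_kl] at hZ hY
  have z0 : ∀ τ σ, ψ (Z τ σ) ≠ 0 → τ ⊆ W ∧ τ ≠ ∅ := fun τ σ h =>
    ⟨by_contra fun hτ => h (by simp [(hZ τ).2 hτ]), fun hτ => h (by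
      have := (hZ τ).1 (hτ ▸ empty_subset W)
      rw [sk, if_pos hτ, mem_lat_bot] at this
      simp [this])⟩
  have kill : ∀ τ ⊆ W, ∀ σ : Finset ι, (∀ c ∈ σ, ∀ i ∈ τ, Lb S c i) → ∀ j,
      ∀ γ ∈ S.T (KJ c0 τ) j, ψ (γ σ) = 0 := fun τ hτ σ hσ j γ hγ =>
    (hψ _).trans (hφ _ (P2 τ hτ σ hσ _ _ ((S.mem_T _ _ _).1 hγ σ)))
  obtain ⟨w, w0, w1, w2⟩ := hDc ι J (Lb S) W B k (up (up ψ) Z) (fun τ => ε * φ 1 * ∑ i ∈ τ,
      sgn i τ • Dt (fun j => (a j : ℂ)⁻¹ • fun l => (u l j : ℂ)) (τ.erase i)) hc.top hc.bd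
    (fun τ σ h => by
      obtain ⟨h1, h2⟩ := z0 τ σ h
      obtain ⟨C, hC⟩ : ∃ C, Z τ σ ∈ S.lm C σ (n + 1 - τ.card - σ.card) := by
        have := (hZ τ).1 h1
        rw [sk, if_neg h2, bd] at this
        split_ifs at this <;> exact ⟨_, (S.mem_T _ _ _).1 this σ⟩
      refine ⟨h1, nonempty_iff_ne_empty.2 h2, nonempty_iff_ne_empty.2 fun hσ => h ?_,
        by_contra fun hk => h ?_⟩
      · rw [hσ, lm.emp, mem_lat_bot] at hC
        simp [hσ, hC]
      · rw [up_apply, up_apply, hψ, P1 _ _ (lm.pure _ _ _ _ hC) (by omega), map_zero])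
    (fun V hV τ hτ σ hσ => by_contra fun h => by
      obtain ⟨h1, h2⟩ := z0 τ σ h
      have := (hZ τ).1 h1
      rw [sk, if_neg h2, bd, if_pos ⟨V, hV, hτ⟩] at this
      exact h (kill τ h1 σ hσ _ _ this))
    (fun τ hτ h2 σ _ hσ => by
      have h3 := (hY τ).1 hτ
      rw [sk, if_neg h2.ne_empty] at h3
      have h4 := kill τ hτ σ hσ _ _ h3
      rw [Pi.sub_apply, Pi.sub_apply, map_sub, sub_eq_zero] at h4
      rw [ks, ← (e.car J _).up_kos _ (up ψ) (cech 0) (cech 0) (fun _ => 1) (fun _ => 1) W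
        (fun x => (e.car ι _).up_kos _ ψ 0 0 _ _ univ (by simp) (by simp) x) (by simp) Z,
        up_apply, up_apply, ← h4, yv]
      by_cases hk : τ.card = k + 1
      swap
      · simp [hk]
      rw [if_pos ⟨hτ, hk⟩, Finset.sum_apply, map_sum]
      simp only [Pi.smul_apply, map_zsmul, hk, true_and]
      split_ifs with h1
      · obtain ⟨c, rfl⟩ := card_eq_one.1 h1
        rw [mul_sum]
        refine sum_congr rfl fun i hi => ?_
        have := hφ _ (P3 c (τ.erase i) ((erase_subset _ _).trans hτ) (by simp [hi, hk])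
          fun j hj => hσ c (mem_singleton_self c) j (mem_of_mem_erase hj))
        rw [map_sub, sub_eq_zero, Algebra.algebraMap_eq_smul_one, map_smul] at this
        rw [hψ, this, mul_smul_comm, smul_eq_mul, mul_right_comm]
      · refine sum_eq_zero fun i _ => ?_
        have := (e.ap J _).map _ (Pi.evalAddMonoidHom _ σ) (Hs S a) (fun j =>
          mu _ (algebraMap ℂ Ω (a j : ℂ)⁻¹) * ((-1 : ℤ) ^ σ.card • co (S.vv (pick σ) j)))
          (τ.erase i) (fun _ _ _ => rfl) (om ι n Ω)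
        simp only [Pi.evalAddMonoidHom_apply, om, if_neg h1, map_zero] at this
        rw [this, map_zero, smul_zero])
  exact hPr ι J (Lb S) W B k _ a w _ hc (fun i hi => ⟨(hres i hi).1, by rw [(hres i hi).2]⟩)
    (mul_ne_zero hε φ1) w0 w1 w2

end Pool.Agent.MP_ee8c61_ag.H95T
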