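import Pool.Agent.MP_ee8c61_ag.H95T.ASpec

/-! The Euler characteristic of the strata of a chain. -/

namespace Pool.Agent.MP_ee8c61_ag.H95T

open H95 Finset MvPolynomial

namespace StX

variable {n : ℕ} {E : Type} [DecidableEq E]

theorem ev_Wi {φ : Fin n → Pol (Fin n)} (h : ∀ l, φ l ∈ Wi n) {v : Pol (Fin n)} (hv : v ∈ Wi n) :
    ev φ v ∈ Wi n := by
  induction hv using Submodule.span_induction with
  | mem p hp =>
    rcases hp with rfl | ⟨l, rfl⟩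
    · rw [map_one]; exact one_mem_Wi n
    · rw [aeval_X]; exact h l
  | zero => rw [map_zero]; exact zero_mem _
  | add p q _ _ h1 h2 => rw [map_add]; exact add_mem h1 h2
  | smul c p _ h1 => rw [map_smul]; exact Submodule.smul_mem _ c h1

theorem thv_Wi (L : Fin n → Finset E) (Λ : Finset (Fin n)) (G : Finset E) (q : Fin n) :
    thv L Λ G q ∈ Wi n := by
  unfold thv
  split_ifs
  exacts [one_mem_Wi n, X_mem_Wi q, zero_mem _]

/-- The equations of the base. -/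
def sB (L : Fin n → Finset E) (Λ : Finset (Fin n)) : Set (Pol (Fin n)) :=
  X '' {q | q ∈ Λ ∨ ∃ p ∈ Λ, L q = L p ∧ p < q}

omit [DecidableEq E] in
theorem bs_eq (L : Fin n → Finset E) (Λ : Finset (Fin n)) :
    Bs0 L Λ = {x | ∀ p ∈ sB L Λ, eval x p = 0} := by
  ext x
  simp only [Bs0, sB, Set.mem_ofPred_eq, Set.forall_mem_image, eval_X]
  exact ⟨fun h q hq => hq.elim (h.1 q) fun ⟨p, h1, h2, h3⟩ => h.2 p h1 q h2 h3,
    fun h => ⟨fun p hp => h (Or.inl hp), fun p h1 q h2 h3 => h (Or.inr ⟨p, h1, h2, h3⟩)⟩⟩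

variable [Fintype E] (A : Arr n E) (τ : Finset (Finset E)) (aff : Fin n → Pol (Fin n))
  (L : Fin n → Finset E) (Λ : Finset (Fin n))

/-- The equations of a space. -/
def sZ (j : E) : Set (Pol (Fin n)) := rdc aff L Λ (lay τ j) '' A.V j

theorem zj_eq (j : E) : Zj A τ aff L Λ j = {x | ∀ p ∈ sZ A τ aff L Λ j, eval x p = 0} := by
  ext x
  simp only [Zj, sZ, Set.mem_ofPred_eq, Set.forall_mem_image, SetLike.mem_coe]

theorem all_eq (S : Finset E) : {x | x ∈ Bs0 L Λ ∧ ∀ j ∈ S, x ∈ Zj A τ aff L Λ j} =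
    {x | ∀ p ∈ sB L Λ ∪ ⋃ j ∈ S, sZ A τ aff L Λ j, eval x p = 0} := by
  ext x
  simp only [bs_eq, zj_eq, Set.mem_ofPred_eq, Set.mem_union, Set.mem_iUnion]
  exact ⟨fun h p hp => hp.elim (h.1 p) fun ⟨j, hj, k⟩ => h.2 j hj p k,
    fun h => ⟨fun p hp => h p (Or.inl hp), fun j hj p hp => h p (Or.inr ⟨j, hj, hp⟩)⟩⟩

theorem sub_Wi (h : ∀ l, aff l ∈ Wi n) (S : Finset E) :
    sB L Λ ∪ ⋃ j ∈ S, sZ A τ aff L Λ j ⊆ Wi n := by
  rintro p (⟨q, -, rfl⟩ | hp)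
  · exact X_mem_Wi q
  · simp only [Set.mem_iUnion] at hp
    obtain ⟨j, -, v, hv, rfl⟩ := hp
    exact ev_Wi (thv_Wi L Λ _) (ev_Wi h (A.le j hv))

end StX

open StX Classical in
theorem rowSt : OfSt := by
  intro hCn hAf hIe hNe hCt hTv hPd n E _ _ A χ hχ h0 τ y aff L hτ ad
  have hI := fun Λ => hIe E χ hχ n (Bs0 L Λ) (Zj A τ aff L Λ) (bs_eq L Λ ▸ hCn n _)
    fun j => zj_eq A τ aff L Λ j ▸ hCn n _
  refine ⟨fun Λ => (hI Λ).2.1, fun T hT => ?_⟩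
  have h1 : ∀ Λ ∈ T, ∀ S : Finset E,
      χ (Fin n) {x | x ∈ Bs0 L Λ ∧ ∀ j ∈ S, x ∈ Zj A τ aff L Λ j} =
      (if A.pm.N (tp τ ∪ S) then 1 else 0) *
        ∏ p ∈ Λ, if Sol A τ aff L S p then (1 : ℤ) else 0 := fun Λ hΛ S => by
    have k := hNe n E A τ y aff L Λ ⟨hτ, ad, (hT Λ).1 hΛ⟩ S
    by_cases hx : ∃ x ∈ Bs0 L Λ, ∀ j ∈ S, x ∈ Zj A τ aff L Λ j
    · obtain ⟨k1, k2⟩ := k.1 hx
      rw [if_pos ((A.pm_N _).2 k2), prod_congr rfl fun p hp => if_pos (k1 p hp), prod_const_one,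
        one_mul, all_eq]
      exact hAf χ hχ h0 n _ (sub_Wi A τ aff L Λ ad.am S)
        (hx.imp fun x hx => (Set.ext_iff.1 (all_eq A τ aff L Λ S) x).1 hx)
    · rw [Set.eq_empty_of_forall_notMem (s := {x | x ∈ Bs0 L Λ ∧ ∀ j ∈ S, x ∈ Zj A τ aff L Λ j})
        fun x k => hx ⟨x, k⟩, (hI Λ).1]
      by_cases k2 : A.pm.N (tp τ ∪ S)
      · obtain ⟨p, hp, k1⟩ : ∃ p ∈ Λ, ¬Sol A τ aff L S p := by
          by_contra! k1
          exact hx (k.2 ⟨k1, k2⟩)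
        rw [prod_eq_zero hp (if_neg k1), mul_zero]
      · rw [if_neg k2, zero_mul]
  refine (sum_congr rfl fun Λ hΛ =>
    (hI Λ).2.2.trans (sum_congr rfl fun S _ => by rw [h1 Λ hΛ S])).trans ?_
  rw [sum_comm, ← hPd E A.pm τ hτ]
  refine sum_congr rfl fun S _ => ?_
  rw [← mul_sum, ← mul_sum, hTv _ _ L τ _ T hT]
  refine congrArg _ (congrArg _ (prod_congr rfl fun G hG => ?_))
  rw [sum_boole, ← hCt n E A τ y aff L hτ ad S G hG _ fun p => ?_]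
  simp only [mem_filter, mem_univ, true_and]

end Pool.Agent.MP_ee8c61_ag.H95T
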