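import Pool.Agent.MP_ee8c61_ag.H95T.ASpec

/-! The system of charts of an arrangement. -/

namespace Pool.Agent.MP_ee8c61_ag.H95T

open H95 Finset MvPolynomial

namespace SyX

variable {n : ℕ} {E K : Type} [Field K] [Algebra ℂ K]

theorem eta_ne {z : Fin n → K} {D : Fin n → Derivation ℂ K K}
    (h : ∀ i j, D i (z j) = if i = j then 1 else 0) (lab : Finset E → Option (Fin n))
    (F : Finset E) : eta z lab F ≠ 0 := by
  unfold eta
  cases lab F with
  | none => exact one_ne_zero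
  | some i =>
    intro e
    have := h i i
    rw [show z i = 0 from e, map_zero, if_pos rfl] at this
    exact zero_ne_one this

theorem mon_nat [Fintype E] {ι : Type} (S : H59.Sys ℂ K ι (Finset E) n) (a : ι)
    {τ : Finset (Finset E)} (h : ∀ F, S.lab a F ≠ none ↔ F ∈ τ) (e : Finset E → ℕ) :
    ((S.mon a fun F => (e F : ℤ) : Kˣ) : K) = ∏ F ∈ τ, (S.η a F : K) ^ e F := by
  simp only [H59.Sys.mon, zpow_natCast, Units.coe_prod, Units.val_pow_eq_pow_val]
  refine (prod_subset (subset_univ _) fun F _ hF => ?_).symm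
  rw [S.η_none a F (by_contra fun c => hF ((h F).1 c)), Units.val_one, one_pow]

end SyX

open SyX in
theorem rowSy : OfSy := by
  intro hF hC hE hR n r E K _ _ _ _ A x ℓ fs j₁ c
  obtain ⟨R, r1, r2, r3⟩ := hF n K x c.fk
  choose z D lab h using fun a : Io A => hC n r E K A x ℓ fs j₁ c a.1 a.2
  obtain ⟨G, g, ρ⟩ := hR n r E K A x ℓ fs j₁ c
  have n0 : ∀ j, ev x (ℓ j) ≠ 0 := fun j => (map_ne_zero_iff _ c.fk.inj).2 (c.gen.ne j)
  let S : H59.Sys ℂ K (Io A) (Finset E) n := {
    r := x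
    R := R
    A := fun a => CA A x ℓ (fs j₁) a.1
    z := z
    D := D
    lab := lab
    η := fun a F => Units.mk0 _ (eta_ne (h a).Dz (lab a) F)
    R_r := r1
    R_comm := r2
    D_z := fun a => (h a).Dz
    D_R := fun a l t => r3 _ t
    z_mem := fun a => (h a).zm
    D_mem := fun a => (h a).Dm
    lab_inj := fun a => (h a).inj
    η_some := fun a j l e => by simp [eta, e]
    η_none := fun a j e => Units.ext (by simp [eta, e])
    η_mem := fun a b F => by
      rw [Units.val_div_eq_div_val]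
      exact hE n r E K A x ℓ fs j₁ c _ _ _ _ _ _ _ _ a.2 b.2 (h a) (h b) F
    loc := fun a b t ht => by
      obtain ⟨e, he⟩ := ρ.loc _ _ b.2.1 a.2.1 t ht
      refine ⟨Units.mk0 (∏ j, ev x (ℓ j) ^ (G b.1 j - G a.1 j))
        (prod_ne_zero_iff.2 fun j _ => zpow_ne_zero _ (n0 j)) ^ e, ?_, ?_, ?_⟩
      · rw [Units.val_pow_eq_pow_val]
        exact pow_mem (ρ.mem _ _ b.2.1 a.2.1) e
      · rw [← inv_pow, Units.val_pow_eq_pow_val, Units.val_inv_eq_inv_val, Units.val_mk0,
          ← prod_inv_distrib]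
        simp only [← zpow_neg, neg_sub]
        exact (le_sup_right : CA A x ℓ (fs j₁) b.1 ≤ _) (pow_mem (ρ.mem _ _ a.2.1 b.2.1) e)
      · rw [Units.val_pow_eq_pow_val]
        exact he }
  refine ⟨S, rfl, fun _ => rfl, fun a => (h a).lb, fun a => (h a).et _, fun a j u hu => ?_,
    fun a F hF => ?_, fun a => ?_⟩
  · have e : ((u * S.mon a fun F => -((if j ∈ F then 1 else 0 : ℕ) : ℤ) : Kˣ) : K) =
        ev x (ℓ j) / ∏ F ∈ a.1 with j ∈ F, eta (z a) (lab a) F := by
      have := mon_nat S a (h a).lb fun F => if j ∈ F then 1 else 0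
      simp only [pow_ite, pow_one, pow_zero] at this
      rw [prod_filter, div_eq_mul_inv, Units.val_mul, hu]
      refine congrArg _ (Eq.trans ?_ (congrArg Inv.inv this))
      rw [← Units.val_inv_eq_inv_val]
      simp only [H59.Sys.mon, zpow_neg, prod_inv_distrib]
    rw [H59.Sys.IsU, Units.val_inv_eq_inv_val, e]
    exact ((h a).ell j).2
  · obtain ⟨j, hj⟩ := exists_lay a.2.1 hF (a.2.2 F hF).1
    obtain ⟨j', h1, h2⟩ := exists_of_ssubset (ssub_suc a.2.1 fun e : F = univ => a.2.univ (e ▸ hF))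
    refine ⟨j, hj ▸ self_lay, j', h2, _, ((h a).quo F hF j j' hj
      ((lay_eq_suc a.2.1 hF a.2.univ).2 (mem_sdiff.2 ⟨h1, h2⟩))).2.1, ?_⟩
    exact (mul_div_cancel₀ _ (div_ne_zero (n0 j) (n0 j'))).symm
  · obtain ⟨u, hu, e⟩ := (h a).det
    refine ⟨Units.mk0 u hu.1, ⟨hu.2.1, by simpa using hu.2.2⟩, ?_⟩
    rw [Units.val_mul, mon_nat S a (h a).lb]
    exact e

end Pool.Agent.MP_ee8c61_ag.H95T
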