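import Pool.Agent.MP_ee8c61_ag.H95T.ASpec

/-! Solving the monomial equations. -/

namespace Pool.Agent.MP_ee8c61_ag.H95T

open H95 Finset MvPolynomial

theorem rowTl : OfTl := by
  intro E _ _ n O _ _ L Λ Y hi hc hd
  let N : Fin n → Finset (Fin n) := fun q => Λ.filter fun p => p ≠ q ∧ L q ⊆ L p
  have h : ∀ q, ∃ w : O, (N q = ∅ ∧ Y q = w) ∨
      ∃ p, p ∉ N p ∧ N q = insert p (N p) ∧ Y q = w * Y p := fun q => by
    rcases (N q).eq_empty_or_nonempty with e | e
    · exact ⟨_, .inl ⟨e, rfl⟩⟩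
    obtain ⟨p, hp, hm⟩ := (N q).exists_min_image (fun p => (L p).card) e
    obtain ⟨p1, p2, p3⟩ := mem_filter.1 hp
    obtain ⟨w, hw⟩ := hd p p1 q p3
    refine ⟨w, .inr ⟨p, by simp [N], Finset.ext fun x => ⟨fun hx => ?_, fun hx => ?_⟩,
      hw.trans (mul_comm _ _)⟩⟩
    · refine mem_insert.2 (or_iff_not_imp_left.2 fun e => mem_filter.2 ⟨(mem_filter.1 hx).1, e, ?_⟩)
      exact (hc p p1 x (mem_filter.1 hx).1).elim id fun s => (eq_of_subset_of_card_le s (hm x hx)).ge
    · rcases mem_insert.1 hx with rfl | hx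
      · exact hp
      obtain ⟨x1, x2, x3⟩ := mem_filter.1 hx
      exact mem_filter.2 ⟨x1, fun e => x2 (hi x1 p1 ((e ▸ p3).antisymm x3)), p3.trans x3⟩
  choose w hw using h
  have key : ∀ k q, (N q).card = k → w q * ∏ p ∈ N q, w p = Y q := fun k => by
    induction k using Nat.strong_induction_on with
    | _ k ih =>
      intro q hq
      rcases hw q with ⟨e, e'⟩ | ⟨p, a, e, e'⟩
      · rw [e, e', prod_empty, mul_one]
      · rw [e, prod_insert a, ih _ (by rw [← hq, e, card_insert_of_notMem a]; omega) p rfl, e']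
  refine ⟨w, funext fun q => ?_⟩
  rw [← key _ q rfl]
  simp [ap, cmon, N]

end Pool.Agent.MP_ee8c61_ag.H95T
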