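import Pool.Agent.MP_ee8c61_ag.H95T.ESpec

/-! The constant coefficient. -/

namespace Pool.Agent.MP_ee8c61_ag.H95T

open H59 H59.Sys Finset MvPolynomial

namespace TrX

section
variable {G G' J : Type} [AddCommGroup G] [AddCommGroup G'] [LinearOrder J] (φ : G →+ G')

theorem up_mem {F : Finset J → Lat G} {F' : Finset J → Lat G'} {W : Finset J} {q : ℤ} {Z : Ch J G}
    (h : ∀ τ j, ∀ y ∈ F τ j, φ y ∈ F' τ j) (hZ : Z ∈ kl W (sk F) q) : up φ Z ∈ kl W (sk F') q := by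
  rw [mem_kl] at hZ ⊢
  refine fun τ => ⟨fun e => ?_, fun e => by rw [up_apply, (hZ τ).2 e, map_zero]⟩
  have := (hZ τ).1 e
  unfold sk at this ⊢
  split_ifs at this ⊢
  · rw [mem_lat_bot] at this ⊢
    rw [up_apply, this, map_zero]
  · exact h _ _ _ this

theorem up_yv (A : Ap J G) {H : J → Op G} {H' : J → Op G'} (h : ∀ i y, φ (H i y) = H' i (φ y))
    (ω : G) (W : Finset J) (k : ℕ) : up φ (yv H ω W k) = yv H' (φ ω) W k := by
  funext s
  rw [up_apply, yv, yv]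
  split_ifs
  · rw [map_sum]
    exact sum_congr rfl fun i _ => by rw [map_zsmul, A.map _ φ H H' _ fun j _ => h j]
  · exact map_zero φ

end

end TrX

open TrX

theorem rowTr : OfTr := by
  intro e Ω ι J n m _ _ _ _ _ _ S x f a _ _ _ c W B k q Z h1 h2
  have P := e.pt ℂ Ω ι J n S (Option (Fin m))
  have hT : ∀ C j, ∀ y ∈ (S.px m).T C j, up (up (cf _ Ω 0)) y ∈ S.T C j :=
    fun C j y hy => (P.mem C j y).1 hy 0
  have hC : ∀ (g : Ω) (p : PX m Ω), cf _ Ω 0 (C g * p) = g * cf _ Ω 0 p :=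
    fun g p => coeff_C_mul 0 g p
  refine ⟨_, up_mem (up (up (cf _ Ω 0))) (fun τ j y hy => ?_) h1, ?_⟩
  · unfold bd at hy ⊢
    split_ifs at hy ⊢
    exacts [hT _ _ _ hy, hT _ _ _ hy]
  have h3 := up_mem _ (fun τ => hT (KJ c τ)) h2
  have e1 : ∀ w, up (cf _ Ω 0) (we (S.th x f) w) = (0 : Op (Fm n Ω)) (up (cf _ Ω 0) w) := fun w => by
    rw [(e.fo _ n).up_we Ω (cf _ Ω 0) _ 0 fun l p => ?_]
    · simp [we]
    · change constantCoeff (_ * p) = _
      simp [th]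
  have e2 : up (up (cf _ Ω 0)) (om ι n (PX m Ω)) = om ι n Ω := by
    funext σ τ
    simp only [up_apply, om, top]
    split_ifs
    · rw [Pi.single_apply, Pi.single_apply, apply_ite (cf _ Ω 0), map_zero]
      congr 1
      exact coeff_zero_one
    · exact map_zero _
  have e3 : ∀ i y, up (up (cf _ Ω 0)) (Hs (S.px m) a i y) = Hs S a i (up (up (cf _ Ω 0)) y) :=
    fun i y => by
    funext σ τ
    have := (e.fo _ n).up_co Ω (cf _ Ω 0) ((S.px m).vv (pick σ) i) (S.vv (pick σ) i)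
      (fun l p => by rw [P.vv, hC]) (y σ)
    simp only [Hs, hh, op_mul, mu_apply, up_apply, ods_apply, Pi.smul_apply, ← this]
    rw [MvPolynomial.algebraMap_apply, smul_eq_mul, hC, map_zsmul, smul_eq_mul]
  rwa [map_sub, up_yv _ (e.ap _ _) e3, e2, (e.car _ _).up_kos _ _ (cech _) (cech 0) _ (fun _ => 1) W
    ((e.car _ _).up_kos _ _ _ 0 _ (fun _ => 1) univ e1 fun _ _ _ => rfl) fun _ _ _ => rfl] at h3

end Pool.Agent.MP_ee8c61_ag.H95T
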