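import Pool.Agent.MP_ee8c61_ag.H95T.CSpec

/-! Sums over transversals. -/

namespace Pool.Agent.MP_ee8c61_ag.H95T

open Finset

theorem rowTv : OfTv := by
  intro α β _ _ _ L τ h T hT
  have k : ∀ p ∈ τ.pi fun G => univ.filter fun a => L a = G, ∀ x : τ, L (p x.1 x.2) = x :=
    fun p hp x => (mem_filter.1 (mem_pi.1 hp x.1 x.2)).2
  have k' : ∀ p ∈ τ.pi fun G => univ.filter fun a => L a = G,
      Function.Injective fun x : τ => p x.1 x.2 := fun p hp x y e =>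
    Subtype.ext ((k p hp x).symm.trans ((congrArg L e).trans (k p hp y)))
  rw [prod_sum]
  refine (sum_bij (fun p _ => τ.attach.image fun x => p x.1 x.2) (fun p hp => (hT _).2 ⟨?_, ?_, ?_⟩)
    (fun p hp q hq e => ?_) (fun Λ hΛ => ?_) fun p hp => (prod_image (k' p hp).injOn).symm).symm
  · intro a ha
    obtain ⟨x, -, rfl⟩ := mem_image.1 ha
    exact (k p hp x).symm ▸ x.2
  · intro a ha b hb e
    obtain ⟨x, -, rfl⟩ := mem_image.1 ha
    obtain ⟨y, -, rfl⟩ := mem_image.1 hb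
    rw [show x = y from Subtype.ext ((k p hp x).symm.trans (e.trans (k p hp y)))]
  · exact fun G hG => ⟨_, mem_image.2 ⟨⟨G, hG⟩, mem_attach _ _, rfl⟩, k p hp ⟨G, hG⟩⟩
  · funext G hG
    obtain ⟨y, -, e'⟩ := mem_image.1 (e.le (mem_image.2 ⟨⟨G, hG⟩, mem_attach _ _, rfl⟩))
    obtain rfl : ⟨G, hG⟩ = y :=
      Subtype.ext ((k p hp ⟨G, hG⟩).symm.trans ((congrArg L e'.symm).trans (k q hq y)))
    exact e'.symm
  · obtain ⟨h1, h2, h3⟩ := (hT Λ).1 hΛ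
    choose p p1 p2 using fun G (hG : G ∈ τ) => h3 hG
    refine ⟨p, mem_pi.2 fun G hG => mem_filter.2 ⟨mem_univ _, p2 G hG⟩, ?_⟩
    ext a
    refine mem_image.trans ⟨fun ⟨x, _, e⟩ => e ▸ p1 x.1 x.2, fun ha => ?_⟩
    exact ⟨⟨L a, h1 ha⟩, mem_attach _ _, h2 (p1 _ _) ha (p2 _ _)⟩

end Pool.Agent.MP_ee8c61_ag.H95T
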