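import Pool.Agent.MP_ee8c61_ag.H95T.ASpec

/-! The lift of an arc is unique. -/

namespace Pool.Agent.MP_ee8c61_ag.H95T

open H95 Finset MvPolynomial

namespace UqX

variable {n : ℕ} {E : Type} [DecidableEq E] {L : Fin n → Finset E} {Λ Λ' : Finset (Fin n)}
  {w w' : Fin n → PS}

theorem nz (h : ∀ p ∈ Λ, w p ≠ 0) (G : Finset E) : ev w (lmon L Λ G) ≠ 0 := by
  rw [lmon, map_prod, prod_ne_zero_iff]
  exact fun p hp => by rw [aeval_X]; exact h p (mem_filter.1 hp).1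

variable [Fintype E] {τ τ' : Finset (Finset E)}

theorem sub {P : PM E} (h : P.Ch τ) (h' : P.Ch τ') (e : ∀ j, lay τ j = lay τ' j) : τ ⊆ τ' :=
  fun F hF => by
    obtain ⟨j, rfl⟩ := exists_lay h.1 hF (h.2 F hF).1
    exact e j ▸ (lay_cases h'.1 j).resolve_right fun a => h.univ (a ▸ e j ▸ hF)

theorem no (m : MuOK τ L Λ) (m' : MuOK τ L Λ') (b : Set.BijOn L Λ τ) (b' : Set.BijOn L Λ' τ)
    (h : ∀ p ∈ Λ, w p ≠ 0) (hb : bs w ∈ Bs0 L Λ)
    (e : ∀ q, ev w (cmon L Λ q) = ev w' (cmon L Λ' q)) {p p' : Fin n} (hp : p ∈ Λ) (hp' : p' ∈ Λ')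
    (hL : L p' = L p) : ¬p < p' := fun hlt => by
  have e1 := e p
  have e2 := e p'
  rw [m.piv p hp, m'.non p fun a => hlt.ne (b'.injOn a hp' hL.symm), map_mul, aeval_X] at e1
  rw [m'.piv p' hp', m.non p' fun a => hlt.ne (b.injOn hp a hL.symm), map_mul, aeval_X, hL] at e2
  rw [← e2, ← mul_assoc] at e1
  have e3 := congrArg PowerSeries.constantCoeff
    (mul_right_cancel₀ (nz h _) ((one_mul _).trans e1))
  have e4 : PowerSeries.constantCoeff (w p') = 0 := hb.2 p hp p' hL hlt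
  rw [map_one, map_mul, e4, mul_zero] at e3
  exact one_ne_zero e3

theorem val {A : Arr n E} {y aff : Fin n → Pol (Fin n)} {b : Fin n → PS}
    (h : Piv A τ y aff L Λ) (l : Lift A τ aff L Λ b w) : ap y b = ap (cmon L Λ) w := by
  rw [← l.eq, ap_ap, ← ap_ap y, h.ad.ya, ap_X]

end UqX

open UqX in
theorem rowUq : OfUq := by
  intro hM hK n E _ _ A b hb
  refine ⟨fun τ y aff L Λ w τ' y' aff' L' Λ' w' h h' l l' => ?_,
    fun τ y aff L Λ w Λ' w' h h' l l' => ?_⟩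
  · have e : ∀ i, lay τ i = lay τ' i := fun i => Finset.ext fun j => by
      rw [← lay_sub_lay, ← lay_sub_lay, ← (hK n E A τ y aff L Λ b w h hb l).2,
        ← (hK n E A τ' y' aff' L' Λ' b w' h' hb l').2]
    exact (sub h.ch h'.ch e).antisymm (sub h'.ch h.ch fun j => (e j).symm)
  have m := hM E n τ L Λ h.ch.1 h.ch.univ h.bij
  have m' := hM E n τ L Λ' h.ch.1 h.ch.univ h'.bij
  have z := (hK n E A τ y aff L Λ b w h hb l).1
  have z' := (hK n E A τ y aff L Λ' b w' h' hb l').1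
  have e : ∀ q, ev w (cmon L Λ q) = ev w' (cmon L Λ' q) :=
    congrFun ((val h l).symm.trans (val h' l'))
  have k : ∀ p ∈ Λ, ∀ p' ∈ Λ', L p' = L p → p = p' := fun p hp p' hp' hL =>
    le_antisymm (not_lt.1 (no m' m h'.bij h.bij z' l'.mem.1 (fun q => (e q).symm) hp' hp hL.symm))
      (not_lt.1 (no m m' h.bij h'.bij z l.mem.1 e hp hp' hL))
  obtain rfl : Λ = Λ' := Finset.ext fun p => by
    constructor <;> intro hp
    · obtain ⟨p', a, c⟩ := h'.bij.surjOn (h.bij.mapsTo hp)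
      exact k p hp p' a c ▸ a
    · obtain ⟨p', a, c⟩ := h.bij.surjOn (h'.bij.mapsTo hp)
      exact k p' a p hp c.symm ▸ a
  have g : ∀ G, G ∈ τ ∨ G = univ → ev w (lmon L Λ G) = ev w' (lmon L Λ G) := by
    rintro G (hG | rfl)
    · obtain ⟨p, a, rfl⟩ := h.bij.surjOn hG
      rw [← m.piv p a, e]
    · rw [m.univ, map_one, map_one]
  refine ⟨rfl, funext fun q => ?_⟩
  by_cases hq : q ∈ Λ
  · have e1 := g _ (h.ad.lm q)
    rw [m.suc q hq, map_mul, map_mul, aeval_X, aeval_X,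
      ← g _ ((suc_mem h.ch.1 _).symm.imp_left And.left)] at e1
    exact mul_right_cancel₀ (nz z _) e1
  · have e1 := e q
    rw [m.non q hq, map_mul, map_mul, aeval_X, aeval_X, ← g _ (h.ad.lm q)] at e1
    exact mul_right_cancel₀ (nz z _) e1

end Pool.Agent.MP_ee8c61_ag.H95T
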