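import Pool.Agent.MP_ee8c61_ag.H95T.ASpec

/-! Row Vl: every valuation ring contains a chart. -/

namespace Pool.Agent.MP_ee8c61_ag.H95T

open H95 Finset MvPolynomial

namespace VlX

variable {K : Type} [Field K]

theorem dvd_iff (O : ValuationSubring K) (a b : O) (h : (a : K) ≠ 0) :
    a ∣ b ↔ (b : K) / a ∈ O := by
  refine ⟨fun ⟨c, hc⟩ => ?_, fun hm => ⟨⟨_, hm⟩, Subtype.ext ?_⟩⟩
  · have e : (b : K) = a * c := by rw [hc]; rfl
    rw [e, mul_div_cancel_left₀ _ h]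
    exact c.2
  · exact (mul_div_cancel₀ _ h).symm

theorem ev_mem [Algebra ℂ K] (B : Subalgebra ℂ K) {σ : Type} {w : σ → K} (h : ∀ i, w i ∈ B)
    (p : Pol σ) : ev w p ∈ B := by
  induction p using MvPolynomial.induction_on with
  | C c => rw [aeval_C]; exact B.algebraMap_mem c
  | add p q hp hq => rw [map_add]; exact add_mem hp hq
  | mul_X p i hp => rw [map_mul, aeval_X]; exact mul_mem hp (h i)

end VlX

open VlX in
theorem rowVl : OfVl := by
  intro hLv hId n r E K _ _ _ _ A x ℓ fs j₁ ctx O hc h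
  obtain ⟨B, hB⟩ : ∃ B : Subalgebra ℂ K, ∀ g, g ∈ B ↔ g ∈ O :=
    ⟨⟨O.toSubring.toSubsemiring, hc⟩, fun _ => Iff.rfl⟩
  have hne : ∀ p, p ≠ 0 → ev x p ≠ 0 := fun p hp e => hp (ctx.fk.inj (e.trans (map_zero _).symm))
  have hl : ∀ j, ev x (ℓ j) ≠ 0 := fun j => hne _ (ctx.gen.ne j)
  have hf : ev x (fs j₁) ≠ 0 := hne _ ctx.ne
  have hs : sv x ℓ (fs j₁) ∈ B := (hB _).2 (h 0)
  have hxs : ∀ l, xs x fs j₁ l ∈ B := fun l => (hB _).2 (h l.succ)
  have hx : ∀ l, x l ∈ B := fun l => by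
    have := hxs (Fin.castAdd r l)
    rwa [xs, Fin.append_left] at this
  have hI : ∀ p ∈ A.I, ev x p / ev x (∏ j, ℓ j) ∈ B := by
    intro p hp
    rw [← ctx.sp] at hp
    induction hp using Submodule.span_induction with
    | mem p hp =>
      obtain ⟨i, rfl⟩ := hp
      have h1 := hxs (Fin.natAdd n i)
      rw [xs, Fin.append_right] at h1
      have h2 := mul_mem h1 hs
      rwa [sv, div_mul_div_cancel₀ hf] at h2
    | zero => simp
    | add p q _ _ hp hq => rw [map_add, add_div]; exact add_mem hp hq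
    | smul a p _ hp =>
      rw [smul_eq_mul, map_mul, mul_div_assoc]
      exact mul_mem (ev_mem B hx a) hp
  have hV : ∀ j, ∀ v ∈ A.V j, ev x v / ev x (ℓ j) ∈ B := by
    intro j v hv
    have h1 := hI _ (A.prod_mem_I (v := Function.update ℓ j v) fun i => by
      by_cases e : i = j
      · rw [e, Function.update_self]; exact hv
      · rw [Function.update_of_ne e]; exact ctx.gen.mem i)
    rwa [prod_update_of_mem (mem_univ j), prod_eq_mul_prod_sdiff_singleton_of_mem (mem_univ j) ℓ,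
      map_mul, map_mul, mul_div_mul_right _ _
        (hne _ (prod_ne_zero_iff.2 fun i _ => ctx.gen.ne i))] at h1
  obtain ⟨e, he⟩ : ∃ e : Pol (Fin n) →+* O, ∀ p, (e p : K) = ev x p :=
    ⟨(ev x).toRingHom.codRestrict O fun p => (hB _).1 (ev_mem B hx p), fun _ => rfl⟩
  have hd : ∀ j v, e (ℓ j) ∣ e v ↔ ev x v / ev x (ℓ j) ∈ B := fun j v => by
    rw [dvd_iff O _ _ (by rw [he]; exact hl j), he, he, hB]
  obtain ⟨τ, hτ, hm⟩ := hLv n E A O e (fun j => e (ℓ j)) (fun _ _ => ValuationRing.dvd_total _ _)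
    (fun j v hv => (hd j v).2 (hV j v hv)) fun j => ⟨ℓ j, ctx.gen.mem j, dvd_rfl⟩
  refine ⟨τ, hτ, fun g hg => (hB g).1 (Algebra.adjoin_le ?_ hg)⟩
  rintro g (⟨j, v, hv, rfl⟩ | rfl)
  · have h1 : A.VS (lay τ j) ≤ (Subalgebra.toSubmodule B).comap
        (LinearMap.mulRight ℂ (ev x (ℓ j))⁻¹ ∘ₗ (ev x).toLinearMap) := by
      refine A.VS_le_iff.2 fun i hi w hw => ?_
      have h2 := mul_mem (hV i w hw) ((hd j _).1 ((hm j i).2 (lay_sub_lay.2 hi)))
      rw [div_mul_div_cancel₀ (hl i), div_eq_mul_inv] at h2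
      exact h2
    rw [div_eq_mul_inv]
    exact h1 hv
  · obtain ⟨q, hq⟩ := (hId n r E K A x ℓ fs j₁ ctx).2
    have h1 := ev_mem B hxs q
    rw [eq_inv_of_mul_eq_one_left hq, sv, inv_div] at h1
    exact h1

end Pool.Agent.MP_ee8c61_ag.H95T
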