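import Pool.Agent.MP_ee8c61_ag.H95T.ESpec
import Pool.Agent.MP_ee8c61_ag.H59.RMain
import Pool.Agent.MP_ee8c61_ag.H59.RNvK

/-! Row `Vn`: the vanishing statements of the main argument. -/

namespace Pool.Agent.MP_ee8c61_ag.H95T

open H59 H59.Sys Finset

namespace VnX

variable {J : Type}

theorem ind_mono {U V : Finset J} (h : U ⊆ V) : ind U ≤ ind V := by
  classical
  intro j
  rw [ind_apply, ind_apply]
  by_cases h1 : j ∈ U
  · rw [if_pos h1, if_pos (h h1)]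
  · rw [if_neg h1]
    split_ifs <;> simp

theorem ind_le (a : J → ℕ) (V : Finset J) (h : ∀ i ∈ V, a i ≠ 0) :
    ind V ≤ fun j => (a j : ℤ) := by
  classical
  intro j
  rw [ind_apply]
  split_ifs with h1
  · change (1 : ℤ) ≤ (a j : ℤ)
    exact_mod_cast Nat.one_le_iff_ne_zero.2 (h j h1)
  · exact Int.natCast_nonneg _

theorem le_one {c c' : J → ℤ} (h : c ≤ c') : Le {c'} {c} :=
  fun _ hd => ⟨c, mem_singleton_self _, by rwa [mem_singleton.1 hd]⟩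

theorem le_KJ (c : J → ℤ) {U V : Finset J} (h : U ⊆ V) : Le (KJ c U) (KJ c V) := fun c' hc => by
  obtain ⟨i, hi, rfl⟩ := (mem_KJ _ _ _).1 hc
  exact ⟨_, (mem_KJ _ _ _).2 ⟨i, h hi, rfl⟩, le_rfl⟩

end VnX

open VnX in
theorem rowVn : OfVn := by
  intro e hEx hMv hLt hKX Ω ι J n m k _ _ _ _ _ _ _ _ S x f a kk b la c0 W B Fc q s g u hM hT
  obtain ⟨w, ρ, μ, hμ, hP, hc⟩ := hT.adm0
  have hx : ∀ c l, x l ∈ S.A c := fun c l => hP.x_mem c l.succ
  have hnv : ∀ x0 c, S.Adm (Matrix.vecCons s x) c → S.NV x x0 c := fun x0 c =>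
    hKX Ω ι J n m S x q s c x0 hM.good hT.inv
  have hA1 := (e.adm Ω ι J n (m + 1) S _ w ρ μ f (fun j => (a j : ℤ)) hP hμ hM.f_ord).1
  rw [← hc] at hA1
  have ha0 : (0 : J → ℤ) ≤ fun j => (a j : ℤ) := fun j => Int.natCast_nonneg _
  have hvy : ∀ (c c' : J → ℤ) (r : ℕ), c ≤ c' → c' ≤ c + r • (fun j => (a j : ℤ)) →
      S.Adm (Matrix.vecCons s x) c → S.Adm (Matrix.vecCons s x) c' → ∀ j ≤ (n : ℤ),
      Van (cech (we (S.th x f))) ((S.px m).T {c}) ((S.px m).T {c'}) j :=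
    fun c c' r h1 h2 h3 h4 j hj =>
      e.vy Ω ι J n m S x f a hx hM.f_ord hM.good _ _ (n - 1) r (le_one h1)
        (fun d hd => ⟨_, mem_singleton_self _, by rwa [mem_singleton.1 hd]⟩)
        (fun x0 => MainX.nvp e.cx e.cone e.lm S x x0 hx _ _ h1 (hnv x0 _ h3) (hnv x0 _ h4)) j
        (by omega)
  have hL := e.lm ℂ _ ι J n (S.px m)
  have hp : ∀ C C', Le C' C → Pair (cech (we (S.th x f))) ((S.px m).T C) ((S.px m).T C') :=
    fun C C' h => hL.pair _ C C' ((e.fo _ n).we_sq _) h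
      (e.th Ω ι J n m S x f a hx hM.f_ord).maps0
  have hK : ∀ τ, Pair (cech (we (S.th x f))) ((S.px m).T {c0}) ((S.px m).T (KJ c0 τ)) :=
    fun τ => hp _ _ (NvKX.le_KJ c0 τ)
  have hmono : Monotone fun τ => (S.px m).T (KJ c0 τ) := fun U V h => hL.T_le _ _ (le_KJ c0 h)
  have hV : ∀ V, Fc V → V ⊆ W ∧ ∀ j ≤ (n : ℤ) + 1, Van (ks (cech (we (S.th x f))) V)
      (kl V (sk fun _ => (S.px m).T {c0})) (kl V (sk fun τ => (S.px m).T (KJ c0 τ))) j := by
    intro V hF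
    obtain ⟨hW, hA⟩ := hT.adm V hF
    refine ⟨hW, fun j hj => hEx _ J _ _ _ (fun U => (S.px m).T {c0 + ind U}) V j hK
      (fun U => hp _ _ (le_one (le_add_of_nonneg_right (NvKX.ind_nonneg U)))) hmono
      (fun U U' h => hL.T_le _ _ (le_one (add_le_add_right (ind_mono h) c0))) ?_ ?_ (fun i => ?_)
      (fun i U β h1 h2 h3 => (hLt ℂ Ω ι J n S).2 (Option (Fin m)) (e.reg ℂ Ω ι J n S hM.good)
        c0 i U β h1 h2 h3) ?_⟩
    · simp only [NvKX.KJ_empty, hL.T_none]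
    · simp only [NvKX.ind_empty, add_zero]
    · exact hL.T_le _ _ fun d hd =>
        ⟨_, (mem_KJ _ _ _).2 ⟨i, mem_singleton_self i, rfl⟩, by rw [mem_singleton.1 hd]⟩
    · refine hvy c0 _ 1 (le_add_of_nonneg_right (NvKX.ind_nonneg V)) ?_ hT.adm0 hA _ (by omega)
      rw [one_smul]
      exact add_le_add_right (ind_le a V fun i hi => (hT.res i (hW hi)).1) c0
  refine ⟨fun r => hvy _ _ r (sub_le_self _ (nsmul_nonneg ha0 r)) (by rw [sub_add_cancel]) ?_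
    hT.adm0 n le_rfl, (hV W hT.top).2 _ le_rfl,
    hMv _ J _ _ _ W Fc (n + 1) hK hmono
      (fun V V' h h' => hT.inter V V' _ h h' fun i => mem_inter) hV B hT.bd _ le_rfl⟩
  have := hA1 (-(r : ℤ))
  rwa [neg_smul, natCast_zsmul, ← sub_eq_add_neg] at this

end Pool.Agent.MP_ee8c61_ag.H95T
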