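import Pool.Agent.MP_ee8c61_ag.H95T.ASpec

/-! A general point with coordinates in the field of series. -/

namespace Pool.Agent.MP_ee8c61_ag.H95T

open H95 Finset MvPolynomial

namespace XiX

theorem exf {V ι : Type} [AddCommGroup V] [Module ℂ V] [Finite ι] (U : Submodule ℂ V) (v : ι → V)
    (p : ι → Prop) (h : ∀ i, p i → v i ∉ U) :
    ∃ π : V →ₗ[ℂ] ℂ, (∀ u ∈ U, π u = 0) ∧ ∀ i, p i → π (v i) ≠ 0 := by
  obtain ⟨f, hf⟩ := Module.exists_dual_forall_apply_ne_zero (K := ℂ)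
    (fun i : {i // p i} => U.mkQ (v i)) fun i e => h i i.2 ((Submodule.Quotient.mk_eq_zero U).1 e)
  refine ⟨f.comp U.mkQ, fun u hu => ?_, fun i hi => hf ⟨i, hi⟩⟩
  rw [LinearMap.comp_apply, Submodule.mkQ_apply, (Submodule.Quotient.mk_eq_zero U).2 hu, map_zero]

variable {n : ℕ} {E : Type} [DecidableEq E] [Fintype E]

theorem sup_mem {W V : Finset (Finset E)} (h : Rng W) (hV : V ⊆ W) : tp V = ∅ ∨ tp V ∈ W := by
  refine Finset.sup_induction (p := fun S => S = ∅ ∨ S ∈ W) (Or.inl rfl) ?_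
    fun F hF => Or.inr (hV hF)
  rintro S (rfl | a) T (rfl | b)
  · exact Or.inl (by simp)
  · exact Or.inr (by simpa using b)
  · exact Or.inr (by simpa using a)
  · exact Or.inr (h.un S a T b)

theorem exπ {A : Arr n E} {ℓ : E → Pol (Fin n)} {W : Finset (Finset E)} (hG : Gen A ℓ)
    (hR : Rng W) (hW : ∀ F ∈ W, A.pm.Fl F) (ho : ee W A.o = 0) (g : Finset E → ℤ) :
    ∃ π : Pol (Fin n) →ₗ[ℂ] ℂ, (∀ u ∈ A.VS (tp (W.filter fun F => g F = 0)), π u = 0) ∧
      (∀ j, ee W j = g → π (ℓ j) ≠ 0) ∧ π 1 = if g = 0 then 1 else 0 := by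
  have h1 : ∀ j, ee W j = g → ℓ j ∉ A.VS (tp (W.filter fun F => g F = 0)) := fun j hj => by
    refine hG.gen _ j ((sup_mem hR (filter_subset _ _)).symm.imp_left (hW _)) fun e => ?_
    obtain ⟨F, hF, hjF⟩ := mem_tp.1 e
    obtain ⟨a, b⟩ := mem_filter.1 hF
    rw [← hj, ee, if_pos ⟨a, hjF⟩] at b
    exact one_ne_zero b
  split_ifs with h0
  · obtain ⟨π, p1, p2⟩ := exf _ ℓ _ h1
    have p3 : π 1 ≠ 0 := hG.one ▸ p2 A.o (ho.trans h0.symm)
    refine ⟨(π 1)⁻¹ • π, fun u hu => ?_, fun j hj => ?_, ?_⟩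
    · rw [LinearMap.smul_apply, p1 u hu, smul_zero]
    · exact smul_ne_zero (inv_ne_zero p3) (p2 j hj)
    · exact inv_mul_cancel₀ p3
  · obtain ⟨π, p1, p2⟩ := exf (A.VS (tp (W.filter fun F => g F = 0)) ⊔ Submodule.span ℂ {1}) ℓ
      (fun j => ee W j = g) fun j hj e => by
        obtain ⟨u, hu, w, hw, e⟩ := Submodule.mem_sup.1 e
        obtain ⟨c, rfl⟩ := Submodule.mem_span_singleton.1 hw
        obtain ⟨F, hF⟩ := Function.ne_iff.1 (hj.trans_ne h0)
        have hF' : F ∈ W ∧ j ∈ F := by_contra fun x => hF (if_neg x)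
        have hj' : j ∈ tp W := sub_tp hF'.1 hF'.2
        have hT : A.pm.Fl (tp W) :=
          hW _ ((sup_mem hR Subset.rfl).resolve_left (ne_empty_of_mem hj'))
        have hc : c • (1 : Pol (Fin n)) ∈ A.VS (tp W) := by
          rw [eq_sub_of_add_eq' e]
          exact sub_mem (A.le_VS hj' (hG.mem j))
            (A.VS_mono (Finset.sup_mono (filter_subset _ _)) hu)
        by_cases c0 : c = 0
        · rw [c0, zero_smul, add_zero] at e
          exact h1 j hj (e ▸ hu)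
        · exact hT.2.1 ((Submodule.smul_mem_iff _ c0).1 hc)
    exact ⟨π, fun u hu => p1 u (Submodule.mem_sup_left hu), p2,
      p1 1 (Submodule.mem_sup_right (Submodule.mem_span_singleton_self 1))⟩

end XiX

open XiX in
theorem rowXi : OfXi := by
  classical
  intro n E _ _ A T _ _ M ℓ W hG hR hW
  have ho : ee W A.o = 0 := funext fun F => if_neg fun h => (hW F h.1).o h.2
  choose π p1 p2 p3 using exπ hG hR hW ho
  have key : ∀ v ∈ Wi n, ev (fun l => ∑ g ∈ univ.image (ee W), π g (X l) • M.mo g) v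
      = ∑ g ∈ univ.image (ee W), π g v • M.mo g := by
    intro v hv
    induction hv using Submodule.span_induction with
    | mem x hx =>
      rcases hx with rfl | ⟨l, rfl⟩
      · rw [map_one, sum_eq_single_of_mem 0 (mem_image.2 ⟨A.o, mem_univ _, ho⟩) fun g _ hg => by
          rw [p3, if_neg hg, zero_smul], p3, if_pos rfl, one_smul, M.mo_zero]
      · exact aeval_X _ _
    | zero => simp
    | add x y _ _ hx hy => simp only [map_add, hx, hy, add_smul, sum_add_distrib]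
    | smul c x _ hx => simp only [map_smul, hx, smul_sum, smul_assoc]
  refine ⟨fun l => ∑ g ∈ univ.image (ee W), π g (X l) • M.mo g, fun j => ⟨fun v hv F => ?_, ?_⟩⟩
  · rw [key v (A.le j hv)]
    refine Submodule.sum_mem _ fun g hg => ?_
    by_cases h : ee W j F ≤ g F
    · exact Submodule.smul_mem _ _ (M.anti F _ _ h (M.mo_mem g F))
    · obtain ⟨i, -, rfl⟩ := mem_image.1 hg
      have h1 : (F ∈ W ∧ j ∈ F) ∧ ee W i F = 0 := by
        unfold ee at h ⊢
        split_ifs at h ⊢ <;> simp_all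
      rw [p1 _ v (A.le_VS (sub_tp (mem_filter.2 ⟨h1.1.1, h1.2⟩) h1.1.2) hv), zero_smul]
      exact zero_mem _
  · rw [key _ (A.le j (hG.mem j)), map_sum,
      sum_eq_single_of_mem (ee W j) (mem_image_of_mem _ (mem_univ j)) fun g _ hg => by
        rw [map_smul, M.co_ne _ _ hg.symm, smul_zero], map_smul, M.co_mo, smul_eq_mul, mul_one]
    exact p2 _ j rfl

end Pool.Agent.MP_ee8c61_ag.H95T
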