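import Pool.Agent.MP_ee8c61_ag.H95T.ASpec

/-! Arcs lift to the strata. -/

namespace Pool.Agent.MP_ee8c61_ag.H95T

open H95 Finset MvPolynomial

namespace XsX

theorem exists_min {α : Type} (f : α → PS) {s : Set α} (hs : s.Nonempty) :
    ∃ a ∈ s, ∀ x ∈ s, f a ∣ f x := by
  obtain ⟨_, ⟨a, ha, rfl⟩, h⟩ := wellFounded_dvdNotUnit.has_min (f '' s) (hs.image f)
  refine ⟨a, ha, fun x hx => by_contra fun c => h _ ⟨x, hx, rfl⟩ ?_⟩
  exact dvdNotUnit_of_dvd_of_not_dvd ((ValuationRing.dvd_total _ _).resolve_left c) c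

/-- The polynomials whose value is divisible by `a`. -/
noncomputable def U {n : ℕ} (b : Fin n → PS) (a : PS) : Submodule ℂ (Pol (Fin n)) :=
  ((Ideal.span {a}).restrictScalars ℂ).comap (ev b).toLinearMap

theorem mem_U {n : ℕ} {b : Fin n → PS} {a : PS} {v : Pol (Fin n)} : v ∈ U b a ↔ a ∣ ev b v :=
  Ideal.mem_span_singleton

theorem unit_of {w : PS} (h : PowerSeries.constantCoeff w ≠ 0) : IsUnit w :=
  PowerSeries.isUnit_iff_constantCoeff.2 h.isUnit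

variable {n : ℕ} {E : Type} [DecidableEq E] [Fintype E] {A : Arr n E} {τ : Finset (Finset E)}
  {y aff : Fin n → Pol (Fin n)} {L : Fin n → Finset E} {b : Fin n → PS} {v : E → Pol (Fin n)}

/-- The chain of the orders along the arc. -/
structure Ord (A : Arr n E) (τ : Finset (Finset E)) (b : Fin n → PS) (v : E → Pol (Fin n)) :
    Prop where
  ch : A.pm.Ch τ
  mem : ∀ j, v j ∈ A.V j
  min : ∀ j, ∀ u ∈ A.V j, ev b (v j) ∣ ev b u
  ne : ∀ j, ev b (v j) ≠ 0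
  iff : ∀ i j, ev b (v i) ∣ ev b (v j) ↔ lay τ j ⊆ lay τ i

theorem Ord.dvd (h : Ord A τ b v) {j : E} {u : Pol (Fin n)} (hu : u ∈ A.VS (lay τ j)) :
    ev b (v j) ∣ ev b u :=
  mem_U.1 (A.VS_le_iff.2 (fun i hi u hu => mem_U.2
    (((h.iff j i).2 (lay_sub_lay.2 hi)).trans (h.min i u hu))) hu)

theorem Ord.lay (h : Ord A τ b v) {G : Finset E} (hG : G ∈ τ) : ∃ j, lay τ j = G :=
  exists_lay h.ch.1 hG (h.ch.2 G hG).1

theorem Ord.dvd_y (h : Ord A τ b v) (ha : Ad A τ y aff L) {j : E} {q : Fin n}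
    (hj : H95T.lay τ j ∈ τ) (hq : L q ⊆ H95T.lay τ j) : ev b (v j) ∣ ev b (y q) :=
  h.dvd (ha.sp _ hj ▸ Submodule.subset_span ⟨q, hq, rfl⟩)

theorem Ord.y_dvd (h : Ord A τ b v) (ha : Ad A τ y aff L) {j : E} {a : PS}
    (hj : H95T.lay τ j ∈ τ) (hq : ∀ q, L q ⊆ H95T.lay τ j → a ∣ ev b (y q)) : a ∣ ev b (v j) := by
  refine mem_U.1 (Submodule.span_le.2 ?_ (ha.sp _ hj ▸ A.le_VS self_lay (h.mem j)))
  rintro _ ⟨q, h1, rfl⟩
  exact mem_U.2 (hq q h1)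

/-- The coordinates of the least order in their layer. -/
def Gd (τ : Finset (Finset E)) (L : Fin n → Finset E) (Y : Fin n → PS) (q : Fin n) : Prop :=
  L q ∈ τ ∧ ∀ q', L q' ⊆ L q → Y q ∣ Y q'

theorem Ord.exists_gd (h : Ord A τ b v) (ha : Ad A τ y aff L) {G : Finset E} (hG : G ∈ τ) :
    ∃ q, Gd τ L (ap y b) q ∧ L q = G := by
  obtain ⟨j, rfl⟩ := h.lay hG
  obtain ⟨q, h1, h2⟩ := exists_min (ap y b) (s := {q | L q ⊆ H95T.lay τ j}) (by_contra fun c =>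
    h.ne j (zero_dvd_iff.1 (h.y_dvd ha hG fun q hq => absurd ⟨q, hq⟩ c)))
  have h3 : L q ∈ τ := (ha.lm q).resolve_right fun e =>
    h.ch.univ (univ_subset_iff.1 (e.ge.trans h1) ▸ hG)
  obtain ⟨i, hi⟩ := h.lay h3
  have h4 : L q = H95T.lay τ j := Subset.antisymm h1 (hi ▸ (h.iff i j).1
    ((h.dvd_y ha (hi ▸ h3) hi.ge).trans (h.y_dvd ha hG h2)))
  exact ⟨q, ⟨h3, h4 ▸ h2⟩, h4⟩

theorem Ord.piv (h : Ord A τ b v) (ha : Ad A τ y aff L) : ∃ Λ : Finset (Fin n), Set.BijOn L Λ τ ∧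
    ∀ p ∈ Λ, Gd τ L (ap y b) p ∧ ∀ q, Gd τ L (ap y b) q → L q = L p → q ≤ p := by
  classical
  refine ⟨univ.filter fun p => Gd τ L (ap y b) p ∧ ∀ q, Gd τ L (ap y b) q → L q = L p → q ≤ p,
    ⟨fun p hp => (mem_filter.1 hp).2.1.1, fun p hp q hq e => ?_, fun G hG => ?_⟩,
    fun p hp => (mem_filter.1 hp).2⟩
  · exact ((mem_filter.1 hq).2.2 p (mem_filter.1 hp).2.1 e).antisymm
      ((mem_filter.1 hp).2.2 q (mem_filter.1 hq).2.1 e.symm)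
  · obtain ⟨q, hq⟩ := h.exists_gd ha hG
    obtain ⟨p, hp, hm⟩ := exists_max_image (univ.filter fun q => Gd τ L (ap y b) q ∧ L q = G) id
      ⟨q, mem_filter.2 ⟨mem_univ _, hq⟩⟩
    have h1 := (mem_filter.1 hp).2
    exact ⟨p, mem_filter.2 ⟨mem_univ _, h1.1, fun q h2 h3 =>
      hm q (mem_filter.2 ⟨mem_univ _, h2, h3.trans h1.2⟩)⟩, h1.2⟩

end XsX

open XsX in
theorem rowXs : OfXs := by
  intro hMo hTl hRd hLv n E _ _ A b ⟨p₀, hp₀, hne⟩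
  choose v hv hmin using fun j => exists_min (ev b) (s := A.V j) ⟨0, zero_mem _⟩
  have h0 : ∀ j, ev b (v j) ≠ 0 := fun j e => hne (by
    refine (Ideal.span_le.2 fun u hu => ?_ : _ ≤ RingHom.ker (ev b)) (A.I_le j hp₀)
    exact zero_dvd_iff.1 (e ▸ hmin j u hu))
  obtain ⟨τ, hτ, hiff⟩ := hLv n E A PS (ev b).toRingHom (fun j => ev b (v j))
    (fun _ _ => ValuationRing.dvd_total _ _) hmin fun j => ⟨v j, hv j, dvd_rfl⟩
  have h : Ord A τ b v := ⟨hτ, hv, hmin, h0, hiff⟩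
  refine ⟨τ, hτ, fun y aff L ha => ?_⟩
  obtain ⟨Λ, hΛ, hg⟩ := h.piv ha
  obtain ⟨w, hw⟩ := hTl E n PS L Λ (ap y b) hΛ.injOn
    (fun p hp q hq => hτ.1 _ (hΛ.mapsTo hp) _ (hΛ.mapsTo hq)) fun p hp => (hg p hp).1.2
  have mu := hMo E n τ L Λ hτ.1 hτ.univ hΛ
  have e0 : ap (ap aff (cmon L Λ)) w = b := by rw [ap_ap, hw, ← ap_ap, ha.ay, ap_X]
  have hY : ∀ q, ap y b q = ev w (cmon L Λ q) := fun q => (congrFun hw q).symm
  have hP : ∀ p ∈ Λ, ap y b p = ev w (lmon L Λ (L p)) := fun p hp => by rw [hY, mu.piv p hp]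
  have hA : ∀ j, ev b (v j) ∣ ev w (lmon L Λ (lay τ j)) ∧
      ev w (lmon L Λ (lay τ j)) ∣ ev b (v j) := fun j => by
    rcases lay_cases hτ.1 j with c | c
    · obtain ⟨p, hp, e⟩ := hΛ.surjOn c
      rw [← e, ← hP p hp]
      exact ⟨h.dvd_y ha c e.le, h.y_dvd ha c (e ▸ (hg p hp).1.2)⟩
    · rw [c, mu.univ, map_one]
      exact ⟨map_one (ev b) ▸ h.dvd (by rw [c, A.VS_univ]; exact one_mem_Wi n), one_dvd _⟩
  have h1 : ∀ p ∈ Λ, bs w p = 0 := fun p hp => by_contra fun c => by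
    have hG : L p ∈ τ := hΛ.mapsTo hp
    obtain ⟨j, hj⟩ := h.lay hG
    obtain ⟨j', a1, a2⟩ := exists_of_ssubset (ssub_suc hτ.1 fun e : L p = univ => hτ.univ (e ▸ hG))
    have hj' := (lay_eq_suc hτ.1 hG hτ.univ).2 (mem_sdiff.2 ⟨a1, a2⟩)
    refine a2 (hj ▸ (hiff j j').1 ((hA j).1.trans (Dvd.dvd.trans ?_ (hA j').2)) self_lay)
    rw [hj, hj', mu.suc p hp, map_mul, aeval_X]
    exact ((unit_of c).mul_left_dvd).2 dvd_rfl
  refine ⟨Λ, w, hΛ, ⟨⟨h1, fun p hp q e hq => by_contra fun c => ?_⟩, fun j hj => ?_⟩, e0⟩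
  · have h2 : ap y b q ∣ ap y b p := by
      rw [hY q, mu.non q fun h' => hq.ne' (hΛ.injOn h' hp e), map_mul, aeval_X, e, ← hP p hp]
      exact ((unit_of c).mul_left_dvd).2 dvd_rfl
    exact hq.not_ge ((hg p hp).2 q
      ⟨e ▸ hΛ.mapsTo hp, fun q' h' => h2.trans ((hg p hp).1.2 q' (e ▸ h'))⟩ e)
  · obtain ⟨u, e1, e2⟩ := (hRd n E A τ y aff L Λ ⟨hτ, ha, hΛ⟩).1 j (v j) (A.le_VS self_lay (hv j))
    obtain ⟨c, hc⟩ := (hA j).1
    have e3 : ev b (v j) * 1 = ev b (v j) * (c * ev w u) := by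
      rw [← mul_assoc, ← hc, ← map_mul, ← e1, ← ev_ap, e0, mul_one]
    have e4 := congrArg PowerSeries.constantCoeff (mul_left_cancel₀ (h0 j) e3)
    rw [map_mul, bs_ev, e2 _ h1, hj _ (hv j)] at e4
    simp at e4

end Pool.Agent.MP_ee8c61_ag.H95T
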