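import Pool.Agent.MP_ee8c61_ag.H95T.CSpec

/-! The product of `b` and the zeta function is a polynomial. -/

namespace Pool.Agent.MP_ee8c61_ag.H95T

open Finset

namespace ZX

theorem pol (R : RatFunc ℂ) (h : ∀ la : ℂ, ∃ p q : Polynomial ℂ, q.eval (-la) ≠ 0 ∧
    algebraMap _ (RatFunc ℂ) q * R = algebraMap _ (RatFunc ℂ) p) :
    R ∈ (algebraMap (Polynomial ℂ) (RatFunc ℂ)).range := by
  have h1 : R.denom.degree = 0 := by_contra fun hd => by
    obtain ⟨z, hz⟩ := IsAlgClosed.exists_root _ hd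
    obtain ⟨p, q, h1, h2⟩ := h (-z)
    have hq : q ≠ 0 := fun e => h1 (by simp [e])
    have := (RatFunc.denom_dvd hq).2 ⟨p, (eq_div_iff (RatFunc.algebraMap_ne_zero hq)).2
      ((mul_comm _ _).trans h2)⟩
    exact h1 (by rw [neg_neg]; exact hz.dvd this)
  refine ⟨R.num, ?_⟩
  have h2 := RatFunc.num_div_denom R
  rwa [(RatFunc.monic_denom R).degree_le_zero_iff_eq_one.1 h1.le, map_one, div_one] at h2

theorem mx_iff {E : Type} [DecidableEq E] {W τ0 τ : Finset (Finset E)} (h : Mx W τ0) :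
    Mx W τ ↔ τ ∈ chs W τ0.card := by
  rw [mem_chs]
  exact ⟨fun g => ⟨g.1, g.2.1, le_antisymm (h.2.2 _ g.1 g.2.1) (g.2.2 _ h.1 h.2.1)⟩,
    fun g => ⟨g.1, g.2.1, g.2.2 ▸ h.2.2⟩⟩

end ZX

open ZX in
theorem rowZ : OfZ := by
  intro ha hb hc h4 E _ _ P b hR
  classical
  have key : ∀ τ, (if P.Ch τ then (P.coef τ : RatFunc ℂ) * ∏ F ∈ τ, (P.lf F)⁻¹ else 0) =
      ∑ W ∈ univ.filter P.Gd,
        if Mx W τ then (P.coef τ : RatFunc ℂ) * ∏ F ∈ τ, (P.lf F)⁻¹ else 0 := fun τ => by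
    by_cases h : ∃ W, P.Gd W ∧ Mx W τ
    · obtain ⟨W, h1, h2⟩ := h
      rw [sum_eq_single W (fun W' g1 g2 => if_neg fun g3 =>
        g2 (hb E P W' W τ (mem_filter.1 g1).2 h1 g3 h2))
        (fun g => absurd (mem_filter.2 ⟨mem_univ _, h1⟩) g), if_pos h2, if_pos]
      obtain ⟨t, D, h1⟩ := h1
      exact ⟨h2.2.1, fun F hF => h1.fl F (h2.1 hF)⟩
    · rw [sum_eq_zero fun W g => if_neg fun g3 => h ⟨W, (mem_filter.1 g).2, g3⟩]
      split_ifs with g
      · have : P.coef τ = 0 := by_contra fun e => h (ha E P τ g fun F hF e' =>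
          e (mul_eq_zero_of_right _ (prod_eq_zero hF e')))
        rw [this, Int.cast_zero, zero_mul]
      · rfl
  have h1 : algebraMap _ (RatFunc ℂ) b * P.Zc ∈
      (algebraMap (Polynomial ℂ) (RatFunc ℂ)).range := by
    rw [PM.Zc, sum_filter, sum_congr rfl fun τ _ => key τ, sum_comm, mul_sum]
    refine sum_mem fun W hW => ?_
    have hW := (mem_filter.1 hW).2
    by_cases h : ∃ τ0, Mx W τ0
    · obtain ⟨τ0, h⟩ := h
      have e : (∑ τ, if Mx W τ then (P.coef τ : RatFunc ℂ) * ∏ F ∈ τ, (P.lf F)⁻¹ else 0) =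
          P.coef τ0 * LL P.lf W τ0.card := by
        rw [← sum_filter, LL, mul_sum]
        refine sum_congr (by ext τ; simp [mx_iff h]) fun τ hτ => ?_
        rw [hc E P W τ τ0 hW ((mx_iff h).2 hτ) h]
      rw [e, mul_left_comm]
      refine mul_mem (intCast_mem _ _) (pol _ fun la => ?_)
      obtain ⟨p, q, g1, g2⟩ := h4 E P b hR la _ W hW h.2.2
      exact ⟨p, q, g1, by rw [← g2, map_mul]; ring⟩
    · rw [sum_eq_zero fun τ _ => if_neg fun g => h ⟨τ, g⟩, mul_zero]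
      exact zero_mem _
  obtain ⟨Q, hQ⟩ := h1
  exact ⟨Q, hQ.symm⟩

end Pool.Agent.MP_ee8c61_ag.H95T
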