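import Pool.Agent.MP_ee8c61_ag.H95T.CSpec

/-! A chain with connected minors is a largest chain of a tight family. -/

namespace Pool.Agent.MP_ee8c61_ag.H95T

open Finset

namespace ZaX

variable {E : Type} [DecidableEq E] {P : PM E} {τ : Finset (Finset E)}

theorem ui {g : E → ℕ} (h : ∀ S, ∑ j ∈ S, g j ≤ P.r S) {S T : Finset E}
    (hS : ∑ j ∈ S, g j = P.r S) (hT : ∑ j ∈ T, g j = P.r T) :
    ∑ j ∈ S ∪ T, g j = P.r (S ∪ T) ∧ ∑ j ∈ S ∩ T, g j = P.r (S ∩ T) := by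
  have h1 := sum_union_inter (s₁ := S) (s₂ := T) (f := g)
  have h2 := P.sub S T
  have h3 := h (S ∪ T)
  have h4 := h (S ∩ T)
  omega

/-- The family of vectors. -/
structure Fam (P : PM E) (τ : Finset (Finset E)) (g : Finset E × Finset E → E → ℕ) : Prop where
  le : ∀ i S, ∑ j ∈ S, g i j ≤ P.r S
  eq : ∀ i, ∀ S ∈ τ, ∑ j ∈ S, g i j = P.r S
  mid : ∀ F ∈ τ, ∀ B ⊆ F, ∑ j ∈ pred τ F ∪ B, g (F, B) j = P.r (pred τ F ∪ B)

theorem fam [Fintype E] (hG : SGd) (P : PM E) (h : Chn τ) : ∃ g, Fam P τ g := by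
  have key : ∀ i : Finset E × Finset E, ∃ g : E → ℕ, (∀ S, ∑ j ∈ S, g j ≤ P.r S) ∧
      (∀ S ∈ τ, ∑ j ∈ S, g j = P.r S) ∧
      (i.1 ∈ τ → i.2 ⊆ i.1 → ∑ j ∈ pred τ i.1 ∪ i.2, g j = P.r (pred τ i.1 ∪ i.2)) := by
    rintro ⟨F, B⟩
    by_cases hc : F ∈ τ ∧ B ⊆ F
    · obtain ⟨g, h1, h2⟩ := hG E P (insert (pred τ F ∪ B) τ) (chn_insert h fun G hG' => by
        by_cases e : F ⊆ G
        · exact Or.inl ((union_subset pred_sub hc.2).trans e)
        · exact Or.inr ((sub_pred hG' ⟨(h F hc.1 G hG').resolve_left e, e⟩).trans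
            subset_union_left))
      exact ⟨g, h1, fun S hS => h2 S (mem_insert_of_mem hS), fun _ _ => h2 _ (mem_insert_self _ _)⟩
    · obtain ⟨g, h1, h2⟩ := hG E P τ h
      exact ⟨g, h1, h2, fun a b => absurd ⟨a, b⟩ hc⟩
  choose g h1 h2 h3 using key
  exact ⟨g, h1, h2, fun F hF B hB => h3 (F, B) hF hB⟩

variable {g : Finset E × Finset E → E → ℕ}

theorem Fam.pr (hg : Fam P τ g) (h : Chn τ) (i : Finset E × Finset E) (F : Finset E) :
    ∑ j ∈ pred τ F, g i j = P.r (pred τ F) := by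
  rcases pred_mem h F with e | e
  · rw [e, sum_empty, P.r0]
  · exact hg.eq i _ e.1

theorem blk [Fintype E] (hZ : SZd) (hg : Fam P τ g) (h : Chn τ)
    (hb : ∀ F ∈ τ, P.be (pred τ F) F ≠ 0) {T F : Finset E}
    (hT : ∀ i, ∑ j ∈ T, g i j = P.r T) (hF : F ∈ τ) {j : E} (hj : j ∈ T)
    (hj' : j ∈ F \ pred τ F) : F \ pred τ F ⊆ T := by
  by_contra hn
  have hQ : pred τ F ⊆ F := pred_sub
  refine hb F hF (hZ E P (pred τ F) F (T ∩ (F \ pred τ F)) hQ inter_subset_right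
    ⟨j, mem_inter.2 ⟨hj, hj'⟩⟩ (fun e => hn (e ▸ inter_subset_left)) ?_)
  set Q := pred τ F with hQd
  set A := T ∩ (F \ Q) with hA
  have e1 : Q ∪ (F \ A) = F \ A := by
    ext x
    have := @hQ x
    simp only [hA, mem_union, mem_sdiff, mem_inter]
    tauto
  have e2 : (T ∪ Q) ∩ F = Q ∪ A := by
    ext x
    have := @hQ x
    simp only [hA, mem_union, mem_sdiff, mem_inter]
    tauto
  have e3 : (Q ∪ A) ∪ (F \ A) = F := by
    ext x
    have := @hQ x
    simp only [hA, mem_union, mem_sdiff, mem_inter]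
    tauto
  have e4 : (Q ∪ A) ∩ (F \ A) = Q := by
    ext x
    have := @hQ x
    simp only [hA, mem_union, mem_sdiff, mem_inter]
    tauto
  have a1 := hg.mid F hF (F \ A) sdiff_subset
  rw [← hQd, e1] at a1
  have a0 := hg.pr h (F, F \ A) F
  rw [← hQd] at a0
  have a2 := (ui (hg.le (F, F \ A)) (ui (hg.le (F, F \ A)) (hT _) a0).1 (hg.eq _ F hF)).2
  rw [e2] at a2
  have a3 := sum_union_inter (s₁ := Q ∪ A) (s₂ := F \ A) (f := g (F, F \ A))
  rw [e3, e4, hg.eq _ F hF] at a3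
  omega

theorem flat [Fintype E] (hg : Fam P τ g) (h : P.Ch τ) {T : Finset E} (hne : T.Nonempty)
    (hs : T ⊆ tp τ) (hT : ∀ i, ∑ j ∈ T, g i j = P.r T) : P.Fl T := by
  have ht : tp τ ∈ τ := by
    obtain ⟨x, hx⟩ := hne
    obtain ⟨F, hF, -⟩ := mem_tp.1 (hs hx)
    exact tp_mem h.1 ⟨F, hF⟩
  refine ⟨hne, P.Nle _ _ hs (h.2 _ ht).2.1, fun j hj => by_contra fun hn => ?_⟩
  have hjt : j ∈ tp τ := by
    refine (h.2 _ ht).2.2 j (le_antisymm ?_ (P.mono (subset_insert _ _)))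
    have a1 := P.sub (insert j T) (tp τ)
    have a2 : P.r T ≤ P.r (insert j T ∩ tp τ) := P.mono (subset_inter (subset_insert _ _) hs)
    rw [insert_union, union_eq_right.2 hs] at a1
    omega
  have hF := lay_mem h.1 hjt
  have hj' := mem_sdiff.1 ((lay_eq h.1 hF).1 (rfl : lay τ j = lay τ j))
  set F := lay τ j
  have a1 := hg.le (F, {j}) (insert j T)
  rw [sum_insert hn, hT] at a1
  have a2 := hg.mid F hF {j} (singleton_subset_iff.2 hj'.1)
  rw [union_comm, ← insert_eq, sum_insert hj'.2, hg.pr h.1] at a2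
  have a3 : P.r (insert j (pred τ F)) = P.r (pred τ F) := by omega
  rcases pred_mem h.1 F with e | e
  · rw [e, P.r0, insert_empty_eq] at a3
    exact (P.pos j).ne' a3
  · exact hj'.2 ((h.2 _ e.1).2.2 j a3)

theorem sum_t [Fintype E] (S : Finset E) :
    ∑ j ∈ S, ((∑ i, g i j : ℕ) - (if j ∈ tp τ then 0 else 1) : ℤ) =
      (∑ i, ∑ j ∈ S, g i j : ℕ) - (S \ tp τ).card := by
  rw [sum_sub_distrib, ← Nat.cast_sum, sum_comm, sum_ite, sum_const_zero, zero_add, sum_const,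
    nsmul_one, sdiff_eq_filter]

end ZaX

open ZaX in
theorem rowZa : OfZa := by
  intro hG hZ E _ _ P τ h hb
  obtain ⟨g, hg⟩ := fam hG P h.1
  set W := univ.filter fun T : Finset E =>
    T.Nonempty ∧ T ⊆ tp τ ∧ ∀ i, ∑ j ∈ T, g i j = P.r T with hW
  have mW : ∀ T, T ∈ W ↔ T.Nonempty ∧ T ⊆ tp τ ∧ ∀ i, ∑ j ∈ T, g i j = P.r T := fun T => by
    simp only [hW, mem_filter, mem_univ, true_and]
  have fl : ∀ T ∈ W, P.Fl T := fun T hT =>
    flat hg h ((mW T).1 hT).1 ((mW T).1 hT).2.1 ((mW T).1 hT).2.2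
  have hle : ∀ S, ∑ i, ∑ j ∈ S, g i j ≤ Fintype.card (Finset E × Finset E) * P.r S := fun S =>
    (sum_le_sum fun i _ => hg.le i S).trans (by rw [sum_const, smul_eq_mul, card_univ])
  refine ⟨W, ⟨fun j => (∑ i, g i j : ℕ) - (if j ∈ tp τ then 0 else 1),
    Fintype.card (Finset E × Finset E), ⟨⟨fun e => ?_, fun e => (fl _ e).o (mem_univ _),
    fun F hF G hG' => ?_, fun F hF G hG' => ?_⟩, fl, Fintype.card_pos, fun F _ => ?_,
    fun F hF => ?_⟩⟩, fun F hF => ?_, h.1, fun ρ hρ hc => ?_⟩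
  · exact not_nonempty_empty ((mW _).1 e).1
  · obtain ⟨a1, a2, a3⟩ := (mW F).1 hF
    obtain ⟨-, b2, b3⟩ := (mW G).1 hG'
    exact (mW _).2 ⟨a1.mono subset_union_left, union_subset a2 b2,
      fun i => (ui (hg.le i) (a3 i) (b3 i)).1⟩
  · obtain ⟨-, a2, a3⟩ := (mW F).1 hF
    obtain ⟨-, -, b3⟩ := (mW G).1 hG'
    exact (F ∩ G).eq_empty_or_nonempty.imp_right fun e => (mW _).2
      ⟨e, inter_subset_left.trans a2, fun i => (ui (hg.le i) (a3 i) (b3 i)).2⟩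
  · rw [sum_t]
    have := hle F
    zify at this
    push_cast
    omega
  · rw [sum_t, mW, ← Nat.cast_mul]
    have a := hle F
    refine ⟨fun e => ⟨hF.1, ?_, fun i => ?_⟩, fun ⟨_, a2, a3⟩ => ?_⟩
    · exact sdiff_eq_empty_iff_subset.1 (card_eq_zero.1 (by omega))
    · have e' : ∑ i, ∑ j ∈ F, g i j = ∑ _i : Finset E × Finset E, P.r F := by
        rw [sum_const, smul_eq_mul, card_univ]
        omega
      exact (sum_eq_sum_iff_of_le fun i _ => hg.le i F).1 e' i (mem_univ _)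
    · rw [sdiff_eq_empty_iff_subset.2 a2, card_empty, sum_congr rfl fun i _ => a3 i, sum_const,
        smul_eq_mul, card_univ, Nat.cast_zero, sub_zero]
  · exact (mW F).2 ⟨(h.2 F hF).1, sub_tp hF, fun i => hg.eq i F hF⟩
  · have st : ∀ S, ∀ T ∈ W, S ⊂ T → (τ.filter fun F => F \ pred τ F ⊆ S).card <
        (τ.filter fun F => F \ pred τ F ⊆ T).card := fun S T hT hST => by
      obtain ⟨-, a2, a3⟩ := (mW T).1 hT
      obtain ⟨j, j1, j2⟩ := exists_of_ssubset hST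
      have hF := lay_mem h.1 (a2 j1)
      have hj := (lay_eq h.1 hF).1 (rfl : lay τ j = lay τ j)
      refine card_lt_card ⟨fun F hF' => mem_filter.2 ⟨(mem_filter.1 hF').1,
        (mem_filter.1 hF').2.trans hST.subset⟩, fun e => j2 ?_⟩
      exact (mem_filter.1 (e (mem_filter.2 ⟨hF, blk hZ hg h.1 hb a3 hF j1 hj⟩))).2 hj
    have := card_le_card_of_injOn (s := ρ) (t := Icc 1 τ.card)
      (fun T => (τ.filter fun F => F \ pred τ F ⊆ T).card) (fun T hT => ?_) fun S hS T hT e => ?_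
    · simpa using this
    · have hT' := hρ (mem_coe.1 hT)
      have := st ∅ T hT' (empty_ssubset.2 ((mW T).1 hT').1)
      exact mem_coe.2 (mem_Icc.2 ⟨by beta_reduce; omega, card_filter_le _ _⟩)
    · by_contra hne
      beta_reduce at e
      rcases hc S (mem_coe.1 hS) T (mem_coe.1 hT) with a | a
      · exact (st S T (hρ (mem_coe.1 hT)) (a.ssubset_of_ne hne)).ne e
      · exact (st T S (hρ (mem_coe.1 hS)) (a.ssubset_of_ne (Ne.symm hne))).ne e.symm

end Pool.Agent.MP_ee8c61_ag.H95T
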