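import Pool.Agent.MP_ee8c61_ag.H95T.CSpec

/-! The family is determined by the chain. -/

namespace Pool.Agent.MP_ee8c61_ag.H95T

open Finset

namespace ZbX

variable {E : Type} [DecidableEq E] [Fintype E] {P : PM E} {W W' τ : Finset (Finset E)}

theorem key {t : E → ℤ} {D : ℕ} (h : P.Tight W t D) (m : Mx W τ) {T : Finset E} (h1 : T ⊆ tp τ)
    (h2 : ∀ i j, lay τ i = lay τ j → i ∈ T → j ∈ T) : ∑ j ∈ T, t j =
      D * ∑ F ∈ τ, if F \ pred τ F ⊆ T then (P.r F : ℤ) - P.r (pred τ F) else 0 := by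
  have e : ∀ F ∈ τ, ∑ j ∈ F, t j = D * P.r F := fun F hF =>
    (h.eq F (h.fl F (m.1 hF))).2 (m.1 hF)
  rw [← sum_fiberwise_of_maps_to (g := lay τ) (fun j hj => lay_mem m.2.1 (h1 hj)), mul_sum]
  refine sum_congr rfl fun F hF => ?_
  split_ifs with c
  · rw [show T.filter (lay τ · = F) = F \ pred τ F from Finset.ext fun j => by
      rw [mem_filter, lay_eq m.2.1 hF]; exact and_iff_right_of_imp fun a => c a,
      sum_sdiff_eq_sub pred_sub, e F hF, mul_sub]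
    rcases pred_mem m.2.1 F with a | a
    · simp [a, P.r0]
    · rw [e _ a.1]
  · rw [filter_false_of_mem fun i hi a => c fun j hj =>
      h2 i j (a.trans ((lay_eq m.2.1 hF).2 hj).symm) hi, sum_empty, mul_zero]

theorem sub (hB : SBl) (h : P.Gd W) (h' : P.Gd W') (m : Mx W τ) (m' : Mx W' τ) : W ⊆ W' := by
  obtain ⟨t, D, h⟩ := h
  obtain ⟨t', D', h'⟩ := h'
  intro T hT
  obtain ⟨h1, h2⟩ := (hB E W h.rng).1 τ m T hT
  refine (h'.eq T (h.fl T hT)).1 ?_
  rw [key h' m' h1 h2, ← mul_left_cancel₀ (Nat.cast_ne_zero.2 h.pos.ne')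
    (((h.eq T (h.fl T hT)).2 hT).symm.trans (key h m h1 h2))]

end ZbX

theorem rowZb : OfZb := fun hB _ _ _ _ _ _ _ h h' m m' =>
  (ZbX.sub hB h h' m m').antisymm (ZbX.sub hB h' h m' m)

end Pool.Agent.MP_ee8c61_ag.H95T
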