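import Pool.Agent.MP_ee8c61_ag.H95T.CSpec

/-! The coefficient of a largest chain depends only on the family. -/

namespace Pool.Agent.MP_ee8c61_ag.H95T

open Finset

namespace ZcX

variable {E : Type} [DecidableEq E] [Fintype E] {P : PM E} {W τ τ' : Finset (Finset E)}
  {t : E → ℤ} {D : ℕ}

theorem val (h : P.Tight W t D) {F : Finset E} (hF : F = ∅ ∨ F ∈ W) :
    ∑ j ∈ F, t j = D * P.r F := by
  rcases hF with rfl | hF
  · simp [P.r0]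
  · exact (h.eq F (h.fl F hF)).2 hF

theorem int (h : Rng W) {F G : Finset E} (hF : F = ∅ ∨ F ∈ W) (hG : G = ∅ ∨ G ∈ W) :
    F ∩ G = ∅ ∨ F ∩ G ∈ W := by
  rcases hF with rfl | hF
  · simp
  rcases hG with rfl | hG
  · simp
  exact h.int F hF G hG

omit [Fintype E] in
theorem sets {Q Q' B S : Finset E} (hQ : Q ⊆ Q') (hB : Disjoint Q' B) (hS : S ⊆ B) :
    Q ∪ S ∪ Q' = Q' ∪ S ∧ (Q ∪ S) ∩ Q' = Q ∧ Q ∪ B ∪ (Q' ∪ S) = Q' ∪ B ∧
      (Q ∪ B) ∩ (Q' ∪ S) = Q ∪ S := by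
  refine ⟨?_, ?_, ?_, ?_⟩ <;> ext i <;> have h1 := @hQ i <;> have h2 := @hS i <;>
    have h3 := @disjoint_left.1 hB i <;> clear hQ hS hB <;> simp only [mem_union, mem_inter] <;>
    tauto

theorem key (h : P.Tight W t D) {Q Q' B S : Finset E} (hQ : Q ⊆ Q') (hB : Disjoint Q' B)
    (h1 : Q = ∅ ∨ Q ∈ W) (h2 : Q' = ∅ ∨ Q' ∈ W) (h3 : Q ∪ B = ∅ ∨ Q ∪ B ∈ W)
    (h4 : Q' ∪ B = ∅ ∨ Q' ∪ B ∈ W) (hS : S ⊆ B) :
    (P.r (Q ∪ B) : ℤ) - P.r (Q ∪ S) = P.r (Q' ∪ B) - P.r (Q' ∪ S) := by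
  have e1 := val h h1
  have e2 := val h h2
  have e3 := val h h3
  have e4 := val h h4
  rw [sum_union (hB.mono_left hQ)] at e3
  rw [sum_union hB] at e4
  have e5 : (P.r (Q ∪ B) : ℤ) - P.r Q = P.r (Q' ∪ B) - P.r Q' :=
    mul_left_cancel₀ (a := (D : ℤ)) (by exact_mod_cast h.pos.ne') (by linarith)
  have s1 := P.sub (Q ∪ S) Q'
  have s2 := P.sub (Q ∪ B) (Q' ∪ S)
  obtain ⟨a1, a2, a3, a4⟩ := sets hQ hB hS
  rw [a1, a2] at s1
  rw [a3, a4] at s2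
  omega

theorem be_eq (h : P.Tight W t D) {Q Q' F F' : Finset E} (hQ : Q ⊆ F) (hQ' : Q' ⊆ F')
    (h1 : Q = ∅ ∨ Q ∈ W) (h2 : Q' = ∅ ∨ Q' ∈ W) (h3 : F ∈ W) (h4 : F' ∈ W)
    (e : F \ Q = F' \ Q') : P.be Q F = P.be Q' F' := by
  have a1 : Q ∪ F \ Q = F := union_sdiff_of_subset hQ
  have a2 : Q' ∪ F \ Q = F' := e ▸ union_sdiff_of_subset hQ'
  have a3 : Q ∩ Q' ∪ F \ Q = F ∩ F' := by rw [inter_union_distrib_right, a1, a2]
  have a4 := int h.rng h1 h2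
  have a5 := int h.rng (Or.inr h3) (Or.inr h4)
  unfold PM.be
  rw [← e]
  refine sum_congr rfl fun S hS => congrArg _ ?_
  have k1 := key h (B := F \ Q) inter_subset_left disjoint_sdiff a4 h1 (a3 ▸ a5)
    (Or.inr (a1.symm ▸ h3)) (mem_powerset.1 hS)
  have k2 := key h (B := F \ Q) inter_subset_right (e ▸ disjoint_sdiff) a4 h2 (a3 ▸ a5)
    (Or.inr (a2.symm ▸ h4)) (mem_powerset.1 hS)
  rw [a1] at k1
  rw [a2] at k2
  rw [← k1, k2]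

theorem lay_of (hτ : τ' ⊆ W)
    (h : ∀ T ∈ W, T ⊆ tp τ ∧ ∀ i j, lay τ i = lay τ j → i ∈ T → j ∈ T) {i j : E}
    (e : lay τ i = lay τ j) : lay τ' i = lay τ' j := by
  ext l
  simp only [mem_lay]
  exact ⟨fun k G hG hj => k G hG ((h G (hτ hG)).2 j i e.symm hj),
    fun k G hG hi => k G hG ((h G (hτ hG)).2 i j e hi)⟩

end ZcX

open ZcX in
theorem rowZc : OfZc := by
  rintro hB E _ _ P W τ τ' ⟨t, D, h⟩ m m'
  have b := (hB E W h.rng).1 τ m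
  have b' := (hB E W h.rng).1 τ' m'
  have ne : ∀ F ∈ W, F.Nonempty := fun F hF => (h.fl F hF).1
  have e : tp τ = tp τ' := Subset.antisymm
    (fun j hj => (mem_tp.1 hj).elim fun F hF => (b' F (m.1 hF.1)).1 hF.2)
    fun j hj => (mem_tp.1 hj).elim fun F hF => (b F (m'.1 hF.1)).1 hF.2
  choose j hj using fun F (hF : F ∈ τ) => exists_lay m.2.1 hF (ne F (m.1 hF))
  have hm : ∀ F (hF : F ∈ τ), lay τ' (j F hF) ∈ τ' := fun F hF =>
    lay_mem m'.2.1 (e ▸ sub_tp hF ((lay_sub hF).1 (hj F hF).subset))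
  unfold PM.coef
  rw [e]
  refine congrArg _ (prod_bij (fun F hF => lay τ' (j F hF)) hm (fun F hF G hG k => ?_)
    (fun F' hF' => ?_) fun F hF => ?_)
  · rw [← hj F hF, ← hj G hG]
    exact lay_of m.1 b' k
  · obtain ⟨i, hi⟩ := exists_lay m'.2.1 hF' (ne F' (m'.1 hF'))
    have hl : lay τ i ∈ τ := lay_mem m.2.1 (e ▸ sub_tp hF' ((lay_sub hF').1 hi.subset))
    exact ⟨_, hl, (lay_of m'.1 b (hj _ hl)).trans hi⟩
  · refine be_eq h pred_sub pred_sub ((pred_mem m.2.1 F).imp_right fun k => m.1 k.1)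
      ((pred_mem m'.2.1 _).imp_right fun k => m'.1 k.1) (m.1 hF) (m'.1 (hm F hF)) ?_
    ext i
    rw [← lay_eq m.2.1 hF, ← lay_eq m'.2.1 (hm F hF)]
    exact ⟨fun k => lay_of m'.1 b (k.trans (hj F hF).symm),
      fun k => (lay_of m.1 b' k).trans (hj F hF)⟩

end Pool.Agent.MP_ee8c61_ag.H95T
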