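import Pool.Agent.MP_ee8c61_ag.H95T.CSpec

/-! The beta invariant vanishes if there is a separator. -/

namespace Pool.Agent.MP_ee8c61_ag.H95T

open Finset

namespace ZdX

variable {E : Type} [DecidableEq E]

theorem alt {D : Finset E} {b : E} (hb : b ∈ D) (f : Finset E → ℤ)
    (h : ∀ S, f (insert b S) = f S) : ∑ S ∈ D.powerset, (-1) ^ S.card * f S = 0 := by
  rw [← insert_erase hb, sum_powerset_insert (notMem_erase b D), ← sum_add_distrib]
  refine sum_eq_zero fun S hS => ?_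
  rw [card_insert_of_notMem fun e => notMem_erase b D (mem_powerset.1 hS e), h]
  ring

theorem split (P : PM E) {Q F A S : Finset E} (hQ : Q ⊆ F) (hA : A ⊆ F \ Q) (hS : S ⊆ F \ Q)
    (h : P.r (Q ∪ A) + P.r (F \ A) = P.r F + P.r Q) :
    P.r (Q ∪ S) + P.r Q = P.r (Q ∪ S ∩ A) + P.r (Q ∪ S \ A) := by
  have a := fun j => @hQ j
  have b := fun j => @hA j
  have c := fun j => @hS j
  simp only [mem_sdiff] at b c
  have h1 := P.sub (Q ∪ S ∩ A) (Q ∪ S \ A)
  have h2 := P.sub (Q ∪ S) (Q ∪ A)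
  have h3 := P.sub ((Q ∪ S) ∪ (Q ∪ A)) (F \ A)
  have e1 : Q ∪ S ∩ A ∪ (Q ∪ S \ A) = Q ∪ S := by
    ext j
    simp only [mem_union, mem_inter, mem_sdiff]
    tauto
  have e2 : (Q ∪ S ∩ A) ∩ (Q ∪ S \ A) = Q := by
    ext j
    simp only [mem_union, mem_inter, mem_sdiff]
    tauto
  have e3 : (Q ∪ S) ∩ (Q ∪ A) = Q ∪ S ∩ A := (union_inter_distrib_left Q S A).symm
  have e4 : Q ∪ S ∪ (Q ∪ A) ∪ F \ A = F := by
    ext j
    have := a j
    have := b j
    have := c j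
    simp only [mem_union, mem_sdiff]
    tauto
  have e5 : (Q ∪ S ∪ (Q ∪ A)) ∩ (F \ A) = Q ∪ S \ A := by
    ext j
    have := a j
    have := b j
    have := c j
    simp only [mem_union, mem_inter, mem_sdiff]
    tauto
  rw [e1, e2] at h1
  rw [e3] at h2
  rw [e4, e5] at h3
  omega

end ZdX

open ZdX in
theorem rowZd : OfZd := by
  intro E _ _ P Q F A hQ hA hne hA' h
  obtain ⟨a, ha⟩ := hne
  obtain ⟨b, hb, hb'⟩ := exists_of_ssubset (hA.ssubset_of_ne hA')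
  have h1 := alt hb (fun S => (P.r F : ℤ) + P.r Q - P.r (Q ∪ S ∩ A)) fun S => by
    rw [insert_inter_of_notMem hb']
  have h2 := alt (hA ha) (fun S => (P.r (Q ∪ S \ A) : ℤ)) fun S => by
    rw [insert_sdiff_of_mem _ ha]
  rw [PM.be, ← sub_self (0 : ℤ)]
  nth_rw 1 [← h1]
  rw [← h2, ← sum_sub_distrib]
  refine sum_congr rfl fun S hS => ?_
  have := split P hQ hA (mem_powerset.1 hS) h
  have e : (P.r (Q ∪ S) : ℤ) = P.r (Q ∪ S ∩ A) + P.r (Q ∪ S \ A) - P.r Q := by omega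
  rw [e]
  ring

end Pool.Agent.MP_ee8c61_ag.H95T
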