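import Pool.Agent.MP_ee8c61_ag.H95T.Asm
import Pool.Agent.MP_ee8c61_ag.H59.Final
import Pool.Agent.MP_ee8c61_ag.H95G.EXT
import Pool.Agent.MP_ee8c61_ag.H95G.BS
import Pool.Agent.MP_ee8c61_ag.H95G.BS2
import Pool.Agent.MP_ee8c61_ag.H95G.PHI
import Pool.Agent.MP_ee8c61_ag.H95T.REx
import Pool.Agent.MP_ee8c61_ag.H95T.RMv
import Pool.Agent.MP_ee8c61_ag.H95T.RMu
import Pool.Agent.MP_ee8c61_ag.H95T.RLw
import Pool.Agent.MP_ee8c61_ag.H95T.RDc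
import Pool.Agent.MP_ee8c61_ag.H95T.RPr
import Pool.Agent.MP_ee8c61_ag.H95T.RLt
import Pool.Agent.MP_ee8c61_ag.H95T.RKX
import Pool.Agent.MP_ee8c61_ag.H95T.RTr
import Pool.Agent.MP_ee8c61_ag.H95T.RPs
import Pool.Agent.MP_ee8c61_ag.H95T.RPv
import Pool.Agent.MP_ee8c61_ag.H95T.RSc
import Pool.Agent.MP_ee8c61_ag.H95T.RVn
import Pool.Agent.MP_ee8c61_ag.H95T.RM0
import Pool.Agent.MP_ee8c61_ag.H95T.RMF
import Pool.Agent.MP_ee8c61_ag.H95T.RGd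
import Pool.Agent.MP_ee8c61_ag.H95T.RBl
import Pool.Agent.MP_ee8c61_ag.H95T.RRg
import Pool.Agent.MP_ee8c61_ag.H95T.RCb
import Pool.Agent.MP_ee8c61_ag.H95T.RCl
import Pool.Agent.MP_ee8c61_ag.H95T.RZd
import Pool.Agent.MP_ee8c61_ag.H95T.RZa
import Pool.Agent.MP_ee8c61_ag.H95T.RZb
import Pool.Agent.MP_ee8c61_ag.H95T.RZc
import Pool.Agent.MP_ee8c61_ag.H95T.RE1
import Pool.Agent.MP_ee8c61_ag.H95T.RE2
import Pool.Agent.MP_ee8c61_ag.H95T.RE3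
import Pool.Agent.MP_ee8c61_ag.H95T.RE4
import Pool.Agent.MP_ee8c61_ag.H95T.RZ
import Pool.Agent.MP_ee8c61_ag.H95T.RTv
import Pool.Agent.MP_ee8c61_ag.H95T.RPd
import Pool.Agent.MP_ee8c61_ag.H95T.RC0
import Pool.Agent.MP_ee8c61_ag.H95T.RB1
import Pool.Agent.MP_ee8c61_ag.H95T.RIv
import Pool.Agent.MP_ee8c61_ag.H95T.RGn
import Pool.Agent.MP_ee8c61_ag.H95T.RMo
import Pool.Agent.MP_ee8c61_ag.H95T.RJ0
import Pool.Agent.MP_ee8c61_ag.H95T.RJa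
import Pool.Agent.MP_ee8c61_ag.H95T.RTl
import Pool.Agent.MP_ee8c61_ag.H95T.RRd
import Pool.Agent.MP_ee8c61_ag.H95T.RLv
import Pool.Agent.MP_ee8c61_ag.H95T.RCn
import Pool.Agent.MP_ee8c61_ag.H95T.RAf
import Pool.Agent.MP_ee8c61_ag.H95T.RIe
import Pool.Agent.MP_ee8c61_ag.H95T.RNe
import Pool.Agent.MP_ee8c61_ag.H95T.RCt
import Pool.Agent.MP_ee8c61_ag.H95T.RSt
import Pool.Agent.MP_ee8c61_ag.H95T.RXs
import Pool.Agent.MP_ee8c61_ag.H95T.RKy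
import Pool.Agent.MP_ee8c61_ag.H95T.RUq
import Pool.Agent.MP_ee8c61_ag.H95T.RH1
import Pool.Agent.MP_ee8c61_ag.H95T.RHz
import Pool.Agent.MP_ee8c61_ag.H95T.RF0
import Pool.Agent.MP_ee8c61_ag.H95T.RFm
import Pool.Agent.MP_ee8c61_ag.H95T.RFz
import Pool.Agent.MP_ee8c61_ag.H95T.REt
import Pool.Agent.MP_ee8c61_ag.H95T.RId
import Pool.Agent.MP_ee8c61_ag.H95T.RC1
import Pool.Agent.MP_ee8c61_ag.H95T.RC2
import Pool.Agent.MP_ee8c61_ag.H95T.RE0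
import Pool.Agent.MP_ee8c61_ag.H95T.RRh
import Pool.Agent.MP_ee8c61_ag.H95T.RSy
import Pool.Agent.MP_ee8c61_ag.H95T.RVl
import Pool.Agent.MP_ee8c61_ag.H95T.RPl
import Pool.Agent.MP_ee8c61_ag.H95T.RAd
import Pool.Agent.MP_ee8c61_ag.H95T.RMk
import Pool.Agent.MP_ee8c61_ag.H95T.RHa
import Pool.Agent.MP_ee8c61_ag.H95T.RXi
import Pool.Agent.MP_ee8c61_ag.H95T.RGp
import Pool.Agent.MP_ee8c61_ag.H95T.RNo
import Pool.Agent.MP_ee8c61_ag.H95T.RRt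

/-! All steps together. -/

namespace Pool.Agent.MP_ee8c61_ag.H95T

theorem erows : ERows :=
  ⟨rowEx, rowMv, rowMu, rowLw, rowDc, rowPr, rowLt, rowKX, rowTr, rowPs, rowPv, rowSc, rowVn,
    rowM0, rowMF⟩

theorem crows : CRows :=
  ⟨rowGd, rowBl, rowRg, rowCb, rowCl, rowZd, rowZa, rowZb, rowZc, rowE1, rowE2, rowE3, rowE4,
    rowZ, rowTv, rowPd, rowC0⟩

theorem arows : ARows :=
  ⟨rowB1, rowIv, rowGn, rowMo, rowJ0, rowJa, rowTl, rowRd, rowLv, rowCn, rowAf, rowIe, rowNe,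
    rowCt, rowSt, rowXs, rowKy, rowUq, rowH1, rowHz, rowF0, rowFm, rowFz, rowEt, rowId, rowC1,
    rowC2, rowE0, rowRh, rowSy, rowVl, rowPl, rowAd, rowMk, rowHa, rowXi, rowGp, rowNo, rowRt⟩

theorem shz : SHz := arows.hz crows

theorem srt : SRt :=
  arows.rt crows (smf_of erows (ek_of H59.rows H59.rowSpread)) H95G.rowEXT
    (H95G.rowBS (H95G.rowBS2 H95G.rowPHI))

end Pool.Agent.MP_ee8c61_ag.H95T
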