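import Pool.Agent.MP_ee8c61_ag.H95T.ESpec
import Pool.Agent.MP_ee8c61_ag.H59.RMult

/-! The scalar double complex. -/

namespace Pool.Agent.MP_ee8c61_ag.H95T

open H59 H59.Sys Finset

namespace DcX

variable {ι J : Type} {lb : ι → J → Prop}

/-- The pair lies on a living stratum. -/
def Zz (lb : ι → J → Prop) (τ : Finset J) (σ : Finset ι) : Prop :=
  Al lb τ ∧ ∀ c ∈ σ, ∀ i ∈ τ, lb c i

theorem Zz.mono {τ τ' : Finset J} {σ σ' : Finset ι} (h : Zz lb τ σ) (h1 : τ' ⊆ τ) (h2 : σ' ⊆ σ) :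
    Zz lb τ' σ' :=
  ⟨h.1.imp fun _ a i hi => a i (h1 hi), fun c hc i hi => h.2 c (h2 hc) i (h1 hi)⟩

/-- Homogeneous cochains that vanish where `P` holds. -/
def Np (P : Finset ι → Prop) : Lat (Ch ι ℂ) := fun j =>
  { carrier := {γ | ∀ σ, P σ ∨ j ≠ σ.card → γ σ = 0}
    add_mem' := fun h h' σ a => by rw [Pi.add_apply, h σ a, h' σ a, add_zero]
    zero_mem' := fun _ _ => rfl
    neg_mem' := fun h σ a => by rw [Pi.neg_apply, h σ a, neg_zero] }

theorem Np_le {P Q : Finset ι → Prop} (h : ∀ σ, Q σ → P σ) : Np P ≤ Np Q :=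
  fun _ _ a σ b => a σ (b.imp_left (h σ))

variable [Fintype ι] [LinearOrder ι] (c : Car ι ℂ)

include c

theorem d_apply (γ : Ch ι ℂ) (σ : Finset ι) :
    cech 0 γ σ = ∑ a ∈ σ, sgn a σ • γ (σ.erase a) := by
  rw [cech, c.kos_apply]
  simp

theorem st {P : Finset ι → Prop} (h : ∀ σ a, P σ → P (σ.erase a)) (j : ℤ) :
    ∀ x ∈ Np P j, cech 0 x ∈ Np P (j + 1) := fun x hx σ b => by
  rw [d_apply c]
  refine sum_eq_zero fun a ha => ?_
  rw [hx _ (b.imp (h σ a) fun e f => e (by rw [f, ← card_erase_add_one ha]; simp)), smul_zero]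

theorem pair {P Q : Finset ι → Prop} (h : ∀ σ a, P σ → P (σ.erase a))
    (h' : ∀ σ a, Q σ → Q (σ.erase a)) (e : ∀ σ, P σ → Q σ) : Pair (cech 0) (Np P) (Np Q) :=
  ⟨c.kos_sq _ _ _ (mul_zero _) (fun _ _ => Commute.one_left _) fun _ _ _ _ => Commute.one_left _,
    Np_le e, st c h, st c h'⟩

omit c [Fintype ι] in
theorem io_mem {P : Finset ι → Prop} {a : ι} (h : ∀ σ, P σ → P (insert a σ)) {j : ℤ} {x : Ch ι ℂ}
    (hx : x ∈ Np P (j + 1)) : io a x ∈ Np P j := fun σ b => by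
  rw [io_apply]
  split_ifs with ha
  · rfl
  · rw [hx _ (b.imp (h σ) fun e f => e (by
      rw [card_insert_of_notMem ha] at f
      simpa using f)), smul_zero]

theorem van {P : Finset ι → Prop} {a : ι} (h : ∀ σ, P σ → P (insert a σ)) (j : ℤ) :
    Van (cech 0) (Np fun _ => False) (Np P) j := fun x hx hd => by
  refine ⟨io a x, io_mem (fun _ => id) (by rwa [sub_add_cancel]), ?_⟩
  have e : cech 0 (io a x) + io a (cech 0 x) = x := by
    have := c.kos_io 0 (fun _ => 1) univ a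
    rw [if_pos (mem_univ a)] at this
    exact DFunLike.congr_fun this x
  rw [sub_eq_of_eq_add' e.symm]
  exact io_mem h hd

end DcX

open DcX

theorem rowDc : OfDc := by
  intro e ι J _ _ _ _ lb W B k z v h1 h2 h3 h4 h5
  classical
  have c := e.car ι ℂ
  have cJ := e.car J (Ch ι ℂ)
  let I : Finset J → Prop := fun τ => τ = ∅ ∨ ∃ V ∈ B, τ ⊆ V
  have er : ∀ τ σ a, Zz lb τ σ → Zz lb τ (σ.erase a) := fun τ σ a h =>
    h.mono Subset.rfl (erase_subset _ _)
  have ok : KOK (cech 0) (fun _ => 1) W (fun τ => Np fun σ => I τ ∧ Zz lb τ σ)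
      fun τ => Np (Zz lb τ) := MultX.kok
    (fun τ => pair c (fun σ a h => ⟨h.1, er τ σ a h.2⟩) (er τ) fun _ => And.right)
    (fun i _ τ _ => Np_le fun σ h => ⟨h.1.elim (fun a => (insert_ne_empty _ _ a).elim) fun a =>
      .inr (a.imp fun _ b => ⟨b.1, (subset_insert _ _).trans b.2⟩),
      h.2.mono (subset_insert _ _) Subset.rfl⟩)
    fun i _ τ _ => Np_le fun σ h => h.mono (subset_insert _ _) Subset.rfl
  have hv := (e.filt J (Ch ι ℂ)).van _ _ W _ _ (k + 1 : ℕ) ok fun τ _ => by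
    by_cases a : I τ
    · simpa only [a, true_and] using MultX.van_self _ _ _
    by_cases b : Al lb τ
    · obtain ⟨c0, b⟩ := b
      simpa only [a, false_and] using van c (a := c0) (P := Zz lb τ)
        (fun σ h => ⟨h.1, forall_mem_insert c0 σ _ |>.2 ⟨b, h.2⟩⟩) _
    · have : Zz lb τ = fun _ => False := funext fun σ => eq_false fun h => b h.1
      simpa only [this, and_false] using MultX.van_self _ _ _
  let y : Ch J (Ch ι ℂ) := fun τ σ => if τ ⊆ W ∧ τ.card = k + 1 ∧ σ = ∅ then v τ else 0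
  have z0 : ∀ τ, z τ ∅ = 0 := fun τ => by_contra fun a => not_nonempty_empty (h3 _ _ a).2.2.1
  have z1 : z ∅ = 0 := funext fun σ => by_contra fun a => not_nonempty_empty (h3 _ _ a).2.1
  have hx : z - (-1 : ℤ) ^ (k + 1) • y ∈
      kl W (fun τ => Np fun σ => I τ ∧ Zz lb τ σ) (k + 1 : ℕ) := by
    refine (mem_kl _ _ _ _).2 fun τ => ⟨fun hτ σ a => ?_, fun hτ => funext fun σ => ?_⟩
    · have a1 : z τ σ = 0 := by
        rcases a with ⟨rfl | ⟨V, a, b⟩, d⟩ | a
        · rw [z1, Pi.zero_apply]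
        · exact h4 V a τ b σ d.2
        · exact by_contra fun b => a (by rw [← (h3 _ _ b).2.2.2]; simp)
      have a2 : y τ σ = 0 := if_neg fun b => by
        rcases a with ⟨rfl | ⟨V, a, b'⟩, d⟩ | a
        · simp at b
        · have := h2 V a τ b' d.1
          omega
        · exact a (by simp [b.2.1, b.2.2])
      simp [a1, a2]
    · have a1 : z τ σ = 0 := by_contra fun b => hτ (h3 _ _ b).1
      simp [a1, y, hτ]
  have ky : ∀ τ ⊆ W, Al lb τ → ∀ σ, ks (cech 0) W y τ σ =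
      (-1 : ℤ) ^ (k + 1) • if τ.card = k + 1 ∧ σ.card = 1 then v τ else 0 := fun τ hτ a σ => by
    have b := h1 τ hτ a
    rw [cJ.kos_apply, Pi.add_apply, Finset.sum_apply, sum_eq_zero fun i hi => by
      have := card_erase_add_one (mem_inter.1 hi).2
      rw [Pi.smul_apply, op_one, show y (τ.erase i) σ = 0 from if_neg (by omega), smul_zero],
      add_zero, Pi.smul_apply, d_apply c]
    split_ifs with d
    · obtain ⟨a, rfl⟩ := card_eq_one.1 d.2
      simp [y, hτ, d.1, sgn, filter_singleton]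
    · rw [sum_eq_zero fun a ha => ?_, smul_zero, smul_zero]
      have := card_erase_add_one ha
      rw [show y τ (σ.erase a) = 0 from if_neg fun f => d ⟨f.2.1, by rw [← this, f.2.2]; rfl⟩,
        smul_zero]
  obtain ⟨Y, hY, hr⟩ := hv _ hx ((mem_kl _ _ _ _).2 fun τ => by
    have m := (mem_kl _ _ _ _).1 (((e.cone J _).pair _ _ _ _ _ ok).st _ _ hx) τ
    refine ⟨fun hτ σ a => a.elim (fun a => ?_) fun a => m.1 hτ σ (.inr a), m.2⟩
    rw [map_sub, map_zsmul, Pi.sub_apply, Pi.sub_apply, Pi.smul_apply, Pi.smul_apply,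
      ky τ hτ a.1, smul_smul, ← mul_pow, neg_mul_neg, one_mul, one_pow, one_smul, sub_eq_zero]
    rcases τ.eq_empty_or_nonempty with rfl | t
    · simp [cJ.kos_apply, z1]
    rcases σ.eq_empty_or_nonempty with rfl | s
    · simp [cJ.kos_apply, d_apply c, z0]
    exact h5 τ hτ t σ s a.2)
  rw [mem_kl] at hY hr
  have w0 : ∀ ρ, I ρ → Al lb ρ → Y ρ ∅ = 0 := fun ρ a b => by
    by_cases d : ρ ⊆ W
    · exact (hY ρ).1 d ∅ (.inl ⟨a, b, by simp⟩)
    · rw [(hY ρ).2 d, Pi.zero_apply]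
  refine ⟨fun ρ => (-1 : ℤ) ^ k • Y ρ ∅, ?_, fun V a ρ b d => ?_, fun τ hτ a b => ?_⟩
  · simp [w0 ∅ (.inl rfl) ⟨Classical.arbitrary ι, by simp⟩]
  · simp [w0 ρ (.inr ⟨V, a, b⟩) d]
  have r := (hr τ).1 hτ ∅ (.inl ⟨a, by simp⟩)
  simp only [Pi.sub_apply, Pi.smul_apply, cJ.kos_apply, Pi.add_apply, d_apply c, sum_empty, z0,
    smul_zero, zero_add, Finset.sum_apply, op_one, inter_eq_right.2 hτ, y, hτ, b, and_self,
    if_true, zero_sub, sub_eq_zero] at r
  simp only [smul_comm (sgn _ τ) ((-1 : ℤ) ^ k)]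
  rw [← smul_sum, ← r, ← neg_smul, smul_smul, pow_succ, mul_neg_one, neg_neg, ← mul_pow]
  simp

end Pool.Agent.MP_ee8c61_ag.H95T
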