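import Pool.Agent.MP_ee8c61_ag.H95T.ASpec

/-! Two equations of a divisor. -/

namespace Pool.Agent.MP_ee8c61_ag.H95T

open H95 Finset MvPolynomial

namespace E0X

variable {E : Type} [DecidableEq E] [Fintype E] {τ : Finset (Finset E)} {F : Finset E}

theorem ex_out (h : Chn τ) (hF : F ∉ τ) (hne : F.Nonempty) (hu : F ≠ univ) :
    ∃ i ∈ F, ∃ i' ∉ F, i' ∈ lay τ i := by
  obtain ⟨i, hi, hm⟩ := exists_max_image F (fun i => (lay τ i).card) hne
  by_contra hc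
  have e : lay τ i = F := Subset.antisymm (fun j hj => by_contra fun k => hc ⟨i, hi, j, k, hj⟩)
    fun j hj => (lay_total h j i).elim (fun e => e self_lay) fun e =>
      eq_of_subset_of_card_le e (hm j hj) ▸ self_lay
  exact (lay_cases h i).elim (fun k => hF (e ▸ k)) fun k => hu (e ▸ k)

theorem ex_in (h : Chn τ) (hF : F ∈ τ) (hne : F.Nonempty) (hu : univ ∉ τ) :
    ∃ j ∈ F, ∃ j' ∉ F, lay τ j = F ∧ lay τ j' = suc τ F := by
  obtain ⟨j, hj⟩ := exists_lay h hF hne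
  obtain ⟨j', h1, h2⟩ := exists_of_ssubset (ssub_suc h fun e : F = univ => hu (e ▸ hF))
  exact ⟨j, hj ▸ self_lay, j', h2, hj, (lay_eq_suc h hF hu).2 (mem_sdiff.2 ⟨h1, h2⟩)⟩

theorem suc_lay (h : Chn τ) (hF : F ∈ τ) {i : E} (hi : i ∉ F) : suc τ F ⊆ lay τ i := fun _ hj =>
  mem_lay.2 fun G hG k => mem_suc.1 hj G hG ((h F hF G hG).elim
    (fun e => e.ssubset_of_ne fun e' => hi (e' ▸ k)) fun e => absurd (e k) hi)

end E0X

open E0X in
theorem rowE0 : OfE0 := by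
  intro n r E K _ _ _ _ A x ℓ fs j₁ c a z D lab b z' D' lab' ha hb ca cb F
  have l0 : ∀ j, ev x (ℓ j) ≠ 0 := fun j e => c.gen.ne j (c.fk.inj (e.trans (map_zero _).symm))
  have rm : ∀ t i i', i ∈ lay t i' → ev x (ℓ i) / ev x (ℓ i') ∈ CA A x ℓ (fs j₁) t :=
    fun t i i' h => gen_mem A x ℓ _ t (A.le_VS h (c.gen.mem i))
  have sa : CA A x ℓ (fs j₁) a ≤ CA A x ℓ (fs j₁) a ⊔ CA A x ℓ (fs j₁) b := le_sup_left
  have sb : CA A x ℓ (fs j₁) b ≤ CA A x ℓ (fs j₁) a ⊔ CA A x ℓ (fs j₁) b := le_sup_right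
  by_cases hF : F ∈ b
  · have fl := hb.2 F hF
    obtain ⟨j, -, j', -, e, e'⟩ := ex_in hb.1 hF fl.1 hb.univ
    obtain ⟨i, hi, i', hi', h⟩ : ∃ i ∈ F, ∃ i' ∉ F,
        eta z lab F / (ev x (ℓ i) / ev x (ℓ i')) ∈ CA A x ℓ (fs j₁) a := by
      by_cases hF' : F ∈ a
      · obtain ⟨i, hi, i', hi', k, k'⟩ := ex_in ha.1 hF' fl.1 ha.univ
        exact ⟨i, hi, i', hi', (ca.quo F hF' i i' k k').2.1⟩
      · obtain ⟨i, hi, i', hi', k⟩ := ex_out ha.1 hF' fl.1 fun e => fl.o (e ▸ mem_univ _)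
        refine ⟨i, hi, i', hi', ?_⟩
        rw [eta, not_not.1 (mt (ca.lb F).1 hF'), Option.elim_none, one_div, inv_div]
        exact rm a i' i k
    have h1 := mul_mem (mul_mem (sa h) (sb (cb.quo F hF j j' e e').2.2))
      (sb (mul_mem (rm b i j (e ▸ hi)) (rm b j' i' (suc_lay hb.1 hF hi' (e' ▸ self_lay)))))
    convert h1 using 1
    have := l0 i
    have := l0 i'
    have := l0 j
    have := l0 j'
    rw [inv_div]
    field_simp
  · rw [eta, eta, not_not.1 (mt (cb.lb F).1 hF), Option.elim_none, div_one]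
    refine sa ?_
    cases lab F
    exacts [one_mem _, ca.zm _]

end Pool.Agent.MP_ee8c61_ag.H95T
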