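import Pool.Agent.MP_ee8c61_ag.H95T.CSpec

/-! Row `E3`: the recursion of Stokes type. -/

namespace Pool.Agent.MP_ee8c61_ag.H95T

open Finset

namespace E3X

variable {E : Type} [DecidableEq E] [Fintype E]

theorem cc_insert (ρ : Finset (Finset E)) (F H : Finset E) : cc (insert H ρ) F H = cc ρ F H := by
  rw [cc, pred_insert, suc_insert, cc]

theorem fz_sub {W V : Finset (Finset E)} {F : Finset E} (h : V ∈ fz W F) : V ⊆ W := by
  obtain ⟨p, -, rfl⟩ := mem_image.1 h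
  exact filter_subset _ _

omit [Fintype E] in
theorem chs_eq {W V : Finset (Finset E)} (h : V ⊆ W) (d : ℕ) :
    chs V d = (chs W d).filter (· ⊆ V) := by
  ext ρ
  rw [mem_filter, mem_chs, mem_chs]
  exact ⟨fun k => ⟨⟨k.1.trans h, k.2⟩, k.1⟩, fun k => ⟨k.2, k.1.2⟩⟩

omit [Fintype E] in
theorem reidx {K : Type} [AddCommMonoid K] (W : Finset (Finset E)) (d : ℕ)
    (f : Finset (Finset E) → Finset E → K) :
    ∑ τ ∈ chs W (d + 1), ∑ H ∈ τ, f (τ.erase H) H = ∑ ρ ∈ chs W d, ∑ H ∈ lk W ρ, f ρ H := by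
  rw [sum_sigma', sum_sigma']
  refine sum_bij' (fun p _ => ⟨p.1.erase p.2, p.2⟩) (fun p _ => ⟨insert p.2 p.1, p.2⟩)
    (fun p hp => ?_) (fun p hp => ?_) (fun p hp => ?_) (fun p hp => ?_) fun _ _ => rfl
  · obtain ⟨h1, h2⟩ := mem_sigma.1 hp
    obtain ⟨a, b, c⟩ := mem_chs.1 h1
    refine mem_sigma.2 ⟨mem_chs.2 ⟨(erase_subset _ _).trans a, b.mono (erase_subset _ _), ?_⟩,
      mem_filter.2 ⟨a h2, notMem_erase _ _, by rwa [insert_erase h2]⟩⟩
    rw [card_erase_of_mem h2, c, Nat.add_sub_cancel]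
  · obtain ⟨h1, h2⟩ := mem_sigma.1 hp
    obtain ⟨a, -, c⟩ := mem_chs.1 h1
    obtain ⟨a', b', c'⟩ := mem_filter.1 h2
    exact mem_sigma.2 ⟨mem_chs.2 ⟨insert_subset a' a, c', by rw [card_insert_of_notMem b', c]⟩,
      mem_insert_self _ _⟩
  · simp only [insert_erase (mem_sigma.1 hp).2]
  · simp only [erase_insert (mem_filter.1 (mem_sigma.1 hp).2).2.1]

end E3X

open E3X in
theorem rowE3 : OfE3 := by
  intro h1 h2 E _ _ K _ W d l w hW hB hl hw F hF
  have key : ∀ τ ∈ chs W (d + 1), l F * ∏ G ∈ τ, (l G)⁻¹ =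
      ∑ H ∈ τ, (cc (τ.erase H) F H : K) * ∏ G ∈ τ.erase H, (l G)⁻¹ := fun τ hτ => by
    obtain ⟨a, b, c⟩ := mem_chs.1 hτ
    have e : l F = ∑ H ∈ τ, (cc τ F H : K) * l H := by
      calc l F = ∑ j, (if j ∈ F then 1 else 0 : ℤ) * w j := by
            rw [hw F hF]
            simp
        _ = ∑ j, ∑ H ∈ τ, if j ∈ H then (cc τ F H : K) * w j else 0 :=
            sum_congr rfl fun j _ => by
              rw [← h1 E W τ hW ⟨a, b, c ▸ hB⟩ F hF j, Int.cast_sum, sum_mul, sum_filter]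
        _ = _ := by
            rw [sum_comm]
            refine sum_congr rfl fun H hH => ?_
            rw [hw H (a hH), mul_sum, ← sum_filter, filter_mem_eq_inter, univ_inter]
    rw [e, sum_mul]
    refine sum_congr rfl fun H hH => ?_
    rw [← mul_prod_erase τ _ hH, mul_assoc, mul_inv_cancel_left₀ (hl H (a hH)),
      ← cc_insert (τ.erase H), insert_erase hH]
  rw [LL, mul_sum, sum_congr rfl key,
    reidx W d fun ρ H => (cc ρ F H : K) * ∏ G ∈ ρ, (l G)⁻¹,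
    sum_congr rfl fun V hV => show LL l V d = _ by rw [LL, chs_eq (fz_sub hV), sum_filter],
    sum_comm]
  refine sum_congr rfl fun ρ hρ => ?_
  obtain ⟨a, b, c⟩ := mem_chs.1 hρ
  rw [← sum_mul, ← Int.cast_sum, h2 E W ρ hW a b (c ▸ hB) F hF, ← sum_filter, sum_const,
    nsmul_eq_mul, Int.cast_natCast]

end Pool.Agent.MP_ee8c61_ag.H95T
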