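import Pool.Agent.MP_ee8c61_ag.H95T.CSpec

/-! The greedy vector of a chain. -/

namespace Pool.Agent.MP_ee8c61_ag.H95T

open Finset

namespace GdX

variable {E : Type} [DecidableEq E] [Fintype E]

theorem greedy (P : PM E) (key : E → ℕ) (hk : Function.Injective key) :
    ∃ g : E → ℕ, (∀ S, ∑ j ∈ S, g j ≤ P.r S) ∧
      ∀ S : Finset E, (∀ i ∈ S, ∀ i', key i' < key i → i' ∈ S) → ∑ j ∈ S, g j = P.r S := by
  have hlt : ∀ (a : E) (s : Finset E), a ∉ s → (∀ x ∈ s, key x ≤ key a) →
      s ⊆ univ.filter fun i => key i < key a := fun a s ha h x hx =>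
    mem_filter.2 ⟨mem_univ _, (h x hx).lt_of_ne fun e => ha (hk e ▸ hx)⟩
  refine ⟨fun j => P.r (insert j (univ.filter fun i => key i < key j))
    - P.r (univ.filter fun i => key i < key j), fun S => ?_, fun S => ?_⟩
  · induction S using Finset.induction_on_max_value key with
    | empty => simp
    | insert a s ha h ih =>
      have h1 := hlt a s ha h
      have h2 := P.sub (insert a s) (univ.filter fun i => key i < key a)
      rw [insert_union, union_eq_right.2 h1, insert_inter_of_notMem (by simp),
        inter_eq_left.2 h1] at h2
      have h3 := P.mono (subset_insert a (univ.filter fun i => key i < key a))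
      rw [sum_insert ha]
      beta_reduce at ih ⊢
      omega
  · induction S using Finset.induction_on_max_value key with
    | empty => simp [P.r0]
    | insert a s ha h ih =>
      intro hl
      have h1 : s = univ.filter fun i => key i < key a :=
        (hlt a s ha h).antisymm fun i hi => by
          have h2 := (mem_filter.1 hi).2
          exact (mem_insert.1 (hl a (mem_insert_self _ _) i h2)).resolve_left
            fun e => h2.ne (congrArg key e)
      have h2 := ih fun i hi i' h' =>
        (mem_insert.1 (hl i (mem_insert_of_mem hi) i' h')).resolve_left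
          fun e => (h'.trans_le (h i hi)).ne (congrArg key e)
      have h3 := P.mono (subset_insert a s)
      rw [sum_insert ha, h2, ← h1]
      omega

end GdX

theorem rowGd : OfGd := by
  intro E _ _ P C hC
  have hlt : ∀ j, ((Fintype.equivFin E j : Fin _) : ℕ) < Fintype.card E := fun j => Fin.is_lt _
  obtain ⟨g, h1, h2⟩ := GdX.greedy P
    (fun j => (lay C j).card * Fintype.card E + (Fintype.equivFin E j : ℕ)) fun i j h => by
      have h3 := congrArg (· % Fintype.card E) h
      simp only [Nat.mul_add_mod_self_right, Nat.mod_eq_of_lt (hlt _)] at h3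
      exact (Fintype.equivFin E).injective (Fin.ext h3)
  refine ⟨g, h1, fun S hS => h2 S fun i hi i' h => ?_⟩
  have h3 : (lay C i').card ≤ (lay C i).card := by
    by_contra h4
    have h5 := Nat.mul_le_mul_right (Fintype.card E) (Nat.succ_le_of_lt (not_le.1 h4))
    have h6 := hlt i
    rw [Nat.succ_mul] at h5
    omega
  refine (lay_sub hS).1 (Subset.trans ?_ ((lay_sub hS).2 hi))
  rcases lay_total hC i' i with e | e
  · exact e
  · exact (eq_of_subset_of_card_le e h3).ge

end Pool.Agent.MP_ee8c61_ag.H95T
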