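import Pool.Agent.MP_ee8c61_ag.H95T.ASpec

/-! The Jacobian of a chart. -/

namespace Pool.Agent.MP_ee8c61_ag.H95T

open H95 Finset MvPolynomial

theorem rowJa : OfJa := by
  intro h0 n E _ _ A τ y aff L Λ h
  have li : LinearIndependent ℂ y := LinearIndependent.of_comp (ev aff).toLinearMap (by
    have e : ⇑(ev aff).toLinearMap ∘ y = X := h.ad.ya
    rw [e]
    exact linearIndependent_X _ _)
  have rk : ∀ F ∈ τ, A.pm.r F = (univ.filter fun q => L q ⊆ F).card := fun F hF => by
    rw [Arr.pm_r, h.ad.sp F hF, Set.image_eq_range, ← Fintype.card_subtype]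
    exact finrank_span_eq_card (li.comp (fun q : {q // L q ⊆ F} => q.1) Subtype.val_injective)
  have e := jd_ap y aff
  rw [h.ad.ya, jd_X, mul_comm] at e
  refine ⟨rk, ev (cmon L Λ) (jd aff), (IsUnit.of_mul_eq_one _ e.symm).map _, ?_⟩
  rw [jd_ap, mul_comm, h0 E n L Λ h.bij.injOn]
  congr 1
  exact prod_congr rfl fun p hp => by rw [rk _ (h.bij.mapsTo hp)]

end Pool.Agent.MP_ee8c61_ag.H95T
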