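import Pool.Agent.MP_ee8c61_ag.H95T.ASpec

/-! The orders of the spaces along a lifted arc. -/

namespace Pool.Agent.MP_ee8c61_ag.H95T

open H95 Finset MvPolynomial

theorem rowKy : OfKy := by
  intro hM hR n E _ _ A τ y aff L Λ b w P ⟨f, hf, hN⟩ ⟨⟨⟨h0, _⟩, hZ⟩, e⟩
  subst e
  have M := hM E n τ L Λ P.ch.1 P.ch.univ P.bij
  obtain ⟨R1, R2⟩ := hR n E A τ y aff L Λ P
  have m0 : ∀ j, ev w (lmon L Λ (lay τ j)) ≠ 0 := fun j h => hN (by
    have := map_dvd (ev w)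
      ((dvd_prod_of_mem (fun j => lmon L Λ (lay τ j)) (mem_univ j)).trans (R2 f hf))
    rwa [h, zero_dvd_iff, ← ev_ap] at this)
  have d1 : ∀ j, ∀ v ∈ A.V j, ev w (lmon L Λ (lay τ j)) ∣ ev (ap (ap aff (cmon L Λ)) w) v :=
    fun j v hv => by
      obtain ⟨u, h, -⟩ := R1 j v (A.le_VS self_lay hv)
      rw [ev_ap, h, map_mul]
      exact dvd_mul_right _ _
  have d2 : ∀ j, ∃ v ∈ A.V j, ev (ap (ap aff (cmon L Λ)) w) v ∣ ev w (lmon L Λ (lay τ j)) :=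
    fun j => by
      obtain ⟨v, h1⟩ := not_forall.1 (hZ j)
      obtain ⟨hv, h1⟩ := Classical.not_imp.1 h1
      obtain ⟨u, h, h2⟩ := R1 j v (A.le_VS self_lay hv)
      refine ⟨v, hv, ?_⟩
      rw [ev_ap, h, map_mul]
      refine (IsUnit.mul_right_dvd (PowerSeries.isUnit_iff_constantCoeff.2 ?_)).2 dvd_rfl
      rw [bs_ev, h2 _ h0]
      exact Ne.isUnit h1
  refine ⟨fun p hp h => ?_, fun i j => ⟨fun h => by_contra fun c => ?_, fun h v hv => ?_⟩⟩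
  · obtain ⟨j, hj⟩ := exists_lay P.ch.1 (P.bij.mapsTo hp) (P.ch.2 _ (P.bij.mapsTo hp)).1
    refine m0 j ?_
    rw [hj, M.suc p hp, map_mul, aeval_X, h, zero_mul]
  · obtain ⟨v, hv, h1⟩ := d2 j
    obtain ⟨v', hv', h2⟩ := h v hv
    obtain ⟨p, hp, e⟩ := P.bij.surjOn
      ((lay_cases P.ch.1 i).resolve_right fun e => c (e ▸ subset_univ _))
    have h3 := map_dvd (ev w) (M.step p hp (lay τ j)
      (e ▸ ⟨(lay_total P.ch.1 i j).resolve_right c, c⟩))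
    rw [e, map_mul, aeval_X] at h3
    have h4 := h3.trans ((d1 i v' hv').trans (h2.trans h1))
    have h5 : w p ∣ 1 := (mul_dvd_mul_iff_right (m0 j)).1 (by rwa [one_mul])
    exact (PowerSeries.isUnit_iff_constantCoeff.1 (isUnit_of_dvd_one h5)).ne_zero (h0 p hp)
  · obtain ⟨v', hv', h1⟩ := d2 i
    exact ⟨v', hv', h1.trans ((map_dvd (ev w) (M.dvd _ _ h)).trans (d1 j v hv))⟩

end Pool.Agent.MP_ee8c61_ag.H95T
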