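import Pool.Agent.MP_ee8c61_ag.H95T.ASpec

/-! The divisibility property of the polynomial of an arrangement. -/

namespace Pool.Agent.MP_ee8c61_ag.H95T

open H95 Finset MvPolynomial

namespace RtX

variable {E : Type}

/-- The faces of the cone of `W`. -/
def Fc (W V : Finset (Finset E)) : Prop :=
  ∃ ψ : E → ℤ, (∀ F ∈ W, 0 ≤ ∑ j ∈ F, ψ j) ∧ ∀ F, F ∈ V ↔ F ∈ W ∧ ∑ j ∈ F, ψ j = 0

variable {W V V' V'' : Finset (Finset E)}

theorem fc_top : Fc W W := ⟨0, by simp, by simp⟩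

theorem fc_empty (h : ∅ ∉ W) : Fc W ∅ :=
  ⟨1, by simp, fun F => by
    simp only [notMem_empty, Pi.one_apply, sum_const, nsmul_eq_mul, mul_one, Nat.cast_eq_zero,
      card_eq_zero, false_iff]
    rintro ⟨a, rfl⟩
    exact h a⟩

theorem fc_inter (h : Fc W V) (h' : Fc W V') (e : ∀ i, i ∈ V'' ↔ i ∈ V ∧ i ∈ V') : Fc W V'' := by
  obtain ⟨ψ, a, b⟩ := h
  obtain ⟨ψ', a', b'⟩ := h'
  refine ⟨ψ + ψ', fun F hF => ?_, fun F => ?_⟩ <;> simp only [Pi.add_apply, sum_add_distrib]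
  · exact add_nonneg (a F hF) (a' F hF)
  · rw [e, b, b']
    refine ⟨fun c => ⟨c.1.1, by rw [c.1.2, c.2.2, add_zero]⟩, fun c => ?_⟩
    have := (add_eq_zero_iff_of_nonneg (a F c.1) (a' F c.1)).1 c.2
    exact ⟨⟨c.1, this.1⟩, c.1, this.2⟩

theorem fc_bd [DecidableEq E] [Fintype E] (h : V ∈ fcs W) : Fc W V := by
  obtain ⟨⟨j, j'⟩, hp, rfl⟩ := mem_image.1 h
  have hp := (mem_filter.1 hp).2.1
  have e : ∀ F : Finset E, ∑ i ∈ F, (Pi.single j 1 - Pi.single j' 1 : E → ℤ) i =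
      (if j ∈ F then 1 else 0) - if j' ∈ F then 1 else 0 := fun F => by
    simp only [Pi.sub_apply, sum_sub_distrib, Pi.single_apply, sum_ite_eq']
  refine ⟨Pi.single j 1 - Pi.single j' 1, fun F hF => ?_, fun F => ?_⟩ <;> rw [e]
  · have := hp F hF
    by_cases a : j ∈ F <;> by_cases b : j' ∈ F <;> simp_all
  · rw [fc, mem_filter]
    by_cases a : j ∈ F <;> by_cases b : j' ∈ F <;> simp [a, b]

theorem non {n : ℕ} {K : Type} [Field K] [Algebra ℂ K] [DecidableEq E] [Fintype E] {A : Arr n E}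
    {x : Fin n → K} {ℓ : E → Pol (Fin n)} {f : Pol (Fin n)} {S : H59.Sys ℂ K (Io A) (Finset E) n}
    {M : Submodule ℂ K} (hS : Fit A x ℓ f S) (hM : Non A x ℓ f W M) : (1 : K) ∉ NS S W := by
  refine fun h => hM.one (Submodule.span_le.2 ?_ h)
  rintro _ ⟨σ, c, F, h', hc, hF, hl, hh, rfl⟩
  have k : ∀ a ∈ σ, S.A a ≤ ⨆ τ : {τ : Finset (Finset E) // F ∈ τ}, CA A x ℓ f τ := fun a ha => by
    rw [hS.A_eq]
    exact le_iSup (fun τ : {τ : Finset (Finset E) // F ∈ τ} => CA A x ℓ f τ)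
      ⟨a.1, (hS.lb a F).1 (hl a ha)⟩
  obtain ⟨j, hj, j', hj', u, hu, e⟩ := hS.quo c F ((hS.lb c F).1 (hl c hc))
  rw [e, mul_assoc]
  exact hM.mem F hF j hj j' hj' _ (mul_mem (k c hc hu) (iSup₂_le k hh))

end RtX

theorem rowRt : OfRt := by
  intro hMF hCb hGn hF0 hId hSy hAd hMk hNo n E _ _ A r fs b hI hb W τ k la hW hτ hk hla
  classical
  obtain ⟨ℓ, hℓ⟩ := hGn n E A
  have hx := hF0 n
  generalize (fun l : Fin n => algebraMap (Pol (Fin n)) (FractionRing (Pol (Fin n))) (X l)) = x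
    at hx
  obtain ⟨t, D, ht⟩ := id hW
  obtain ⟨j₁, hj, M, hM⟩ := hNo n E A r _ x ℓ fs W hx hℓ hI ht.rng ht.fl
  have hC : Ctx A x ℓ fs j₁ := ⟨hx, hℓ, hI, hj⟩
  obtain ⟨S, hS⟩ := hSy n r E _ A x ℓ fs j₁ hC
  obtain ⟨-, q, hq⟩ := hId n r E _ A x ℓ fs j₁ hC
  obtain ⟨jj, hjj⟩ := hCb E (Io A) (Lb S) W τ k ht.rng (fun ρ hρ =>
    ⟨fun ⟨c, hc⟩ => c.2.1.mono fun F hF => (hS.lb c F).1 (hc F hF), fun h =>
      ⟨⟨ρ, h, fun F hF => ht.fl F (hρ hF)⟩, fun F hF => (hS.lb _ F).2 hF⟩⟩) hτ hk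
  have ne : ∀ p : Pol (Fin n), p ≠ 0 → ev x p ≠ 0 := fun p hp e =>
    hp (hx.inj (e.trans (map_zero _).symm))
  let _ : Fintype (Io A) := Fintype.ofFinite _
  have : Nonempty (Io A) := ⟨⟨∅, by simp [Chn], by simp⟩⟩
  have hK := hMk n r E _ A x ℓ fs j₁ hC S hS b (Units.mk0 _ (ne _ hj)) hb rfl
  have ad : ∀ V, RtX.Fc W V → S.Adm (Matrix.vecCons (sv x ℓ (fs j₁)) (xs x fs j₁))
      ((fun F => (A.pm.r F : ℤ)) + H59.Sys.ind V) := fun V ⟨ψ, a, b⟩ =>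
    hAd n r E _ A x ℓ fs j₁ hC S hS W V ψ hW a b
  refine hMF _ (Io A) (Finset E) n (n + r) k S (xs x fs j₁) _ card (fun F => A.pm.r F - 1) b la
    (fun F => (A.pm.r F : ℤ)) W (fcs W) (RtX.Fc W) q (sv x ℓ (fs j₁))
    (Matrix.vecCons (Units.mk0 _ (ne _ hj)) fun l => Units.mk0 _ (ne _ (hℓ.ne (jj l)))) (uu jj) hK
    ⟨fun F => by omega, fun F h => ?_, fun c F h => ?_, fun F hF => ⟨?_, ?_⟩, hq, ?_,
      fun V hV => ⟨?_, ad V hV⟩, RtX.fc_top, fun _ _ _ => RtX.fc_inter, fun _ => RtX.fc_bd,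
      fun l c => ?_, fun _ _ => rfl, hjj, RtX.non hS hM⟩
  · rw [card_eq_zero.1 h, A.pm.r0]; rfl
  · have := A.pm.r_pos (c.2.2 F ((hS.lb c F).1 h)).1
    omega
  · exact card_ne_zero.2 (ht.fl F hF).1
  · rw [Int.cast_natCast, hla F hF]
  · have := ad ∅ (RtX.fc_empty ht.rng.ne)
    rwa [show H59.Sys.ind (∅ : Finset (Finset E)) = 0 from funext fun F => by
      simp [H59.Sys.ind_apply], add_zero] at this
  · obtain ⟨ψ, -, h⟩ := hV
    exact fun F hF => ((h F).1 hF).1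
  · refine Fin.cases (hK.f_ord c) (fun l => ?_) l
    exact hS.ell c (jj l) _ rfl

end Pool.Agent.MP_ee8c61_ag.H95T
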